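import Pool.Agent.H14.BN.Wt

/-!
# The integrand of the central value

* `gth_integrable`: for `t ≥ 1` the norm is at most `K / (exp (2 π t / R) - 1)` (`norm_Tht_le`), of
  exponential decay; for `t ≤ 1`, `hT.fe` at `1 / t` gives
  `‖Tht t‖ = (1/t) ‖Tht (1/t)‖ ≤ (1/t) K / (exp (2 π / (R t)) - 1) ≤ K R / (2 π)`
  (`exp x - 1 ≥ x`), so `gth = O(t^(-1/2))`.
* `gth_fe`: `t^(-2) (1/t)^(-1/2) Tht (1/t) = t^(-3/2) ω t conj (Tht t)`; compare `gth_fe` of
  `H14/PT/Afe.lean`.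
-/

namespace Pool.Agent.H14.BN

open Finset MeasureTheory
open Pool.Agent.H14.PT (mu0)
open scoped ComplexConjugate Real

universe u

variable {s : ℕ →*₀ ℕ} {κ K : ℝ} {W : Type u} [CommGroupWithZero W]

/-- the integrand of `Lint` -/
noncomputable def gth (s : ℕ →*₀ ℕ) (cl : ℕ →*₀ W) (R : ℝ) (χ : MulChar W ℂ) (t : ℝ) : ℂ :=
  ((t ^ (-(1 / 2) : ℝ) : ℝ) : ℂ) * Tht s cl R χ t

lemma Lint_eq (cl : ℕ →*₀ W) (R : ℝ) (χ : MulChar W ℂ) :
    Lint s cl R χ = ∫ t, gth s cl R χ t ∂mu0 := rfl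

/-- the normalised central value -/
noncomputable def Lv (s : ℕ →*₀ ℕ) (cl : ℕ →*₀ W) (R : ℝ) (χ : MulChar W ℂ) : ℂ :=
  Lint s cl R χ / ((√(R / 2) : ℝ) : ℂ)

theorem gth_integrable [Finite W] (hS : Sys s κ K) {cl : ℕ →*₀ W} {Q : ℕ} {R m : ℝ}
    {Bad : Finset (MulChar W ℂ)} (hT : Td s K cl Q R m Bad) {χ : MulChar W ℂ} (hχ : χ ∉ Bad) :
    Integrable (gth s cl R χ) mu0 := by
  have hR := hT.R_pos
  obtain ⟨ω, hω, hfe⟩ := hT.fe χ hχ
  have hK : 0 < K := lt_of_lt_of_le one_pos hS.K_one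
  obtain ⟨a, ha⟩ : ∃ a : ℝ, a = 2 * π / R := ⟨_, rfl⟩
  have ha0 : 0 < a := by rw [ha]; positivity
  have hm : AEStronglyMeasurable (gth s cl R χ) mu0 := by
    unfold gth
    refine AEStronglyMeasurable.mul ?_ (aesm_Tht hS cl hR χ)
    exact (Complex.measurable_ofReal.comp (measurable_id.pow_const _)).aestronglyMeasurable
  have hbd : ∀ t : ℝ, 0 < t → ‖Tht s cl R χ t‖ ≤ K / (Real.exp (a * t) - 1) := by
    intro t ht
    have h := norm_Tht_le hS cl hR χ ht
    rwa [show 2 * π * t / R = a * t by rw [ha]; ring] at h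
  have hsmall : ∀ t : ℝ, 0 < t → ‖Tht s cl R χ t‖ ≤ K / a := by
    intro t ht
    have h1 := hfe (1 / t) (by positivity)
    rw [one_div_one_div] at h1
    have h2 := hbd (1 / t) (by positivity)
    have h3 : a * (1 / t) ≤ Real.exp (a * (1 / t)) - 1 := by
      have := Real.add_one_le_exp (a * (1 / t))
      linarith
    have h4 : 0 < a * (1 / t) := by positivity
    rw [h1, norm_mul, norm_mul, hω, one_mul, RCLike.norm_conj, Complex.norm_real,
      Real.norm_of_nonneg (by positivity)]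
    calc 1 / t * ‖Tht s cl R χ (1 / t)‖ ≤ 1 / t * (K / (a * (1 / t))) := by
          refine mul_le_mul_of_nonneg_left (h2.trans ?_) (by positivity)
          exact div_le_div_of_nonneg_left hK.le h4 h3
      _ = K / a := by field_simp
  have hlarge : ∀ t : ℝ, 1 ≤ t → ‖Tht s cl R χ t‖ ≤ K / (1 - Real.exp (-a)) * Real.exp (-a * t) := by
    intro t ht
    have h1 : Real.exp (-a) < 1 := by rw [Real.exp_lt_one_iff]; linarith
    have h2 : (1 - Real.exp (-a)) * Real.exp (a * t) ≤ Real.exp (a * t) - 1 := by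
      have h3 : 1 ≤ Real.exp (-a) * Real.exp (a * t) := by
        rw [← Real.exp_add]
        apply Real.one_le_exp
        nlinarith
      linarith
    refine (hbd t (by linarith)).trans ?_
    have h4 : 0 < (1 - Real.exp (-a)) * Real.exp (a * t) := by
      have := Real.exp_pos (a * t)
      have h5 : 0 < 1 - Real.exp (-a) := by linarith
      positivity
    refine (div_le_div_of_nonneg_left hK.le h4 h2).trans (le_of_eq ?_)
    rw [neg_mul, Real.exp_neg (a * t)]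
    field_simp
  have e0 : mu0 = volume.restrict (Set.Ioi (0 : ℝ)) := rfl
  have hsp : Set.Ioi (0 : ℝ) = Set.Ioc 0 1 ∪ Set.Ioi 1 :=
    (Set.Ioc_union_Ioi_eq_Ioi zero_le_one).symm
  have h1 : IntegrableOn (gth s cl R χ) (Set.Ioc 0 1) := by
    have hi : IntegrableOn (fun t : ℝ => K / a * t ^ (-(1 / 2) : ℝ)) (Set.Ioc 0 1) := by
      have := (intervalIntegral.intervalIntegrable_rpow' (a := 0) (b := 1)
        (r := (-(1 / 2) : ℝ)) (by norm_num)).const_mul (K / a)
      rwa [intervalIntegrable_iff_integrableOn_Ioc_of_le zero_le_one] at this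
    refine Integrable.mono' hi ?_ ?_
    · refine hm.mono_measure ?_
      rw [e0]
      exact Measure.restrict_mono Set.Ioc_subset_Ioi_self le_rfl
    · refine (ae_restrict_iff' measurableSet_Ioc).mpr (Filter.Eventually.of_forall fun t ht => ?_)
      unfold gth
      rw [norm_mul, Complex.norm_real, Real.norm_of_nonneg (Real.rpow_nonneg ht.1.le _), mul_comm]
      exact mul_le_mul_of_nonneg_right (hsmall t ht.1) (Real.rpow_nonneg ht.1.le _)
  have h2 : IntegrableOn (gth s cl R χ) (Set.Ioi 1) := by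
    have hi : IntegrableOn (fun t : ℝ => K / (1 - Real.exp (-a)) * Real.exp (-a * t))
        (Set.Ioi 1) := (integrableOn_exp_mul_Ioi (by linarith : -a < 0) 1).const_mul _
    refine Integrable.mono' hi ?_ ?_
    · refine hm.mono_measure ?_
      rw [e0]
      exact Measure.restrict_mono (Set.Ioi_subset_Ioi zero_le_one) le_rfl
    · refine (ae_restrict_iff' measurableSet_Ioi).mpr (Filter.Eventually.of_forall fun t ht => ?_)
      have ht1 : (1 : ℝ) ≤ t := (Set.mem_Ioi.mp ht).le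
      have ht0 : (0 : ℝ) < t := by linarith
      unfold gth
      rw [norm_mul, Complex.norm_real, Real.norm_of_nonneg (Real.rpow_nonneg ht0.le _)]
      have h3 : t ^ (-(1 / 2) : ℝ) ≤ 1 :=
        Real.rpow_le_one_of_one_le_of_nonpos ht1 (by norm_num)
      calc t ^ (-(1 / 2) : ℝ) * ‖Tht s cl R χ t‖ ≤ 1 * ‖Tht s cl R χ t‖ :=
            mul_le_mul_of_nonneg_right h3 (norm_nonneg _)
        _ ≤ _ := by rw [one_mul]; exact hlarge t ht1
  rw [e0, hsp]
  exact h1.union h2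

theorem gth_fe {cl : ℕ →*₀ W} {Q : ℕ} {R m : ℝ}
    {Bad : Finset (MulChar W ℂ)} (hT : Td s K cl Q R m Bad) {χ : MulChar W ℂ} (hχ : χ ∉ Bad) :
    ∃ ε : ℂ, ‖ε‖ = 1 ∧ ∀ t : ℝ, 0 < t →
      ((t ^ (-2 : ℝ) : ℝ) : ℂ) * gth s cl R χ (1 / t) = ε * conj (gth s cl R χ t) := by
  obtain ⟨ω, hω, hfe⟩ := hT.fe χ hχ
  refine ⟨ω, hω, fun t ht => ?_⟩
  unfold gth
  rw [hfe t ht, map_mul, Complex.conj_ofReal]
  have e1 : (1 / t) ^ (-(1 / 2) : ℝ) = t ^ (1 / 2 : ℝ) := by
    rw [one_div, Real.inv_rpow ht.le, ← Real.rpow_neg ht.le]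
    congr 1; ring
  have e2 : t ^ (-2 : ℝ) * t ^ (1 / 2 : ℝ) * t = t ^ (-(1 / 2) : ℝ) := by
    nth_rewrite 3 [← Real.rpow_one t]
    rw [← Real.rpow_add ht, ← Real.rpow_add ht]
    congr 1; norm_num
  rw [e1, ← e2]
  push_cast
  ring

end Pool.Agent.H14.BN
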