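import Pool.Agent.H14.BN.Afe

/-!
# The approximate functional equation for the square of the central value, series form

Port of `Pool/Agent/H14/PT/Afe2.lean` with `a = 1/2`, `al R x = 2 π x / R` (`x` is the size) and the index
`n + 1` replaced by `n` of size `s n`; the terms with `n = 0` vanish as `χ (cl 0) = 0`, so that
`double_mass`, `mass_eq` are needed for positive sizes only.

`afe_series`: `norm_sq_integral` (`H14/PT/Pair.lean`) with `gth_integrable`, `gth_fe`; the constant is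
`(R / (2π)) π = R / 2 = √(R/2)²`; summability from `summable_Wt hS`.
-/

namespace Pool.Agent.H14.BN

open Finset MeasureTheory
open Pool.Agent.H14.PT (mu0 Psi gam)
open scoped ComplexConjugate Real

universe u

variable {s : ℕ →*₀ ℕ} {κ K : ℝ} {W : Type u} [CommGroupWithZero W]

/-- the function `exp (-(2 π t x / R)) t^(-1/2)` -/
noncomputable def bb (R x t : ℝ) : ℝ := Real.exp (-(2 * π * t * x / R)) * t ^ (-(1 / 2) : ℝ)

lemma bb_nonneg (R x : ℝ) {t : ℝ} (ht : 0 < t) : 0 ≤ bb R x t := by unfold bb; positivity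

private lemma bb_eq {R x : ℝ} (t : ℝ) :
    bb R x t = Real.exp (-((2 * π * x / R) * t)) * t ^ ((1 / 2 : ℝ) - 1) := by
  unfold bb
  rw [show -(2 * π * t * x / R) = -((2 * π * x / R) * t) by ring,
    show (-(1 / 2) : ℝ) = 1 / 2 - 1 by norm_num]

theorem bb_integrable {R x : ℝ} (hR : 0 < R) (hx : 0 < x) : Integrable (bb R x) mu0 := by
  have ha : 0 < 2 * π * x / R := by positivity
  have h0 := Pool.Agent.H14.PT.gamma_int (1 / 2) (by norm_num)
  have h1 : IntegrableOn (fun t : ℝ => Real.exp (-(2 * π * x / R * t)) *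
      (2 * π * x / R * t) ^ ((1 / 2 : ℝ) - 1)) (Set.Ioi 0) := by
    have := (integrableOn_Ioi_comp_mul_left_iff
      (fun x : ℝ => Real.exp (-x) * x ^ ((1 / 2 : ℝ) - 1)) 0 ha).mpr
    rw [mul_zero] at this
    exact this h0
  have h2 : IntegrableOn (fun t : ℝ => (2 * π * x / R) ^ (1 - (1 / 2 : ℝ)) *
      (Real.exp (-(2 * π * x / R * t)) * (2 * π * x / R * t) ^ ((1 / 2 : ℝ) - 1))) (Set.Ioi 0) :=
    h1.const_mul _
  refine (integrableOn_congr_fun ?_ measurableSet_Ioi).mpr h2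
  intro t ht
  have ht' : (0 : ℝ) < t := ht
  simp only
  rw [bb_eq, Real.mul_rpow ha.le ht'.le]
  have : (2 * π * x / R) ^ (1 - (1 / 2 : ℝ)) * (2 * π * x / R) ^ ((1 / 2 : ℝ) - 1) = 1 := by
    rw [← Real.rpow_add ha]; simp
  linear_combination (-(Real.exp (-(2 * π * x / R * t)) * t ^ ((1 / 2 : ℝ) - 1))) * this

/-- the mass of the double integral -/
theorem double_mass {R x y : ℝ} (hR : 0 < R) (hx : 0 < x) (hy : 0 < y) :
    ∫ p : ℝ × ℝ, {p : ℝ × ℝ | 1 < p.1 * p.2}.indicator (fun p => bb R x p.1 * bb R y p.2) p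
      ∂(mu0.prod mu0) = R / 2 * ((x * y) ^ (-(1 / 2) : ℝ) * Wt R (x * y)) := by
  have ha : 0 < 2 * π * x / R := by positivity
  have hb : 0 < 2 * π * y / R := by positivity
  have hms : MeasurableSet {p : ℝ × ℝ | 1 < p.1 * p.2} := by
    apply measurableSet_lt measurable_const (measurable_fst.mul measurable_snd)
  have hprod : Integrable (fun p : ℝ × ℝ => bb R x p.1 * bb R y p.2) (mu0.prod mu0) :=
    (bb_integrable hR hx).mul_prod (bb_integrable hR hy)
  rw [integral_prod _ (hprod.indicator hms)]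
  have h1 : ∫ t, ∫ u, {p : ℝ × ℝ | 1 < p.1 * p.2}.indicator
      (fun p => bb R x p.1 * bb R y p.2) (t, u) ∂mu0 ∂mu0
      = ∫ t, ((2 * π * y / R) ^ (-(1 / 2) : ℝ)) *
        ((Real.exp (-((2 * π * x / R) * t)) * t ^ ((1 / 2 : ℝ) - 1)) *
          gam (1 / 2) ((2 * π * y / R) * (1 / t))) ∂mu0 := by
    refine setIntegral_congr_fun measurableSet_Ioi fun t ht => ?_
    have ht' : (0 : ℝ) < t := ht
    have h2 : ∫ u, {p : ℝ × ℝ | 1 < p.1 * p.2}.indicator
        (fun p => bb R x p.1 * bb R y p.2) (t, u) ∂mu0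
        = bb R x t * ∫ u in Set.Ioi (1 / t), bb R y u := by
      rw [← integral_const_mul, ← integral_indicator (measurableSet_Ioi),
        ← integral_indicator (measurableSet_Ioi)]
      refine integral_congr_ae (Filter.Eventually.of_forall fun u => ?_)
      simp only [Set.indicator_apply]
      have hiff : (t, u) ∈ {p : ℝ × ℝ | 1 < p.1 * p.2} ↔ u ∈ Set.Ioi (1 / t) := by
        change 1 < t * u ↔ 1 / t < u
        rw [div_lt_iff₀ ht', mul_comm u t]
      by_cases h1 : u ∈ Set.Ioi (1 / t)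
      · have h0 : u ∈ Set.Ioi (0 : ℝ) := lt_trans (by positivity) (Set.mem_Ioi.mp h1)
        rw [if_pos h0, if_pos (hiff.mpr h1), if_pos h1]
      · rw [if_neg h1, if_neg (fun h => h1 (hiff.mp h))]
        split_ifs <;> rfl
    have h3 : ∫ u in Set.Ioi (1 / t), bb R y u
        = (2 * π * y / R) ^ (-(1 / 2) : ℝ) * gam (1 / 2) ((2 * π * y / R) * (1 / t)) := by
      simp_rw [bb_eq]
      exact Pool.Agent.H14.PT.inner_scale hb (by positivity)
    change ∫ u, {p : ℝ × ℝ | 1 < p.1 * p.2}.indicator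
        (fun p => bb R x p.1 * bb R y p.2) (t, u) ∂mu0 = _
    rw [h2, h3, bb_eq]
    ring
  rw [h1, integral_const_mul, Pool.Agent.H14.PT.outer_scale ha]
  unfold Wt
  have e1 : 2 * π * x / R * (2 * π * y / R) = (2 * π / R) ^ 2 * (x * y) := by ring
  have e2 : (2 * π * y / R) ^ (-(1 / 2) : ℝ) * ((2 * π * x / R) ^ (-(1 / 2) : ℝ)) =
      R / (2 * π) * (x * y) ^ (-(1 / 2) : ℝ) := by
    rw [mul_comm, ← Real.mul_rpow ha.le hb.le, e1, Real.mul_rpow (by positivity) (by positivity)]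
    congr 1
    rw [← Real.rpow_natCast, ← Real.rpow_mul (by positivity)]
    norm_num
    rw [Real.rpow_neg_one, inv_div]
  rw [e1, ← mul_assoc, e2]
  field_simp

/-- series form of the approximate functional equation -/
theorem afe_series [Finite W] (hS : Sys s κ K) {cl : ℕ →*₀ W} {Q : ℕ} {R m : ℝ}
    {Bad : Finset (MulChar W ℂ)} (hT : Td s K cl Q R m Bad) {χ : MulChar W ℂ} (hχ : χ ∉ Bad) :
    ‖Lv s cl R χ‖ ^ 2 = 2 * (∑' p : ℕ × ℕ, χ (cl p.1) * conj (χ (cl p.2)) *
      ((((s (p.1 * p.2) : ℝ)) ^ (-(1 / 2) : ℝ) * Wt R (s (p.1 * p.2) : ℝ) : ℝ) : ℂ)).re := by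
  have hR := hT.R_pos
  obtain ⟨ε, hε, hfe⟩ := gth_fe hT hχ
  have hint := gth_integrable hS hT hχ
  have h1 := Pool.Agent.H14.PT.norm_sq_integral hint hε hfe
  have hms : MeasurableSet {p : ℝ × ℝ | 1 < p.1 * p.2} := by
    apply measurableSet_lt measurable_const (measurable_fst.mul measurable_snd)
  have hz : ∀ n : ℕ, n = 0 → χ (cl n) = 0 := by
    intro n hn
    rw [hn, _root_.map_zero, chi_zero]
  set F : ℕ × ℕ → ℝ × ℝ → ℂ := fun n p => {p : ℝ × ℝ | 1 < p.1 * p.2}.indicator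
    (fun p => (χ (cl n.1) * conj (χ (cl n.2))) *
      ((bb R (s n.1) p.1 * bb R (s n.2) p.2 : ℝ) : ℂ)) p with hF
  have hF0 : ∀ n : ℕ × ℕ, n.1 = 0 ∨ n.2 = 0 → F n = 0 := by
    intro n hn
    funext p
    simp only [hF]
    have : χ (cl n.1) * conj (χ (cl n.2)) = 0 := by
      rcases hn with h | h
      · rw [hz _ h, zero_mul]
      · rw [hz _ h, _root_.map_zero, mul_zero]
    simp [this]
  have hprod : ∀ n : ℕ × ℕ, n.1 ≠ 0 → n.2 ≠ 0 →
      Integrable (fun p : ℝ × ℝ => bb R (s n.1) p.1 * bb R (s n.2) p.2)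
      (mu0.prod mu0) := fun n h1 h2 => (bb_integrable hR (hS.r_pos h1)).mul_prod
        (bb_integrable hR (hS.r_pos h2))
  have hFint : ∀ n, Integrable (F n) (mu0.prod mu0) := by
    intro n
    by_cases hn : n.1 = 0 ∨ n.2 = 0
    · rw [hF0 n hn]
      exact integrable_zero _ _ _
    · push Not at hn
      refine Integrable.indicator ?_ hms
      exact ((hprod n hn.1 hn.2).ofReal).const_mul _
  -- positivity a.e.
  have hpos : ∀ᵐ p : ℝ × ℝ ∂(mu0.prod mu0), 0 < p.1 ∧ 0 < p.2 := by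
    have hr : mu0.prod mu0 = (volume.prod volume).restrict (Set.Ioi (0 : ℝ) ×ˢ Set.Ioi (0 : ℝ)) :=
      Measure.prod_restrict _ _
    rw [hr, ae_restrict_iff' (measurableSet_Ioi.prod measurableSet_Ioi)]
    exact Filter.Eventually.of_forall fun p hp => ⟨hp.1, hp.2⟩
  have hmass : ∀ n : ℕ × ℕ, n.1 ≠ 0 → n.2 ≠ 0 → ∫ p : ℝ × ℝ, {p : ℝ × ℝ | 1 < p.1 * p.2}.indicator
      (fun p => bb R (s n.1) p.1 * bb R (s n.2) p.2) p ∂(mu0.prod mu0)
      = R / 2 * ((s (n.1 * n.2) : ℝ) ^ (-(1 / 2) : ℝ) * Wt R (s (n.1 * n.2) : ℝ)) := by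
    intro n h1 h2
    rw [double_mass hR (hS.r_pos h1) (hS.r_pos h2), s_cast_mul]
  have hFnorm : ∀ n, ∫ p, ‖F n p‖ ∂(mu0.prod mu0) ≤ R / 2 *
      ((s (n.1 * n.2) : ℝ) ^ (-(1 / 2) : ℝ) * Wt R (s (n.1 * n.2) : ℝ)) := by
    intro n
    by_cases hn : n.1 = 0 ∨ n.2 = 0
    · rw [hF0 n hn]
      simp only [Pi.zero_apply, norm_zero, integral_zero]
      have := Wt_nonneg R (show (0 : ℝ) ≤ (s (n.1 * n.2) : ℝ) by positivity)
      positivity
    push Not at hn
    rw [← hmass n hn.1 hn.2]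
    refine integral_mono_ae (hFint n).norm ((hprod n hn.1 hn.2).indicator hms) ?_
    filter_upwards [hpos] with p hp
    simp only [hF, Set.indicator_apply]
    by_cases hc : p ∈ {p : ℝ × ℝ | 1 < p.1 * p.2}
    · rw [if_pos hc, if_pos hc, norm_mul, norm_mul, Complex.norm_real, RCLike.norm_conj,
        Real.norm_of_nonneg (mul_nonneg (bb_nonneg R _ hp.1) (bb_nonneg R _ hp.2))]
      have h2 : ‖χ (cl n.1)‖ * ‖χ (cl n.2)‖ ≤ 1 := by
        calc _ ≤ (1 : ℝ) * 1 := by
              gcongr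
              · exact norm_chi_le _ _
              · exact norm_chi_le _ _
          _ = 1 := by norm_num
      exact mul_le_of_le_one_left (mul_nonneg (bb_nonneg R _ hp.1) (bb_nonneg R _ hp.2)) h2
    · rw [if_neg hc, if_neg hc, norm_zero]
  have hFsum : Summable fun n => ∫ p, ‖F n p‖ ∂(mu0.prod mu0) :=
    Summable.of_nonneg_of_le (fun n => integral_nonneg fun _ => norm_nonneg _) hFnorm
      ((summable_Wt hS hR).mul_left _)
  have h2 := hasSum_integral_of_summable_integral_norm hFint hFsum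
  have h3 : ∫ p, ∑' n, F n p ∂(mu0.prod mu0) = ∫ p : ℝ × ℝ, {p : ℝ × ℝ | 1 < p.1 * p.2}.indicator
          (fun p => gth s cl R χ p.1 * conj (gth s cl R χ p.2)) p ∂(mu0.prod mu0) := by
    refine integral_congr_ae ?_
    filter_upwards [hpos] with p hp
    simp only [hF, Set.indicator_apply]
    by_cases hc : p ∈ {p : ℝ × ℝ | 1 < p.1 * p.2}
    · simp only [if_pos hc]
      have hs : ∀ t : ℝ, 0 < t → HasSum (fun n : ℕ => χ (cl n) * (bb R (s n) t : ℂ))
          (gth s cl R χ t) := by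
        intro t ht
        have := (hasSum_Tht hS cl hR χ ht).mul_left (((t ^ (-(1 / 2) : ℝ) : ℝ) : ℂ))
        refine this.congr_fun fun n => ?_
        unfold bb
        push_cast
        ring
      have hs1 := hs p.1 hp.1
      have hs2 : HasSum (fun n : ℕ => conj (χ (cl n)) * (bb R (s n) p.2 : ℂ))
          (conj (gth s cl R χ p.2)) := by
        have := (hs p.2 hp.2).map (starRingEnd ℂ) Complex.continuous_conj
        refine this.congr_fun fun n => ?_
        simp
      have hn1 : Summable (fun n : ℕ => ‖χ (cl n) * (bb R (s n) p.1 : ℂ)‖) := hs1.summable.norm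
      have hn2 : Summable (fun n : ℕ => ‖conj (χ (cl n)) * (bb R (s n) p.2 : ℂ)‖) :=
        hs2.summable.norm
      have h4 := tsum_mul_tsum_of_summable_norm hn1 hn2
      rw [hs1.tsum_eq, hs2.tsum_eq] at h4
      rw [h4]
      refine tsum_congr fun n => ?_
      push_cast
      ring
    · simp only [if_neg hc, tsum_zero]
  rw [h3] at h2
  have h5 : ∀ n, ∫ p, F n p ∂(mu0.prod mu0) = ((R / 2 : ℝ) : ℂ) *
      (χ (cl n.1) * conj (χ (cl n.2)) *
      ((((s (n.1 * n.2) : ℝ)) ^ (-(1 / 2) : ℝ) * Wt R (s (n.1 * n.2) : ℝ) : ℝ) : ℂ)) := by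
    intro n
    by_cases hn : n.1 = 0 ∨ n.2 = 0
    · rw [hF0 n hn]
      have : χ (cl n.1) * conj (χ (cl n.2)) = 0 := by
        rcases hn with h | h
        · rw [hz _ h, zero_mul]
        · rw [hz _ h, _root_.map_zero, mul_zero]
      simp [this]
    push Not at hn
    have e1 : ∀ p : ℝ × ℝ, F n p = (χ (cl n.1) * conj (χ (cl n.2))) *
        ((({p : ℝ × ℝ | 1 < p.1 * p.2}.indicator
          (fun p => bb R (s n.1) p.1 * bb R (s n.2) p.2) p : ℝ)) : ℂ) := by
      intro p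
      simp only [hF, Set.indicator_apply]
      split_ifs
      · rfl
      · simp
    simp_rw [e1]
    rw [integral_const_mul, integral_complex_ofReal, hmass n hn.1 hn.2]
    push_cast
    ring
  simp_rw [h5] at h2
  have h6 := h2.tsum_eq
  rw [tsum_mul_left] at h6
  rw [← h6, Complex.re_ofReal_mul] at h1
  have h7 : ‖Lint s cl R χ‖ ^ 2 = 2 * (R / 2 * (∑' p : ℕ × ℕ, χ (cl p.1) * conj (χ (cl p.2)) *
      ((((s (p.1 * p.2) : ℝ)) ^ (-(1 / 2) : ℝ) * Wt R (s (p.1 * p.2) : ℝ) : ℝ) : ℂ)).re) := h1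
  unfold Lv
  rw [norm_div, div_pow, h7, Complex.norm_real, Real.norm_of_nonneg (Real.sqrt_nonneg _),
    Real.sq_sqrt (by positivity)]
  field_simp

end Pool.Agent.H14.BN
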