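import Pool.Agent.H14.BN.Tau
import Pool.Agent.H14.PT.DN2

/-!
# Quadruples and the contribution of a reduced fraction, sized numbers

Port of the corresponding parts of `Pool/Agent/H14/PT/Afe3.lean` (`hyp`, `TT`), `H14/PT/DN.lean`
(`Mol`, `quads`, `qw`, `DN`, `mollified_term`) and `H14/PT/DN2.lean` (`mem_quads`, `abs_qw_le`,
`DN_trivial`); `red_iff`, `neg_half_sq` are used from there.

In `DN_trivial` one has `s t ≤ T` and `∑_{t ∈ SI s T} 1 / s t ≤ K (1 + log T)` (`hS.sum_inv_le`), whence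
the factor `K ^ 4`; `s m ≤ Y` for the elements of `Mf`; `s_cast_mul`.
-/

namespace Pool.Agent.H14.BN

open Finset
open Pool.Agent.H14.PT (card_divisors_mul_le neg_half_sq red_iff)
open scoped ComplexConjugate

universe u

variable {s : ℕ →*₀ ℕ} {κ K : ℝ} {W : Type u} [CommGroupWithZero W]

/-- pairs with product of size at most `N` -/
noncomputable def hyp (s : ℕ →*₀ ℕ) (N : ℕ) : Finset (ℕ × ℕ) :=
  ((SI s N) ×ˢ (SI s N)).filter (fun n => s n.1 * s n.2 ≤ N)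

lemma mem_hyp (hS : Sys s κ K) {N : ℕ} {n : ℕ × ℕ} :
    n ∈ hyp s N ↔ n.1 ≠ 0 ∧ n.2 ≠ 0 ∧ s n.1 * s n.2 ≤ N := by
  unfold hyp
  simp only [mem_filter, mem_product, hS.mem_SI]
  constructor
  · rintro ⟨⟨⟨h1, _⟩, h2, _⟩, h3⟩; exact ⟨h1, h2, h3⟩
  · rintro ⟨h1, h2, h3⟩
    have h4 := hS.one_le_of h1
    have h5 := hS.one_le_of h2
    refine ⟨⟨⟨h1, ?_⟩, h2, ?_⟩, h3⟩
    · nlinarith
    · nlinarith

/-- the truncated sum of `χ(n₁) conj χ(n₂) / √(s n₁ s n₂)` -/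
noncomputable def TT (s : ℕ →*₀ ℕ) (cl : ℕ →*₀ W) (χ : MulChar W ℂ) (N : ℕ) : ℂ :=
  ∑ n ∈ hyp s N, χ (cl n.1) * conj (χ (cl n.2)) *
    ((((s (n.1 * n.2) : ℝ)) ^ (-(1 / 2) : ℝ) : ℝ) : ℂ)

/-- the mollifier -/
noncomputable def Mol (s : ℕ →*₀ ℕ) (cl : ℕ →*₀ W) (Mf : Finset ℕ) (w : ℕ → ℝ)
    (χ : MulChar W ℂ) : ℂ :=
  ∑ m ∈ Mf, ((w m * (s m : ℝ) ^ (-(1 / 2) : ℝ) : ℝ) : ℂ) * χ (cl m)

/-- index set of quadruples `((m, m'), (n₁, n₂))` -/
noncomputable def quads (s : ℕ →*₀ ℕ) (Mf : Finset ℕ) (N : ℕ) : Finset ((ℕ × ℕ) × (ℕ × ℕ)) :=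
  (Mf ×ˢ Mf) ×ˢ hyp s N

/-- weight of a quadruple -/
noncomputable def qw (s : ℕ →*₀ ℕ) (w : ℕ → ℝ) (i : (ℕ × ℕ) × (ℕ × ℕ)) : ℝ :=
  w i.1.1 * w i.1.2 * ((s (i.1.1 * i.1.2 * (i.2.1 * i.2.2)) : ℝ)) ^ (-(1 / 2) : ℝ)

/-- contribution of the reduced fraction `a / b` -/
noncomputable def DN (s : ℕ →*₀ ℕ) (Mf : Finset ℕ) (w : ℕ → ℝ) (N : ℕ) (a b : ℕ) : ℝ :=
  ∑ i ∈ (quads s Mf N).filter (fun i => i.1.1 * i.2.1 * b = i.1.2 * i.2.2 * a), qw s w i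

theorem mollified_term (hS : Sys s κ K) (cl : ℕ →*₀ W) (Mf : Finset ℕ) (w : ℕ → ℝ)
    (χ : MulChar W ℂ) (N : ℕ) :
    ((‖Mol s cl Mf w χ‖ ^ 2 : ℝ) : ℂ) * TT s cl χ N =
      ∑ i ∈ quads s Mf N, ((qw s w i : ℝ) : ℂ) *
        (χ (cl (i.1.1 * i.2.1)) * conj (χ (cl (i.1.2 * i.2.2)))) := by
  have h1 : ((‖Mol s cl Mf w χ‖ ^ 2 : ℝ) : ℂ) = Mol s cl Mf w χ * conj (Mol s cl Mf w χ) := by
    rw [Complex.mul_conj, Complex.normSq_eq_norm_sq]
  rw [h1]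
  unfold quads
  rw [Finset.sum_product, Finset.sum_product]
  unfold Mol TT
  rw [map_sum, Finset.sum_mul_sum, Finset.sum_mul]
  refine Finset.sum_congr rfl fun m _ => ?_
  rw [Finset.sum_mul]
  refine Finset.sum_congr rfl fun m' _ => ?_
  rw [Finset.mul_sum]
  refine Finset.sum_congr rfl fun n _ => ?_
  unfold qw
  simp only
  have h2 : ((s (m * m' * (n.1 * n.2)) : ℝ)) ^ (-(1 / 2) : ℝ) =
      (s m : ℝ) ^ (-(1 / 2) : ℝ) * (s m' : ℝ) ^ (-(1 / 2) : ℝ) *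
        ((s (n.1 * n.2) : ℝ)) ^ (-(1 / 2) : ℝ) := by
    rw [s_cast_mul s (m * m'), s_cast_mul s m, Real.mul_rpow (by positivity) (by positivity),
      Real.mul_rpow (by positivity) (by positivity)]
  rw [h2]
  rw [map_mul, Complex.conj_ofReal]
  push_cast
  rw [map_mul cl, map_mul cl, map_mul χ, map_mul χ, map_mul (starRingEnd ℂ)]
  ring

lemma mem_quads (hS : Sys s κ K) {Mf : Finset ℕ} {N : ℕ} {i : (ℕ × ℕ) × (ℕ × ℕ)} :
    i ∈ quads s Mf N ↔ i.1.1 ∈ Mf ∧ i.1.2 ∈ Mf ∧ i.2.1 ≠ 0 ∧ i.2.2 ≠ 0 ∧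
      s i.2.1 * s i.2.2 ≤ N := by
  unfold quads
  simp only [mem_product, mem_hyp hS]
  tauto

lemma abs_qw_le {w : ℕ → ℝ} (hw : ∀ m, |w m| ≤ 1) (i : (ℕ × ℕ) × (ℕ × ℕ)) :
    |qw s w i| ≤ ((s (i.1.1 * i.1.2 * (i.2.1 * i.2.2)) : ℝ)) ^ (-(1 / 2) : ℝ) := by
  unfold qw
  rw [abs_mul, abs_mul, abs_of_nonneg (show (0 : ℝ) ≤
    ((s (i.1.1 * i.1.2 * (i.2.1 * i.2.2)) : ℝ)) ^ (-(1 / 2) : ℝ) by positivity)]
  have h1 : |w i.1.1| * |w i.1.2| ≤ 1 := by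
    calc _ ≤ (1 : ℝ) * 1 := by
          gcongr
          · exact hw _
          · exact hw _
      _ = 1 := by norm_num
  exact mul_le_of_le_one_left (by positivity) h1

/-- **trivial bound** -/
theorem DN_trivial (hS : Sys s κ K) (Mf : Finset ℕ) (w : ℕ → ℝ) (N Y T a b : ℕ)
    (hab : Nat.Coprime a b) (ha : a ≠ 0) (hb : b ≠ 0) (hM : ∀ m ∈ Mf, 1 ≤ m ∧ s m ≤ Y)
    (hw : ∀ m, |w m| ≤ 1) (hT : Y ^ 2 * N ≤ T ^ 2) :
    |DN s Mf w N a b| ≤ ((a * b).divisors.card : ℝ) * ((s (a * b) : ℝ)) ^ (-(1 / 2) : ℝ) *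
      (K ^ 4 * (1 + Real.log T) ^ 4) := by
  classical
  set F := (quads s Mf N).filter (fun i => i.1.1 * i.2.1 * b = i.1.2 * i.2.2 * a) with hF
  have ha0 : 0 < a := Nat.pos_of_ne_zero ha
  have hb0 : 0 < b := Nat.pos_of_ne_zero hb
  -- structure of the elements
  have hstr : ∀ i ∈ F, ∃ t, t ≠ 0 ∧ s t ≤ T ∧ i.1.1 * i.2.1 = a * t ∧ i.1.2 * i.2.2 = b * t := by
    intro i hi
    obtain ⟨h1, h2⟩ := Finset.mem_filter.mp hi
    obtain ⟨m1, m2, m3, m4, m5⟩ := (mem_quads hS).mp h1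
    have h3 : a ∣ i.1.1 * i.2.1 := by
      have : a ∣ i.1.1 * i.2.1 * b := ⟨i.1.2 * i.2.2, by rw [h2]; ring⟩
      exact hab.dvd_of_dvd_mul_right this
    obtain ⟨t, ht⟩ := h3
    have h4 : i.1.2 * i.2.2 = b * t := by
      have : a * (i.1.2 * i.2.2) = a * (b * t) := by
        calc a * (i.1.2 * i.2.2) = i.1.2 * i.2.2 * a := by ring
          _ = i.1.1 * i.2.1 * b := h2.symm
          _ = a * (b * t) := by rw [ht]; ring
      exact Nat.eq_of_mul_eq_mul_left ha0 this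
    have h5 : t ≠ 0 := by
      rintro rfl
      rw [mul_zero] at ht
      rcases Nat.mul_eq_zero.mp ht with h | h
      · have := (hM _ m1).1; omega
      · exact m3 h
    refine ⟨t, h5, ?_, ht, h4⟩
    have h6 : (s a * s b) * s t ^ 2 ≤ T ^ 2 := by
      calc (s a * s b) * s t ^ 2 = (s a * s t) * (s b * s t) := by ring
        _ = (s i.1.1 * s i.2.1) * (s i.1.2 * s i.2.2) := by
            rw [← map_mul s a t, ← map_mul s b t, ← ht, ← h4, map_mul, map_mul]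
        _ = (s i.1.1 * s i.1.2) * (s i.2.1 * s i.2.2) := by ring
        _ ≤ (Y * Y) * N := Nat.mul_le_mul (Nat.mul_le_mul (hM _ m1).2 (hM _ m2).2) m5
        _ = Y ^ 2 * N := by ring
        _ ≤ T ^ 2 := hT
    have h7 : s t ^ 2 ≤ T ^ 2 := by
      calc s t ^ 2 = 1 * s t ^ 2 := by ring
        _ ≤ (s a * s b) * s t ^ 2 := Nat.mul_le_mul_right _ (Nat.mul_pos (hS.s_pos ha) (hS.s_pos hb))
        _ ≤ _ := h6
    exact (Nat.pow_le_pow_iff_left (by norm_num)).mp h7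
  have ht' : ∀ i ∈ F, i.1.1 * i.2.1 / a ≠ 0 ∧ s (i.1.1 * i.2.1 / a) ≤ T ∧
      i.1.1 * i.2.1 = a * (i.1.1 * i.2.1 / a) ∧ i.1.2 * i.2.2 = b * (i.1.1 * i.2.1 / a) := by
    intro i hi
    obtain ⟨t, h1, h2, h3, h4⟩ := hstr i hi
    have : i.1.1 * i.2.1 / a = t := by rw [h3]; exact Nat.mul_div_cancel_left _ ha0
    rw [this]
    exact ⟨h1, h2, h3, h4⟩
  have hmaps : ∀ i ∈ F, i.1.1 * i.2.1 / a ∈ SI s T := by
    intro i hi
    obtain ⟨h1, h2, _⟩ := ht' i hi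
    exact hS.mem_SI.mpr ⟨h1, h2⟩
  have hab0 : (0 : ℝ) < (s (a * b) : ℝ) := hS.r_pos (Nat.mul_ne_zero ha hb)
  have h1 : |DN s Mf w N a b| ≤ ∑ i ∈ F, ((s (i.1.1 * i.1.2 * (i.2.1 * i.2.2)) : ℝ)) ^ (-(1 / 2) : ℝ) := by
    unfold DN
    refine (Finset.abs_sum_le_sum_abs _ _).trans (Finset.sum_le_sum fun i _ => abs_qw_le hw i)
  refine h1.trans ?_
  rw [← Finset.sum_fiberwise_of_maps_to hmaps]
  have h2 : ∀ t ∈ SI s T, ∑ i ∈ F.filter (fun i => i.1.1 * i.2.1 / a = t),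
      ((s (i.1.1 * i.1.2 * (i.2.1 * i.2.2)) : ℝ)) ^ (-(1 / 2) : ℝ) ≤
      ((a * b).divisors.card : ℝ) * ((s (a * b) : ℝ)) ^ (-(1 / 2) : ℝ) *
        ((t.divisors.card : ℝ) ^ 2 / (s t : ℝ)) := by
    intro t ht
    have ht1 := (hS.mem_SI.mp ht).1
    have ht0 : (0 : ℝ) < (s t : ℝ) := hS.r_pos ht1
    have hval : ∀ i ∈ F.filter (fun i => i.1.1 * i.2.1 / a = t),
        ((s (i.1.1 * i.1.2 * (i.2.1 * i.2.2)) : ℝ)) ^ (-(1 / 2) : ℝ) =
          ((s (a * b) : ℝ)) ^ (-(1 / 2) : ℝ) * (1 / (s t : ℝ)) := by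
      intro i hi
      obtain ⟨hiF, hit⟩ := Finset.mem_filter.mp hi
      obtain ⟨_, _, h3, h4⟩ := ht' i hiF
      rw [hit] at h3 h4
      rw [← neg_half_sq ht0 hab0]
      congr 1
      have : i.1.1 * i.1.2 * (i.2.1 * i.2.2) = (a * b) * t ^ 2 := by
        calc i.1.1 * i.1.2 * (i.2.1 * i.2.2) = (i.1.1 * i.2.1) * (i.1.2 * i.2.2) := by ring
          _ = (a * t) * (b * t) := by rw [h3, h4]
          _ = _ := by ring
      rw [this, s_cast_mul, s_cast_pow]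
    rw [Finset.sum_congr rfl hval, Finset.sum_const, nsmul_eq_mul]
    have hcard : (F.filter (fun i => i.1.1 * i.2.1 / a = t)).card ≤
        (a * b).divisors.card * t.divisors.card ^ 2 := by
      have hc1 : (F.filter (fun i => i.1.1 * i.2.1 / a = t)).card ≤
          ((a * t).divisors ×ˢ (b * t).divisors).card := by
        refine Finset.card_le_card_of_injOn (fun i => i.1) ?_ ?_
        · intro i hi
          obtain ⟨hiF, hit⟩ := Finset.mem_filter.mp (Finset.mem_coe.mp hi)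
          obtain ⟨_, _, h3, h4⟩ := ht' i hiF
          rw [hit] at h3 h4
          refine Finset.mem_coe.mpr (Finset.mem_product.mpr ⟨?_, ?_⟩)
          · exact Nat.mem_divisors.mpr ⟨⟨_, h3.symm⟩, Nat.mul_ne_zero ha ht1⟩
          · exact Nat.mem_divisors.mpr ⟨⟨_, h4.symm⟩, Nat.mul_ne_zero hb ht1⟩
        · intro i hi i' hi' h
          obtain ⟨hiF, hit⟩ := Finset.mem_filter.mp (Finset.mem_coe.mp hi)
          obtain ⟨hiF', hit'⟩ := Finset.mem_filter.mp (Finset.mem_coe.mp hi')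
          obtain ⟨_, _, h3, h4⟩ := ht' i hiF
          obtain ⟨_, _, h3', h4'⟩ := ht' i' hiF'
          rw [hit] at h3 h4
          rw [hit'] at h3' h4'
          obtain ⟨m1, m2, m3, m4, m5⟩ := (mem_quads hS).mp (Finset.mem_filter.mp hiF).1
          have e : i.1 = i'.1 := h
          rw [← e] at h3' h4'
          have p1 : 0 < i.1.1 := (hM _ m1).1
          have p2 : 0 < i.1.2 := (hM _ m2).1
          have q1 : i.2.1 = i'.2.1 := Nat.eq_of_mul_eq_mul_left p1 (h3.trans h3'.symm)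
          have q2 : i.2.2 = i'.2.2 := Nat.eq_of_mul_eq_mul_left p2 (h4.trans h4'.symm)
          exact Prod.ext e (Prod.ext q1 q2)
      refine hc1.trans ?_
      rw [Finset.card_product, hab.card_divisors_mul]
      calc (a * t).divisors.card * (b * t).divisors.card
          ≤ (a.divisors.card * t.divisors.card) * (b.divisors.card * t.divisors.card) :=
            Nat.mul_le_mul (card_divisors_mul_le a t) (card_divisors_mul_le b t)
        _ = _ := by ring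
    have hcard' : ((F.filter (fun i => i.1.1 * i.2.1 / a = t)).card : ℝ) ≤
        ((a * b).divisors.card : ℝ) * (t.divisors.card : ℝ) ^ 2 := by exact_mod_cast hcard
    calc _ ≤ (((a * b).divisors.card : ℝ) * (t.divisors.card : ℝ) ^ 2) *
          (((s (a * b) : ℝ)) ^ (-(1 / 2) : ℝ) * (1 / (s t : ℝ))) := by gcongr
      _ = _ := by ring
  refine (Finset.sum_le_sum h2).trans ?_
  rw [← Finset.mul_sum]
  refine mul_le_mul_of_nonneg_left ?_ (by positivity)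
  refine (sum_tau_sq_div_le hS T).trans ?_
  rw [← mul_pow]
  exact pow_le_pow_left₀ (Finset.sum_nonneg fun _ _ => by positivity) (hS.sum_inv_le T) 4

end Pool.Agent.H14.BN
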