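import Pool.Agent.H14.BN.Afe2
import Pool.Agent.H14.BN.DN

/-!
# The approximate functional equation, discrete probabilistic form

Port of `afe_discrete` of `Pool/Agent/H14/PT/Afe3.lean` (`N p = s (p.1 * p.2)`; a pair with a factor `0`
gives `0`, and it is not in `hyp s k`).
-/

namespace Pool.Agent.H14.BN

open Finset MeasureTheory
open scoped ComplexConjugate Real

universe u

variable {s : ℕ →*₀ ℕ} {κ K : ℝ} {W : Type u} [CommGroupWithZero W]

/-- discrete form of the approximate functional equation -/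
theorem afe_discrete [Finite W] (hS : Sys s κ K) {cl : ℕ →*₀ W} {Q : ℕ} {R m : ℝ}
    {Bad : Finset (MulChar W ℂ)} (hT : Td s K cl Q R m Bad) {χ : MulChar W ℂ} (hχ : χ ∉ Bad) :
    HasSum (fun k : ℕ => pik R k * (2 * (TT s cl χ k).re)) (‖Lv s cl R χ‖ ^ 2) := by
  have hR : 0 < R := hT.R_pos
  set c : ℕ × ℕ → ℂ := fun p => χ (cl p.1) * conj (χ (cl p.2)) *
      (((((s (p.1 * p.2) : ℕ) : ℝ)) ^ (-(1 / 2) : ℝ) : ℝ) : ℂ) with hc
  set N : ℕ × ℕ → ℕ := fun p => s (p.1 * p.2) with hN
  set f : (ℕ × ℕ) × ℕ → ℂ := fun x => c x.1 * ((if N x.1 ≤ x.2 then pik R x.2 else 0 : ℝ) : ℂ)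
    with hf
  have hcn : ∀ p, ‖c p‖ ≤ ((s (p.1 * p.2) : ℕ) : ℝ) ^ (-(1 / 2) : ℝ) := by
    intro p
    simp only [hc]
    rw [norm_mul, norm_mul, RCLike.norm_conj, Complex.norm_real, Real.norm_of_nonneg (by positivity)]
    have h2 : ‖χ (cl p.1)‖ * ‖χ (cl p.2)‖ ≤ 1 := by
      calc _ ≤ (1 : ℝ) * 1 := by
            gcongr
            · exact norm_chi_le _ _
            · exact norm_chi_le _ _
        _ = 1 := by norm_num
    exact mul_le_of_le_one_left (by positivity) h2
  have hf1 : ∀ p, HasSum (fun k => f (p, k)) (c p * (Wt R (N p) : ℂ)) := by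
    intro p
    exact (Complex.hasSum_ofReal.mpr (hasSum_pik_tail hR (N p))).mul_left (c p)
  have hsum : Summable f := by
    refine Summable.of_norm ?_
    have hnn : ∀ x, 0 ≤ ‖f x‖ := fun x => norm_nonneg _
    rw [summable_prod_of_nonneg hnn]
    constructor
    · intro p
      exact (hf1 p).summable.norm
    · have h1 : ∀ p, ∑' k, ‖f (p, k)‖ = ‖c p‖ * Wt R (N p) := by
        intro p
        have : ∀ k, ‖f (p, k)‖ = ‖c p‖ * (if N p ≤ k then pik R k else 0) := by
          intro k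
          simp only [hf]
          rw [norm_mul, Complex.norm_real, Real.norm_of_nonneg]
          split_ifs
          · exact pik_nonneg R k
          · exact le_rfl
        simp_rw [this]
        exact ((hasSum_pik_tail hR (N p)).mul_left ‖c p‖).tsum_eq
      simp_rw [h1]
      refine Summable.of_nonneg_of_le
        (fun p => mul_nonneg (norm_nonneg _) (Wt_nonneg R (Nat.cast_nonneg _))) (fun p => ?_)
        (summable_Wt hS hR)
      exact mul_le_mul_of_nonneg_right (hcn p) (Wt_nonneg R (Nat.cast_nonneg _))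
  have h2 : ∑' x, f x = ∑' p, c p * (Wt R (N p) : ℂ) := by
    rw [hsum.tsum_prod]
    exact tsum_congr fun p => (hf1 p).tsum_eq
  have hswap : HasSum (fun x : ℕ × (ℕ × ℕ) => f x.swap) (∑' x, f x) :=
    (Equiv.prodComm ℕ (ℕ × ℕ)).hasSum_iff.mpr hsum.hasSum
  have hfib : ∀ k : ℕ, HasSum (fun p : ℕ × ℕ => f (p, k)) ((pik R k : ℂ) * TT s cl χ k) := by
    intro k
    have h4 : ∀ p ∉ hyp s k, f (p, k) = 0 := by
      intro p hp
      rw [mem_hyp hS] at hp
      by_cases h1 : p.1 = 0
      · simp only [hf, hc]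
        rw [h1, map_zero, chi_zero]
        ring
      by_cases h2 : p.2 = 0
      · simp only [hf, hc]
        rw [h2, map_zero, chi_zero, map_zero]
        ring
      have h3 : ¬ (N p ≤ k) := by
        intro h
        refine hp ⟨h1, h2, ?_⟩
        rw [← map_mul]
        exact h
      simp only [hf]
      rw [if_neg h3]
      simp
    have h5 : HasSum (fun p : ℕ × ℕ => f (p, k)) (∑ p ∈ hyp s k, f (p, k)) :=
      hasSum_sum_of_ne_finset_zero h4
    convert h5 using 1
    unfold TT
    rw [Finset.mul_sum]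
    refine Finset.sum_congr rfl fun n hn => ?_
    rw [mem_hyp hS] at hn
    simp only [hf, hc, hN]
    rw [if_pos (by rw [map_mul]; exact hn.2.2)]
    ring
  have h6 : HasSum (fun k : ℕ => (pik R k : ℂ) * TT s cl χ k) (∑' x, f x) :=
    HasSum.prod_fiberwise hswap (fun k => hfib k)
  have h7 := (Complex.hasSum_re h6).mul_left 2
  have h8 := afe_series hS hT hχ
  have h9 : (∑' x, f x) = ∑' p : ℕ × ℕ, χ (cl p.1) * conj (χ (cl p.2)) *
      ((((s (p.1 * p.2) : ℝ)) ^ (-(1 / 2) : ℝ) * Wt R (s (p.1 * p.2) : ℝ) : ℝ) : ℂ) := by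
    rw [h2]
    refine tsum_congr fun p => ?_
    simp only [hc, hN]
    push_cast
    ring
  rw [h8, ← h9]
  refine h7.congr_fun fun k => ?_
  rw [Complex.re_ofReal_mul]
  ring

end Pool.Agent.H14.BN
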