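import Pool.Agent.H14.BN.Iface

/-!
# Basic facts on sized numbers
-/

namespace Pool.Agent.H14.BN

open Finset

variable {s : ℕ →*₀ ℕ} {κ K : ℝ}

lemma s_cast_mul (s : ℕ →*₀ ℕ) (a b : ℕ) : ((s (a * b) : ℕ) : ℝ) = (s a : ℝ) * (s b : ℝ) := by
  rw [map_mul, Nat.cast_mul]

lemma s_cast_pow (s : ℕ →*₀ ℕ) (a k : ℕ) : ((s (a ^ k) : ℕ) : ℝ) = (s a : ℝ) ^ k := by
  rw [map_pow, Nat.cast_pow]

lemma s_cast_prod {ι : Type*} (s : ℕ →*₀ ℕ) (t : Finset ι) (f : ι → ℕ) :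
    ((s (∏ i ∈ t, f i) : ℕ) : ℝ) = ∏ i ∈ t, (s (f i) : ℝ) := by
  rw [map_prod, Nat.cast_prod]

namespace Sys

lemma one_le_of (hS : Sys s κ K) : ∀ {n : ℕ}, n ≠ 0 → 1 ≤ s n := by
  intro n
  induction n using Nat.recOnMul with
  | zero => intro h; exact absurd rfl h
  | one => intro _; rw [map_one]
  | prime p hp => intro _; have := hS.two_le p hp; omega
  | mul a b ha hb =>
    intro h
    rw [map_mul]
    have h1 := ha (left_ne_zero_of_mul h)
    have h2 := hb (right_ne_zero_of_mul h)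
    exact Nat.mul_pos h1 h2

lemma s_pos (hS : Sys s κ K) {n : ℕ} (hn : n ≠ 0) : 0 < s n := hS.one_le_of hn

lemma s_ne (hS : Sys s κ K) {n : ℕ} (hn : n ≠ 0) : s n ≠ 0 := (hS.s_pos hn).ne'

lemma r_pos (hS : Sys s κ K) {n : ℕ} (hn : n ≠ 0) : (0 : ℝ) < (s n : ℝ) := by
  exact_mod_cast hS.s_pos hn

lemma r_one (hS : Sys s κ K) {n : ℕ} (hn : n ≠ 0) : (1 : ℝ) ≤ (s n : ℝ) := by
  exact_mod_cast hS.one_le_of hn

lemma r_two (hS : Sys s κ K) {p : ℕ} (hp : p.Prime) : (2 : ℝ) ≤ (s p : ℝ) := by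
  exact_mod_cast hS.two_le p hp

lemma log_nonneg (_hS : Sys s κ K) (n : ℕ) : 0 ≤ Real.log (s n) := Real.log_natCast_nonneg _

lemma le_of_dvd (hS : Sys s κ K) {m n : ℕ} (h : m ∣ n) (hn : n ≠ 0) : s m ≤ s n := by
  obtain ⟨k, rfl⟩ := h
  rw [map_mul]
  exact Nat.le_mul_of_pos_right _ (hS.s_pos (right_ne_zero_of_mul hn))

lemma le_mul_right (hS : Sys s κ K) (a : ℕ) {b : ℕ} (hb : b ≠ 0) : s a ≤ s (a * b) := by
  rw [map_mul]
  exact Nat.le_mul_of_pos_right _ (hS.s_pos hb)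

lemma le_mul_left (hS : Sys s κ K) (a : ℕ) {b : ℕ} (hb : b ≠ 0) : s a ≤ s (b * a) := by
  rw [map_mul]
  exact Nat.le_mul_of_pos_left _ (hS.s_pos hb)

lemma two_le_of (hS : Sys s κ K) {n : ℕ} (h0 : n ≠ 0) (h1 : n ≠ 1) : 2 ≤ s n := by
  obtain ⟨p, hp, hpn⟩ := Nat.exists_prime_and_dvd h1
  exact (hS.two_le p hp).trans (hS.le_of_dvd hpn h0)

lemma eq_one_iff (hS : Sys s κ K) {n : ℕ} : s n = 1 ↔ n = 1 := by
  constructor
  · intro h
    by_contra h1
    by_cases h0 : n = 0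
    · rw [h0, map_zero] at h
      omega
    · have := hS.two_le_of h0 h1
      omega
  · rintro rfl
    exact map_one s

lemma mem_SI (hS : Sys s κ K) {N n : ℕ} : n ∈ SI s N ↔ n ≠ 0 ∧ s n ≤ N := by
  unfold SI
  rw [dif_pos (hS.fin N), Set.Finite.mem_toFinset]
  rfl

lemma mem_SP (hS : Sys s κ K) {N p : ℕ} : p ∈ SP s N ↔ p.Prime ∧ s p ≤ N := by
  unfold SP
  rw [mem_filter, hS.mem_SI]
  constructor
  · rintro ⟨⟨_, h1⟩, h2⟩
    exact ⟨h2, h1⟩
  · rintro ⟨h1, h2⟩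
    exact ⟨⟨h1.ne_zero, h2⟩, h1⟩

lemma SI_mono (hS : Sys s κ K) {M N : ℕ} (h : M ≤ N) : SI s M ⊆ SI s N := by
  intro n hn
  rw [hS.mem_SI] at hn ⊢
  exact ⟨hn.1, hn.2.trans h⟩

lemma SP_mono (hS : Sys s κ K) {M N : ℕ} (h : M ≤ N) : SP s M ⊆ SP s N := by
  intro n hn
  rw [hS.mem_SP] at hn ⊢
  exact ⟨hn.1, hn.2.trans h⟩

lemma SI_zero (hS : Sys s κ K) : SI s 0 = ∅ := by
  rw [Finset.eq_empty_iff_forall_notMem]
  intro n hn
  rw [hS.mem_SI] at hn
  have := hS.s_pos hn.1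
  omega

lemma one_mem_SI (hS : Sys s κ K) {N : ℕ} (hN : 1 ≤ N) : 1 ∈ SI s N := by
  rw [hS.mem_SI, map_one]
  exact ⟨one_ne_zero, hN⟩

lemma K_pos (hS : Sys s κ K) : 0 < K := by linarith [hS.K_one]

/-- the numbers of size exactly `k` -/
lemma card_eq (hS : Sys s κ K) (N : ℕ) (f : ℕ → ℝ) :
    ∑ n ∈ SI s N, f (s n) = ∑ k ∈ Icc 1 N, (((SI s N).filter (fun n => s n = k)).card : ℝ) * f k := by
  have h1 : ∀ n ∈ SI s N, s n ∈ Icc 1 N := by
    intro n hn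
    rw [hS.mem_SI] at hn
    exact mem_Icc.mpr ⟨hS.one_le_of hn.1, hn.2⟩
  rw [← Finset.sum_fiberwise_of_maps_to h1]
  refine Finset.sum_congr rfl fun k _ => ?_
  rw [Finset.sum_congr rfl (fun n hn => by rw [(Finset.mem_filter.mp hn).2]), Finset.sum_const,
    nsmul_eq_mul]

/-- comparison of a sum over the numbers of size at most `N` with a sum over the integers -/
theorem sum_le (hS : Sys s κ K) (N : ℕ) : ∀ (f : ℕ → ℝ), (∀ k ∈ Icc 1 N, 0 ≤ f k) →
    (∀ k ∈ Icc 1 N, ∀ l ∈ Icc 1 N, k ≤ l → f l ≤ f k) →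
    ∑ n ∈ SI s N, f (s n) ≤ K * ∑ k ∈ Icc 1 N, f k := by
  induction N with
  | zero => intro f _ _; rw [hS.SI_zero]; simp
  | succ N ih =>
    intro f hf0 hf
    set c := f (N + 1) with hc
    have hmem : N + 1 ∈ Icc 1 (N + 1) := mem_Icc.mpr ⟨by omega, le_rfl⟩
    have hsub : ∀ k ∈ Icc 1 N, k ∈ Icc 1 (N + 1) := fun k hk => by
      rw [mem_Icc] at hk ⊢; omega
    have h1 := ih (fun k => f k - c) (fun k hk => by
        have := hf k (hsub k hk) (N + 1) hmem (by have := mem_Icc.mp hk; omega)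
        linarith)
      (fun k hk l hl hkl => by
        have := hf k (hsub k hk) l (hsub l hl) hkl
        linarith)
    have hc0 : 0 ≤ c := hf0 _ hmem
    have h2 : ∑ n ∈ SI s (N + 1), (f (s n) - c) = ∑ n ∈ SI s N, (f (s n) - c) := by
      symm
      apply Finset.sum_subset (hS.SI_mono (Nat.le_succ N))
      intro n hn hn2
      rw [hS.mem_SI] at hn hn2
      have : s n = N + 1 := by
        by_contra h
        exact hn2 ⟨hn.1, by omega⟩
      rw [this, hc, sub_self]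
    have h3 : ∑ n ∈ SI s (N + 1), f (s n) =
        ∑ n ∈ SI s (N + 1), (f (s n) - c) + ((SI s (N + 1)).card : ℝ) * c := by
      rw [Finset.sum_sub_distrib, Finset.sum_const, nsmul_eq_mul]
      ring
    have h4 := hS.card_le (N + 1)
    have h5 : ∑ k ∈ Icc 1 (N + 1), f k = ∑ k ∈ Icc 1 N, f k + c := by
      rw [Finset.sum_Icc_succ_top (by omega)]
    have h6 : ∑ k ∈ Icc 1 N, (f k - c) = ∑ k ∈ Icc 1 N, f k - N * c := by
      rw [Finset.sum_sub_distrib, Finset.sum_const, nsmul_eq_mul, Nat.card_Icc]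
      simp
    rw [h3, h2, h5]
    rw [h6] at h1
    have h7 : ((SI s (N + 1)).card : ℝ) * c ≤ K * ((N + 1 : ℕ) : ℝ) * c :=
      mul_le_mul_of_nonneg_right h4 hc0
    push_cast at h7
    nlinarith

/-- tail version of `sum_le` -/
theorem sum_tail_le (hS : Sys s κ K) (M N : ℕ) (hMN : M ≤ N) (f : ℕ → ℝ) (hf0 : ∀ k, 0 ≤ f k)
    (hf : ∀ k l, M < k → k ≤ l → f l ≤ f k) :
    ∑ n ∈ SI s N \ SI s M, f (s n) ≤ K * (M * f (M + 1) + ∑ k ∈ Ioc M N, f k) := by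
  have h1 := hS.sum_le N (fun k => f (max k (M + 1))) (fun k _ => hf0 _)
    (fun k _ l _ hkl => hf _ _ (by omega) (by omega))
  have h2 : ∑ k ∈ Icc 1 N, f (max k (M + 1)) = M * f (M + 1) + ∑ k ∈ Ioc M N, f k := by
    have e1 : Icc 1 N = Icc 1 M ∪ Ioc M N := by ext k; simp only [mem_union, mem_Icc, mem_Ioc]; omega
    have e2 : Disjoint (Icc 1 M) (Ioc M N) := by
      rw [Finset.disjoint_left]; intro k hk hk2
      rw [mem_Icc] at hk; rw [mem_Ioc] at hk2; omega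
    rw [e1, Finset.sum_union e2]
    congr 1
    · rw [Finset.sum_congr rfl (fun k hk => by
        rw [show max k (M + 1) = M + 1 by rw [mem_Icc] at hk; omega]), Finset.sum_const,
        nsmul_eq_mul, Nat.card_Icc]
      simp
    · refine Finset.sum_congr rfl fun k hk => ?_
      rw [mem_Ioc] at hk
      rw [show max k (M + 1) = k by omega]
  rw [← h2]
  refine le_trans ?_ h1
  calc ∑ n ∈ SI s N \ SI s M, f (s n) = ∑ n ∈ SI s N \ SI s M, f (max (s n) (M + 1)) := by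
        refine Finset.sum_congr rfl fun n hn => ?_
        rw [mem_sdiff, hS.mem_SI, hS.mem_SI] at hn
        have : M < s n := by
          by_contra h
          exact hn.2 ⟨hn.1.1, by omega⟩
        rw [show max (s n) (M + 1) = s n by omega]
    _ ≤ ∑ n ∈ SI s N, f (max (s n) (M + 1)) :=
        Finset.sum_le_sum_of_subset_of_nonneg sdiff_subset fun _ _ _ => hf0 _

theorem sum_inv_le (hS : Sys s κ K) (N : ℕ) :
    ∑ n ∈ SI s N, 1 / (s n : ℝ) ≤ K * (1 + Real.log N) := by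
  refine (hS.sum_le N (fun k => 1 / (k : ℝ)) (fun k _ => by positivity) (fun k hk l _ hkl => ?_)).trans ?_
  · have : (0 : ℝ) < k := by exact_mod_cast (mem_Icc.mp hk).1
    exact one_div_le_one_div_of_le this (by exact_mod_cast hkl)
  · refine mul_le_mul_of_nonneg_left ?_ hS.K_pos.le
    have h := harmonic_le_one_add_log N
    rw [harmonic_eq_sum_Icc] at h
    push_cast at h
    simpa [one_div] using h

theorem sum_rsqrt_le (hS : Sys s κ K) (N : ℕ) :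
    ∑ n ∈ SI s N, (s n : ℝ) ^ (-(1 / 2) : ℝ) ≤ 2 * K * √(N : ℝ) := by
  refine (hS.sum_le N (fun k => (k : ℝ) ^ (-(1 / 2) : ℝ)) (fun k _ => by positivity)
    (fun k hk l _ hkl => ?_)).trans ?_
  · have : (0 : ℝ) < k := by exact_mod_cast (mem_Icc.mp hk).1
    exact Real.rpow_le_rpow_of_nonpos this (by exact_mod_cast hkl) (by norm_num)
  · have h : ∑ k ∈ Icc 1 N, (k : ℝ) ^ (-(1 / 2) : ℝ) ≤ 2 * √(N : ℝ) := by
      induction N with
      | zero => simp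
      | succ n ih =>
        rw [Finset.sum_Icc_succ_top (by omega)]
        refine (add_le_add ih le_rfl).trans ?_
        have h1 : (((n + 1 : ℕ) : ℝ)) ^ (-(1 / 2) : ℝ) = 1 / √((n + 1 : ℕ) : ℝ) := by
          rw [Real.rpow_neg (by positivity), ← Real.sqrt_eq_rpow, one_div]
        rw [h1]
        have hp : 0 < √((n + 1 : ℕ) : ℝ) := Real.sqrt_pos.mpr (by positivity)
        have hq : √(n : ℝ) ≤ √((n + 1 : ℕ) : ℝ) := Real.sqrt_le_sqrt (by push_cast; linarith)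
        have e1 : √((n + 1 : ℕ) : ℝ) * √((n + 1 : ℕ) : ℝ) = n + 1 := by
          rw [Real.mul_self_sqrt (by positivity)]; push_cast; ring
        have e2 : √(n : ℝ) * √(n : ℝ) = n := Real.mul_self_sqrt (by positivity)
        have h0 : 0 ≤ √(n : ℝ) := Real.sqrt_nonneg _
        have : 1 / √((n + 1 : ℕ) : ℝ) ≤ 2 * (√((n + 1 : ℕ) : ℝ) - √(n : ℝ)) := by
          rw [div_le_iff₀ hp]
          nlinarith
        linarith
    calc K * _ ≤ K * (2 * √(N : ℝ)) := mul_le_mul_of_nonneg_left h hS.K_pos.le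
      _ = _ := by ring

/-- a finite set of numbers of size at most `x` -/
theorem card_le_real (hS : Sys s κ K) (P : Finset ℕ) (x : ℝ) (hx : 0 ≤ x)
    (hP : ∀ n ∈ P, n ≠ 0 ∧ (s n : ℝ) ≤ x) : (P.card : ℝ) ≤ K * x := by
  have h1 : P ⊆ SI s ⌊x⌋₊ := fun n hn => hS.mem_SI.mpr ⟨(hP n hn).1, Nat.le_floor (hP n hn).2⟩
  have h2 : (P.card : ℝ) ≤ ((SI s ⌊x⌋₊).card : ℝ) := by exact_mod_cast Finset.card_le_card h1
  refine h2.trans ((hS.card_le _).trans ?_)
  exact mul_le_mul_of_nonneg_left (Nat.floor_le hx) hS.K_pos.le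

end Sys

end Pool.Agent.H14.BN
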