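import Pool.Agent.H14.BN.KF
import Pool.Agent.H74.TS.Part

/-!
# Box bounds for weights, sized numbers

Port of `Pool/Agent/H74/TS/KFB.lean` (copy; `wpartition` of `Pool/Agent/H74/TS/Part.lean` is used as it
is), with `wkfold` of `BN/KF.lean`.

`Few`: few prime factors in terms of the size.
-/

namespace Pool.Agent.H14.BN

open Finset Pool.Agent.H14.PT Pool.Agent.H74.TS
open scoped ArithmeticFunction.Omega

universe u

variable {W : Type u} [CommGroupWithZero W]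

/-- few large prime factors -/
def Few (s : ℕ →*₀ ℕ) (z : ℝ) (n : ℕ) : Prop :=
  (Ω n : ℝ) ≤ 1 + Real.log (s n) / Real.log z

theorem wbox_bound {s : ℕ →*₀ ℕ} {κ K : ℝ} (hS : Sys s κ K) {cl : ℕ →*₀ W} {Q : ℕ}
    (hM : Md s K cl Q) {h : ℝ} {v : ℕ × ℕ → ℝ} (hv : KF K cl h v) (P : Finset (ℕ × ℕ))
    (A B : ℝ) (hA : 0 < A) (hB : 0 < B) (k : ℕ) (hk : 1 ≤ k) (w D : ℕ)
    (hP : ∀ p ∈ P, IB s A B p)
    (hw : ∀ p ∈ P, (p.1 * p.2).primeFactors.card ≤ w)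
    (hD : ∀ t : Fin k → ℕ × ℕ, (∀ i, t i ∈ P) →
      dk k (∏ i, (t i).1) * dk k (∏ i, (t i).2) ≤ D) :
    ∑ p ∈ P, v p ≤ 2 ^ w * ((D : ℝ) * (h * (1 + (8 * A * B) ^ k / Q))) ^ (1 / (k : ℝ)) := by
  obtain ⟨P', hsub, hcard, hcop⟩ := wpartition P w v hv.nonneg
    (fun p hp => ⟨(hP p hp).1, (hP p hp).2.1, (hP p hp).2.2.1, hw p hp⟩)
  have h1 := wkfold hS hM hv P' A B hA hB k hk hcop (fun p hp => hP p (hsub hp)) D
    (fun t ht => hD t fun i => hsub (ht i))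
  have hk0 : (0 : ℝ) < k := by exact_mod_cast hk
  have hs0 : 0 ≤ ∑ p ∈ P', v p := Finset.sum_nonneg fun p _ => hv.nonneg p
  have h1' : (∑ p ∈ P', v p) ^ k ≤ (D : ℝ) * (h * (1 + (8 * A * B) ^ k / Q)) := by
    refine h1.trans (le_of_eq ?_)
    ring
  have h2 : ∑ p ∈ P', v p ≤ ((D : ℝ) * (h * (1 + (8 * A * B) ^ k / Q))) ^ (1 / (k : ℝ)) := by
    calc ∑ p ∈ P', v p = ((∑ p ∈ P', v p) ^ k) ^ (1 / (k : ℝ)) := by
          rw [← Real.rpow_natCast, ← Real.rpow_mul hs0]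
          rw [mul_one_div_cancel hk0.ne', Real.rpow_one]
      _ ≤ _ := Real.rpow_le_rpow (by positivity) h1' (by positivity)
  exact hcard.trans (mul_le_mul_of_nonneg_left h2 (by positivity))

theorem wbox_bound2 {s : ℕ →*₀ ℕ} {κ K : ℝ} (hS : Sys s κ K) {cl : ℕ →*₀ W} {Q : ℕ}
    (hM : Md s K cl Q) {h1 h2 : ℝ} {v1 v2 : ℕ × ℕ → ℝ} (hv1 : KF K cl h1 v1)
    (hv2 : KF K cl h2 v2) (P : Finset (ℕ × ℕ))
    (A B : ℝ) (hA : 0 < A) (hB : 0 < B) (k : ℕ) (hk : 1 ≤ k) (w D : ℕ)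
    (hP : ∀ p ∈ P, IB s A B p)
    (hw : ∀ p ∈ P, (p.1 * p.2).primeFactors.card ≤ w)
    (hD : ∀ t : Fin k → ℕ × ℕ, (∀ i, t i ∈ P) →
      dk k (∏ i, (t i).1) * dk k (∏ i, (t i).2) ≤ D) :
    ∑ p ∈ P, ww v1 v2 p ≤
      2 ^ w * ((D : ℝ) * (Real.sqrt (h1 * h2) * (1 + (8 * A * B) ^ k / Q))) ^ (1 / (k : ℝ)) := by
  have b1 := wbox_bound hS hM hv1 P A B hA hB k hk w D hP hw hD
  have b2 := wbox_bound hS hM hv2 P A B hA hB k hk w D hP hw hD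
  have hh1 : 0 ≤ h1 := zero_le_one.trans hv1.one_le
  have hh2 : 0 ≤ h2 := zero_le_one.trans hv2.one_le
  have hE : 0 ≤ 1 + (8 * A * B) ^ k / (Q : ℝ) := by positivity
  have hD0 : (0 : ℝ) ≤ D := Nat.cast_nonneg D
  have hX1 : 0 ≤ (D : ℝ) * (h1 * (1 + (8 * A * B) ^ k / Q)) := by positivity
  have hX2 : 0 ≤ (D : ℝ) * (h2 * (1 + (8 * A * B) ^ k / Q)) := by positivity
  have hcs : ∑ p ∈ P, ww v1 v2 p ≤ Real.sqrt (∑ p ∈ P, v1 p) * Real.sqrt (∑ p ∈ P, v2 p) := by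
    have h3 := Real.sum_sqrt_mul_sqrt_le P (f := v1) (g := v2) hv1.nonneg hv2.nonneg
    refine le_trans (le_of_eq ?_) h3
    refine Finset.sum_congr rfl fun p _ => ?_
    rw [ww, Real.sqrt_mul (hv1.nonneg p)]
  have hX : Real.sqrt ((D : ℝ) * (h1 * (1 + (8 * A * B) ^ k / Q)) *
      ((D : ℝ) * (h2 * (1 + (8 * A * B) ^ k / Q)))) =
      (D : ℝ) * (Real.sqrt (h1 * h2) * (1 + (8 * A * B) ^ k / Q)) := by
    rw [show (D : ℝ) * (h1 * (1 + (8 * A * B) ^ k / Q)) *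
      ((D : ℝ) * (h2 * (1 + (8 * A * B) ^ k / Q))) =
      ((D : ℝ) * (1 + (8 * A * B) ^ k / Q)) ^ 2 * (h1 * h2) by ring,
      Real.sqrt_mul (sq_nonneg _), Real.sqrt_sq (by positivity)]
    ring
  calc ∑ p ∈ P, ww v1 v2 p ≤ Real.sqrt (∑ p ∈ P, v1 p) * Real.sqrt (∑ p ∈ P, v2 p) := hcs
    _ ≤ Real.sqrt (2 ^ w * ((D : ℝ) * (h1 * (1 + (8 * A * B) ^ k / Q))) ^ (1 / (k : ℝ))) *
        Real.sqrt (2 ^ w * ((D : ℝ) * (h2 * (1 + (8 * A * B) ^ k / Q))) ^ (1 / (k : ℝ))) :=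
        mul_le_mul (Real.sqrt_le_sqrt b1) (Real.sqrt_le_sqrt b2) (Real.sqrt_nonneg _)
          (Real.sqrt_nonneg _)
    _ = 2 ^ w * ((D : ℝ) * (Real.sqrt (h1 * h2) * (1 + (8 * A * B) ^ k / Q))) ^ (1 / (k : ℝ)) := by
        rw [← hX, ← Real.sqrt_mul (by positivity), Real.sqrt_eq_rpow ((D : ℝ) * _ * _),
          ← Real.rpow_mul (by positivity), mul_comm (1 / 2 : ℝ), Real.rpow_mul (by positivity),
          ← Real.sqrt_eq_rpow, Real.mul_rpow hX1 hX2]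
        rw [show ∀ a x y : ℝ, a * x * (a * y) = a ^ 2 * (x * y) from fun a x y => by ring,
          Real.sqrt_mul (sq_nonneg _), Real.sqrt_sq (by positivity)]

end Pool.Agent.H14.BN
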