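import Pool.Agent.H14.BN.Afe

/-!
# The central value as a sum over the classes

`T = 1 / √Q`.  For `χ ∉ Bad` (so `χ ≠ 1`, `hT.one_mem`, and `∑_u χ u = 0`,
`MulChar.sum_eq_zero_of_ne_one`) one has `Tht t = ∑_u χ u (thu u t - m / t)` (`Tht_eq_sum`), so
`Lint = ∑_u χ u (∫_{0}^{T} t^(-1/2) (thu u t - m/t) dt + ∫_{T}^{∞} t^(-1/2) thu u t dt)`.

* `thu_int_small`: by `hT.part` and `exp (-y) ≤ 1 / y` the integrand is at most
  `t^(-1/2) K / (√Q t) * K √Q t = K² t^(-1/2)`.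
* `thu_int_large`: `thu_le`, exponential decay.
* `class_count`: `hM.slope` for the fractions `n / 1`, `c = u`, `Y = c0 = 1`.
* `Lv_eq_sum`: `gth_integrable` and the above.
-/

namespace Pool.Agent.H14.BN

open Finset MeasureTheory
open scoped ComplexConjugate Real

universe u

variable {s : ℕ →*₀ ℕ} {κ K : ℝ} {W : Type u} [CommGroupWithZero W]

/-- coefficient of the class `u` -/
noncomputable def cU (s : ℕ →*₀ ℕ) (cl : ℕ →*₀ W) (Q : ℕ) (R m : ℝ) (u : W) : ℝ :=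
  ((∫ t in Set.Ioc (0 : ℝ) (1 / √(Q : ℝ)), t ^ (-(1 / 2) : ℝ) * (thu s cl R u t - m / t)) +
    ∫ t in Set.Ioi (1 / √(Q : ℝ)), t ^ (-(1 / 2) : ℝ) * thu s cl R u t) / √(R / 2)

lemma cu_sqrt_pos {Q : ℕ} (hQ : 2 ≤ Q) : 0 < √(Q : ℝ) :=
  Real.sqrt_pos.2 (by exact_mod_cast (by omega : 0 < Q))

lemma cu_T_pos {Q : ℕ} (hQ : 2 ≤ Q) : 0 < 1 / √(Q : ℝ) := by
  have := cu_sqrt_pos hQ
  positivity

lemma cu_bound_small (hS : Sys s κ K) {cl : ℕ →*₀ W} {Q : ℕ} {R m : ℝ}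
    {Bad : Finset (MulChar W ℂ)} (hT : Td s K cl Q R m Bad) (hQ : 2 ≤ Q) {u : W} (hu : u ≠ 0)
    {t : ℝ} (ht : 0 < t) (htT : t ≤ 1 / √(Q : ℝ)) :
    ‖t ^ (-(1 / 2) : ℝ) * (thu s cl R u t - m / t)‖ ≤ K ^ 2 * t ^ (-(1 / 2) : ℝ) := by
  have hq := cu_sqrt_pos hQ
  have hK := hS.K_pos
  have hx : t * √(Q : ℝ) ≤ 1 := (le_div_iff₀ hq).1 htT
  have h1 := hT.part u hu t ht hx
  have hd : 0 < K * √(Q : ℝ) * t := by positivity
  have h2 : Real.exp (-(1 / (K * √(Q : ℝ) * t))) ≤ K * √(Q : ℝ) * t := by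
    have h3 : 1 / (K * √(Q : ℝ) * t) ≤ Real.exp (1 / (K * √(Q : ℝ) * t)) := by
      have := Real.add_one_le_exp (1 / (K * √(Q : ℝ) * t))
      linarith
    have h4 : 0 < 1 / (K * √(Q : ℝ) * t) := by positivity
    rw [Real.exp_neg]
    calc (Real.exp (1 / (K * √(Q : ℝ) * t)))⁻¹ ≤ (1 / (K * √(Q : ℝ) * t))⁻¹ :=
          inv_anti₀ h4 h3
      _ = K * √(Q : ℝ) * t := by rw [one_div, inv_inv]
  have h5 : |thu s cl R u t - m / t| ≤ K ^ 2 := by
    refine h1.trans ?_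
    calc K / (√(Q : ℝ) * t) * Real.exp (-(1 / (K * √(Q : ℝ) * t))) ≤
        K / (√(Q : ℝ) * t) * (K * √(Q : ℝ) * t) :=
          mul_le_mul_of_nonneg_left h2 (by positivity)
      _ = K ^ 2 := by
          field_simp
  have h6 : 0 ≤ t ^ (-(1 / 2) : ℝ) := Real.rpow_nonneg ht.le _
  rw [norm_mul, Real.norm_of_nonneg h6, mul_comm, Real.norm_eq_abs]
  exact mul_le_mul_of_nonneg_right h5 h6

lemma cu_rpow_int (T : ℝ) (hT : 0 < T) :
    IntegrableOn (fun t : ℝ => t ^ (-(1 / 2) : ℝ)) (Set.Ioc 0 T) ∧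
      ∫ t in Set.Ioc (0 : ℝ) T, t ^ (-(1 / 2) : ℝ) = 2 * T ^ (1 / 2 : ℝ) := by
  constructor
  · rw [← intervalIntegrable_iff_integrableOn_Ioc_of_le hT.le]
    exact intervalIntegral.intervalIntegrable_rpow' (by norm_num)
  · rw [← intervalIntegral.integral_of_le hT.le, integral_rpow (Or.inl (by norm_num))]
    have h1 : (-(1 / 2) : ℝ) + 1 = 1 / 2 := by norm_num
    rw [h1, Real.zero_rpow (by norm_num)]
    ring

lemma cu_meas (hS : Sys s κ K) (cl : ℕ →*₀ W) {R : ℝ} (hR : 0 < R) (u : W) (c : ℝ)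
    {S : Set ℝ} (hSp : S ⊆ Set.Ioi 0) :
    AEStronglyMeasurable (fun t : ℝ => t ^ (-(1 / 2) : ℝ) * (thu s cl R u t - c / t))
      (volume.restrict S) := by
  have h1 : AEStronglyMeasurable (fun t => thu s cl R u t) (volume.restrict S) :=
    (aesm_thu hS cl hR u).mono_measure (Measure.restrict_mono hSp le_rfl)
  have h2 : AEStronglyMeasurable (fun t : ℝ => c / t) (volume.restrict S) :=
    (measurable_const.div measurable_id).aestronglyMeasurable
  have h3 : AEStronglyMeasurable (fun t : ℝ => t ^ (-(1 / 2) : ℝ)) (volume.restrict S) :=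
    (measurable_id.pow_const _).aestronglyMeasurable
  exact h3.mul (h1.sub h2)

theorem thu_int_small (hS : Sys s κ K) {cl : ℕ →*₀ W} {Q : ℕ} {R m : ℝ}
    {Bad : Finset (MulChar W ℂ)} (hT : Td s K cl Q R m Bad) (hQ : 2 ≤ Q) {u : W} (hu : u ≠ 0) :
    IntegrableOn (fun t : ℝ => t ^ (-(1 / 2) : ℝ) * (thu s cl R u t - m / t))
        (Set.Ioc (0 : ℝ) (1 / √(Q : ℝ))) ∧
      |∫ t in Set.Ioc (0 : ℝ) (1 / √(Q : ℝ)), t ^ (-(1 / 2) : ℝ) * (thu s cl R u t - m / t)| ≤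
        2 * K ^ 2 * (Q : ℝ) ^ (-(1 / 4) : ℝ) := by
  have hTp := cu_T_pos hQ
  obtain ⟨hi, hv⟩ := cu_rpow_int (1 / √(Q : ℝ)) hTp
  have hi' : IntegrableOn (fun t : ℝ => K ^ 2 * t ^ (-(1 / 2) : ℝ))
      (Set.Ioc (0 : ℝ) (1 / √(Q : ℝ))) := hi.const_mul (K ^ 2)
  have hb : ∀ᵐ t ∂(volume.restrict (Set.Ioc (0 : ℝ) (1 / √(Q : ℝ)))),
      ‖t ^ (-(1 / 2) : ℝ) * (thu s cl R u t - m / t)‖ ≤ K ^ 2 * t ^ (-(1 / 2) : ℝ) := by
    rw [ae_restrict_iff' measurableSet_Ioc]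
    exact Filter.Eventually.of_forall fun t ht => cu_bound_small hS hT hQ hu ht.1 ht.2
  refine ⟨Integrable.mono' hi' (cu_meas hS cl hT.R_pos u m
    (fun t ht => ht.1)) hb, ?_⟩
  rw [← Real.norm_eq_abs]
  refine (norm_integral_le_of_norm_le hi' hb).trans (le_of_eq ?_)
  rw [integral_const_mul, hv]
  have h1 : (1 / √(Q : ℝ)) ^ (1 / 2 : ℝ) = (Q : ℝ) ^ (-(1 / 4) : ℝ) := by
    rw [Real.sqrt_eq_rpow, one_div, ← Real.rpow_neg (Nat.cast_nonneg _),
      ← Real.rpow_mul (Nat.cast_nonneg _)]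
    congr 1
    norm_num
  rw [h1]
  ring

theorem thu_int_large (hS : Sys s κ K) {cl : ℕ →*₀ W} {Q : ℕ} {R m : ℝ}
    {Bad : Finset (MulChar W ℂ)} (hT : Td s K cl Q R m Bad) (hQ : 2 ≤ Q) {u : W} (hu : u ≠ 0) :
    IntegrableOn (fun t : ℝ => t ^ (-(1 / 2) : ℝ) * thu s cl R u t)
      (Set.Ioi (1 / √(Q : ℝ))) := by
  have hTp := cu_T_pos hQ
  have hR := hT.R_pos
  have hK := hS.K_pos
  set T : ℝ := 1 / √(Q : ℝ) with hTd
  set a : ℝ := 2 * π / R with ha
  have hap : 0 < a := by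
    have := Real.pi_pos
    positivity
  have he : 0 < 1 - Real.exp (-(a * T)) := by
    have : Real.exp (-(a * T)) < 1 := Real.exp_lt_one_iff.2 (by
      have : 0 < a * T := by positivity
      linarith)
    linarith
  have hi : IntegrableOn (fun t : ℝ => (T ^ (-(1 / 2) : ℝ) * (K / (1 - Real.exp (-(a * T))))) *
      Real.exp (-a * t)) (Set.Ioi T) := (exp_neg_integrableOn_Ioi T hap).const_mul _
  have hm : AEStronglyMeasurable (fun t : ℝ => t ^ (-(1 / 2) : ℝ) * thu s cl R u t)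
      (volume.restrict (Set.Ioi T)) := by
    have h1 := cu_meas hS cl hR u 0 (S := Set.Ioi T)
      (fun t ht => hTp.trans ht)
    refine h1.congr (Filter.Eventually.of_forall fun t => ?_)
    simp only [zero_div, sub_zero]
  refine Integrable.mono' hi hm ?_
  rw [ae_restrict_iff' measurableSet_Ioi]
  refine Filter.Eventually.of_forall fun t ht => ?_
  have htT : T < t := ht
  have ht0 : 0 < t := hTp.trans htT
  have h1 := thu_le hS cl hR hu ht0
  have h2 : t ^ (-(1 / 2) : ℝ) ≤ T ^ (-(1 / 2) : ℝ) :=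
    Real.rpow_le_rpow_of_nonpos hTp htT.le (by norm_num)
  have h3 : K / (Real.exp (2 * π * t / R) - 1) ≤ K / (1 - Real.exp (-(a * T))) *
      Real.exp (-a * t) := by
    have h4 : 2 * π * t / R = a * t := by
      rw [ha]
      ring
    have h5 : Real.exp (a * t) * (1 - Real.exp (-(a * T))) ≤ Real.exp (a * t) - 1 := by
      have h6 : 1 ≤ Real.exp (a * t) * Real.exp (-(a * T)) := by
        rw [← Real.exp_add]
        refine Real.one_le_exp ?_
        have := mul_le_mul_of_nonneg_left htT.le hap.le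
        linarith
      linarith
    have h7 : 0 < Real.exp (a * t) * (1 - Real.exp (-(a * T))) :=
      mul_pos (Real.exp_pos _) he
    rw [h4]
    calc K / (Real.exp (a * t) - 1) ≤ K / (Real.exp (a * t) * (1 - Real.exp (-(a * T)))) :=
          div_le_div_of_nonneg_left hK.le h7 h5
      _ = K / (1 - Real.exp (-(a * T))) * Real.exp (-a * t) := by
          rw [show -a * t = -(a * t) by ring, Real.exp_neg (a * t), ← div_eq_mul_inv, div_div,
            mul_comm (1 - Real.exp (-(a * T)))]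
  have h8 : 0 ≤ t ^ (-(1 / 2) : ℝ) := Real.rpow_nonneg ht0.le _
  have h9 := thu_nonneg (s := s) cl R u t
  rw [Real.norm_of_nonneg (mul_nonneg h8 h9), mul_assoc]
  refine mul_le_mul h2 (h1.trans h3) h9 (Real.rpow_nonneg hTp.le _)

/-- a class has at most `K (1 + X / Q)` elements of size at most `X` -/
theorem class_count (hS : Sys s κ K) {cl : ℕ →*₀ W} {Q : ℕ} (hM : Md s K cl Q) (u : W)
    (X : ℝ) (hX : 0 ≤ X) (P : Finset ℕ) (hP : ∀ n ∈ P, n ≠ 0 ∧ (s n : ℝ) ≤ X ∧ cl n = u) :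
    (P.card : ℝ) ≤ K * (1 + X / Q) := by
  have h1 := hM.slope u (P ×ˢ {1}) X 1 1 one_pos one_pos hX (by
    intro p hp
    rw [Finset.mem_product, Finset.mem_singleton] at hp
    obtain ⟨h1, h2, h3⟩ := hP p.1 hp.1
    rw [hp.2]
    refine ⟨Nat.coprime_one_right _, h1, one_ne_zero, h2, ?_, ?_, ?_⟩
    · rw [map_one]
      norm_num
    · rw [map_one]
      norm_num
    · rw [h3, map_one, mul_one])
  rw [Finset.card_product, Finset.card_singleton, mul_one, one_mul, mul_one] at h1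
  exact h1

theorem Lv_eq_sum [Fintype W] (hS : Sys s κ K) {cl : ℕ →*₀ W} {Q : ℕ} {R m : ℝ}
    {Bad : Finset (MulChar W ℂ)} (hM : Md s K cl Q) (hT : Td s K cl Q R m Bad)
    {χ : MulChar W ℂ} (hχ : χ ∉ Bad) :
    Lv s cl R χ = ∑ u : W, χ u * ((cU s cl Q R m u : ℝ) : ℂ) := by
  have hQ := hM.Q_two
  have hTp := cu_T_pos hQ
  have hR := hT.R_pos
  have hχ1 : χ ≠ 1 := fun h => hχ (h ▸ hT.one_mem)
  have hsum : ∑ u : W, χ u = 0 := MulChar.sum_eq_zero_of_ne_one hχ1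
  set T : ℝ := 1 / √(Q : ℝ) with hTd
  have hint : Integrable (gth s cl R χ) Pool.Agent.H14.PT.mu0 := gth_integrable hS hT hχ
  have hsplit : Lint s cl R χ = (∫ t in Set.Ioc (0 : ℝ) T, gth s cl R χ t) +
      ∫ t in Set.Ioi T, gth s cl R χ t := by
    rw [Lint_eq]
    have h1 : Set.Ioi (0 : ℝ) = Set.Ioc 0 T ∪ Set.Ioi T := (Set.Ioc_union_Ioi_eq_Ioi hTp.le).symm
    have h2 : IntegrableOn (gth s cl R χ) (Set.Ioi 0) := hint
    change ∫ t in Set.Ioi (0 : ℝ), gth s cl R χ t = _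
    rw [h1, setIntegral_union (Set.Ioc_disjoint_Ioi le_rfl) measurableSet_Ioi
      (h2.mono_set fun t ht => ht.1) (h2.mono_set fun t ht => hTp.trans ht)]
  have hA : ∫ t in Set.Ioc (0 : ℝ) T, gth s cl R χ t =
      ∑ u : W, χ u * (((∫ t in Set.Ioc (0 : ℝ) T,
        t ^ (-(1 / 2) : ℝ) * (thu s cl R u t - m / t) : ℝ)) : ℂ) := by
    have h1 : ∀ t ∈ Set.Ioc (0 : ℝ) T, gth s cl R χ t =
        ∑ u : W, χ u * (((t ^ (-(1 / 2) : ℝ) * (thu s cl R u t - m / t) : ℝ)) : ℂ) := by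
      intro t ht
      have h2 : ∑ u : W, χ u * (((t ^ (-(1 / 2) : ℝ) * (thu s cl R u t - m / t) : ℝ)) : ℂ) =
          ((t ^ (-(1 / 2) : ℝ) : ℝ) : ℂ) * (∑ u : W, χ u * ((thu s cl R u t : ℝ) : ℂ)) -
            ((t ^ (-(1 / 2) : ℝ) : ℝ) : ℂ) * ((m / t : ℝ) : ℂ) * ∑ u : W, χ u := by
        rw [Finset.mul_sum, Finset.mul_sum, ← Finset.sum_sub_distrib]
        refine Finset.sum_congr rfl fun u _ => ?_
        push_cast
        ring
      rw [h2, hsum, mul_zero, sub_zero, ← Tht_eq_sum hS cl hR χ ht.1]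
      rfl
    rw [setIntegral_congr_fun measurableSet_Ioc h1, integral_finsetSum]
    · refine Finset.sum_congr rfl fun u _ => ?_
      rw [integral_const_mul, integral_complex_ofReal]
    · intro u _
      by_cases hu : u = 0
      · rw [hu, chi_zero]
        simp
      · exact ((thu_int_small hS hT hQ hu).1.ofReal (𝕜 := ℂ)).const_mul (χ u)
  have hB : ∫ t in Set.Ioi T, gth s cl R χ t =
      ∑ u : W, χ u * (((∫ t in Set.Ioi T, t ^ (-(1 / 2) : ℝ) * thu s cl R u t : ℝ)) : ℂ) := by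
    have h1 : ∀ t ∈ Set.Ioi T, gth s cl R χ t =
        ∑ u : W, χ u * (((t ^ (-(1 / 2) : ℝ) * thu s cl R u t : ℝ)) : ℂ) := by
      intro t ht
      have ht0 : 0 < t := hTp.trans ht
      have h2 : ∑ u : W, χ u * (((t ^ (-(1 / 2) : ℝ) * thu s cl R u t : ℝ)) : ℂ) =
          ((t ^ (-(1 / 2) : ℝ) : ℝ) : ℂ) * (∑ u : W, χ u * ((thu s cl R u t : ℝ) : ℂ)) := by
        rw [Finset.mul_sum]
        refine Finset.sum_congr rfl fun u _ => ?_
        push_cast
        ring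
      rw [h2, ← Tht_eq_sum hS cl hR χ ht0]
      rfl
    rw [setIntegral_congr_fun measurableSet_Ioi h1, integral_finsetSum]
    · refine Finset.sum_congr rfl fun u _ => ?_
      rw [integral_const_mul, integral_complex_ofReal]
    · intro u _
      by_cases hu : u = 0
      · rw [hu, chi_zero]
        simp
      · exact ((thu_int_large hS hT hQ hu).ofReal (𝕜 := ℂ)).const_mul (χ u)
  unfold Lv
  rw [hsplit, hA, hB, ← Finset.sum_add_distrib, Finset.sum_div]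
  refine Finset.sum_congr rfl fun u _ => ?_
  unfold cU
  push_cast
  ring

end Pool.Agent.H14.BN
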