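import Pool.Agent.H14.BN.CU
import Pool.Agent.H14.PT.Kernel

/-!
# The coefficients of the classes

`cU u = ∑_{cl n = u, s n < Q} (s n)^(-1/2) + O(C / √Q)`.

* `int_exp_tail`: `∫_T^∞ t^(-1/2) exp (-(2 π t x / R)) dt = √(R/2) x^(-1/2) gam (1/2) (2 π T x / R) / √π`
  (`inner_scale` of `H14/PT/Kernel.lean` with `β = 2 π x / R`).
* `thu_tail`: exchange of sum and integral (nonnegative terms; `integral_tsum` or
  `hasSum_integral_of_summable_integral_norm`; the integrals are at most `√(R/2) x^(-1/2)` times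
  `x⁻¹`-decay, summable by `size_summable`).
* `cU_sub`: the first integral of `cU` is at most `2 K² Q^(-1/4)` (`thu_int_small`) and
  `√(R/2) ≥ (Q / K)^(1/4) / √2`.  For `s n < Q`: `0 ≤ 1 - gam (1/2) x / √π ≤ 2 x^(1/2) / √π`
  (`gam_lower`) with `x = 2 π s n / (R √Q)`, so the difference is at most
  `C / √Q` for each of at most `2 K` numbers (`class_count`).  For `s n ≥ Q`:
  `gam (1/2) x ≤ x⁻¹ Γ(3/2)` (`gam_upper`, `A = 1`), so the term is at most `C Q (s n)^(-3/2)`; dyadic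
  blocks `2^j Q ≤ s n < 2^(j+1) Q` with at most `K (1 + 2^(j+1))` elements each.
-/

namespace Pool.Agent.H14.BN

open Finset MeasureTheory
open Pool.Agent.H14.PT (gam inner_scale gam_lower gam_upper gam_nonneg)
open scoped ComplexConjugate Real

universe u

variable {s : ℕ →*₀ ℕ} {κ K : ℝ}

theorem int_exp_tail {R x T : ℝ} (hR : 0 < R) (hx : 0 < x) (hT : 0 < T) :
    ∫ t in Set.Ioi T, t ^ (-(1 / 2) : ℝ) * Real.exp (-(2 * π * t * x / R)) =
      √(R / 2) * (x ^ (-(1 / 2) : ℝ) * (gam (1 / 2) (2 * π * T * x / R) / √π)) := by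
  have hπ := Real.pi_pos
  have hβ : 0 < 2 * π * x / R := by positivity
  have h1 := inner_scale (a := 1 / 2) hβ hT.le
  have e1 : ∫ t in Set.Ioi T, t ^ (-(1 / 2) : ℝ) * Real.exp (-(2 * π * t * x / R)) =
      ∫ u in Set.Ioi T, Real.exp (-(2 * π * x / R * u)) * u ^ ((1 / 2 : ℝ) - 1) := by
    refine integral_congr_ae (Filter.Eventually.of_forall fun t => ?_)
    have e2 : (-(1 / 2) : ℝ) = (1 / 2 : ℝ) - 1 := by norm_num
    have e3 : 2 * π * t * x / R = 2 * π * x / R * t := by ring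
    simp only [e2, e3]
    ring
  have e4 : 2 * π * x / R * T = 2 * π * T * x / R := by ring
  rw [e1, h1, e4]
  have e5 : (2 * π * x / R) ^ (-(1 / 2) : ℝ) = √(R / 2) * (x ^ (-(1 / 2) : ℝ) / √π) := by
    rw [Real.rpow_neg hβ.le, ← Real.sqrt_eq_rpow, Real.rpow_neg hx.le, ← Real.sqrt_eq_rpow]
    have e6 : 2 * π * x / R = π * x / (R / 2) := by field_simp
    rw [e6, Real.sqrt_div (by positivity), Real.sqrt_mul hπ.le]
    have p1 : 0 < √π := Real.sqrt_pos.mpr hπ
    have p2 : 0 < √x := Real.sqrt_pos.mpr hx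
    have p3 : 0 < √(R / 2) := Real.sqrt_pos.mpr (by positivity)
    field_simp
  rw [e5]
  ring

private lemma cu2_integrable {R x T : ℝ} (hR : 0 < R) (hx : 0 < x) (hT : 0 < T) :
    IntegrableOn (fun t : ℝ => t ^ (-(1 / 2) : ℝ) * Real.exp (-(2 * π * t * x / R)))
      (Set.Ioi T) := by
  have hπ := Real.pi_pos
  have hβ : 0 < 2 * π * x / R := by positivity
  have h1 := integrableOn_rpow_mul_exp_neg_mul_rpow (p := 1) (s := (-(1 / 2) : ℝ)) (by norm_num)
    (by norm_num) hβ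
  refine (h1.mono_set (Set.Ioi_subset_Ioi hT.le)).congr_fun (fun t _ => ?_) measurableSet_Ioi
  simp only [Real.rpow_one]
  congr 2
  ring

open Classical in
theorem thu_tail {W : Type u} [CommGroupWithZero W] (hS : Sys s κ K) (cl : ℕ →*₀ W) {R T : ℝ}
    (hR : 0 < R) (hT : 0 < T) {u : W} (hu : u ≠ 0) :
    HasSum (fun n : ℕ => if cl n = u then
      √(R / 2) * ((s n : ℝ) ^ (-(1 / 2) : ℝ) * (gam (1 / 2) (2 * π * T * (s n : ℝ) / R) / √π)) else 0)
      (∫ t in Set.Ioi T, t ^ (-(1 / 2) : ℝ) * thu s cl R u t) := by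
  have hπ := Real.pi_pos
  set F : ℕ → ℝ → ℝ := fun n t => if cl n = u then
    t ^ (-(1 / 2) : ℝ) * Real.exp (-(2 * π * t * (s n : ℝ) / R)) else 0 with hF
  have hn0 : ∀ n : ℕ, cl n = u → n ≠ 0 := by
    rintro n hn rfl
    rw [map_zero] at hn
    exact hu hn.symm
  have hint : ∀ n, Integrable (F n) (volume.restrict (Set.Ioi T)) := by
    intro n
    by_cases h : cl n = u
    · simp only [hF, h, if_true]
      exact cu2_integrable hR (hS.r_pos (hn0 n h)) hT
    · simp only [hF, h, if_false]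
      exact integrable_zero _ _ _
  have hval : ∀ n, ∫ t in Set.Ioi T, F n t = if cl n = u then
      √(R / 2) * ((s n : ℝ) ^ (-(1 / 2) : ℝ) *
        (gam (1 / 2) (2 * π * T * (s n : ℝ) / R) / √π)) else 0 := by
    intro n
    by_cases h : cl n = u
    · simp only [hF, h, if_true]
      exact int_exp_tail hR (hS.r_pos (hn0 n h)) hT
    · simp only [hF, h, if_false, integral_zero]
  have hnorm : ∀ n, ∫ t in Set.Ioi T, ‖F n t‖ = ∫ t in Set.Ioi T, F n t := by
    intro n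
    refine setIntegral_congr_fun measurableSet_Ioi fun t ht => ?_
    have ht0 : 0 < t := lt_trans hT ht
    simp only [hF]
    split_ifs
    · rw [Real.norm_of_nonneg (by positivity)]
    · rw [norm_zero]
  have hsum : Summable fun n => ∫ t in Set.Ioi T, ‖F n t‖ := by
    set C : ℝ := √(R / 2) * ((2 * π * T / R) ^ (-1 : ℝ) * Real.Gamma (1 / 2 + 1) / √π) with hC
    have hG : 0 < Real.Gamma (1 / 2 + 1) := Real.Gamma_pos_of_pos (by norm_num)
    have hC0 : 0 ≤ C := by positivity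
    have h1 := (size_summable hS (fun k => C * (k : ℝ) ^ (-(3 / 2) : ℝ)) (fun k => by positivity)
      (fun k l hk hkl => by
        have hk0 : (0 : ℝ) < k := by exact_mod_cast hk
        refine mul_le_mul_of_nonneg_left ?_ hC0
        exact Real.rpow_le_rpow_of_nonpos hk0 (by exact_mod_cast hkl) (by norm_num))
      ((Real.summable_nat_rpow.mpr (by norm_num)).mul_left C)).1
    refine Summable.of_nonneg_of_le (fun n => integral_nonneg fun t => norm_nonneg _)
      (fun n => ?_) h1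
    rw [hnorm, hval]
    by_cases h : cl n = u
    · have hn := hn0 n h
      have hx : (0 : ℝ) < (s n : ℝ) := hS.r_pos hn
      rw [if_pos h, if_neg hn]
      have hy : 0 < 2 * π * T * (s n : ℝ) / R := by positivity
      have h2 := gam_upper (a := 1 / 2) (by norm_num) (A := 1) (by norm_num) hy
      have e1 : (2 * π * T * (s n : ℝ) / R) ^ (-1 : ℝ) =
          (2 * π * T / R) ^ (-1 : ℝ) * (s n : ℝ) ^ (-1 : ℝ) := by
        rw [← Real.mul_rpow (by positivity) hx.le]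
        congr 1
        ring
      have e2 : (s n : ℝ) ^ (-(3 / 2) : ℝ) = (s n : ℝ) ^ (-(1 / 2) : ℝ) * (s n : ℝ) ^ (-1 : ℝ) := by
        rw [← Real.rpow_add hx]
        norm_num
      calc √(R / 2) * ((s n : ℝ) ^ (-(1 / 2) : ℝ) *
            (gam (1 / 2) (2 * π * T * (s n : ℝ) / R) / √π))
          ≤ √(R / 2) * ((s n : ℝ) ^ (-(1 / 2) : ℝ) *
            (((2 * π * T / R) ^ (-1 : ℝ) * (s n : ℝ) ^ (-1 : ℝ) *
              Real.Gamma (1 / 2 + 1)) / √π)) := by
            rw [e1] at h2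
            gcongr
        _ = C * (s n : ℝ) ^ (-(3 / 2) : ℝ) := by rw [e2, hC]; ring
    · rw [if_neg h]
      split_ifs
      · exact le_rfl
      · positivity
  have key := hasSum_integral_of_summable_integral_norm hint hsum
  have e1 : ∫ t in Set.Ioi T, ∑' n, F n t = ∫ t in Set.Ioi T, t ^ (-(1 / 2) : ℝ) * thu s cl R u t := by
    refine integral_congr_ae (Filter.Eventually.of_forall fun t => ?_)
    simp only [hF, thu]
    rw [← tsum_mul_left]
    refine tsum_congr fun n => ?_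
    split_ifs
    · rfl
    · rw [mul_zero]
  rw [e1] at key
  refine key.congr_fun ?_
  intro n
  exact (hval n).symm

/-- sum over the elements of a class of size at least `Q` -/
private lemma cu2_block {W : Type u} [CommGroupWithZero W] (hS : Sys s κ K) {cl : ℕ →*₀ W} {Q : ℕ}
    (hM : Md s K cl Q) (u : W) (F : Finset ℕ) (hF : ∀ n ∈ F, n ≠ 0 ∧ Q ≤ s n ∧ cl n = u) :
    ∑ n ∈ F, 1 / ((s n : ℝ) * √(s n : ℝ)) ≤ 12 * K / ((Q : ℝ) * √(Q : ℝ)) := by
  have hK0 := hS.K_pos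
  have hQ0 : 0 < Q := by have := hM.Q_two; omega
  have hQr : (0 : ℝ) < Q := by exact_mod_cast hQ0
  have hsQ : 0 < √(Q : ℝ) := Real.sqrt_pos.mpr hQr
  set f : ℕ → ℕ := fun n => Nat.log 2 (s n / Q) with hf
  set J : ℕ := F.sup f + 1 with hJ
  have hmaps : ∀ n ∈ F, f n ∈ range J := fun n hn =>
    mem_range.mpr (Nat.lt_succ_of_le (Finset.le_sup hn))
  rw [← Finset.sum_fiberwise_of_maps_to hmaps]
  have hb : ∀ n ∈ F, 2 ^ f n * Q ≤ s n ∧ s n ≤ 2 ^ (f n + 1) * Q := by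
    intro n hn
    obtain ⟨h1, h2, h3⟩ := hF n hn
    have h4 : s n / Q ≠ 0 := (Nat.div_pos h2 hQ0).ne'
    constructor
    · have h5 : 2 ^ f n ≤ s n / Q := Nat.pow_log_le_self 2 h4
      exact (Nat.le_div_iff_mul_le hQ0).mp h5
    · have h5 : s n / Q < 2 ^ (f n + 1) := Nat.lt_pow_succ_log_self (by norm_num) _
      exact ((Nat.div_lt_iff_lt_mul hQ0).mp h5).le
  have hblk : ∀ j ∈ range J, ∑ n ∈ F.filter (fun n => f n = j), 1 / ((s n : ℝ) * √(s n : ℝ)) ≤
      3 * K / ((Q : ℝ) * √(Q : ℝ)) * (1 / √2) ^ j := by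
    intro j _
    have hcard : ((F.filter (fun n => f n = j)).card : ℝ) ≤ K * (1 + 2 ^ (j + 1) * Q / Q) := by
      refine class_count hS hM u (2 ^ (j + 1) * Q) (by positivity) _ fun n hn => ?_
      obtain ⟨hnF, hnj⟩ := Finset.mem_filter.mp hn
      obtain ⟨h1, h2, h3⟩ := hF n hnF
      refine ⟨h1, ?_, h3⟩
      have h4 := (hb n hnF).2
      rw [hnj] at h4
      exact_mod_cast h4
    have hcard2 : ((F.filter (fun n => f n = j)).card : ℝ) ≤ 3 * K * 2 ^ j := by
      refine hcard.trans ?_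
      rw [mul_div_assoc, div_self hQr.ne', mul_one, pow_succ]
      have h1 : (1 : ℝ) ≤ 2 ^ j := one_le_pow₀ (by norm_num)
      nlinarith
    have hs2 : 0 < √(2 : ℝ) := Real.sqrt_pos.mpr (by norm_num)
    have h2j : √((2 : ℝ) ^ j) = √2 ^ j := by
      rw [Real.sqrt_eq_iff_mul_self_eq (by positivity) (by positivity), ← mul_pow,
        Real.mul_self_sqrt (by norm_num)]
    have hterm : ∀ n ∈ F.filter (fun n => f n = j), 1 / ((s n : ℝ) * √(s n : ℝ)) ≤
        1 / ((2 : ℝ) ^ j * Q * (√2 ^ j * √(Q : ℝ))) := by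
      intro n hn
      obtain ⟨hnF, hnj⟩ := Finset.mem_filter.mp hn
      have h4 := (hb n hnF).1
      rw [hnj] at h4
      have h5 : (2 : ℝ) ^ j * Q ≤ (s n : ℝ) := by exact_mod_cast h4
      have h6 : √2 ^ j * √(Q : ℝ) ≤ √(s n : ℝ) := by
        rw [← h2j, ← Real.sqrt_mul (by positivity)]
        exact Real.sqrt_le_sqrt h5
      exact one_div_le_one_div_of_le (by positivity) (by gcongr)
    refine (Finset.sum_le_card_nsmul _ _ _ hterm).trans ?_
    rw [nsmul_eq_mul]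
    refine (mul_le_mul_of_nonneg_right hcard2 (by positivity)).trans (le_of_eq ?_)
    rw [one_div_pow]
    have : (2 : ℝ) ^ j ≠ 0 := by positivity
    field_simp
  refine (Finset.sum_le_sum hblk).trans ?_
  rw [← Finset.mul_sum]
  have hr : (1 : ℝ) / √2 ≤ 3 / 4 := by
    have h1 : (4 : ℝ) / 3 ≤ √2 := Real.le_sqrt_of_sq_le (by norm_num)
    calc (1 : ℝ) / √2 ≤ 1 / (4 / 3) := one_div_le_one_div_of_le (by norm_num) h1
      _ = 3 / 4 := by norm_num
  have hgeo : ∑ j ∈ range J, ((1 : ℝ) / √2) ^ j ≤ 4 := by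
    have h0 : (0 : ℝ) ≤ 1 / √2 := by positivity
    calc ∑ j ∈ range J, ((1 : ℝ) / √2) ^ j ≤ ∑ j ∈ range J, (3 / 4 : ℝ) ^ j :=
          Finset.sum_le_sum fun j _ => pow_le_pow_left₀ h0 hr j
      _ ≤ ∑' j : ℕ, (3 / 4 : ℝ) ^ j :=
          (summable_geometric_of_lt_one (by norm_num) (by norm_num)).sum_le_tsum _
            fun j _ => by positivity
      _ = 4 := by rw [tsum_geometric_of_lt_one (by norm_num) (by norm_num)]; norm_num
  calc 3 * K / ((Q : ℝ) * √(Q : ℝ)) * ∑ j ∈ range J, ((1 : ℝ) / √2) ^ j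
      ≤ 3 * K / ((Q : ℝ) * √(Q : ℝ)) * 4 := mul_le_mul_of_nonneg_left hgeo (by positivity)
    _ = _ := by ring

open Classical in
theorem cU_sub (hS : Sys s κ K) : ∃ C : ℝ, 1 ≤ C ∧ ∀ (W : Type u) [CommGroupWithZero W]
    (cl : ℕ →*₀ W) (Q : ℕ) (R m : ℝ) (Bad : Finset (MulChar W ℂ)), Md s K cl Q →
    Td s K cl Q R m Bad → ∀ u : W, u ≠ 0 →
    |cU s cl Q R m u - ∑ n ∈ (SI s (Q - 1)).filter (fun n => cl n = u), (s n : ℝ) ^ (-(1 / 2) : ℝ)|
      ≤ C / √(Q : ℝ) := by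
  have hK1 := hS.K_one
  have hK0 := hS.K_pos
  have hπ := Real.pi_pos
  refine ⟨3 * K ^ 3 + 6 * K ^ 2 + K ^ 2, by nlinarith [pow_pos hK0 3, pow_pos hK0 2], ?_⟩
  intro W _ cl Q R m Bad hM hT u hu
  have hQ2 := hM.Q_two
  have hQr : (0 : ℝ) < Q := by exact_mod_cast (by omega : 0 < Q)
  have hsQ : 0 < √(Q : ℝ) := Real.sqrt_pos.mpr hQr
  have hQQ : √(Q : ℝ) * √(Q : ℝ) = Q := Real.mul_self_sqrt hQr.le
  have hR := hT.R_pos
  -- `√Q / K ≤ R ≤ K √Q`
  have hRlo : √(Q : ℝ) ≤ K * R := by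
    rw [Real.sqrt_le_left (by positivity)]
    have h1 := hT.R_lo
    have h2 : K * R ^ 2 ≤ K * (K * R ^ 2) := le_mul_of_one_le_left (by positivity) hK1
    calc (Q : ℝ) ≤ K * R ^ 2 := h1
      _ ≤ K * (K * R ^ 2) := h2
      _ = (K * R) ^ 2 := by ring
  have hRhi : R ≤ K * √(Q : ℝ) := by
    have h1 := hT.R_hi
    have h2 : R ^ 2 ≤ (K * √(Q : ℝ)) ^ 2 := by
      calc R ^ 2 ≤ K * Q := h1
        _ ≤ K * (K * Q) := le_mul_of_one_le_left (by positivity) hK1
        _ = (K * √(Q : ℝ)) ^ 2 := by rw [mul_pow, sq √(Q : ℝ), hQQ]; ring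
    exact le_of_sq_le_sq h2 (by positivity)
  set T : ℝ := 1 / √(Q : ℝ) with hTdef
  have hT0 : 0 < T := by positivity
  have hR2 : 0 < √(R / 2) := Real.sqrt_pos.mpr (by positivity)
  set g : ℕ → ℝ := fun n => gam (1 / 2) (2 * π * T * (s n : ℝ) / R) / √π with hg
  set a : ℕ → ℝ := fun n => if cl n = u then (s n : ℝ) ^ (-(1 / 2) : ℝ) * g n else 0 with ha
  set I1 := ∫ t in Set.Ioc (0 : ℝ) T, t ^ (-(1 / 2) : ℝ) * (thu s cl R u t - m / t) with hI1
  set I2 := ∫ t in Set.Ioi T, t ^ (-(1 / 2) : ℝ) * thu s cl R u t with hI2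
  have hsum : HasSum a (I2 / √(R / 2)) := by
    have h1 := (thu_tail hS cl hR hT0 hu).div_const √(R / 2)
    refine h1.congr_fun fun n => ?_
    simp only [ha, hg]
    split_ifs
    · field_simp
    · rw [zero_div]
  have hn0 : ∀ n : ℕ, cl n = u → n ≠ 0 := by
    rintro n hn rfl
    rw [map_zero] at hn
    exact hu hn.symm
  have ha0 : ∀ n, 0 ≤ a n := by
    intro n
    simp only [ha, hg]
    split_ifs
    · have := gam_nonneg (1 / 2) (show 0 ≤ 2 * π * T * (s n : ℝ) / R by positivity)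
      positivity
    · exact le_rfl
  set F0 := (SI s (Q - 1)).filter (fun n => cl n = u) with hF0
  -- the tail
  set b : ℕ → ℝ := fun n => a n - (if n ∈ F0 then a n else 0) with hb
  have hbsum : HasSum b (I2 / √(R / 2) - ∑ n ∈ F0, a n) := by
    have h1 : HasSum (fun n => if n ∈ F0 then a n else 0) (∑ n ∈ F0, a n) := by
      have h2 : HasSum (fun n => if n ∈ F0 then a n else 0)
          (∑ n ∈ F0, (if n ∈ F0 then a n else 0)) :=
        hasSum_sum_of_ne_finset_zero fun n hn => if_neg hn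
      have h3 : ∑ n ∈ F0, (if n ∈ F0 then a n else 0) = ∑ n ∈ F0, a n :=
        Finset.sum_congr rfl fun n hn => if_pos hn
      rwa [h3] at h2
    exact hsum.sub h1
  have hb0 : ∀ n, 0 ≤ b n := by
    intro n
    simp only [hb]
    split_ifs
    · rw [sub_self]
    · rw [sub_zero]; exact ha0 n
  have hbnd : ∀ S : Finset ℕ, ∑ n ∈ S, b n ≤ K ^ 2 / √(Q : ℝ) := by
    intro S
    set S' := S.filter (fun n => cl n = u ∧ n ∉ F0) with hS'
    have h1 : ∑ n ∈ S, b n = ∑ n ∈ S', a n := by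
      rw [hS', Finset.sum_filter]
      refine Finset.sum_congr rfl fun n _ => ?_
      simp only [hb]
      by_cases h : cl n = u
      · by_cases h' : n ∈ F0
        · rw [if_pos h', sub_self, if_neg (fun hc => hc.2 h')]
        · rw [if_neg h', sub_zero, if_pos ⟨h, h'⟩]
      · have h3 : n ∉ F0 := fun hc => h (Finset.mem_filter.mp hc).2
        rw [if_neg h3, if_neg (fun hc => h hc.1), sub_zero]
        simp only [ha]
        rw [if_neg h]
    have hmem : ∀ n ∈ S', n ≠ 0 ∧ Q ≤ s n ∧ cl n = u := by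
      intro n hn
      obtain ⟨_, h2, h3⟩ := Finset.mem_filter.mp hn
      have h4 := hn0 n h2
      refine ⟨h4, ?_, h2⟩
      by_contra hc
      exact h3 (Finset.mem_filter.mpr ⟨hS.mem_SI.mpr ⟨h4, by omega⟩, h2⟩)
    have hterm : ∀ n ∈ S', a n ≤ K * Q / 12 * (1 / ((s n : ℝ) * √(s n : ℝ))) := by
      intro n hn
      obtain ⟨h2, h3, h4⟩ := hmem n hn
      have hx : (0 : ℝ) < (s n : ℝ) := hS.r_pos h2
      have hy : 0 < 2 * π * T * (s n : ℝ) / R := by positivity
      have h5 := gam_upper (a := 1 / 2) (by norm_num) (A := 1) (by norm_num) hy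
      have h6 : Real.Gamma (1 / 2 + 1) = √π / 2 := by
        rw [Real.Gamma_add_one (by norm_num), Real.Gamma_one_half_eq]
        ring
      rw [h6, Real.rpow_neg_one] at h5
      have hsπ : 0 < √π := Real.sqrt_pos.mpr hπ
      have h7 : g n ≤ K * Q / (12 * (s n : ℝ)) := by
        simp only [hg]
        rw [div_le_iff₀ hsπ]
        refine h5.trans ?_
        have h8 : (2 * π * T * (s n : ℝ) / R)⁻¹ ≤ K * Q / (6 * (s n : ℝ)) := by
          rw [inv_div, div_le_div_iff₀ (by positivity) (by positivity)]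
          have h9 : T * Q = √(Q : ℝ) := by
            calc T * Q = 1 / √(Q : ℝ) * (√(Q : ℝ) * √(Q : ℝ)) := by rw [hTdef, hQQ]
              _ = √(Q : ℝ) := by field_simp
          have h10 : 3 < π := Real.pi_gt_three
          calc R * (6 * (s n : ℝ)) ≤ (K * √(Q : ℝ)) * (2 * π * (s n : ℝ)) := by
                gcongr
                linarith
            _ = K * (T * Q) * (2 * π * (s n : ℝ)) := by rw [h9]
            _ = K * Q * (2 * π * T * (s n : ℝ)) := by ring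
        calc (2 * π * T * (s n : ℝ) / R)⁻¹ * (√π / 2) ≤ K * Q / (6 * (s n : ℝ)) * (√π / 2) := by
              gcongr
          _ = K * Q / (12 * (s n : ℝ)) * √π := by
              field_simp
              norm_num
      have h8 : (s n : ℝ) ^ (-(1 / 2) : ℝ) = (√(s n : ℝ))⁻¹ := by
        rw [Real.rpow_neg hx.le, ← Real.sqrt_eq_rpow]
      simp only [ha]
      rw [if_pos h4, h8]
      have hsx : 0 < √(s n : ℝ) := Real.sqrt_pos.mpr hx
      calc (√(s n : ℝ))⁻¹ * g n ≤ (√(s n : ℝ))⁻¹ * (K * Q / (12 * (s n : ℝ))) := by gcongr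
        _ = K * Q / 12 * (1 / ((s n : ℝ) * √(s n : ℝ))) := by field_simp
    rw [h1]
    refine (Finset.sum_le_sum hterm).trans ?_
    rw [← Finset.mul_sum]
    have h2 := cu2_block hS hM u S' hmem
    calc K * Q / 12 * ∑ n ∈ S', 1 / ((s n : ℝ) * √(s n : ℝ))
        ≤ K * Q / 12 * (12 * K / ((Q : ℝ) * √(Q : ℝ))) :=
          mul_le_mul_of_nonneg_left h2 (by positivity)
      _ = K ^ 2 / √(Q : ℝ) := by field_simp
  have htail : I2 / √(R / 2) - ∑ n ∈ F0, a n ≤ K ^ 2 / √(Q : ℝ) :=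
    hasSum_le_of_sum_le hbsum hbnd
  have htail0 : 0 ≤ I2 / √(R / 2) - ∑ n ∈ F0, a n := hasSum_mono hasSum_zero hbsum hb0
  -- the elements of size less than `Q`
  have hF0c : (F0.card : ℝ) ≤ 2 * K := by
    have h1 := class_count hS hM u (Q : ℝ) hQr.le F0 fun n hn => by
      obtain ⟨h1, h2⟩ := Finset.mem_filter.mp hn
      obtain ⟨h3, h4⟩ := hS.mem_SI.mp h1
      refine ⟨h3, ?_, h2⟩
      have : s n ≤ Q := by omega
      exact_mod_cast this
    rw [div_self hQr.ne'] at h1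
    linarith
  have hsmall : ∀ n ∈ F0, |a n - (s n : ℝ) ^ (-(1 / 2) : ℝ)| ≤ 3 * K / √(Q : ℝ) := by
    intro n hn
    obtain ⟨h1, h2⟩ := Finset.mem_filter.mp hn
    obtain ⟨h3, h4⟩ := hS.mem_SI.mp h1
    have hx : (0 : ℝ) < (s n : ℝ) := hS.r_pos h3
    have hsx : 0 < √(s n : ℝ) := Real.sqrt_pos.mpr hx
    have hy : 0 ≤ 2 * π * T * (s n : ℝ) / R := by positivity
    have hsπ : 0 < √π := Real.sqrt_pos.mpr hπ
    have h5 := gam_lower (a := 1 / 2) (by norm_num) hy
    have h6 := Pool.Agent.H14.PT.gam_le (a := 1 / 2) (by norm_num) hy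
    rw [Real.Gamma_one_half_eq] at h5 h6
    have h7 : g n ≤ 1 := by
      simp only [hg]
      rw [div_le_one hsπ]
      exact h6
    have h8 : (1 - g n) * √π ≤ 2 * √(2 * π * T * (s n : ℝ) / R) := by
      have e1 : (1 - g n) * √π = √π - gam (1 / 2) (2 * π * T * (s n : ℝ) / R) := by
        simp only [hg]
        field_simp
      rw [e1]
      refine h5.trans (le_of_eq ?_)
      rw [← Real.sqrt_eq_rpow]
      ring
    have e2 : √(2 * π * T * (s n : ℝ) / R) = √π * √(s n : ℝ) * √(2 * T / R) := by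
      rw [← Real.sqrt_mul hπ.le, ← Real.sqrt_mul (by positivity)]
      congr 1
      ring
    have h9 : 1 - g n ≤ 2 * √(s n : ℝ) * √(2 * T / R) := by
      rw [e2] at h8
      refine le_of_mul_le_mul_right ?_ hsπ
      calc (1 - g n) * √π ≤ 2 * (√π * √(s n : ℝ) * √(2 * T / R)) := h8
        _ = _ := by ring
    have h10 : 2 * √(2 * T / R) ≤ 3 * K / √(Q : ℝ) := by
      have h11 : √(2 * T / R) ≤ 3 / 2 * K / √(Q : ℝ) := by
        rw [Real.sqrt_le_left (by positivity), div_le_iff₀ hR, div_pow, sq √(Q : ℝ), hQQ]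
        have h12 : T * Q = √(Q : ℝ) := by
          calc T * Q = 1 / √(Q : ℝ) * (√(Q : ℝ) * √(Q : ℝ)) := by rw [hTdef, hQQ]
            _ = √(Q : ℝ) := by field_simp
        have h13 : 2 * T * Q ≤ (3 / 2 * K) ^ 2 * R := by
          calc 2 * T * Q = 2 * (T * Q) := by ring
            _ = 2 * √(Q : ℝ) := by rw [h12]
            _ ≤ 2 * (K * R) := by gcongr
            _ ≤ (3 / 2 * K) ^ 2 * R := by
              have : K * R ≤ K * (K * R) := le_mul_of_one_le_left (by positivity) hK1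
              nlinarith
        calc 2 * T = 2 * T * Q / Q := by field_simp
          _ ≤ (3 / 2 * K) ^ 2 * R / Q := by gcongr
          _ = _ := by ring
      calc 2 * √(2 * T / R) ≤ 2 * (3 / 2 * K / √(Q : ℝ)) := by gcongr
        _ = _ := by ring
    have h8' : (s n : ℝ) ^ (-(1 / 2) : ℝ) = (√(s n : ℝ))⁻¹ := by
      rw [Real.rpow_neg hx.le, ← Real.sqrt_eq_rpow]
    have e3 : a n - (s n : ℝ) ^ (-(1 / 2) : ℝ) = -((√(s n : ℝ))⁻¹ * (1 - g n)) := by
      simp only [ha]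
      rw [if_pos h2, h8']
      ring
    rw [e3, abs_neg, abs_of_nonneg (mul_nonneg (by positivity) (by linarith))]
    calc (√(s n : ℝ))⁻¹ * (1 - g n) ≤ (√(s n : ℝ))⁻¹ * (2 * √(s n : ℝ) * √(2 * T / R)) := by
          gcongr
      _ = 2 * √(2 * T / R) := by field_simp
      _ ≤ _ := h10
  have hmid : |∑ n ∈ F0, a n - ∑ n ∈ F0, (s n : ℝ) ^ (-(1 / 2) : ℝ)| ≤ 6 * K ^ 2 / √(Q : ℝ) := by
    rw [← Finset.sum_sub_distrib]
    refine (Finset.abs_sum_le_sum_abs _ _).trans ?_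
    refine (Finset.sum_le_card_nsmul _ _ _ hsmall).trans ?_
    rw [nsmul_eq_mul]
    calc (F0.card : ℝ) * (3 * K / √(Q : ℝ)) ≤ 2 * K * (3 * K / √(Q : ℝ)) := by gcongr
      _ = _ := by ring
  -- the first integral
  have hfirst : |I1 / √(R / 2)| ≤ 3 * K ^ 3 / √(Q : ℝ) := by
    have h1 := (thu_int_small hS hT hQ2 hu).2
    rw [abs_div, abs_of_pos hR2, div_le_iff₀ hR2]
    refine h1.trans ?_
    have h2 : (Q : ℝ) ^ (-(1 / 4) : ℝ) = (√(√(Q : ℝ)))⁻¹ := by
      rw [Real.rpow_neg hQr.le, Real.sqrt_eq_rpow, Real.sqrt_eq_rpow, ← Real.rpow_mul hQr.le]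
      norm_num
    rw [h2]
    have h3 : 0 < √(√(Q : ℝ)) := Real.sqrt_pos.mpr hsQ
    have h4 : √(√(Q : ℝ)) * √(√(Q : ℝ)) = √(Q : ℝ) := Real.mul_self_sqrt hsQ.le
    have h5 : 2 * √(√(Q : ℝ)) ≤ 3 * K * √(R / 2) := by
      have h6 : √(√(Q : ℝ)) ≤ 3 / 2 * K * √(R / 2) := by
        rw [Real.sqrt_le_left (by positivity), mul_pow, Real.sq_sqrt (by positivity)]
        have : K * R ≤ K * (K * R) := le_mul_of_one_le_left (by positivity) hK1
        nlinarith
      linarith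
    calc 2 * K ^ 2 * (√(√(Q : ℝ)))⁻¹ = K ^ 2 * (2 * √(√(Q : ℝ))) / (√(√(Q : ℝ)) * √(√(Q : ℝ))) := by
          field_simp
      _ ≤ K ^ 2 * (3 * K * √(R / 2)) / (√(√(Q : ℝ)) * √(√(Q : ℝ))) := by gcongr
      _ = 3 * K ^ 3 / √(Q : ℝ) * √(R / 2) := by
          rw [h4]
          ring
  have hcU : cU s cl Q R m u = I1 / √(R / 2) + I2 / √(R / 2) := by
    unfold cU
    rw [← add_div]
  have hsplit : cU s cl Q R m u - ∑ n ∈ F0, (s n : ℝ) ^ (-(1 / 2) : ℝ) =
      I1 / √(R / 2) + (∑ n ∈ F0, a n - ∑ n ∈ F0, (s n : ℝ) ^ (-(1 / 2) : ℝ)) +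
        (I2 / √(R / 2) - ∑ n ∈ F0, a n) := by
    rw [hcU]
    ring
  rw [hsplit]
  have e5 : (3 * K ^ 3 + 6 * K ^ 2 + K ^ 2) / √(Q : ℝ) =
      3 * K ^ 3 / √(Q : ℝ) + 6 * K ^ 2 / √(Q : ℝ) + K ^ 2 / √(Q : ℝ) := by ring
  rw [e5]
  have h1 : |I2 / √(R / 2) - ∑ n ∈ F0, a n| ≤ K ^ 2 / √(Q : ℝ) := by
    rw [abs_of_nonneg htail0]
    exact htail
  exact (abs_add_three _ _ _).trans (by linarith)

end Pool.Agent.H14.BN
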