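import Pool.Agent.H14.BN.Chars

/-!
# Shifts of the weights, sized numbers

Port of `kf_comp`, `kf_shiftL`, `kf_shiftR` of `Pool/Agent/H74/TS/CharS.lean`.
-/

namespace Pool.Agent.H14.BN

open Finset Pool.Agent.H14.PT

universe u

variable {W : Type u} [CommGroupWithZero W]

theorem kf_comp {K : ℝ} {cl : ℕ →*₀ W} {h : ℝ} {v : ℕ × ℕ → ℝ} (hv : BN.KF K cl h v)
    (f : ℕ × ℕ → ℕ × ℕ) (hf : Function.Injective f)
    (H : ∀ (k : ℕ) (u : W), ∃ u' : W, ∀ t : Fin k → ℕ × ℕ,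
      cl (∏ i, (f (t i)).1) = u * cl (∏ i, (f (t i)).2) →
      cl (∏ i, (t i).1) = u' * cl (∏ i, (t i).2)) :
    BN.KF K cl h (fun p => v (f p)) := by
  classical
  refine ⟨hv.one_le, fun _ => hv.nonneg _, fun _ => hv.le_one _, ?_⟩
  intro P k R hk hR
  have h1 : ∑ p ∈ P, v (f p) = ∑ p ∈ P.image f, v p :=
    (sum_image fun a _ b _ hab => hf hab).symm
  rw [h1]
  refine hv.kf (P.image f) k R hk fun u => ?_
  obtain ⟨u', hu'⟩ := H k u
  refine le_trans ?_ (hR u')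
  norm_cast
  refine (card_le_card (t := ((Fintype.piFinset (fun _ : Fin k => P)).filter (fun t =>
    cl (∏ i, (t i).1) = u' * cl (∏ i, (t i).2))).image
      (fun t i => f (t i))) ?_).trans card_image_le
  intro t ht
  rw [mem_filter, Fintype.mem_piFinset] at ht
  have h2 : ∀ i, ∃ p ∈ P, f p = t i := fun i => mem_image.1 (ht.1 i)
  choose r hr hrt using h2
  have h3 : (fun i => f (r i)) = t := funext hrt
  refine mem_image.2 ⟨r, mem_filter.2 ⟨Fintype.mem_piFinset.2 hr, hu' r ?_⟩, h3⟩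
  have h4 := ht.2
  rw [← h3] at h4
  exact h4

theorem kf_shiftL {K : ℝ} {cl : ℕ →*₀ W} {h : ℝ} {v : ℕ × ℕ → ℝ} (hv : BN.KF K cl h v) (m : ℕ)
    (hm : cl m ≠ 0) : BN.KF K cl h (fun p => v (m * p.1, p.2)) := by
  have hm0 : m ≠ 0 := by
    rintro rfl
    exact hm (map_zero cl)
  refine kf_comp hv (fun p => (m * p.1, p.2)) ?_ fun k u => ⟨((cl m) ^ k)⁻¹ * u, fun t ht => ?_⟩
  · rintro ⟨a, b⟩ ⟨c, d⟩ h
    rw [Prod.mk.injEq] at h
    exact Prod.ext (Nat.eq_of_mul_eq_mul_left (Nat.pos_of_ne_zero hm0) h.1) h.2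
  · simp only at ht
    rw [prod_mul_distrib, prod_const, card_univ, Fintype.card_fin, map_mul, map_pow] at ht
    rw [mul_assoc, ← ht, inv_mul_cancel_left₀ (pow_ne_zero k hm)]

theorem kf_shiftR {K : ℝ} {cl : ℕ →*₀ W} {h : ℝ} {v : ℕ × ℕ → ℝ} (hv : BN.KF K cl h v) (m : ℕ)
    (hm : cl m ≠ 0) : BN.KF K cl h (fun p => v (p.1, m * p.2)) := by
  have hm0 : m ≠ 0 := by
    rintro rfl
    exact hm (map_zero cl)
  refine kf_comp hv (fun p => (p.1, m * p.2)) ?_ fun k u => ⟨u * (cl m) ^ k, fun t ht => ?_⟩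
  · rintro ⟨a, b⟩ ⟨c, d⟩ h
    rw [Prod.mk.injEq] at h
    exact Prod.ext h.1 (Nat.eq_of_mul_eq_mul_left (Nat.pos_of_ne_zero hm0) h.2)
  · simp only at ht
    rw [prod_mul_distrib, prod_const, card_univ, Fintype.card_fin, map_mul, map_pow] at ht
    rw [ht, mul_assoc]

end Pool.Agent.H14.BN
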