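import Mathlib

/-!
# Orthogonality of the characters of a finite group with zero

* `norm_chi`, `norm_chi_le`, `conj_chi`: `χ a` is a root of unity for `a ≠ 0` (`Wˣ` finite), `χ 0 = 0`.
* `card_chars_le`: `Nat.card (MulChar W ℂ) = Nat.card Wˣ`
  (`MulChar.card_eq_card_units_of_hasEnoughRootsOfUnity`).
* `orth_dual`: multiply by `χ0` with `χ0 (a b⁻¹) ≠ 1`
  (`MulChar.exists_apply_ne_one_of_hasEnoughRootsOfUnity`); compare
  `DirichletCharacter.sum_characters_eq`.  `∑ᶠ` is over all characters.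
* `orth_sum`: `MulChar.sum_eq_zero_of_ne_one` for `χ * ψ⁻¹`.
* `sum_char_sq`: expand the square and use `orth_sum`.
-/

namespace Pool.Agent.H14.BN

open Finset
open scoped ComplexConjugate

universe u

variable {W : Type u} [CommGroupWithZero W]

lemma norm_chi [Finite W] (χ : MulChar W ℂ) {a : W} (ha : a ≠ 0) : ‖χ a‖ = 1 := by
  have h1 : a ^ Nat.card Wˣ = 1 := by
    have h2 : (Units.mk0 a ha) ^ Nat.card Wˣ = 1 := pow_card_eq_one'
    have h3 := congrArg Units.val h2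
    rw [Units.val_pow_eq_pow_val, Units.val_mk0, Units.val_one] at h3
    exact h3
  have h4 : χ a ^ Nat.card Wˣ = 1 := by rw [← map_pow, h1, map_one]
  exact Complex.norm_eq_one_of_pow_eq_one h4 Nat.card_pos.ne'

lemma chi_zero (χ : MulChar W ℂ) : χ (0 : W) = 0 := MulChar.map_nonunit χ (by simp)

lemma norm_chi_le [Finite W] (χ : MulChar W ℂ) (a : W) : ‖χ a‖ ≤ 1 := by
  by_cases ha : a = 0
  · rw [ha, chi_zero]
    simp
  · exact (norm_chi χ ha).le

lemma conj_chi [Finite W] (χ : MulChar W ℂ) (a : W) : conj (χ a) = χ (a⁻¹) := by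
  by_cases ha : a = 0
  · rw [ha, inv_zero, chi_zero, map_zero]
  · rw [← Complex.inv_eq_conj (norm_chi χ ha)]
    have h1 : χ a * χ a⁻¹ = 1 := by rw [← map_mul, mul_inv_cancel₀ ha, map_one]
    exact inv_eq_of_mul_eq_one_right h1

theorem card_chars_le [Finite W] (𝒜 : Finset (MulChar W ℂ)) : 𝒜.card ≤ Nat.card Wˣ := by
  rw [← MulChar.card_eq_card_units_of_hasEnoughRootsOfUnity W ℂ]
  haveI : Fintype (MulChar W ℂ) := Fintype.ofFinite _
  rw [Nat.card_eq_fintype_card]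
  exact Finset.card_le_univ 𝒜

lemma orth_aux [Finite W] (χ ψ : MulChar W ℂ) (a : W) : χ a * conj (ψ a) = (χ * ψ⁻¹) a := by
  rw [conj_chi, MulChar.mul_apply, MulChar.inv_apply']

/-- sum over all characters -/
theorem orth_dual [Finite W] (a b : W) (hb : b ≠ 0) :
    ∑ᶠ χ : MulChar W ℂ, χ a * conj (χ b) = open Classical in
      if a = b then (Nat.card Wˣ : ℂ) else 0 := by
  classical
  haveI : Fintype (MulChar W ℂ) := Fintype.ofFinite _
  rw [finsum_eq_sum_of_fintype]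
  have h0 : ∀ χ : MulChar W ℂ, χ a * conj (χ b) = χ (a * b⁻¹) := by
    intro χ
    rw [conj_chi, ← map_mul]
  rw [Finset.sum_congr rfl (fun χ _ => h0 χ)]
  split_ifs with hab
  · rw [hab, mul_inv_cancel₀ hb]
    simp only [map_one, Finset.sum_const, Finset.card_univ, nsmul_eq_mul, mul_one]
    rw [← Nat.card_eq_fintype_card, MulChar.card_eq_card_units_of_hasEnoughRootsOfUnity W ℂ]
  · have hne : a * b⁻¹ ≠ 1 := by
      intro h
      exact hab ((mul_inv_eq_one₀ hb).1 h)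
    obtain ⟨χ, hχ⟩ := MulChar.exists_apply_ne_one_of_hasEnoughRootsOfUnity W ℂ hne
    refine eq_zero_of_mul_eq_self_left hχ ?_
    simp only [Finset.mul_sum, ← MulChar.mul_apply]
    exact Fintype.sum_bijective _ (Group.mulLeft_bijective χ) _ _ fun χ' ↦ rfl

/-- sum over all classes -/
theorem orth_sum [Fintype W] (χ ψ : MulChar W ℂ) :
    ∑ a : W, χ a * conj (ψ a) = open Classical in if χ = ψ then (Nat.card Wˣ : ℂ) else 0 := by
  classical
  rw [Finset.sum_congr rfl (fun a _ => orth_aux χ ψ a)]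
  split_ifs with h
  · rw [h, mul_inv_cancel, MulChar.sum_one_eq_card_units, Nat.card_eq_fintype_card]
  · exact MulChar.sum_eq_zero_of_ne_one (fun h1 => h (mul_inv_eq_one.1 h1))

theorem sum_char_sq [Fintype W] (𝒜 : Finset (MulChar W ℂ)) :
    ∑ a : W, ‖∑ χ ∈ 𝒜, χ a‖ ^ 2 = (Nat.card Wˣ : ℝ) * 𝒜.card := by
  classical
  have h1 : ((∑ a : W, ‖∑ χ ∈ 𝒜, χ a‖ ^ 2 : ℝ) : ℂ) = ((Nat.card Wˣ : ℝ) * 𝒜.card : ℝ) := by
    push_cast
    have h2 : ∀ a : W, ((‖∑ χ ∈ 𝒜, χ a‖ : ℝ) : ℂ) ^ 2 =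
        ∑ χ ∈ 𝒜, ∑ ψ ∈ 𝒜, χ a * conj (ψ a) := by
      intro a
      rw [← Complex.mul_conj', map_sum, Finset.sum_mul_sum]
    rw [Finset.sum_congr rfl (fun a _ => h2 a), Finset.sum_comm]
    have h3 : ∀ χ ∈ 𝒜, ∑ a : W, ∑ ψ ∈ 𝒜, χ a * conj (ψ a) = (Nat.card Wˣ : ℂ) := by
      intro χ hχ
      rw [Finset.sum_comm, Finset.sum_congr rfl (fun ψ _ => orth_sum χ ψ), Finset.sum_ite_eq]
      rw [if_pos hχ]
    rw [Finset.sum_congr rfl h3, Finset.sum_const, nsmul_eq_mul, mul_comm]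
  exact_mod_cast h1

end Pool.Agent.H14.BN
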