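import Pool.Agent.H14.BN.KF
import Pool.Agent.H14.BN.Orth

/-!
# The weight attached to a set of characters, sized numbers

Port of `Pool/Agent/H74/TS/Chars.lean`: `q - 1` becomes `Nat.card Wˣ`, `chars_conj` becomes
`conj_chi`, the sum over all Dirichlet characters becomes a sum over an arbitrary finite set `𝒰` of
characters (bounded by the sum over all, `orth_dual`), and `chars_kf` is multiplied by `K`
(`hh K 𝒜 = K * Nat.card Wˣ / 𝒜.card`).  If `b` has class `0` the term vanishes.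
-/

namespace Pool.Agent.H14.BN

open Finset Pool.Agent.H14.PT
open scoped ComplexConjugate

universe u

variable {W : Type u} [CommGroupWithZero W]

/-- the sum of `χ(a) conj χ(b)` over `𝒜` -/
noncomputable def fc (cl : ℕ →*₀ W) (𝒜 : Finset (MulChar W ℂ)) (p : ℕ × ℕ) : ℂ :=
  ∑ χ ∈ 𝒜, χ (cl p.1) * conj (χ (cl p.2))

/-- the weight -/
noncomputable def va (cl : ℕ →*₀ W) (𝒜 : Finset (MulChar W ℂ)) (p : ℕ × ℕ) : ℝ :=
  (‖fc cl 𝒜 p‖ / 𝒜.card) ^ 2

/-- the constant of the weight -/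
noncomputable def hh (K : ℝ) (𝒜 : Finset (MulChar W ℂ)) : ℝ := K * (Nat.card Wˣ : ℝ) / 𝒜.card

open Classical in
/-- the sum over all characters of the square of a character sum -/
lemma chars_dual_sq [Fintype W] [Fintype (MulChar W ℂ)] (Θ : W → ℂ) :
    ∑ χ : MulChar W ℂ, ‖∑ u : W, χ u * Θ u‖ ^ 2 =
      (Nat.card Wˣ : ℝ) * ∑ u : W, (if u ≠ 0 then ‖Θ u‖ ^ 2 else 0) := by
  have h1 : ((∑ χ : MulChar W ℂ, ‖∑ u : W, χ u * Θ u‖ ^ 2 : ℝ) : ℂ) =
      (((Nat.card Wˣ : ℝ) * ∑ u : W, (if u ≠ 0 then ‖Θ u‖ ^ 2 else 0) : ℝ) : ℂ) := by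
    push_cast
    have h2 : ∀ χ : MulChar W ℂ, ((‖∑ u : W, χ u * Θ u‖ : ℝ) : ℂ) ^ 2 =
        ∑ v : W, ∑ u : W, Θ u * conj (Θ v) * (χ u * conj (χ v)) := by
      intro χ
      rw [← Complex.mul_conj', map_sum, Finset.sum_mul_sum, Finset.sum_comm]
      refine Finset.sum_congr rfl fun v _ => Finset.sum_congr rfl fun u _ => ?_
      rw [map_mul]
      ring
    rw [Finset.sum_congr rfl (fun χ _ => h2 χ), Finset.sum_comm, Finset.mul_sum]
    refine Finset.sum_congr rfl fun v _ => ?_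
    rw [Finset.sum_comm]
    have h3 : ∀ u : W, ∑ χ : MulChar W ℂ, Θ u * conj (Θ v) * (χ u * conj (χ v)) =
        if u = v then (if v ≠ 0 then (Nat.card Wˣ : ℂ) * (Θ v * conj (Θ v)) else 0) else 0 := by
      intro u
      rw [← Finset.mul_sum]
      by_cases hv : v = 0
      · have h4 : ∀ χ : MulChar W ℂ, χ u * conj (χ v) = 0 := by
          intro χ
          rw [hv, chi_zero, map_zero, mul_zero]
        rw [Finset.sum_congr rfl (fun χ _ => h4 χ), Finset.sum_const_zero, mul_zero]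
        simp [hv]
      · have h4 := orth_dual u v hv
        rw [finsum_eq_sum_of_fintype] at h4
        rw [h4]
        by_cases huv : u = v
        · rw [if_pos huv, if_pos huv, if_pos hv, huv]
          ring
        · rw [if_neg huv, if_neg huv, mul_zero]
    rw [Finset.sum_congr rfl (fun u _ => h3 u), Finset.sum_ite_eq' Finset.univ v,
      if_pos (Finset.mem_univ v)]
    split_ifs
    · rw [Complex.mul_conj']
      push_cast
      rfl
    · simp
  exact_mod_cast h1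

open Classical in
theorem chars_moment [Finite W] (cl : ℕ →*₀ W) (𝒰 : Finset (MulChar W ℂ)) (P : Finset (ℕ × ℕ))
    (k : ℕ) (R : ℝ) (θ : ℕ × ℕ → ℂ)
    (hR : ∀ u : W, (((Fintype.piFinset (fun _ : Fin k => P)).filter (fun t =>
      cl (∏ i, (t i).1) = u * cl (∏ i, (t i).2))).card : ℝ) ≤ R) :
    ∑ χ ∈ 𝒰, ‖(∑ p ∈ P, θ p * (χ (cl p.1) * conj (χ (cl p.2)))) ^ k‖ ^ 2 ≤
      (Nat.card Wˣ : ℝ) * (R * (∑ p ∈ P, ‖θ p‖ ^ 2) ^ k) := by
  have : Fintype W := Fintype.ofFinite W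
  have : Fintype (MulChar W ℂ) := Fintype.ofFinite _
  set T := (Fintype.piFinset (fun _ : Fin k => P)).filter
    (fun t => cl (∏ i, (t i).2) ≠ 0) with hT
  set g : (Fin k → ℕ × ℕ) → W :=
    fun t => cl (∏ i, (t i).1) * (cl (∏ i, (t i).2))⁻¹ with hg
  set Θ : W → ℂ := fun u => ∑ t ∈ T.filter (fun t => g t = u), ∏ i, θ (t i) with hΘ
  have h1 : ∀ χ : MulChar W ℂ,
      (∑ p ∈ P, θ p * (χ (cl p.1) * conj (χ (cl p.2)))) ^ k =
        ∑ u : W, χ u * Θ u := by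
    intro χ
    rw [Finset.sum_pow']
    have h2 : ∀ t : Fin k → ℕ × ℕ,
        ∏ i, (θ (t i) * (χ (cl (t i).1) * conj (χ (cl (t i).2)))) =
          (∏ i, θ (t i)) * (χ (cl (∏ i, (t i).1)) * conj (χ (cl (∏ i, (t i).2)))) := by
      intro t
      rw [Finset.prod_mul_distrib, Finset.prod_mul_distrib]
      congr 2
      · rw [map_prod, map_prod]
      · rw [map_prod, map_prod, map_prod]
    rw [Finset.sum_congr rfl (fun t _ => h2 t)]
    have h3 : ∑ t ∈ Fintype.piFinset (fun _ : Fin k => P),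
        (∏ i, θ (t i)) * (χ (cl (∏ i, (t i).1)) * conj (χ (cl (∏ i, (t i).2)))) =
        ∑ t ∈ T, (∏ i, θ (t i)) * χ (g t) := by
      rw [hT, Finset.sum_filter]
      refine Finset.sum_congr rfl (fun t _ => ?_)
      split_ifs with h
      · rw [conj_chi, ← map_mul]
      · rw [not_not] at h
        rw [h, chi_zero, map_zero, mul_zero, mul_zero]
    rw [h3, ← Finset.sum_fiberwise T g]
    refine Finset.sum_congr rfl (fun u _ => ?_)
    rw [hΘ, Finset.mul_sum]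
    refine Finset.sum_congr rfl (fun t ht => ?_)
    rw [(Finset.mem_filter.1 ht).2, mul_comm]
  refine (Finset.sum_le_sum_of_subset_of_nonneg (Finset.subset_univ 𝒰)
    (fun _ _ _ => by positivity)).trans ?_
  rw [Finset.sum_congr rfl (fun χ _ => by rw [h1 χ]), chars_dual_sq]
  refine mul_le_mul_of_nonneg_left ?_ (Nat.cast_nonneg _)
  have h4 : ∀ u : W, (if u ≠ 0 then ‖Θ u‖ ^ 2 else 0) ≤
      R * ∑ t ∈ T.filter (fun t => g t = u), ‖∏ i, θ (t i)‖ ^ 2 := by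
    intro u
    have h5 : ‖Θ u‖ ^ 2 ≤ R * ∑ t ∈ T.filter (fun t => g t = u), ‖∏ i, θ (t i)‖ ^ 2 := by
      calc ‖Θ u‖ ^ 2 ≤ (∑ t ∈ T.filter (fun t => g t = u), ‖∏ i, θ (t i)‖) ^ 2 :=
            pow_le_pow_left₀ (norm_nonneg _) (norm_sum_le _ _) 2
        _ ≤ (T.filter (fun t => g t = u)).card *
            ∑ t ∈ T.filter (fun t => g t = u), ‖∏ i, θ (t i)‖ ^ 2 := sq_sum_le_card_mul_sum_sq
        _ ≤ R * ∑ t ∈ T.filter (fun t => g t = u), ‖∏ i, θ (t i)‖ ^ 2 := by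
            refine mul_le_mul_of_nonneg_right ?_ (Finset.sum_nonneg (fun _ _ => by positivity))
            refine le_trans ?_ (hR u)
            exact_mod_cast Finset.card_le_card (fun t ht => by
              rw [Finset.mem_filter, hT, Finset.mem_filter] at ht
              rw [Finset.mem_filter]
              refine ⟨ht.1.1, ?_⟩
              rw [← ht.2, hg]
              simp only
              rw [mul_assoc, inv_mul_cancel₀ ht.1.2, mul_one])
    split_ifs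
    · exact h5
    · exact le_trans (by positivity) h5
  refine (Finset.sum_le_sum (fun u _ => h4 u)).trans ?_
  rw [← Finset.mul_sum, Finset.sum_fiberwise T g (fun t => ‖∏ i, θ (t i)‖ ^ 2)]
  have hR0 : 0 ≤ R := le_trans (Nat.cast_nonneg _) (hR 0)
  refine mul_le_mul_of_nonneg_left ?_ hR0
  rw [Finset.sum_pow']
  refine (Finset.sum_le_sum_of_subset_of_nonneg (Finset.filter_subset _ _)
    (fun _ _ _ => by positivity)).trans (le_of_eq ?_)
  refine Finset.sum_congr rfl (fun t _ => ?_)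
  rw [norm_prod, Finset.prod_pow]

open Classical in
theorem chars_kf [Finite W] {K : ℝ} (hK : 1 ≤ K) (cl : ℕ →*₀ W) (𝒜 : Finset (MulChar W ℂ))
    (h𝒜 : 𝒜.Nonempty) (P : Finset (ℕ × ℕ)) (k : ℕ) (R : ℝ) (hk : 1 ≤ k)
    (hR : ∀ u : W, (((Fintype.piFinset (fun _ : Fin k => P)).filter (fun t =>
      cl (∏ i, (t i).1) = u * cl (∏ i, (t i).2))).card : ℝ) ≤ R) :
    K * (∑ p ∈ P, va cl 𝒜 p) ^ k ≤ hh K 𝒜 * R := by
  have hR0 : 0 ≤ R := le_trans (Nat.cast_nonneg _) (hR 0)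
  have hN : (0 : ℝ) < 𝒜.card := by exact_mod_cast h𝒜.card_pos
  have hNC : (𝒜.card : ℂ) ≠ 0 := by exact_mod_cast h𝒜.card_pos.ne'
  set S := ∑ p ∈ P, va cl 𝒜 p with hS
  set θ : ℕ × ℕ → ℂ := fun p => conj (fc cl 𝒜 p / 𝒜.card) with hθ
  have hθS : ∑ p ∈ P, ‖θ p‖ ^ 2 = S := by
    rw [hS]
    refine Finset.sum_congr rfl (fun p _ => ?_)
    rw [hθ, va]
    simp only
    rw [Complex.norm_conj, norm_div, Complex.norm_natCast]
  have hS0 : 0 ≤ S := by
    rw [← hθS]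
    exact Finset.sum_nonneg (fun _ _ => by positivity)
  set D : MulChar W ℂ → ℂ :=
    fun χ => ∑ p ∈ P, θ p * (χ (cl p.1) * conj (χ (cl p.2))) with hD
  have h1 : (S : ℂ) = ∑ χ ∈ 𝒜, (1 / (𝒜.card : ℂ)) * D χ := by
    rw [← Finset.mul_sum, hD, Finset.sum_comm, ← hθS]
    push_cast
    rw [Finset.mul_sum]
    refine Finset.sum_congr rfl (fun p _ => ?_)
    rw [← Finset.mul_sum]
    have h2 : ∑ χ ∈ 𝒜, χ (cl p.1) * conj (χ (cl p.2)) = fc cl 𝒜 p := rfl
    have h3 : ((‖θ p‖ : ℂ)) ^ 2 = conj (θ p) * θ p := by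
      rw [mul_comm, Complex.mul_conj, Complex.normSq_eq_norm_sq]
      push_cast
      rfl
    have h4 : conj (θ p) = fc cl 𝒜 p / 𝒜.card := by
      rw [hθ]
      exact Complex.conj_conj _
    rw [h2, h3, h4]
    field_simp
  have h2 : S ≤ ∑ χ ∈ 𝒜, (1 / (𝒜.card : ℝ)) * ‖D χ‖ := by
    have h3 : ‖(S : ℂ)‖ = S := by
      rw [Complex.norm_real, Real.norm_of_nonneg hS0]
    rw [← h3, h1]
    refine (norm_sum_le _ _).trans (le_of_eq ?_)
    refine Finset.sum_congr rfl (fun χ _ => ?_)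
    rw [norm_mul, norm_div, norm_one, Complex.norm_natCast]
  have h3 : S ^ (2 * k) ≤ ((Nat.card Wˣ : ℝ) / 𝒜.card) * R * S ^ k := by
    calc S ^ (2 * k) ≤ (∑ χ ∈ 𝒜, (1 / (𝒜.card : ℝ)) * ‖D χ‖) ^ (2 * k) :=
          pow_le_pow_left₀ hS0 h2 _
      _ ≤ ∑ χ ∈ 𝒜, (1 / (𝒜.card : ℝ)) * ‖D χ‖ ^ (2 * k) := by
          refine Real.pow_arith_mean_le_arith_mean_pow _ _ _ (fun _ _ => by positivity) ?_
            (fun _ _ => norm_nonneg _) _
          rw [Finset.sum_const, nsmul_eq_mul]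
          field_simp
      _ = (1 / (𝒜.card : ℝ)) * ∑ χ ∈ 𝒜, ‖(D χ) ^ k‖ ^ 2 := by
          rw [Finset.mul_sum]
          refine Finset.sum_congr rfl (fun χ _ => ?_)
          rw [norm_pow, ← pow_mul, mul_comm k 2]
      _ ≤ (1 / (𝒜.card : ℝ)) * ((Nat.card Wˣ : ℝ) * (R * (∑ p ∈ P, ‖θ p‖ ^ 2) ^ k)) := by
          refine mul_le_mul_of_nonneg_left (chars_moment cl 𝒜 P k R θ hR) (by positivity)
      _ = ((Nat.card Wˣ : ℝ) / 𝒜.card) * R * S ^ k := by
          rw [hθS]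
          ring
  have hh0 : 0 ≤ ((Nat.card Wˣ : ℝ) / 𝒜.card) * R := by positivity
  have h4 : S ^ k ≤ ((Nat.card Wˣ : ℝ) / 𝒜.card) * R := by
    rcases hS0.lt_or_eq with hpos | hzero
    · rw [two_mul, pow_add] at h3
      exact le_of_mul_le_mul_right h3 (pow_pos hpos k)
    · rw [← hzero, zero_pow (by omega)]
      exact hh0
  calc K * S ^ k ≤ K * (((Nat.card Wˣ : ℝ) / 𝒜.card) * R) :=
        mul_le_mul_of_nonneg_left h4 (by linarith)
    _ = hh K 𝒜 * R := by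
      unfold hh
      ring

theorem va_kf [Finite W] {K : ℝ} (hK : 1 ≤ K) (cl : ℕ →*₀ W) (𝒜 : Finset (MulChar W ℂ))
    (h𝒜 : 𝒜.Nonempty) : BN.KF K cl (hh K 𝒜) (va cl 𝒜) := by
  have hN : (0 : ℝ) < 𝒜.card := by exact_mod_cast h𝒜.card_pos
  have hc : (𝒜.card : ℝ) ≤ (Nat.card Wˣ : ℝ) := by exact_mod_cast card_chars_le 𝒜
  refine ⟨?_, fun p => by unfold va; positivity, fun p => ?_, fun P k R hk hR =>
    chars_kf hK cl 𝒜 h𝒜 P k R hk hR⟩
  · rw [hh, one_le_div hN]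
    nlinarith
  · have h1 : ‖fc cl 𝒜 p‖ ≤ 𝒜.card := by
      refine (norm_sum_le _ _).trans ?_
      refine (Finset.sum_le_card_nsmul 𝒜 _ 1 (fun χ _ => ?_)).trans (by simp)
      rw [norm_mul, Complex.norm_conj]
      exact mul_le_one₀ (norm_chi_le χ _) (norm_nonneg _) (norm_chi_le χ _)
    unfold va
    exact pow_le_one₀ (by positivity) ((div_le_one hN).2 h1)

end Pool.Agent.H14.BN
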