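import Pool.Agent.H14.BN.Base
import Pool.Agent.H14.PT.Tau

/-!
# Elementary sums with the divisor function, sized numbers

Port of `Pool/Agent/H14/PT/Tau.lean`.  `Icc 1 T` becomes `SI s T` (`hS.mem_SI`), `(n : ℝ)` becomes
`(s n : ℝ)`; a divisor `d` of `t ∈ SI s T` lies in `SI s T` (`hS.le_of_dvd`), and so does `t / d`
(`Nat.div_dvd_of_dvd`).  `s (u * v) = s u * s v` (`map_mul`, `s_cast_mul`).
`card_divisors_mul_le`, `card_filter_mul_eq_le`, `tau_le_two_pow_Omega` are used from there.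

`dyadic_sum`: as there, with `g p = (Nat.log 2 (s p.1), Nat.log 2 (s p.2))` and `hS.s_ne`.
-/

namespace Pool.Agent.H14.BN

open Finset Pool.Agent.H14.PT

variable {s : ℕ →*₀ ℕ} {κ K : ℝ}

theorem sum_tau_mul_le (hS : Sys s κ K) (T : ℕ) (f : ℕ → ℝ) (hf : ∀ n, 0 ≤ f n) :
    ∑ t ∈ SI s T, (t.divisors.card : ℝ) * f t ≤ ∑ u ∈ SI s T, ∑ v ∈ SI s T, f (u * v) := by
  classical
  rw [← Finset.sum_product' (f := fun u v => f (u * v))]
  set S := (SI s T) ×ˢ (SI s T) with hSd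
  have h1 : ∑ p ∈ S.filter (fun p => p.1 * p.2 ∈ SI s T), f (p.1 * p.2) ≤ ∑ p ∈ S, f (p.1 * p.2) :=
    Finset.sum_le_sum_of_subset_of_nonneg (Finset.filter_subset _ _) (fun _ _ _ => hf _)
  refine le_trans ?_ h1
  rw [← Finset.sum_fiberwise_of_maps_to (s := S.filter (fun p => p.1 * p.2 ∈ SI s T)) (t := SI s T)
    (g := fun p => p.1 * p.2) (fun p hp => (Finset.mem_filter.mp hp).2)]
  refine Finset.sum_le_sum fun t ht => ?_
  have ht' := hS.mem_SI.mp ht
  have e1 : ∑ p ∈ (S.filter (fun p => p.1 * p.2 ∈ SI s T)).filter (fun p => p.1 * p.2 = t), f (p.1 * p.2)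
      = (((S.filter (fun p => p.1 * p.2 ∈ SI s T)).filter (fun p => p.1 * p.2 = t)).card : ℝ) * f t := by
    rw [Finset.sum_congr rfl (fun p hp => by rw [(Finset.mem_filter.mp hp).2]), Finset.sum_const,
      nsmul_eq_mul]
  rw [e1]
  refine mul_le_mul_of_nonneg_right ?_ (hf t)
  have : t.divisors.card ≤
      ((S.filter (fun p => p.1 * p.2 ∈ SI s T)).filter (fun p => p.1 * p.2 = t)).card := by
    refine Finset.card_le_card_of_injOn (fun d => (d, t / d)) ?_ ?_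
    · intro d hd
      have hd' := Nat.mem_divisors.mp (Finset.mem_coe.mp hd)
      have hm : d * (t / d) = t := Nat.mul_div_cancel' hd'.1
      have hm0 : d * (t / d) ≠ 0 := by rw [hm]; exact ht'.1
      have h2 : s d ≤ s t := hS.le_of_dvd hd'.1 ht'.1
      have h3 : s (t / d) ≤ s t := hS.le_of_dvd (Nat.div_dvd_of_dvd hd'.1) ht'.1
      simp only [Finset.coe_filter, Set.mem_ofPred_eq, hSd, mem_filter, mem_product, hS.mem_SI]
      rw [hm]
      exact ⟨⟨⟨⟨left_ne_zero_of_mul hm0, h2.trans ht'.2⟩, right_ne_zero_of_mul hm0,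
        h3.trans ht'.2⟩, ht'.1, ht'.2⟩, rfl⟩
    · intro d _ d' _ h
      exact (Prod.mk.injEq _ _ _ _ ▸ h : d = d' ∧ t / d = t / d').1
  exact_mod_cast this

theorem sum_tau_div_le (hS : Sys s κ K) (T : ℕ) :
    ∑ t ∈ SI s T, (t.divisors.card : ℝ) / (s t : ℝ) ≤ (∑ t ∈ SI s T, 1 / (s t : ℝ)) ^ 2 := by
  have h := sum_tau_mul_le hS T (fun n => 1 / (s n : ℝ)) (fun n => by positivity)
  calc ∑ t ∈ SI s T, (t.divisors.card : ℝ) / (s t : ℝ) =
      ∑ t ∈ SI s T, (t.divisors.card : ℝ) * (1 / (s t : ℝ)) := by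
        refine Finset.sum_congr rfl fun t _ => by ring
    _ ≤ _ := h
    _ = _ := by
        rw [sq, Finset.sum_mul_sum]
        refine Finset.sum_congr rfl fun u _ => Finset.sum_congr rfl fun v _ => ?_
        rw [s_cast_mul, one_div_mul_one_div]

theorem sum_tau_sq_div_le (hS : Sys s κ K) (T : ℕ) :
    ∑ t ∈ SI s T, (t.divisors.card : ℝ) ^ 2 / (s t : ℝ) ≤ (∑ t ∈ SI s T, 1 / (s t : ℝ)) ^ 4 := by
  have h := sum_tau_mul_le hS T (fun n => (n.divisors.card : ℝ) / (s n : ℝ))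
    (fun n => by positivity)
  calc ∑ t ∈ SI s T, (t.divisors.card : ℝ) ^ 2 / (s t : ℝ)
      = ∑ t ∈ SI s T, (t.divisors.card : ℝ) * ((t.divisors.card : ℝ) / (s t : ℝ)) := by
        refine Finset.sum_congr rfl fun t _ => by ring
    _ ≤ _ := h
    _ ≤ ∑ u ∈ SI s T, ∑ v ∈ SI s T,
          ((u.divisors.card : ℝ) / (s u : ℝ)) * ((v.divisors.card : ℝ) / (s v : ℝ)) := by
        refine Finset.sum_le_sum fun u _ => Finset.sum_le_sum fun v _ => ?_
        rw [div_mul_div_comm, s_cast_mul]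
        gcongr
        exact_mod_cast card_divisors_mul_le u v
    _ = (∑ u ∈ SI s T, (u.divisors.card : ℝ) / (s u : ℝ)) ^ 2 := by
        rw [sq, Finset.sum_mul_sum]
    _ ≤ ((∑ t ∈ SI s T, 1 / (s t : ℝ)) ^ 2) ^ 2 := by
        gcongr
        exact sum_tau_div_le hS T
    _ = _ := by ring

/-- dyadic decomposition of a sum over pairs, by size -/
theorem dyadic_sum (hS : Sys s κ K) (P : Finset (ℕ × ℕ)) (hP : ∀ p ∈ P, p.1 ≠ 0 ∧ p.2 ≠ 0)
    (f : ℕ × ℕ → ℝ) (M : ℕ) (hM : ∀ p ∈ P, s p.1 < 2 ^ M ∧ s p.2 < 2 ^ M) (E : ℝ)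
    (h : ∀ i j : ℕ, ∑ p ∈ P.filter (fun p => (2 ^ i ≤ s p.1 ∧ s p.1 < 2 ^ (i + 1)) ∧
      (2 ^ j ≤ s p.2 ∧ s p.2 < 2 ^ (j + 1))), f p ≤ E) :
    ∑ p ∈ P, f p ≤ (M : ℝ) ^ 2 * E := by
  classical
  rw [← Finset.sum_fiberwise_of_maps_to (s := P) (t := (range M) ×ˢ (range M))
    (g := fun p => (Nat.log 2 (s p.1), Nat.log 2 (s p.2)))]
  · calc _ ≤ ∑ _ij ∈ (range M) ×ˢ (range M), E := by
          refine Finset.sum_le_sum fun ij _ => ?_
          refine le_trans (le_of_eq ?_) (h ij.1 ij.2)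
          refine Finset.sum_congr ?_ fun _ _ => rfl
          ext p
          simp only [mem_filter, and_congr_right_iff]
          intro hp
          obtain ⟨h1, h2⟩ := hP p hp
          rw [Prod.ext_iff]
          simp only
          rw [Nat.log_eq_iff (Or.inr ⟨by norm_num, hS.s_ne h1⟩),
            Nat.log_eq_iff (Or.inr ⟨by norm_num, hS.s_ne h2⟩)]
      _ = _ := by
          rw [Finset.sum_const, card_product, card_range, nsmul_eq_mul]
          push_cast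
          ring
  · intro p hp
    obtain ⟨h1, h2⟩ := hP p hp
    obtain ⟨h3, h4⟩ := hM p hp
    simp only [mem_product, mem_range]
    exact ⟨Nat.log_lt_of_lt_pow (hS.s_ne h1) h3, Nat.log_lt_of_lt_pow (hS.s_ne h2) h4⟩

end Pool.Agent.H14.BN
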