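import Pool.Agent.H14.BN.Box
import Pool.Agent.H14.BN.Tau
import Pool.Agent.H14.PT.Dyad

/-!
# Dyadic blocks, sized numbers

`blk`, `blk_IB`, `blk_prod_bounds`: as in `Pool/Agent/H14/PT/Dyad.lean` and
`Pool/Agent/H74/TS/SumL.lean`, by size.  `blk_card`: a block has at most `K 2^(i+1) * K 2^(j+1)`
elements (`hS.card_le_real`; compare `sumP_card` in `Pool/Agent/H74/TS/SumP.lean`).
`count_small`: as in `Pool/Agent/H14/PT/S2.lean`: `s p.1 ≤ s (p.1 p.2) ≤ E` and the same for `p.2`.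
`poly_le_exp`, `blocks_bound` are used from `H14/PT/Dyad.lean`.
-/

namespace Pool.Agent.H14.BN

open Finset Pool.Agent.H14.PT

variable {s : ℕ →*₀ ℕ} {κ K : ℝ}

/-- reduced fractions with non-zero numerator and denominator -/
def Red (p : ℕ × ℕ) : Prop := Nat.Coprime p.1 p.2 ∧ p.1 ≠ 0 ∧ p.2 ≠ 0

/-- a dyadic block -/
def blk (s : ℕ →*₀ ℕ) (P : Finset (ℕ × ℕ)) (i j : ℕ) : Finset (ℕ × ℕ) :=
  P.filter (fun p => (2 ^ i ≤ s p.1 ∧ s p.1 < 2 ^ (i + 1)) ∧ (2 ^ j ≤ s p.2 ∧ s p.2 < 2 ^ (j + 1)))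

theorem blk_IB {P : Finset (ℕ × ℕ)} (hP : ∀ p ∈ P, Red p) (i j : ℕ) :
    ∀ p ∈ blk s P i j, IB s (2 ^ i) (2 ^ j) p := by
  intro p hp
  obtain ⟨hpP, ⟨h1, h2⟩, h3, h4⟩ := Finset.mem_filter.mp hp
  obtain ⟨a1, a2, a3⟩ := hP p hpP
  refine ⟨a1, a2, a3, ?_, ?_, ?_⟩
  · have : s p.1 ≤ 2 * 2 ^ i := by rw [pow_succ] at h2; omega
    exact_mod_cast this
  · exact_mod_cast h3
  · have : s p.2 ≤ 2 * 2 ^ j := by rw [pow_succ] at h4; omega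
    exact_mod_cast this

theorem blk_prod_bounds {P : Finset (ℕ × ℕ)} {i j : ℕ} {p : ℕ × ℕ} (hp : p ∈ blk s P i j) :
    (2 : ℝ) ^ i * 2 ^ j ≤ (s (p.1 * p.2) : ℝ) ∧ (s (p.1 * p.2) : ℝ) ≤ 4 * (2 ^ i * 2 ^ j) := by
  obtain ⟨_, ⟨h1, h2⟩, h3, h4⟩ := Finset.mem_filter.mp hp
  rw [map_mul]
  have e1 : 2 ^ i * 2 ^ j ≤ s p.1 * s p.2 := Nat.mul_le_mul h1 h3
  have e2 : s p.1 * s p.2 ≤ 4 * (2 ^ i * 2 ^ j) := by
    calc s p.1 * s p.2 ≤ 2 ^ (i + 1) * 2 ^ (j + 1) := Nat.mul_le_mul h2.le h4.le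
      _ = _ := by ring
  constructor
  · exact_mod_cast e1
  · exact_mod_cast e2

theorem blk_card (hS : Sys s κ K) (P : Finset (ℕ × ℕ)) (hP : ∀ p ∈ P, p.1 ≠ 0 ∧ p.2 ≠ 0)
    (i j : ℕ) : ((blk s P i j).card : ℝ) ≤ 4 * K ^ 2 * (2 ^ i * 2 ^ j) := by
  have hsub : blk s P i j ⊆ SI s (2 ^ (i + 1)) ×ˢ SI s (2 ^ (j + 1)) := by
    intro p hp
    obtain ⟨hpP, ⟨h1, h2⟩, h3, h4⟩ := Finset.mem_filter.mp hp
    obtain ⟨a1, a2⟩ := hP p hpP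
    rw [Finset.mem_product, hS.mem_SI, hS.mem_SI]
    exact ⟨⟨a1, h2.le⟩, a2, h4.le⟩
  have hK := hS.K_pos
  have h1 := hS.card_le (2 ^ (i + 1))
  have h2 := hS.card_le (2 ^ (j + 1))
  calc ((blk s P i j).card : ℝ) ≤ ((SI s (2 ^ (i + 1)) ×ˢ SI s (2 ^ (j + 1))).card : ℝ) := by
        exact_mod_cast Finset.card_le_card hsub
    _ = ((SI s (2 ^ (i + 1))).card : ℝ) * ((SI s (2 ^ (j + 1))).card : ℝ) := by
        rw [Finset.card_product]; push_cast; ring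
    _ ≤ (K * ((2 ^ (i + 1) : ℕ) : ℝ)) * (K * ((2 ^ (j + 1) : ℕ) : ℝ)) := by gcongr
    _ = 4 * K ^ 2 * (2 ^ i * 2 ^ j) := by push_cast; ring

theorem count_small (hS : Sys s κ K) {E : ℝ} (hE : 0 ≤ E) (P : Finset (ℕ × ℕ))
    (hP : ∀ p ∈ P, p.1 ≠ 0 ∧ p.2 ≠ 0 ∧ (s (p.1 * p.2) : ℝ) ≤ E) :
    (P.card : ℝ) ≤ K ^ 2 * E ^ 2 := by
  have hsub : P ⊆ SI s ⌊E⌋₊ ×ˢ SI s ⌊E⌋₊ := by
    intro p hp
    obtain ⟨a1, a2, a3⟩ := hP p hp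
    have h1 : s (p.1 * p.2) ≤ ⌊E⌋₊ := Nat.le_floor a3
    rw [Finset.mem_product, hS.mem_SI, hS.mem_SI]
    exact ⟨⟨a1, (hS.le_mul_right p.1 a2).trans h1⟩, a2, (hS.le_mul_left p.2 a1).trans h1⟩
  have hK := hS.K_pos
  have h1 := hS.card_le ⌊E⌋₊
  have h2 : K * ((⌊E⌋₊ : ℕ) : ℝ) ≤ K * E := mul_le_mul_of_nonneg_left (Nat.floor_le hE) hK.le
  have h3 : ((SI s ⌊E⌋₊).card : ℝ) ≤ K * E := h1.trans h2
  calc (P.card : ℝ) ≤ ((SI s ⌊E⌋₊ ×ˢ SI s ⌊E⌋₊).card : ℝ) := by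
        exact_mod_cast Finset.card_le_card hsub
    _ = ((SI s ⌊E⌋₊).card : ℝ) * ((SI s ⌊E⌋₊).card : ℝ) := by
        rw [Finset.card_product]; push_cast; ring
    _ ≤ (K * E) * (K * E) := by gcongr
    _ = K ^ 2 * E ^ 2 := by ring

end Pool.Agent.H14.BN
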