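import Pool.Agent.H14.BN.Param
import Pool.Agent.H14.BN.SumR
import Pool.Agent.H74.TS.Cls

/-!
# Sums over the classes of fractions: rough class, sized numbers

Port of `wsum_R1'`, `wsum_R1` of `Pool/Agent/H74/TS/Cls.lean`; `cond_half`, `log8_le'`,
`Cls_z_pow_le` are used from there with `hB.toBg` (`log8_le'` for the natural number
`s (p.1 * p.2)`).  `wsum_R1`: `4800 L^8 / L^25 ≤ 1`.
-/

namespace Pool.Agent.H14.BN

open Finset Pool.Agent.H14.PT Pool.Agent.H74.TS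

universe u

variable {s : ℕ →*₀ ℕ} {κ K : ℝ} {W : Type u} [CommGroupWithZero W]

/-- `τ(n)/√(s n)` for `n = ab` -/
noncomputable def T0 (s : ℕ →*₀ ℕ) (p : ℕ × ℕ) : ℝ :=
  ((p.1 * p.2).divisors.card : ℝ) * ((s (p.1 * p.2) : ℝ)) ^ (-(1 / 2) : ℝ)

lemma T0_nonneg (s : ℕ →*₀ ℕ) (p : ℕ × ℕ) : 0 ≤ T0 s p := by unfold T0; positivity

theorem wsum_R1' (hS : Sys s κ K) {cl : ℕ →*₀ W} {Q : ℕ} (hM : Md s K cl Q) {ε : ℝ} {Z : ℕ}
    (hB : BN.Bg K ε Z (Real.log Q))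
    {h1 h2 : ℝ} {v1 v2 : ℕ × ℕ → ℝ} (hv1 : BN.KF K cl h1 v1) (hv2 : BN.KF K cl h2 v2)
    (hc : Real.log h1 + 2 * Real.log h2 ≤ (1 - ε) * Real.log Q)
    (P : Finset (ℕ × ℕ))
    (hP : ∀ p ∈ P, BN.Red p ∧ tz Z (Real.log Q) ≤ s (p.1 * p.2) ∧
      (s (p.1 * p.2) : ℝ) ≤ Real.exp (kap ε Z * Real.log Q) ∧
      BN.Few s (tz Z (Real.log Q)) (p.1 * p.2)) :
    ∑ p ∈ P, BN.ww v1 v2 p * BN.T0 s p ≤ 300 * (Real.log Q) ^ 3 * ((Real.log Q) ^ 25)⁻¹ := by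
  have hz0 : (0 : ℝ) < tz Z (Real.log Q) := by
    exact_mod_cast (by have := hB.toBg.z_two; omega : 0 < tz Z (Real.log Q))
  have hL1 : 1 ≤ Real.log Q := by linarith [hB.toBg.hL]
  have hε := hB.toBg.hε
  have hzL : (100 / ε) * Real.log (Real.log Q) ≤ Real.log (tz Z (Real.log Q)) := by
    refine le_trans ?_ hB.toBg.logz_lo
    refine mul_le_mul_of_nonneg_right ?_ (Real.log_nonneg hL1)
    rw [div_le_iff₀ hε]
    linarith [hB.toBg.hZ]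
  have h := BN.wsum_rough hS hM hv1 hv2 hε hB.toBg.hε1 P (tz Z (Real.log Q)) hz0 hB.toBg.logz_ε
    (by linarith [hB.toBg.hL]) hzL (cond_half hB.toBg hv1.one_le hv2.one_le hc)
    (fun p hp => by
      obtain ⟨a1, a2, a3, a4⟩ := hP p hp
      exact ⟨a1, by exact_mod_cast a2,
        log8_le' hB.toBg (hS.s_ne (Nat.mul_ne_zero a1.2.1 a1.2.2)) a3, a4⟩)
  refine h.trans ?_
  have hL : 0 < Real.log Q := by linarith
  exact mul_le_mul_of_nonneg_left (Cls_z_pow_le hB.toBg) (by positivity)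

theorem wsum_R1 (hS : Sys s κ K) {cl : ℕ →*₀ W} {Q : ℕ} (hM : Md s K cl Q) {ε : ℝ} {Z : ℕ}
    (hB : BN.Bg K ε Z (Real.log Q))
    {h1 h2 : ℝ} {v1 v2 : ℕ × ℕ → ℝ} (hv1 : BN.KF K cl h1 v1) (hv2 : BN.KF K cl h2 v2)
    (hc : Real.log h1 + 2 * Real.log h2 ≤ (1 - ε) * Real.log Q)
    (P : Finset (ℕ × ℕ))
    (hP : ∀ p ∈ P, BN.Red p ∧ tz Z (Real.log Q) ≤ s (p.1 * p.2) ∧
      (s (p.1 * p.2) : ℝ) ≤ Real.exp (kap ε Z * Real.log Q) ∧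
      BN.Few s (tz Z (Real.log Q)) (p.1 * p.2)) :
    ∑ p ∈ P, BN.ww v1 v2 p * (BN.T0 s p * (16 * (Real.log Q) ^ 5)) ≤ 1 := by
  have h := BN.wsum_R1' hS hM hB hv1 hv2 hc P hP
  have e : ∑ p ∈ P, BN.ww v1 v2 p * (BN.T0 s p * (16 * (Real.log Q) ^ 5)) =
      (∑ p ∈ P, BN.ww v1 v2 p * BN.T0 s p) * (16 * (Real.log Q) ^ 5) := by
    rw [Finset.sum_mul]
    exact Finset.sum_congr rfl fun p _ => by ring
  rw [e]
  have hL100 := hB.toBg.hL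
  set L := Real.log Q with hLdef
  have hL : 0 < L := by linarith
  calc (∑ p ∈ P, BN.ww v1 v2 p * BN.T0 s p) * (16 * L ^ 5)
      ≤ (300 * L ^ 3 * (L ^ 25)⁻¹) * (16 * L ^ 5) := by gcongr
    _ = 4800 / L ^ 17 := by field_simp; norm_num
    _ ≤ 1 := by
        rw [div_le_one (by positivity)]
        calc (4800 : ℝ) ≤ 100 ^ 17 := by norm_num
          _ ≤ L ^ 17 := by gcongr

end Pool.Agent.H14.BN
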