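import Pool.Agent.H14.BN.Base
import Pool.Agent.H14.PT.Div

/-!
# The divisor bound, sized numbers

Port of `divisor_bound` of `Pool/Agent/H14/PT/Div.lean`.  There the primes `p < P0` get the factor
`C0` and the others `1`, and there are at most `P0` small primes.  Here the small primes are those of
size `s p < P0`; they form the finite set `SP s P0` (`hS.mem_SP`), so the constant is
`C0 ^ (SP s P0).card`.  In the factorisation of `(s n)^η` use
`s n = ∏ (s p)^(v_p(n))` (`Nat.factorization_prod_pow_eq_self`, `map_prod`/`map_finsuppProd`,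
`map_pow`), and `2 ≤ s p` (`hS.r_two`).
-/

namespace Pool.Agent.H14.BN

open Finset Pool.Agent.H14.PT

variable {s : ℕ →*₀ ℕ} {κ K : ℝ}

/-- `τ(n) ≤ C (s n)^η`. -/
theorem divisor_bound (hS : Sys s κ K) (η : ℝ) (hη : 0 < η) :
    ∃ C : ℝ, 1 ≤ C ∧ ∀ n : ℕ, n ≠ 0 → (n.divisors.card : ℝ) ≤ C * (s n : ℝ) ^ η := by
  have hl2 : 0 < Real.log 2 := Real.log_pos (by norm_num)
  set C0 : ℝ := max 1 (1 / (η * Real.log 2) + 1) with hC0
  have hC01 : 1 ≤ C0 := le_max_left _ _
  obtain ⟨P0, hP0⟩ := exists_nat_gt ((2 : ℝ) ^ (1 / η))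
  refine ⟨C0 ^ (SP s P0).card, one_le_pow₀ hC01, fun n hn => ?_⟩
  have h1 : (n.divisors.card : ℝ) = ∏ p ∈ n.primeFactors, ((n.factorization p : ℝ) + 1) := by
    rw [Nat.card_divisors hn]
    push_cast
    rfl
  have h2 : (s n : ℝ) ^ η =
      ∏ p ∈ n.primeFactors, ((s p : ℝ) ^ (n.factorization p : ℝ)) ^ η := by
    rw [Real.finsetProd_rpow _ _ (fun p _ => by positivity)]
    congr 1
    conv_lhs => rw [← Nat.prod_factorization_pow_eq_self hn]
    rw [Finsupp.prod, Nat.support_factorization, s_cast_prod]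
    refine Finset.prod_congr rfl fun p _ => ?_
    rw [s_cast_pow, Real.rpow_natCast]
  set c : ℕ → ℝ := fun p => if s p ≤ P0 then C0 else 1 with hc
  have hcpos : ∀ p, 0 ≤ c p := fun p => by
    simp only [hc]; split_ifs <;> linarith
  have key : ∀ p ∈ n.primeFactors, ((n.factorization p : ℝ) + 1)
      ≤ c p * ((s p : ℝ) ^ (n.factorization p : ℝ)) ^ η := by
    intro p hp
    have hpp := Nat.prime_of_mem_primeFactors hp
    have hp2 : (2 : ℝ) ≤ s p := hS.r_two hpp
    set e : ℝ := (n.factorization p : ℝ) with he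
    have he0 : 0 ≤ e := by positivity
    have hpow : ((s p : ℝ) ^ e) ^ η = (s p : ℝ) ^ (e * η) := by
      rw [← Real.rpow_mul (by linarith)]
    rw [hpow]
    simp only [hc]
    split_ifs with hlt
    · have h3 : (2 : ℝ) ^ (e * η) ≤ (s p : ℝ) ^ (e * η) :=
        Real.rpow_le_rpow (by norm_num) hp2 (by positivity)
      have h4 : 1 + Real.log 2 * (e * η) ≤ (2 : ℝ) ^ (e * η) := by
        rw [Real.rpow_def_of_pos (by norm_num)]
        linarith [Real.add_one_le_exp (Real.log 2 * (e * η))]
      have h5 : e + 1 ≤ C0 * (1 + Real.log 2 * (e * η)) := by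
        have h6 : 1 / (η * Real.log 2) + 1 ≤ C0 := le_max_right _ _
        have h7 : (1 / (η * Real.log 2) + 1) * (1 + Real.log 2 * (e * η))
            = e + 1 + 1 / (η * Real.log 2) + Real.log 2 * (e * η) := by
          field_simp
          ring
        have h8 : (1 / (η * Real.log 2) + 1) * (1 + Real.log 2 * (e * η))
            ≤ C0 * (1 + Real.log 2 * (e * η)) := by
          gcongr
        have h9 : 0 ≤ 1 / (η * Real.log 2) := by positivity
        have h10 : 0 ≤ Real.log 2 * (e * η) := by positivity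
        linarith
      calc e + 1 ≤ C0 * (1 + Real.log 2 * (e * η)) := h5
        _ ≤ C0 * (s p : ℝ) ^ (e * η) := by
            apply mul_le_mul_of_nonneg_left _ (by linarith)
            linarith
    · have hge : P0 ≤ s p := (not_le.mp hlt).le
      have h3 : (2 : ℝ) ^ (1 / η) ≤ s p := hP0.le.trans (by exact_mod_cast hge)
      have h4 : (2 : ℝ) ^ e ≤ (s p : ℝ) ^ (e * η) := by
        calc (2 : ℝ) ^ e = ((2 : ℝ) ^ (1 / η)) ^ (e * η) := by
              rw [← Real.rpow_mul (by norm_num)]
              congr 1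
              field_simp
          _ ≤ _ := Real.rpow_le_rpow (by positivity) h3 (by positivity)
      have h5 : e + 1 ≤ (2 : ℝ) ^ e := by
        rw [he, Real.rpow_natCast]
        have := Nat.lt_two_pow_self (n := n.factorization p)
        exact_mod_cast this
      rw [one_mul]
      linarith
  rw [h1, h2]
  calc ∏ p ∈ n.primeFactors, ((n.factorization p : ℝ) + 1)
      ≤ ∏ p ∈ n.primeFactors, c p * ((s p : ℝ) ^ (n.factorization p : ℝ)) ^ η :=
        Finset.prod_le_prod (fun p _ => by positivity) key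
    _ = (∏ p ∈ n.primeFactors, c p) * ∏ p ∈ n.primeFactors, ((s p : ℝ) ^ (n.factorization p : ℝ)) ^ η :=
        Finset.prod_mul_distrib
    _ ≤ C0 ^ (SP s P0).card * ∏ p ∈ n.primeFactors, ((s p : ℝ) ^ (n.factorization p : ℝ)) ^ η := by
        refine mul_le_mul_of_nonneg_right ?_ (Finset.prod_nonneg fun p _ => by positivity)
        have h3 : ∏ p ∈ n.primeFactors, c p = ∏ p ∈ n.primeFactors.filter (fun p => s p ≤ P0), C0 := by
          rw [Finset.prod_filter]
        rw [h3, Finset.prod_const]
        apply pow_le_pow_right₀ hC01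
        apply Finset.card_le_card
        intro p hp
        rw [mem_filter] at hp
        exact hS.mem_SP.mpr ⟨Nat.prime_of_mem_primeFactors hp.1, hp.2⟩

end Pool.Agent.H14.BN
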