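import Pool.Agent.H14.BN.Large
import Pool.Agent.H14.BN.Dyad

/-!
# Sum over the fractions, large regime, sized numbers

Port of `wsum_large` of `Pool/Agent/H74/TS/SumL.lean`: copy with `((p.1 * p.2 : ℕ) : ℝ)` replaced by
`(s (p.1 * p.2) : ℝ)`, `dyadic_sum hS`, `blk s P i j`; for the last but one bullet use
`s p.1 ≤ s (p.1 * p.2)` (`hS.le_mul_right`, `hS.le_mul_left`).
-/

namespace Pool.Agent.H14.BN

open Finset Pool.Agent.H14.PT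

universe u

theorem wsum_large {s : ℕ →*₀ ℕ} {κ K : ℝ} (hS : Sys s κ K) (ε ε3 : ℝ) (hε : 0 < ε) (hε3 : 0 < ε3)
    (hε1 : ε ≤ 1 / 10) (hε31 : ε3 ≤ 1 / 10) :
    ∃ c : ℝ, 0 < c ∧ ∃ Q0 : ℝ, ∀ (W : Type u) [CommGroupWithZero W]
      (cl : ℕ →*₀ W) (Q : ℕ), Md s K cl Q → Q0 ≤ Real.log Q →
      ∀ (h1 h2 : ℝ) (v1 v2 : ℕ × ℕ → ℝ), KF K cl h1 v1 → KF K cl h2 v2 →
      Real.log h1 + 2 * Real.log h2 ≤ (1 - ε) * Real.log Q →
      ∀ (P : Finset (ℕ × ℕ)),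
      (∀ p ∈ P, Red p ∧ (Q : ℝ) ^ ε3 ≤ (s (p.1 * p.2) : ℝ) ∧
        (s (p.1 * p.2) : ℝ) ≤ (Q : ℝ) ^ (1 + ε / 20)) →
      ∑ p ∈ P, ww v1 v2 p * ((s (p.1 * p.2) : ℝ)) ^ (-(1 / 2) : ℝ) ≤ (Q : ℝ) ^ (-c) := by
  obtain ⟨c, hc, hc1, Q0, hbox⟩ := wbox_large.{u} hS ε (ε3 / 2) hε (by positivity) hε1
    (by linarith)
  obtain ⟨Q1, hQ11, hQ1⟩ := poly_le_exp 2 9 (c / 2) (by positivity)
  refine ⟨c / 2, by positivity, max (max Q0 Q1) (max 2 (2 * Real.log 4 / ε3)), ?_⟩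
  intro W _ cl Q hM hq h1 h2 v1 v2 hv1 hv2 hH P hP
  set L := Real.log Q with hL
  have hLQ0 : Q0 ≤ L := (le_max_left _ _).trans ((le_max_left _ _).trans hq)
  have hLQ1 : Q1 ≤ L := (le_max_right _ _).trans ((le_max_left _ _).trans hq)
  have hL2 : 2 ≤ L := (le_max_left _ _).trans ((le_max_right _ _).trans hq)
  have hL4 : 2 * Real.log 4 / ε3 ≤ L := (le_max_right _ _).trans ((le_max_right _ _).trans hq)
  have hqpos : (0 : ℝ) < Q := by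
    have := hM.Q_two
    exact_mod_cast (by omega : 0 < Q)
  have hqexp : ∀ r : ℝ, (Q : ℝ) ^ r = Real.exp (r * L) := fun r => by
    rw [Real.rpow_def_of_pos hqpos, mul_comm]
  obtain ⟨M, hM3, hMM⟩ := blocks_bound L hL2
  have hsum := dyadic_sum hS P (fun p hp => ⟨(hP p hp).1.2.1, (hP p hp).1.2.2⟩)
    (fun p => ww v1 v2 p * ((s (p.1 * p.2) : ℝ)) ^ (-(1 / 2) : ℝ)) M ?_ ((Q : ℝ) ^ (-c)) ?_
  · refine hsum.trans ?_
    have h1 : (M : ℝ) ^ 2 ≤ 9 * L ^ 2 := by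
      have : (0 : ℝ) ≤ M := by positivity
      nlinarith
    have h2 := hQ1 L hLQ1
    rw [hqexp, hqexp]
    calc (M : ℝ) ^ 2 * Real.exp (-c * L) ≤ Real.exp (c / 2 * L) * Real.exp (-c * L) := by
          gcongr; linarith
      _ = Real.exp (-(c / 2) * L) := by rw [← Real.exp_add]; congr 1; ring
  · intro p hp
    obtain ⟨⟨_, h1, h2⟩, _, h4⟩ := hP p hp
    rw [hqexp] at h4
    have h4' : (s (p.1 * p.2) : ℝ) ≤ Real.exp (1.05 * L) := by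
      refine h4.trans (Real.exp_le_exp.mpr ?_)
      have : 1 + ε / 20 ≤ 1.05 := by norm_num; linarith
      nlinarith
    have h5 : s p.1 ≤ s (p.1 * p.2) := hS.le_mul_right _ h2
    have h6 : s p.2 ≤ s (p.1 * p.2) := hS.le_mul_left _ h1
    have h7 := hMM _ h4'
    exact ⟨h5.trans_lt h7, h6.trans_lt h7⟩
  · intro i j
    change ∑ p ∈ blk s P i j, _ ≤ _
    rcases (blk s P i j).eq_empty_or_nonempty with he | ⟨p0, hp0⟩
    · rw [he, Finset.sum_empty]; positivity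
    have hAB : (0 : ℝ) < 2 ^ i * 2 ^ j := by positivity
    obtain ⟨b1, b2⟩ := blk_prod_bounds hp0
    obtain ⟨_, c2, c3⟩ := hP p0 (Finset.mem_filter.mp hp0).1
    have hlow : ε3 / 2 * L ≤ Real.log ((2 : ℝ) ^ i * 2 ^ j) := by
      have e1 : (Q : ℝ) ^ ε3 ≤ 4 * (2 ^ i * 2 ^ j) := c2.trans b2
      have e2 := Real.log_le_log (by positivity) e1
      rw [Real.log_rpow hqpos, Real.log_mul (x := 4) (by norm_num) hAB.ne'] at e2
      have e3 : Real.log 4 ≤ ε3 / 2 * L := by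
        rw [div_le_iff₀ hε3] at hL4
        linarith
      linarith
    have hup : Real.log ((2 : ℝ) ^ i * 2 ^ j) ≤ (1 + ε / 10) * L := by
      have e2 := Real.log_le_log hAB (b1.trans c3)
      rw [Real.log_rpow hqpos] at e2
      have : 0 ≤ ε * L := by positivity
      nlinarith
    have hcard := hbox W cl Q hM hLQ0 h1 h2 v1 v2 hv1 hv2 hH (blk s P i j) (2 ^ i) (2 ^ j)
      (one_le_pow₀ (by norm_num)) (one_le_pow₀ (by norm_num)) hlow hup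
      (blk_IB (fun p hp => (hP p hp).1) i j)
    calc ∑ p ∈ blk s P i j, ww v1 v2 p * ((s (p.1 * p.2) : ℝ)) ^ (-(1 / 2) : ℝ)
        ≤ ∑ p ∈ blk s P i j, ww v1 v2 p * ((2 : ℝ) ^ i * 2 ^ j) ^ (-(1 / 2) : ℝ) := by
          refine Finset.sum_le_sum fun p hp => ?_
          exact mul_le_mul_of_nonneg_left
            (Real.rpow_le_rpow_of_nonpos hAB (blk_prod_bounds hp).1 (by norm_num))
            (ww_nonneg v1 v2 p)
      _ = (∑ p ∈ blk s P i j, ww v1 v2 p) * ((2 : ℝ) ^ i * 2 ^ j) ^ (-(1 / 2) : ℝ) := by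
          rw [Finset.sum_mul]
      _ ≤ (((2 : ℝ) ^ i * 2 ^ j) ^ (1 / 2 : ℝ) * (Q : ℝ) ^ (-c)) * ((2 : ℝ) ^ i * 2 ^ j) ^ (-(1 / 2) : ℝ) := by
          gcongr
      _ = (Q : ℝ) ^ (-c) * (((2 : ℝ) ^ i * 2 ^ j) ^ (1 / 2 : ℝ) * ((2 : ℝ) ^ i * 2 ^ j) ^ (-(1 / 2) : ℝ)) := by
          ring
      _ = (Q : ℝ) ^ (-c) := by
          rw [← Real.rpow_add hAB]; norm_num

end Pool.Agent.H14.BN
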