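import Pool.Agent.H14.BN.Harm
import Pool.Agent.PC10.MobiusLog

/-!
# Logarithmically weighted Möbius sums for sized numbers

Port of `Pool/Agent/PC10/MobiusLog.lean` (`Ioc 0 N` becomes `SI s N`, `N / m` becomes `N / s m`,
`1 / m` becomes `1 / s m`; `m ↦ p * m` maps `SI s ⌊z / s p⌋` to `SI s ⌊z⌋`; `Nat.floor_div_natCast`).

* `sum_moebius_mul_card`: for `m ∈ SI s N` the number of `n` with `s (m n) ≤ N` is `#SI (N / s m)`
  (`Nat.le_div_iff_mul_le`); group by the product `k = m n ∈ SI s N`: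
  `∑_{m ∣ k} μ(m) = 1` if `k = 1`, else `0`.
* `abs_sum_moebius_div_le`: `κ N ∑ μ(m) / s m = 1 + ∑ μ(m) (κ N / s m - #SI (N / s m))`, and
  `|κ N / s m - #SI (N / s m)| ≤ κ + K √(N / s m)`; `hS.sum_rsqrt_le`, `hS.card_le`, `1 ≤ K κ`.
* `sum_moebius_mul_harm`: as `sum_moebius_mul_harmonic`.
* `abs_mset_empty_le`: `κ mset ∅ z = 1 - B ∑ μ(m) / s m - ∑ μ(m) / s m * O(C √(s m) / √z)` by
  `harm_asymp`.
* `mset_insert`, `abs_mset_le`: as there (`2 ≤ s p`, `hS.r_two`), with the constant of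
  `abs_mset_empty_le`.
-/

namespace Pool.Agent.H14.BN

open Finset ArithmeticFunction
open scoped ArithmeticFunction.Moebius

variable {s : ℕ →*₀ ℕ} {κ K : ℝ}

private lemma mob_antidiag {k : ℕ} (hk : k ≠ 0) :
    ∑ x ∈ k.divisorsAntidiagonal, (μ x.1 : ℝ) = if k = 1 then 1 else 0 := by
  have h5 := congrArg (fun F : ArithmeticFunction ℝ => F k)
    (coe_moebius_mul_coe_zeta (R := ℝ))
  simp only [ArithmeticFunction.mul_apply, ArithmeticFunction.one_apply] at h5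
  rw [← h5]
  refine Finset.sum_congr rfl fun x hx => ?_
  rw [Nat.mem_divisorsAntidiagonal] at hx
  have h2 : x.2 ≠ 0 := by
    rintro h
    rw [h] at hx
    simp at hx
    exact hk hx.1.symm
  simp [natCoe_apply, zeta_apply, h2, intCoe_apply]

private lemma mob_group (hS : Sys s κ K) (N : ℕ) (f : ℕ → ℕ → ℝ) :
    ∑ m ∈ SI s N, ∑ n ∈ SI s (N / s m), f m n =
      ∑ k ∈ SI s N, ∑ x ∈ k.divisorsAntidiagonal, f x.1 x.2 := by
  rw [Finset.sum_sigma', Finset.sum_sigma']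
  refine Finset.sum_bij' (fun x _ => ⟨x.1 * x.2, (x.1, x.2)⟩) (fun x _ => ⟨x.2.1, x.2.2⟩) ?_ ?_ ?_
    ?_ ?_
  · rintro ⟨m, n⟩ h
    simp only [mem_sigma, hS.mem_SI] at h
    obtain ⟨⟨h1, h2⟩, h3, h4⟩ := h
    simp only [mem_sigma, hS.mem_SI, Nat.mem_divisorsAntidiagonal]
    refine ⟨⟨mul_ne_zero h1 h3, ?_⟩, trivial, mul_ne_zero h1 h3⟩
    rw [map_mul, mul_comm]
    exact (Nat.le_div_iff_mul_le (hS.s_pos h1)).mp h4
  · rintro ⟨k, m, n⟩ h
    simp only [mem_sigma, hS.mem_SI, Nat.mem_divisorsAntidiagonal] at h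
    obtain ⟨⟨h1, h2⟩, h3, h4⟩ := h
    subst h3
    have hm : m ≠ 0 := left_ne_zero_of_mul h1
    have hn : n ≠ 0 := right_ne_zero_of_mul h1
    simp only [mem_sigma, hS.mem_SI]
    refine ⟨⟨hm, (hS.le_mul_right m hn).trans h2⟩, hn, ?_⟩
    rw [Nat.le_div_iff_mul_le (hS.s_pos hm), mul_comm, ← map_mul]
    exact h2
  · rintro ⟨m, n⟩ _
    rfl
  · rintro ⟨k, m, n⟩ h
    simp only [mem_sigma, hS.mem_SI, Nat.mem_divisorsAntidiagonal] at h
    obtain ⟨⟨h1, h2⟩, h3, h4⟩ := h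
    subst h3
    rfl
  · rintro ⟨m, n⟩ _
    rfl

private lemma mob_one (hS : Sys s κ K) (N : ℕ) (hN : 1 ≤ N) (g : ℕ → ℝ) (hg : g 1 = 1) :
    ∑ k ∈ SI s N, g k * ∑ x ∈ k.divisorsAntidiagonal, (μ x.1 : ℝ) = 1 := by
  have h1 : ∀ k ∈ SI s N, g k * ∑ x ∈ k.divisorsAntidiagonal, (μ x.1 : ℝ) =
      if k = 1 then 1 else 0 := by
    intro k hk
    rw [mob_antidiag (hS.mem_SI.mp hk).1]
    split_ifs with h
    · rw [h, hg, mul_one]
    · rw [mul_zero]
  rw [Finset.sum_congr rfl h1, Finset.sum_ite_eq', if_pos (hS.one_mem_SI hN)]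

theorem sum_moebius_mul_card (hS : Sys s κ K) (N : ℕ) (hN : 1 ≤ N) :
    ∑ m ∈ SI s N, (μ m : ℝ) * ((SI s (N / s m)).card : ℝ) = 1 := by
  refine Eq.trans ?_ (mob_one hS N hN (fun _ => 1) rfl)
  have h1 : ∑ m ∈ SI s N, (μ m : ℝ) * ((SI s (N / s m)).card : ℝ) =
      ∑ m ∈ SI s N, ∑ n ∈ SI s (N / s m), (μ m : ℝ) := by
    refine Finset.sum_congr rfl fun m _ => ?_
    rw [Finset.sum_const, nsmul_eq_mul, mul_comm]
  rw [h1, mob_group hS N (fun m _ => (μ m : ℝ))]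
  exact Finset.sum_congr rfl fun k _ => (one_mul _).symm

theorem abs_sum_moebius_div_le (hS : Sys s κ K) (N : ℕ) :
    |∑ m ∈ SI s N, (μ m : ℝ) / (s m : ℝ)| ≤ 4 * K ^ 3 := by
  have hK1 := hS.K_one
  have hK0 := hS.K_pos
  rcases Nat.eq_zero_or_pos N with rfl | hN
  · rw [hS.SI_zero]
    simp only [sum_empty, abs_zero]
    positivity
  have hNr : (0 : ℝ) < N := by exact_mod_cast hN
  have hN1 : (1 : ℝ) ≤ N := by exact_mod_cast hN
  have h1 := sum_moebius_mul_card hS N hN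
  have h2 : κ * (N : ℝ) * ∑ m ∈ SI s N, (μ m : ℝ) / (s m : ℝ)
      = 1 + ∑ m ∈ SI s N, (μ m : ℝ) * (κ * (N : ℝ) / (s m : ℝ) -
        ((SI s (N / s m)).card : ℝ)) := by
    rw [← h1, ← Finset.sum_add_distrib, Finset.mul_sum]
    refine Finset.sum_congr rfl fun m hm => ?_
    ring
  have h3 : |∑ m ∈ SI s N, (μ m : ℝ) * (κ * (N : ℝ) / (s m : ℝ) -
      ((SI s (N / s m)).card : ℝ))| ≤ κ * (K * N) + 2 * K ^ 2 * N := by
    refine (Finset.abs_sum_le_sum_abs _ _).trans ?_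
    have h4 : ∀ m ∈ SI s N, |(μ m : ℝ) * (κ * (N : ℝ) / (s m : ℝ) -
        ((SI s (N / s m)).card : ℝ))| ≤ κ + K * √(N : ℝ) * (s m : ℝ) ^ (-(1 / 2) : ℝ) := by
      intro m hm
      have hm0 : (0 : ℝ) < (s m : ℝ) := hS.r_pos (hS.mem_SI.mp hm).1
      rw [abs_mul]
      have hμ : |(μ m : ℝ)| ≤ 1 := by exact_mod_cast abs_moebius_le_one (n := m)
      have hfl : ((N / s m : ℕ) : ℝ) = ⌊(N : ℝ) / (s m : ℝ)⌋₊ := by
        rw [Nat.floor_div_natCast, Nat.floor_natCast]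
      have hq0 : (0 : ℝ) ≤ (N : ℝ) / (s m : ℝ) := by positivity
      have h5 := Nat.floor_le hq0
      have h6 := (Nat.lt_floor_add_one ((N : ℝ) / (s m : ℝ))).le
      have h7 := hS.card_sub (N / s m)
      rw [hfl] at h7
      have h8 : √(⌊(N : ℝ) / (s m : ℝ)⌋₊ : ℝ) ≤ √(N : ℝ) * (s m : ℝ) ^ (-(1 / 2) : ℝ) := by
        refine (Real.sqrt_le_sqrt h5).trans (le_of_eq ?_)
        rw [Real.sqrt_div' _ hm0.le, Real.rpow_neg hm0.le, ← Real.sqrt_eq_rpow, div_eq_mul_inv]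
      have h9 : |κ * (N : ℝ) / (s m : ℝ) - ((SI s (N / s m)).card : ℝ)| ≤
          κ + K * √(N : ℝ) * (s m : ℝ) ^ (-(1 / 2) : ℝ) := by
        have e1 : κ * (N : ℝ) / (s m : ℝ) = κ * ((N : ℝ) / (s m : ℝ)) := by ring
        have e2 : |κ * ((N : ℝ) / (s m : ℝ)) - κ * (⌊(N : ℝ) / (s m : ℝ)⌋₊ : ℝ)| ≤ κ := by
          rw [← mul_sub, abs_mul, abs_of_pos hS.κ_pos]
          have : |(N : ℝ) / (s m : ℝ) - (⌊(N : ℝ) / (s m : ℝ)⌋₊ : ℝ)| ≤ 1 := by
            rw [abs_le]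
            constructor <;> linarith
          nlinarith [hS.κ_pos]
        have e3 : K * √(⌊(N : ℝ) / (s m : ℝ)⌋₊ : ℝ) ≤
            K * (√(N : ℝ) * (s m : ℝ) ^ (-(1 / 2) : ℝ)) := mul_le_mul_of_nonneg_left h8 hK0.le
        rw [e1]
        rw [abs_le] at h7 e2 ⊢
        constructor <;> nlinarith [h7.1, h7.2, e2.1, e2.2, e3]
      calc |(μ m : ℝ)| * |κ * (N : ℝ) / (s m : ℝ) - ((SI s (N / s m)).card : ℝ)|
          ≤ 1 * (κ + K * √(N : ℝ) * (s m : ℝ) ^ (-(1 / 2) : ℝ)) := by gcongr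
        _ = _ := one_mul _
    refine (Finset.sum_le_sum h4).trans ?_
    rw [Finset.sum_add_distrib, Finset.sum_const, nsmul_eq_mul, ← Finset.mul_sum]
    have h5 := hS.card_le N
    have h6 := hS.sum_rsqrt_le N
    have h7 : K * √(N : ℝ) * ∑ m ∈ SI s N, (s m : ℝ) ^ (-(1 / 2) : ℝ) ≤
        K * √(N : ℝ) * (2 * K * √(N : ℝ)) := mul_le_mul_of_nonneg_left h6 (by positivity)
    have h8 : K * √(N : ℝ) * (2 * K * √(N : ℝ)) = 2 * K ^ 2 * N := by
      have := Real.mul_self_sqrt hNr.le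
      linear_combination (2 * K ^ 2) * this
    have h9 : ((SI s N).card : ℝ) * κ ≤ κ * (K * N) := by
      rw [mul_comm]
      exact mul_le_mul_of_nonneg_left h5 hS.κ_pos.le
    linarith
  have h7 : |κ * (N : ℝ) * ∑ m ∈ SI s N, (μ m : ℝ) / (s m : ℝ)| ≤
      1 + (κ * (K * N) + 2 * K ^ 2 * N) := by
    rw [h2]
    refine (abs_add_le _ _).trans ?_
    rw [abs_one]
    linarith
  rw [abs_mul, abs_of_pos (by have := hS.κ_pos; positivity)] at h7
  have h8 : κ * (N : ℝ) * (4 * K ^ 3) ≥ 1 + (κ * (K * N) + 2 * K ^ 2 * N) := by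
    have e1 : 1 ≤ K * κ := hS.κ_inv
    have e2 : (N : ℝ) ≤ K * κ * N := by nlinarith
    have e3 : K ^ 2 * (N : ℝ) ≤ K ^ 2 * (K * κ * N) := mul_le_mul_of_nonneg_left e2 (by positivity)
    have e4 : (1 : ℝ) ≤ K ^ 2 := by nlinarith
    have e5 : κ * K * N * 1 ≤ κ * K * N * K ^ 2 :=
      mul_le_mul_of_nonneg_left e4 (by have := hS.κ_pos; positivity)
    nlinarith
  have h9 : 0 < κ * (N : ℝ) := by have := hS.κ_pos; positivity
  exact le_of_mul_le_mul_left (h7.trans h8) h9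

theorem sum_moebius_mul_harm (hS : Sys s κ K) (N : ℕ) (hN : 1 ≤ N) :
    ∑ m ∈ SI s N, (μ m : ℝ) / (s m : ℝ) * (∑ n ∈ SI s (N / s m), (1 : ℝ) / (s n : ℝ)) = 1 := by
  refine Eq.trans ?_ (mob_one hS N hN (fun k => 1 / (s k : ℝ)) (by simp))
  have h1 : ∑ m ∈ SI s N, (μ m : ℝ) / (s m : ℝ) * (∑ n ∈ SI s (N / s m), (1 : ℝ) / (s n : ℝ)) =
      ∑ m ∈ SI s N, ∑ n ∈ SI s (N / s m), (μ m : ℝ) / (s m : ℝ) * (1 / (s n : ℝ)) := by
    refine Finset.sum_congr rfl fun m _ => ?_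
    rw [Finset.mul_sum]
  rw [h1, mob_group hS N (fun m n => (μ m : ℝ) / (s m : ℝ) * (1 / (s n : ℝ)))]
  refine Finset.sum_congr rfl fun k _ => ?_
  rw [Finset.mul_sum]
  refine Finset.sum_congr rfl fun x hx => ?_
  rw [Nat.mem_divisorsAntidiagonal] at hx
  rw [← hx.1, s_cast_mul]
  ring

/-- Logarithmically weighted Moebius sum over the numbers free of the primes in `S`. -/
noncomputable def mset (s : ℕ →*₀ ℕ) (S : Finset ℕ) (z : ℝ) : ℝ :=
  ∑ m ∈ (SI s ⌊z⌋₊).filter (fun m => ∀ p ∈ S, ¬ p ∣ m), (μ m : ℝ) / (s m : ℝ) *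
    Real.log (z / (s m : ℝ))

private lemma mset_of_lt_one (hS : Sys s κ K) (S : Finset ℕ) {z : ℝ} (hz : z < 1) :
    mset s S z = 0 := by
  have h : ⌊z⌋₊ = 0 := Nat.floor_eq_zero.mpr hz
  simp [mset, h, hS.SI_zero]

theorem abs_mset_empty_le (hS : Sys s κ K) : ∃ C : ℝ, 1 ≤ C ∧ ∀ z : ℝ, |mset s ∅ z| ≤ C := by
  obtain ⟨B, C, hC1, hB, hh⟩ := harm_asymp hS
  have hK1 := hS.K_one
  have hK0 := hS.K_pos
  have hκ := hS.κ_pos
  have hC0 : 0 < C := by linarith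
  have hpos1 : 0 ≤ 4 * C * K ^ 3 + 2 * K * C := by positivity
  refine ⟨K * (1 + 4 * C * K ^ 3 + 2 * K * C), by nlinarith, fun z => ?_⟩
  rcases lt_or_ge z 1 with hz | hz
  · rw [mset_of_lt_one hS _ hz, abs_zero]
    positivity
  have hz0 : 0 < z := by linarith
  set N := ⌊z⌋₊ with hN
  have hN1 : 1 ≤ N := Nat.le_floor (by simpa using hz)
  have hNz : (N : ℝ) ≤ z := Nat.floor_le hz0.le
  have h1 := sum_moebius_mul_harm hS N hN1
  have hfl : ∀ m, N / s m = ⌊z / (s m : ℝ)⌋₊ := by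
    intro m
    rw [Nat.floor_div_natCast]
  have hge : ∀ m ∈ SI s N, (1 : ℝ) ≤ z / (s m : ℝ) := by
    intro m hm
    rw [hS.mem_SI] at hm
    have hm0 : (0 : ℝ) < (s m : ℝ) := hS.r_pos hm.1
    rw [le_div_iff₀ hm0, one_mul]
    calc (s m : ℝ) ≤ N := by exact_mod_cast hm.2
      _ ≤ z := hNz
  have h2 : κ * mset s ∅ z = 1 - B * (∑ m ∈ SI s N, (μ m : ℝ) / (s m : ℝ))
      - ∑ m ∈ SI s N, (μ m : ℝ) / (s m : ℝ) * ((∑ n ∈ SI s ⌊z / (s m : ℝ)⌋₊, 1 / (s n : ℝ)) -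
        (κ * Real.log (z / (s m : ℝ)) + B)) := by
    have h2' : κ * mset s ∅ z = (∑ m ∈ SI s N, (μ m : ℝ) / (s m : ℝ) *
        (∑ n ∈ SI s (N / s m), (1 : ℝ) / (s n : ℝ)))
        - B * (∑ m ∈ SI s N, (μ m : ℝ) / (s m : ℝ))
        - ∑ m ∈ SI s N, (μ m : ℝ) / (s m : ℝ) * ((∑ n ∈ SI s ⌊z / (s m : ℝ)⌋₊, 1 / (s n : ℝ)) -
        (κ * Real.log (z / (s m : ℝ)) + B)) := by
      rw [Finset.mul_sum, ← Finset.sum_sub_distrib, ← Finset.sum_sub_distrib]
      unfold mset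
      rw [Finset.filter_true_of_mem (by simp), Finset.mul_sum]
      refine Finset.sum_congr rfl fun m hm => ?_
      rw [hfl m]
      ring
    rw [h2', h1]
  have h3 : |∑ m ∈ SI s N, (μ m : ℝ) / (s m : ℝ) *
      ((∑ n ∈ SI s ⌊z / (s m : ℝ)⌋₊, 1 / (s n : ℝ)) -
        (κ * Real.log (z / (s m : ℝ)) + B))| ≤ 2 * K * C := by
    refine (Finset.abs_sum_le_sum_abs _ _).trans ?_
    have h4 : ∀ m ∈ SI s N, |(μ m : ℝ) / (s m : ℝ) *
        ((∑ n ∈ SI s ⌊z / (s m : ℝ)⌋₊, 1 / (s n : ℝ)) -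
        (κ * Real.log (z / (s m : ℝ)) + B))| ≤ C / √z * (s m : ℝ) ^ (-(1 / 2) : ℝ) := by
      intro m hm
      have hm0 : (0 : ℝ) < (s m : ℝ) := hS.r_pos (hS.mem_SI.mp hm).1
      rw [abs_mul, abs_div, abs_of_pos hm0]
      have hμ : |(μ m : ℝ)| ≤ 1 := by exact_mod_cast abs_moebius_le_one (n := m)
      have h5 := hh _ (hge m hm)
      calc |(μ m : ℝ)| / (s m : ℝ) * |(∑ n ∈ SI s ⌊z / (s m : ℝ)⌋₊, 1 / (s n : ℝ)) -
          (κ * Real.log (z / (s m : ℝ)) + B)| ≤ 1 / (s m : ℝ) * (C / √(z / (s m : ℝ))) := by gcongr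
        _ = C / √z * (s m : ℝ) ^ (-(1 / 2) : ℝ) := by
          rw [Real.sqrt_div' _ hm0.le, Real.rpow_neg hm0.le, ← Real.sqrt_eq_rpow]
          have e1 : √(s m : ℝ) * √(s m : ℝ) = (s m : ℝ) := Real.mul_self_sqrt hm0.le
          have e2 : 0 < √(s m : ℝ) := Real.sqrt_pos.mpr hm0
          have e3 : 0 < √z := Real.sqrt_pos.mpr hz0
          field_simp
          nlinarith
    refine (Finset.sum_le_sum h4).trans ?_
    rw [← Finset.mul_sum]
    have e3 : 0 < √z := Real.sqrt_pos.mpr hz0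
    calc C / √z * ∑ m ∈ SI s N, (s m : ℝ) ^ (-(1 / 2) : ℝ) ≤ C / √z * (2 * K * √(N : ℝ)) :=
          mul_le_mul_of_nonneg_left (hS.sum_rsqrt_le N) (by positivity)
      _ ≤ C / √z * (2 * K * √z) := by gcongr
      _ = 2 * K * C := by field_simp
  have h4 := abs_sum_moebius_div_le hS N
  have h7 : |B * (∑ m ∈ SI s N, (μ m : ℝ) / (s m : ℝ))| ≤ 4 * C * K ^ 3 := by
    rw [abs_mul]
    calc |B| * |∑ m ∈ SI s N, (μ m : ℝ) / (s m : ℝ)| ≤ C * (4 * K ^ 3) := by gcongr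
      _ = 4 * C * K ^ 3 := by ring
  have h8 : |κ * mset s ∅ z| ≤ 1 + 4 * C * K ^ 3 + 2 * K * C := by
    rw [h2]
    rw [abs_le] at h3 h7 ⊢
    constructor <;> linarith [h3.1, h3.2, h7.1, h7.2]
  rw [abs_mul, abs_of_pos hκ] at h8
  have h9 : |mset s ∅ z| ≤ K * (κ * |mset s ∅ z|) := by
    have := abs_nonneg (mset s ∅ z)
    nlinarith [hS.κ_inv]
  exact h9.trans (mul_le_mul_of_nonneg_left h8 hK0.le)

theorem mset_insert (hS : Sys s κ K) {S : Finset ℕ} {p : ℕ} (hp : p.Prime) (hpS : p ∉ S)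
    (hSp : ∀ r ∈ S, r.Prime) (z : ℝ) :
    mset s (insert p S) z = mset s S z + 1 / (s p : ℝ) * mset s (insert p S) (z / (s p : ℝ)) := by
  have hp0 : (0 : ℝ) < (s p : ℝ) := hS.r_pos hp.ne_zero
  have hp1 : 0 < s p := hS.s_pos hp.ne_zero
  -- split according to divisibility by p
  have h1 : mset s S z = ∑ m ∈ (SI s ⌊z⌋₊).filter (fun m => ∀ r ∈ insert p S, ¬ r ∣ m),
        (μ m : ℝ) / (s m : ℝ) * Real.log (z / (s m : ℝ))
      + ∑ m ∈ (SI s ⌊z⌋₊).filter (fun m => (∀ r ∈ S, ¬ r ∣ m) ∧ p ∣ m),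
        (μ m : ℝ) / (s m : ℝ) * Real.log (z / (s m : ℝ)) := by
    unfold mset
    rw [← Finset.sum_filter_add_sum_filter_not ((SI s ⌊z⌋₊).filter (fun m => ∀ r ∈ S, ¬ r ∣ m))
      (fun m => ¬ p ∣ m)]
    congr 1
    · refine Finset.sum_congr ?_ fun _ _ => rfl
      ext m
      simp only [mem_filter, mem_insert, forall_eq_or_imp]
      tauto
    · refine Finset.sum_congr ?_ fun _ _ => rfl
      ext m
      simp only [mem_filter, not_not]
      tauto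
  have h2 : ∑ m ∈ (SI s ⌊z⌋₊).filter (fun m => (∀ r ∈ S, ¬ r ∣ m) ∧ p ∣ m),
        (μ m : ℝ) / (s m : ℝ) * Real.log (z / (s m : ℝ)) =
      - (1 / (s p : ℝ) * mset s (insert p S) (z / (s p : ℝ))) := by
    unfold mset
    rw [Finset.mul_sum, ← Finset.sum_neg_distrib]
    symm
    have hinj : Set.InjOn (fun m => p * m)
        ((SI s ⌊z / (s p : ℝ)⌋₊).filter (fun m => ∀ r ∈ insert p S, ¬ r ∣ m) : Set ℕ) := by
      intro a _ b _ hab
      exact Nat.eq_of_mul_eq_mul_left hp.pos hab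
    have hsub := Finset.sum_subset (s₁ := ((SI s ⌊z / (s p : ℝ)⌋₊).filter
      (fun m => ∀ r ∈ insert p S, ¬ r ∣ m)).image (fun m => p * m))
      (s₂ := (SI s ⌊z⌋₊).filter (fun m => (∀ r ∈ S, ¬ r ∣ m) ∧ p ∣ m))
      (f := fun m : ℕ => (μ m : ℝ) / (s m : ℝ) * Real.log (z / (s m : ℝ))) ?_ ?_
    · rw [← hsub, Finset.sum_image hinj]
      refine Finset.sum_congr rfl fun m hm => ?_
      simp only [mem_filter, mem_insert, forall_eq_or_imp, hS.mem_SI] at hm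
      have hcop : Nat.Coprime p m := (Nat.Prime.coprime_iff_not_dvd hp).mpr hm.2.1
      have hmu : μ (p * m) = - μ m := by
        rw [isMultiplicative_moebius.map_mul_of_coprime hcop, moebius_apply_prime hp]; ring
      rw [hmu]
      have hm0 : (0 : ℝ) < (s m : ℝ) := hS.r_pos hm.1.1
      rw [s_cast_mul]
      push_cast
      rw [div_div]
      field_simp
    · intro m hm
      simp only [mem_image, mem_filter, hS.mem_SI, mem_insert, forall_eq_or_imp] at hm ⊢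
      obtain ⟨a, ⟨⟨ha1, ha2⟩, ha3, ha4⟩, rfl⟩ := hm
      have ha2' : s (p * a) ≤ ⌊z⌋₊ := by
        rw [Nat.floor_div_natCast] at ha2
        rw [map_mul]
        calc s p * s a ≤ s p * (⌊z⌋₊ / s p) := Nat.mul_le_mul_left _ ha2
          _ ≤ ⌊z⌋₊ := Nat.mul_div_le _ _
      refine ⟨⟨mul_ne_zero hp.ne_zero ha1, ha2'⟩, ?_, Dvd.intro _ rfl⟩
      intro r hr hd
      rcases (Nat.Prime.dvd_mul (hSp r hr)).mp hd with h | h
      · have := (Nat.prime_dvd_prime_iff_eq (hSp r hr) hp).mp h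
        exact hpS (this ▸ hr)
      · exact ha4 r hr h
    · intro m hm hm2
      simp only [mem_image, mem_filter, hS.mem_SI, mem_insert, forall_eq_or_imp] at hm hm2
      obtain ⟨⟨hm1, hm3⟩, hm4, a, rfl⟩ := hm
      have : μ (p * a) = 0 := by
        apply moebius_eq_zero_of_not_squarefree
        intro hsq
        apply hm2
        refine ⟨a, ⟨⟨?_, ?_⟩, ?_, ?_⟩, rfl⟩
        · exact right_ne_zero_of_mul hm1
        · rw [Nat.floor_div_natCast]
          rw [map_mul] at hm3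
          exact (Nat.le_div_iff_mul_le hp1).mpr (by rw [mul_comm]; exact hm3)
        · intro hd
          have hpp : p * p ∣ p * a := Nat.mul_dvd_mul_left p hd
          have := hsq p hpp
          exact hp.one_lt.ne' (Nat.isUnit_iff.mp this)
        · intro r hr hd
          exact hm4 r hr (Dvd.dvd.mul_left hd p)
      rw [this]; simp
  rw [h1, h2]
  unfold mset
  ring

/-- The Euler factor product `∏_{p ∈ S} (1 - 1 / s p)⁻¹`. -/
noncomputable def eulerFac (s : ℕ →*₀ ℕ) (S : Finset ℕ) : ℝ := ∏ p ∈ S, (1 - 1 / (s p : ℝ))⁻¹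

theorem abs_mset_le (hS : Sys s κ K) : ∃ C : ℝ, 1 ≤ C ∧ ∀ S : Finset ℕ, (∀ r ∈ S, r.Prime) →
    ∀ z : ℝ, |mset s S z| ≤ C * eulerFac s S := by
  obtain ⟨C, hC1, hC⟩ := abs_mset_empty_le hS
  have hC0 : 0 < C := by linarith
  refine ⟨C, hC1, fun S => ?_⟩
  induction S using Finset.induction_on with
  | empty => intro _ z; simpa [eulerFac] using hC z
  | insert p S hpS ih =>
    intro hSp z
    have hp : p.Prime := hSp p (by simp)
    have hS' : ∀ r ∈ S, r.Prime := fun r hr => hSp r (by simp [hr])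
    have hp2 : (2 : ℝ) ≤ (s p : ℝ) := hS.r_two hp
    have hfac : eulerFac s (insert p S) = (1 - 1 / (s p : ℝ))⁻¹ * eulerFac s S := by
      unfold eulerFac
      rw [Finset.prod_insert hpS]
    have hpos : (0 : ℝ) < 1 - 1 / (s p : ℝ) := by
      have : 1 / (s p : ℝ) ≤ 1 / 2 := by gcongr
      linarith
    have hSpos : 0 ≤ eulerFac s S := by
      have h := (abs_nonneg _).trans (ih hS' 1)
      exact nonneg_of_mul_nonneg_right h hC0
    -- induction on k with z < 2 ^ k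
    have key : ∀ k : ℕ, ∀ z : ℝ, z < 2 ^ k →
        |mset s (insert p S) z| ≤ C * eulerFac s (insert p S) := by
      intro k
      induction k with
      | zero =>
        intro z hz
        rw [mset_of_lt_one hS _ (by simpa using hz)]
        rw [hfac, abs_zero]
        have := inv_pos.mpr hpos
        positivity
      | succ k ihk =>
        intro z hz
        rw [mset_insert hS hp hpS hS']
        have hz' : z / (s p : ℝ) < 2 ^ k := by
          rw [div_lt_iff₀ (by linarith)]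
          calc z < 2 ^ (k+1) := hz
            _ = 2 ^ k * 2 := pow_succ _ _
            _ ≤ 2 ^ k * (s p : ℝ) := by gcongr
        have h1 := ihk _ hz'
        have h2 := ih hS' z
        have h3 : |mset s S z + 1 / (s p : ℝ) * mset s (insert p S) (z / (s p : ℝ))|
            ≤ C * eulerFac s S + 1 / (s p : ℝ) * (C * eulerFac s (insert p S)) := by
          calc _ ≤ |mset s S z| + |1 / (s p : ℝ) * mset s (insert p S) (z / (s p : ℝ))| :=
                abs_add_le _ _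
            _ = |mset s S z| + 1 / (s p : ℝ) * |mset s (insert p S) (z / (s p : ℝ))| := by
                rw [abs_mul, abs_of_nonneg (show (0 : ℝ) ≤ 1 / (s p : ℝ) by positivity)]
            _ ≤ _ := by gcongr
        refine h3.trans (le_of_eq ?_)
        have h4 : eulerFac s S = (1 - 1 / (s p : ℝ)) * eulerFac s (insert p S) := by
          rw [hfac, ← mul_assoc, mul_inv_cancel₀ hpos.ne', one_mul]
        rw [h4]; ring
    obtain ⟨k, hk⟩ := pow_unbounded_of_one_lt z (show (1:ℝ) < 2 by norm_num)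
    exact key k z hk

end Pool.Agent.H14.BN
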