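import Pool.Agent.H14.BN.Vp
import Pool.Agent.H14.BN.Mob

/-!
# Systems of sized numbers with one constant for all the elementary estimates

`Sx s κ K B`: all constants of `Mert1`, `Mert2`, `Vp`, `Harm`, `Mob` are bounded by `K`.
`exists_Sx`: take the maximum of all the constants (`Sys.mono`; for `vp_ge` take `K ≥ 1 / c`).
`Md.mono`, `Td.mono`: enlarge `K` (for `part`: `K` is in front and in the denominator of the negative
exponent).
-/

namespace Pool.Agent.H14.BN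

open Finset

universe u

variable {s : ℕ →*₀ ℕ} {κ K : ℝ}

theorem Sys.mono (hS : Sys s κ K) {K' : ℝ} (h : K ≤ K') : Sys s κ K' where
  two_le := hS.two_le
  fin := hS.fin
  κ_pos := hS.κ_pos
  K_one := hS.K_one.trans h
  κ_le := hS.κ_le.trans h
  κ_inv := hS.κ_inv.trans (mul_le_mul_of_nonneg_right h hS.κ_pos.le)
  card_sub := fun N => (hS.card_sub N).trans (mul_le_mul_of_nonneg_right h (Real.sqrt_nonneg _))
  card_le := fun N => (hS.card_le N).trans (mul_le_mul_of_nonneg_right h (Nat.cast_nonneg _))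
  cheb := fun N => (hS.cheb N).trans (mul_le_mul_of_nonneg_right h (Nat.cast_nonneg _))

theorem Md.mono {W : Type u} [CommGroupWithZero W] {cl : ℕ →*₀ W} {Q : ℕ} (hM : Md s K cl Q)
    {K' : ℝ} (h0 : 0 ≤ K) (h : K ≤ K') : Md s K' cl Q where
  Q_two := hM.Q_two
  zero := hM.zero
  card_le := hM.card_le.trans (mul_le_mul_of_nonneg_right h (Nat.cast_nonneg _))
  card_ge := hM.card_ge.trans (mul_le_mul_of_nonneg_right h (Nat.cast_nonneg _))
  slope := fun c P X Y c0 hY hc0 hX hP => by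
    have _ := h0
    refine (hM.slope c P X Y c0 hY hc0 hX hP).trans (mul_le_mul_of_nonneg_right h ?_)
    positivity

theorem Td.mono {W : Type u} [CommGroupWithZero W] {cl : ℕ →*₀ W} {Q : ℕ} {R m : ℝ}
    {Bad : Finset (MulChar W ℂ)} (hT : Td s K cl Q R m Bad) {K' : ℝ} (h0 : 0 < K) (h : K ≤ K') :
    Td s K' cl Q R m Bad where
  R_pos := hT.R_pos
  R_lo := hT.R_lo.trans (mul_le_mul_of_nonneg_right h (sq_nonneg _))
  R_hi := hT.R_hi.trans (mul_le_mul_of_nonneg_right h (Nat.cast_nonneg _))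
  bad_card := hT.bad_card.trans h
  one_mem := hT.one_mem
  fe := hT.fe
  part := fun u hu t ht htQ => by
    refine (hT.part u hu t ht htQ).trans ?_
    have hs : 0 ≤ √(Q : ℝ) * t := mul_nonneg (Real.sqrt_nonneg _) ht.le
    rcases hs.eq_or_lt with hs0 | hs0
    · simp [← hs0]
    · have hK' : 0 < K' := h0.trans_le h
      have h1 : K / (√(Q : ℝ) * t) ≤ K' / (√(Q : ℝ) * t) := by gcongr
      have h2 : 1 / (K' * √(Q : ℝ) * t) ≤ 1 / (K * √(Q : ℝ) * t) := by
        rw [mul_assoc, mul_assoc]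
        gcongr
      have h3 : Real.exp (-(1 / (K * √(Q : ℝ) * t))) ≤ Real.exp (-(1 / (K' * √(Q : ℝ) * t))) :=
        Real.exp_le_exp.mpr (neg_le_neg h2)
      exact mul_le_mul h1 h3 (Real.exp_pos _).le (by positivity)

structure Sx (s : ℕ →*₀ ℕ) (κ K B : ℝ) : Prop where
  sys : Sys s κ K
  B_le : |B| ≤ K
  harm : ∀ x : ℝ, 1 ≤ x →
    |∑ n ∈ SI s ⌊x⌋₊, 1 / (s n : ℝ) - (κ * Real.log x + B)| ≤ K / √x
  mert : ∀ n : ℕ, 1 ≤ n → |mA s n - Real.log n| ≤ K
  inv_primes : ∀ m n : ℕ, 2 ≤ m → m ≤ n → ∑ p ∈ PIoc s m n, (1 : ℝ) / (s p : ℝ) ≤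
    Real.log (Real.log n / Real.log m) + K / Real.log m
  vp_le : ∀ n : ℕ, 2 ≤ n → Vp s n ≤ K / Real.log n
  vp_ge : ∀ n : ℕ, 2 ≤ n → 1 / (K * Real.log n) ≤ Vp s n
  mset_le : ∀ S : Finset ℕ, (∀ r ∈ S, r.Prime) → ∀ z : ℝ, |mset s S z| ≤ K * eulerFac s S

theorem exists_Sx (hS : Sys s κ K) : ∃ K' B : ℝ, K ≤ K' ∧ Sx s κ K' B := by
  obtain ⟨B, C1, hC1, hB, hH⟩ := harm_asymp hS
  obtain ⟨C2, hC2, hM⟩ := mA_bound hS
  obtain ⟨C3, hC3, hI⟩ := sum_inv_primes_le hS
  obtain ⟨C4, hC4, hV⟩ := Vp_le hS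
  obtain ⟨c, hc, hVg⟩ := Vp_ge hS
  obtain ⟨C5, hC5, hm⟩ := abs_mset_le hS
  have hK := hS.K_pos
  have hc1 : 0 < 1 / c := by positivity
  set K' := K + C1 + C2 + C3 + C4 + 1 / c + C5 with hK'
  have e0 : K ≤ K' := by rw [hK']; linarith
  have e1 : C1 ≤ K' := by rw [hK']; linarith
  have e2 : C2 ≤ K' := by rw [hK']; linarith
  have e3 : C3 ≤ K' := by rw [hK']; linarith
  have e4 : C4 ≤ K' := by rw [hK']; linarith
  have e5 : 1 / c ≤ K' := by rw [hK']; linarith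
  have e6 : C5 ≤ K' := by rw [hK']; linarith
  have hK'0 : 0 < K' := hK.trans_le e0
  have hl : ∀ n : ℕ, 2 ≤ n → 0 < Real.log n := fun n hn =>
    Real.log_pos (by exact_mod_cast hn)
  refine ⟨K', B, e0, hS.mono e0, hB.trans e1, fun x hx => (hH x hx).trans ?_,
    fun n hn => (hM n hn).trans e2, fun m n h2 hmn => (hI m n h2 hmn).trans ?_,
    fun n hn => (hV n hn).trans ?_, fun n hn => ?_, fun S hS' z => (hm S hS' z).trans ?_⟩
  · gcongr
  · have := hl m h2
    gcongr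
  · have := hl n hn
    gcongr
  · refine le_trans ?_ (hVg n hn)
    have hln := hl n hn
    have h1 : 1 ≤ K' * c := by
      rw [div_le_iff₀ hc] at e5
      exact e5
    rw [div_le_div_iff₀ (by positivity) hln]
    nlinarith [mul_le_mul_of_nonneg_right h1 hln.le]
  · have h0 : 0 ≤ eulerFac s S := by
      have h1 := (abs_nonneg _).trans (hm S hS' z)
      exact nonneg_of_mul_nonneg_right h1 (by linarith)
    exact mul_le_mul_of_nonneg_right e6 h0

end Pool.Agent.H14.BN
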