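import Pool.Agent.H14.BN.BoxR
import Pool.Agent.H14.BN.Dyad
import Pool.Agent.H74.TS.SumP

/-!
# Sum over small primes, sized numbers

Port of `wsum_primes` of `Pool/Agent/H74/TS/SumP.lean` (`sumP_red` there is used as it is; its `Red` is the
same proposition): copy with `((p.1 * p.2 : ℕ) : ℝ)` replaced by `(s (p.1 * p.2) : ℝ)`; the trivial bound
of a block is `blk_card` (constant `4 K²` instead of `1`), whence the factor `K²` in the result.
`Few s z (p.1 * p.2)` for `p.1 * p.2` prime: `Ω = 1`, `hS.log_nonneg`.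
-/

namespace Pool.Agent.H14.BN

open Finset Pool.Agent.H14.PT
open scoped ArithmeticFunction.Omega

universe u

variable {W : Type u} [CommGroupWithZero W]

theorem wsum_primes {s : ℕ →*₀ ℕ} {κ K : ℝ} (hS : Sys s κ K) {cl : ℕ →*₀ W} {Q : ℕ}
    (hM : Md s K cl Q) {h1 h2 : ℝ} {v1 v2 : ℕ × ℕ → ℝ} (hv1 : KF K cl h1 v1)
    (hv2 : KF K cl h2 v2) {ε : ℝ} (hε : 0 < ε) (hε1 : ε ≤ 1 / 10) (P : Finset (ℕ × ℕ))
    (z : ℝ) (hz0 : 0 < z) (hz : 100 / ε ≤ Real.log z) (hL : 2 ≤ Real.log Q)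
    (hzL : (100 / ε) * Real.log (Real.log Q) ≤ Real.log z)
    (hzq : (100 / ε) * Real.log (8 * z) ≤ Real.log Q)
    (hd : Real.log (2 * Real.sqrt (h1 * h2)) ≤ (1 / 2 - ε / 4) * Real.log Q)
    (hP : ∀ p ∈ P, (p.1 * p.2).Prime ∧ (s (p.1 * p.2) : ℝ) ≤ z) :
    ∑ p ∈ P, ww v1 v2 p *
      (Real.log (s (p.1 * p.2)) * ((s (p.1 * p.2) : ℝ)) ^ (-(1 / 2) : ℝ)) ≤
      32 * K ^ 2 * (Real.log z) ^ 3 * (Real.log Q) ^ (1 - ε / 5) := by
  have hK1 : 1 ≤ K := hS.K_one
  have hK2 : 1 ≤ K ^ 2 := one_le_pow₀ hK1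
  set L := Real.log Q with hLdef
  have hε100 : 1000 ≤ 100 / ε := by
    rw [le_div_iff₀ hε]
    linarith
  have hz1000 : 1000 ≤ Real.log z := hε100.trans hz
  have hz100 : 100 ≤ Real.log z := by linarith
  set M : ℕ := ⌊Real.log z / Real.log 2⌋₊ + 1 with hMdef
  have hl2 := Real.log_two_gt_d9
  have hM2 : (M : ℝ) ≤ 2 * Real.log z := by
    have h1 : (⌊Real.log z / Real.log 2⌋₊ : ℝ) ≤ Real.log z / Real.log 2 :=
      Nat.floor_le (by positivity)
    have h2 : Real.log z / Real.log 2 ≤ 1.5 * Real.log z := by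
      rw [div_le_iff₀ (by linarith)]
      nlinarith
    rw [hMdef]
    push_cast
    linarith
  have hzM : ∀ n : ℕ, (n : ℝ) ≤ z → n < 2 ^ M := by
    intro n hn
    have hl2' : 0 < Real.log 2 := Real.log_pos (by norm_num)
    have h1 := Nat.lt_floor_add_one (Real.log z / Real.log 2)
    rw [div_lt_iff₀ hl2'] at h1
    have h2 : z < (2 : ℝ) ^ M := by
      rw [← Real.log_lt_log_iff hz0 (by positivity), Real.log_pow, hMdef]
      push_cast
      exact h1
    have h3 := hn.trans_lt h2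
    exact_mod_cast h3
  have hred : ∀ p ∈ P, BN.Red p := fun p hp => H74.TS.sumP_red (hP p hp).1
  have hsum := BN.dyadic_sum hS P (fun p hp => ⟨(hred p hp).2.1, (hred p hp).2.2⟩)
    (fun p => BN.ww v1 v2 p *
      (Real.log (s (p.1 * p.2)) * ((s (p.1 * p.2) : ℝ)) ^ (-(1 / 2) : ℝ))) M ?_
    (8 * K ^ 2 * Real.log z * L ^ (1 - ε / 5)) ?_
  · refine hsum.trans ?_
    have h1 : (M : ℝ) ^ 2 ≤ 4 * Real.log z ^ 2 := by
      have : (0 : ℝ) ≤ M := by positivity
      nlinarith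
    calc (M : ℝ) ^ 2 * (8 * K ^ 2 * Real.log z * L ^ (1 - ε / 5)) ≤
          (4 * Real.log z ^ 2) * (8 * K ^ 2 * Real.log z * L ^ (1 - ε / 5)) := by gcongr
      _ = _ := by ring
  · intro p hp
    obtain ⟨_, h1, h2⟩ := hred p hp
    have h5 : s p.1 ≤ s (p.1 * p.2) := hS.le_mul_right _ h2
    have h6 : s p.2 ≤ s (p.1 * p.2) := hS.le_mul_left _ h1
    have h7 := hzM _ (hP p hp).2
    exact ⟨h5.trans_lt h7, h6.trans_lt h7⟩
  · intro i j
    change ∑ p ∈ BN.blk s P i j, _ ≤ _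
    have hL1 : 1 ≤ L := by linarith
    rcases (BN.blk s P i j).eq_empty_or_nonempty with he | ⟨p0, hp0⟩
    · rw [he, Finset.sum_empty]; positivity
    set X : ℝ := (2 : ℝ) ^ i * 2 ^ j with hX
    have hX0 : 0 < X := by positivity
    obtain ⟨b1, b2⟩ := BN.blk_prod_bounds hp0
    have hXz : X ≤ z := b1.trans (hP p0 (Finset.mem_filter.mp hp0).1).2
    have hup : (100 / ε) * Real.log (8 * 2 ^ i * 2 ^ j) ≤ L := by
      refine le_trans ?_ hzq
      rw [mul_assoc 8]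
      have := Real.log_le_log (show (0 : ℝ) < 8 * X by positivity)
        (mul_le_mul_of_nonneg_left hXz (by norm_num : (0 : ℝ) ≤ 8))
      exact mul_le_mul_of_nonneg_left this (by linarith)
    have hrough := BN.wbox_rough hS hM hv1 hv2 hε hε1 (BN.blk s P i j) (2 ^ i) (2 ^ j)
      (one_le_pow₀ (by norm_num)) (one_le_pow₀ (by norm_num)) z hz hL1 hzL hup hd
      (BN.blk_IB hred i j) (fun p hp => by
        have h1 := (hP p (Finset.mem_filter.mp hp).1).1
        unfold BN.Few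
        rw [ArithmeticFunction.cardFactors_apply_prime h1]
        have : 0 ≤ Real.log (s (p.1 * p.2)) / Real.log z :=
          div_nonneg (hS.log_nonneg _) (by linarith)
        push_cast
        linarith)
    have hww : ∑ p ∈ BN.blk s P i j, BN.ww v1 v2 p ≤ 4 * K ^ 2 * X := by
      calc ∑ p ∈ BN.blk s P i j, BN.ww v1 v2 p ≤ ∑ _p ∈ BN.blk s P i j, (1 : ℝ) :=
            Finset.sum_le_sum fun p _ => BN.ww_le_one hv1 hv2 p
        _ = (BN.blk s P i j).card := by rw [Finset.sum_const, nsmul_eq_mul, mul_one]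
        _ ≤ 4 * K ^ 2 * X := BN.blk_card hS P (fun p hp => (hred p hp).2) i j
    have hww0 : 0 ≤ ∑ p ∈ BN.blk s P i j, BN.ww v1 v2 p :=
      Finset.sum_nonneg fun p _ => BN.ww_nonneg v1 v2 p
    have hterm : ∀ p ∈ BN.blk s P i j, BN.ww v1 v2 p *
        (Real.log (s (p.1 * p.2)) * ((s (p.1 * p.2) : ℝ)) ^ (-(1 / 2) : ℝ)) ≤
        BN.ww v1 v2 p * (Real.log z * X ^ (-(1 / 2) : ℝ)) := by
      intro p hp
      have hpP := (Finset.mem_filter.mp hp).1
      obtain ⟨h2, h3⟩ := hP p hpP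
      have hp0 : (0 : ℝ) < (s (p.1 * p.2) : ℝ) := hS.r_pos h2.ne_zero
      have h4 : Real.log (s (p.1 * p.2)) ≤ Real.log z := Real.log_le_log hp0 h3
      have h6 : ((s (p.1 * p.2) : ℝ)) ^ (-(1 / 2) : ℝ) ≤ X ^ (-(1 / 2) : ℝ) :=
        Real.rpow_le_rpow_of_nonpos hX0 (BN.blk_prod_bounds hp).1 (by norm_num)
      refine mul_le_mul_of_nonneg_left ?_ (BN.ww_nonneg v1 v2 p)
      exact mul_le_mul h4 h6 (by positivity) (by linarith)
    have key : (∑ p ∈ BN.blk s P i j, BN.ww v1 v2 p) * X ^ (-(1 / 2) : ℝ) ≤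
        8 * K ^ 2 * L ^ (1 - ε / 5) := by
      by_cases hc : X ≤ L ^ (2 - ε)
      · calc (∑ p ∈ BN.blk s P i j, BN.ww v1 v2 p) * X ^ (-(1 / 2) : ℝ)
            ≤ (4 * K ^ 2 * X) * X ^ (-(1 / 2) : ℝ) := by gcongr
          _ = 4 * K ^ 2 * X ^ (1 / 2 : ℝ) := by
              rw [mul_assoc]
              congr 1
              nth_rw 1 [← Real.rpow_one X]
              rw [← Real.rpow_add hX0]; norm_num
          _ ≤ 4 * K ^ 2 * (L ^ (2 - ε)) ^ (1 / 2 : ℝ) := by gcongr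
          _ = 4 * K ^ 2 * L ^ ((2 - ε) * (1 / 2)) := by rw [← Real.rpow_mul (by linarith)]
          _ ≤ 4 * K ^ 2 * L ^ (1 - ε / 5) := by
              refine mul_le_mul_of_nonneg_left ?_ (by positivity)
              exact Real.rpow_le_rpow_of_exponent_le hL1 (by linarith)
          _ ≤ 8 * K ^ 2 * L ^ (1 - ε / 5) := by
              have : 0 ≤ K ^ 2 * L ^ (1 - ε / 5) := by positivity
              linarith
      · push Not at hc
        have h8 : (8 : ℝ) ^ (1 / 2 - ε / 8) ≤ 4 := by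
          calc (8 : ℝ) ^ (1 / 2 - ε / 8) ≤ (8 : ℝ) ^ (2 / 3 : ℝ) :=
                Real.rpow_le_rpow_of_exponent_le (by norm_num) (by linarith)
            _ = 4 := by
                rw [show (8 : ℝ) = 2 ^ (3 : ℝ) by norm_num, ← Real.rpow_mul (by norm_num)]
                norm_num
        have h9 : X ^ (-(ε / 8)) ≤ (L ^ (2 - ε)) ^ (-(ε / 8)) :=
          Real.rpow_le_rpow_of_nonpos (by positivity) hc.le (by linarith)
        calc (∑ p ∈ BN.blk s P i j, BN.ww v1 v2 p) * X ^ (-(1 / 2) : ℝ)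
            ≤ (2 * L * (8 * 2 ^ i * 2 ^ j) ^ (1 / 2 - ε / 8)) * X ^ (-(1 / 2) : ℝ) := by gcongr
          _ = 2 * L * (8 : ℝ) ^ (1 / 2 - ε / 8) *
                (X ^ (1 / 2 - ε / 8) * X ^ (-(1 / 2) : ℝ)) := by
              rw [mul_assoc 8, Real.mul_rpow (x := 8) (by norm_num) hX0.le]
              ring
          _ = 2 * L * (8 : ℝ) ^ (1 / 2 - ε / 8) * X ^ (-(ε / 8)) := by
              rw [← Real.rpow_add hX0]
              congr 2
              ring
          _ ≤ 2 * L * 4 * (L ^ (2 - ε)) ^ (-(ε / 8)) := by gcongr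
          _ = 8 * L ^ (1 + (2 - ε) * (-(ε / 8))) := by
              rw [← Real.rpow_mul (by linarith), Real.rpow_add (by linarith), Real.rpow_one]
              ring
          _ ≤ 8 * L ^ (1 - ε / 5) := by
              refine mul_le_mul_of_nonneg_left ?_ (by norm_num)
              exact Real.rpow_le_rpow_of_exponent_le hL1 (by nlinarith)
          _ ≤ 8 * K ^ 2 * L ^ (1 - ε / 5) := by
              have h10 : 0 ≤ L ^ (1 - ε / 5) := by positivity
              nlinarith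
    calc ∑ p ∈ BN.blk s P i j, BN.ww v1 v2 p *
          (Real.log (s (p.1 * p.2)) * ((s (p.1 * p.2) : ℝ)) ^ (-(1 / 2) : ℝ))
        ≤ ∑ p ∈ BN.blk s P i j, BN.ww v1 v2 p * (Real.log z * X ^ (-(1 / 2) : ℝ)) :=
          Finset.sum_le_sum hterm
      _ = Real.log z * ((∑ p ∈ BN.blk s P i j, BN.ww v1 v2 p) * X ^ (-(1 / 2) : ℝ)) := by
          rw [← Finset.sum_mul]; ring
      _ ≤ Real.log z * (8 * K ^ 2 * L ^ (1 - ε / 5)) := by gcongr
      _ = _ := by ring

end Pool.Agent.H14.BN
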