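import Pool.Agent.H14.BN.Cls
import Pool.Agent.H14.BN.SumP
import Pool.Agent.H14.BN.Ext
import Pool.Agent.H74.TS.ClsP

/-!
# The class of small prime powers, sized numbers

Port of `Pool/Agent/H74/TS/ClsP.lean` (and of `geom_half` of `H14/PT/ClsP.lean`).

* `wP_asymp`: `log z ≤ (Z+1) log L`, everything on the left is `O (L^(1 - ε/10))` (`K` is fixed).
* `clsP_high`: as there, with `hX.mert` (`∑_{SP s z} log (s r) / s r ≤ log z + K`).
* `wsum_P`: as there.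
-/

namespace Pool.Agent.H14.BN

open Finset Pool.Agent.H14.PT Pool.Agent.H74.TS

universe u

variable {s : ℕ →*₀ ℕ} {κ K B0 : ℝ}

lemma geom_half (hS : Sys s κ K) {r : ℕ} (hr : r.Prime) (J : ℕ) :
    ∑ j ∈ Icc 2 J, ((s r : ℝ) ^ j) ^ (-(1 / 2) : ℝ) ≤ 4 * (1 / (s r : ℝ)) := by
  have hr0 : (0 : ℝ) < (s r : ℝ) := hS.r_pos hr.ne_zero
  have hr2 : (2 : ℝ) ≤ (s r : ℝ) := hS.r_two hr
  set x : ℝ := (s r : ℝ) ^ (-(1 / 2) : ℝ) with hx
  have hx0 : 0 < x := by positivity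
  have hxs : x * x = 1 / (s r : ℝ) := by
    rw [hx, ← Real.rpow_add hr0]
    norm_num
    rw [Real.rpow_neg_one]
  have hx1 : x ≤ 3 / 4 := by
    by_contra h
    push Not at h
    have h1 : (3 / 4 : ℝ) * (3 / 4) < x * x := by nlinarith
    rw [hxs] at h1
    have h2 : 1 / (s r : ℝ) ≤ 1 / 2 := one_div_le_one_div_of_le (by norm_num) hr2
    linarith
  have h1 : ∑ j ∈ Icc 2 J, ((s r : ℝ) ^ j) ^ (-(1 / 2) : ℝ) = ∑ j ∈ Ico 2 (J + 1), x ^ j := by
    have : Icc 2 J = Ico 2 (J + 1) := by ext; simp only [mem_Icc, mem_Ico]; omega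
    rw [this]
    refine Finset.sum_congr rfl fun j _ => ?_
    rw [hx, ← Real.rpow_natCast, ← Real.rpow_natCast, ← Real.rpow_mul hr0.le, ← Real.rpow_mul hr0.le,
      mul_comm]
  rw [h1]
  refine (geom_sum_Ico_le_of_lt_one hx0.le (by linarith)).trans ?_
  rw [div_le_iff₀ (by linarith), sq, hxs]
  have : 0 < 1 / (s r : ℝ) := by positivity
  nlinarith

theorem wP_asymp (K ε : ℝ) (Z : ℕ) : ∃ Q0 : ℝ, ∀ L : ℝ, Q0 ≤ L → BN.Bg K ε Z L →
    2 * (32 * K ^ 2 * (Real.log (tz Z L)) ^ 3 * L ^ (1 - ε / 5)) + 8 * (Real.log (tz Z L) + K) ≤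
      L := by
  set C : ℝ := (Z + 1) * (40 / ε) with hC
  set M : ℝ := 64 * K ^ 2 * C ^ 3 + 8 * C + 8 * |K| with hM
  refine ⟨M ^ (8 / ε), fun L hL hBB => ?_⟩
  have hB := hBB.toBg
  have hK1 := hBB.K1
  have hKa : |K| = K := abs_of_pos (by linarith)
  have hε := hB.hε
  have hε1 := hB.hε1
  have hLpos : 0 < L := hB.Lpos
  have hL1 : 1 ≤ L := by linarith [hB.hL]
  have hC0 : 0 ≤ C := by positivity
  have hM0 : 0 ≤ M := by positivity
  have h1 : Real.log L ≤ (40 / ε) * L ^ (ε / 40) := by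
    have h := Real.log_le_rpow_div hLpos.le (show (0 : ℝ) < ε / 40 by positivity)
    calc Real.log L ≤ L ^ (ε / 40) / (ε / 40) := h
      _ = _ := by field_simp
  have h2 := hB.logz_hi
  have h20 : 0 ≤ Real.log (tz Z L) := by linarith [hB.logz_1000]
  have h3 : Real.log (tz Z L) ≤ C * L ^ (ε / 40) := by
    refine h2.trans ?_
    rw [hC, mul_assoc]
    exact mul_le_mul_of_nonneg_left h1 (by positivity)
  have h4 : (Real.log (tz Z L)) ^ 3 ≤ C ^ 3 * L ^ (3 * ε / 40) := by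
    calc (Real.log (tz Z L)) ^ 3 ≤ (C * L ^ (ε / 40)) ^ 3 := by gcongr
      _ = C ^ 3 * L ^ (3 * ε / 40) := by
          rw [mul_pow, ← Real.rpow_natCast (L ^ (ε / 40)), ← Real.rpow_mul hLpos.le]
          congr 2
          push_cast
          ring
  have h5 : L ^ (3 * ε / 40) * L ^ (1 - ε / 5) = L ^ (1 - ε / 8) := by
    rw [← Real.rpow_add hLpos]
    congr 1
    ring
  have h6 : L ^ (ε / 40) ≤ L ^ (1 - ε / 8) :=
    Real.rpow_le_rpow_of_exponent_le hL1 (by linarith)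
  have h7 : 1 ≤ L ^ (1 - ε / 8) := Real.one_le_rpow hL1 (by linarith)
  have h8 : M ≤ L ^ (ε / 8) := by
    calc M = (M ^ (8 / ε)) ^ (ε / 8) := by
          rw [← Real.rpow_mul hM0]
          have : 8 / ε * (ε / 8) = 1 := by field_simp
          rw [this, Real.rpow_one]
      _ ≤ _ := Real.rpow_le_rpow (Real.rpow_nonneg hM0 _) hL (by positivity)
  have h9 : L ^ (1 - ε / 8) * L ^ (ε / 8) = L := by
    rw [← Real.rpow_add hLpos]
    have : 1 - ε / 8 + ε / 8 = 1 := by ring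
    rw [this, Real.rpow_one]
  have h10 : K ≤ K * L ^ (1 - ε / 8) := le_mul_of_one_le_right (by linarith) h7
  calc 2 * (32 * K ^ 2 * (Real.log (tz Z L)) ^ 3 * L ^ (1 - ε / 5)) +
        8 * (Real.log (tz Z L) + K)
      ≤ 2 * (32 * K ^ 2 * (C ^ 3 * L ^ (3 * ε / 40)) * L ^ (1 - ε / 5)) +
          8 * (C * L ^ (1 - ε / 8) + K * L ^ (1 - ε / 8)) := by
        gcongr
        exact h3.trans (mul_le_mul_of_nonneg_left h6 hC0)
    _ = (64 * K ^ 2 * C ^ 3) * (L ^ (3 * ε / 40) * L ^ (1 - ε / 5)) +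
          (8 * C + 8 * K) * L ^ (1 - ε / 8) := by
        ring
    _ = M * L ^ (1 - ε / 8) := by rw [h5, hM, hKa]; ring
    _ ≤ L ^ (ε / 8) * L ^ (1 - ε / 8) := by gcongr
    _ = L := by rw [mul_comm, h9]

theorem clsP_high (hX : Sx s κ K B0) (z J : ℕ) (hz : 1 ≤ z) (L : ℝ) (hL : 0 < L)
    (P : Finset (ℕ × ℕ))
    (hP : ∀ p ∈ P, Nat.Coprime p.1 p.2 ∧
      ∃ r j, r.Prime ∧ s r ≤ z ∧ 2 ≤ j ∧ j ≤ J ∧ p.1 * p.2 = r ^ j) :
    ∑ p ∈ P, ((s (p.1 * p.2) : ℝ)) ^ (-(1 / 2) : ℝ) *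
      (Real.log (s (Nat.minFac (p.1 * p.2))) / L) ≤ 8 / L * (Real.log z + K) := by
  classical
  have hS := hX.sys
  set f : ℕ × ℕ → ℝ := fun p => ((s (p.1 * p.2) : ℝ)) ^ (-(1 / 2) : ℝ) *
      (Real.log (s (Nat.minFac (p.1 * p.2))) / L) with hf
  set I := (SP s z ×ˢ Finset.Icc 2 J) ×ˢ (Finset.univ : Finset Bool) with hI
  set pt : (ℕ × ℕ) × Bool → ℕ × ℕ := fun i =>
    if i.2 then (i.1.1 ^ i.1.2, 1) else (1, i.1.1 ^ i.1.2) with hpt
  have hcov : ∀ p ∈ P, ∃ i ∈ I, p = pt i := by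
    intro p hp
    obtain ⟨hcop, r, j, hr, hrz, hj, hjJ, hprod⟩ := hP p hp
    have hdvd : r ∣ p.1 ∨ r ∣ p.2 := by
      have : r ∣ p.1 * p.2 := by rw [hprod]; exact dvd_pow_self r (by omega)
      exact (Nat.Prime.dvd_mul hr).mp this
    rcases hdvd with h | h
    · have hr1 : ¬ r ∣ p.2 := fun h' => hr.one_lt.ne' (Nat.eq_one_of_dvd_coprimes hcop h h')
      have hcr : Nat.Coprime (r ^ j) p.2 :=
        Nat.Coprime.pow_left j ((Nat.Prime.coprime_iff_not_dvd hr).mpr hr1)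
      have h3 : p.2 = 1 := by
        have : p.2 ∣ r ^ j := ⟨p.1, by rw [← hprod]; ring⟩
        exact Nat.eq_one_of_dvd_coprimes hcr this (dvd_refl _)
      rw [h3, mul_one] at hprod
      refine ⟨((r, j), true), by simp [hI, hS.mem_SP, hr, hrz, hj, hjJ], ?_⟩
      simp only [hpt, if_true]
      exact Prod.ext hprod h3
    · have hr1 : ¬ r ∣ p.1 := fun h' => hr.one_lt.ne' (Nat.eq_one_of_dvd_coprimes hcop h' h)
      have hcr : Nat.Coprime (r ^ j) p.1 :=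
        Nat.Coprime.pow_left j ((Nat.Prime.coprime_iff_not_dvd hr).mpr hr1)
      have h3 : p.1 = 1 := by
        have : p.1 ∣ r ^ j := ⟨p.2, by rw [← hprod]⟩
        exact Nat.eq_one_of_dvd_coprimes hcr this (dvd_refl _)
      rw [h3, one_mul] at hprod
      refine ⟨((r, j), false), by simp [hI, hS.mem_SP, hr, hrz, hj, hjJ], ?_⟩
      simp only [hpt, Bool.false_eq_true, if_false]
      exact Prod.ext h3 hprod
  have hf0 : ∀ p ∈ P, 0 ≤ f p := by
    intro p _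
    simp only [hf]
    have : 0 ≤ Real.log (s (Nat.minFac (p.1 * p.2))) := Real.log_natCast_nonneg _
    positivity
  have hsum := cover_sum P I (fun i p => p = pt i) f hf0 hcov
  refine hsum.trans ?_
  have hval : ∀ i ∈ I, ∑ p ∈ P.filter (fun p => p = pt i), f p ≤
      ((s i.1.1 : ℝ) ^ i.1.2) ^ (-(1 / 2) : ℝ) * (Real.log (s i.1.1) / L) := by
    rintro ⟨⟨r, j⟩, side⟩ hi
    simp only [hI, mem_product, hS.mem_SP, mem_Icc, mem_univ, and_true] at hi
    obtain ⟨⟨hr, hrz⟩, hj, hjJ⟩ := hi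
    have hlr : 0 ≤ Real.log (s r : ℝ) := Real.log_natCast_nonneg _
    rw [Finset.filter_eq']
    by_cases hmem : pt ((r, j), side) ∈ P
    · rw [if_pos hmem, Finset.sum_singleton]
      have hfv : f (pt ((r, j), side)) = ((s r : ℝ) ^ j) ^ (-(1 / 2) : ℝ) *
          (Real.log (s r) / L) := by
        have : (pt ((r, j), side)).1 * (pt ((r, j), side)).2 = r ^ j := by
          simp only [hpt]
          cases side <;> simp
        simp only [hf]
        rw [this, hr.pow_minFac (by omega), s_cast_pow]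
      rw [hfv]
    · rw [if_neg hmem, Finset.sum_empty]
      positivity
  refine (Finset.sum_le_sum hval).trans ?_
  rw [hI, Finset.sum_product, Finset.sum_product]
  simp only [Finset.sum_const, Finset.card_univ, Fintype.card_bool, nsmul_eq_mul]
  have hsplit : ∀ r ∈ SP s z, ∑ j ∈ Icc 2 J, (((2 : ℕ) : ℝ) *
      (((s r : ℝ) ^ j) ^ (-(1 / 2) : ℝ) * (Real.log (s r) / L))) ≤
        8 / L * (Real.log (s r) / (s r : ℝ)) := by
    intro r hr
    obtain ⟨hrp, hrz⟩ := hS.mem_SP.mp hr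
    have hr0 : (0 : ℝ) < (s r : ℝ) := hS.r_pos hrp.ne_zero
    have hlr : 0 ≤ Real.log (s r : ℝ) := Real.log_natCast_nonneg _
    have h3 : ∀ j ∈ Icc 2 J, (((2 : ℕ) : ℝ) *
        (((s r : ℝ) ^ j) ^ (-(1 / 2) : ℝ) * (Real.log (s r) / L))) =
        (2 * (Real.log (s r) / L)) * ((s r : ℝ) ^ j) ^ (-(1 / 2) : ℝ) := by
      intro j hj
      push_cast
      ring
    rw [Finset.sum_congr rfl h3, ← Finset.mul_sum]
    calc (2 * (Real.log (s r) / L)) * ∑ j ∈ Icc 2 J, ((s r : ℝ) ^ j) ^ (-(1 / 2) : ℝ)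
        ≤ (2 * (Real.log (s r) / L)) * (4 * (1 / (s r : ℝ))) :=
          mul_le_mul_of_nonneg_left (geom_half hS hrp J) (by positivity)
      _ = _ := by ring
  refine (Finset.sum_le_sum hsplit).trans ?_
  rw [← Finset.mul_sum]
  have hM : ∑ r ∈ SP s z, Real.log (s r) / (s r : ℝ) ≤ Real.log z + K := by
    have h1 := (abs_le.mp (hX.mert z hz)).2
    have h5 : ∑ p ∈ SP s z, Real.log (s p) / (s p : ℝ) = mA s z := rfl
    rw [h5]
    linarith
  exact mul_le_mul_of_nonneg_left hM (by positivity)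

theorem wsum_P (hX : Sx s κ K B0) (ε : ℝ) (Z : ℕ) :
    ∃ Q0 : ℝ, ∀ (W : Type u) [CommGroupWithZero W] (cl : ℕ →*₀ W) (Q : ℕ), Md s K cl Q →
    Q0 ≤ Real.log Q →
    BN.Bg K ε Z (Real.log Q) → ∀ (h1 h2 : ℝ) (v1 v2 : ℕ × ℕ → ℝ), BN.KF K cl h1 v1 →
    BN.KF K cl h2 v2 →
    Real.log h1 + 2 * Real.log h2 ≤ (1 - ε) * Real.log Q → ∀ P : Finset (ℕ × ℕ),
    (∀ p ∈ P, BN.Red p ∧ (s (p.1 * p.2) : ℝ) ≤ Real.exp (kap ε Z * Real.log Q) ∧
      ∃ r j, r.Prime ∧ s r ≤ tz Z (Real.log Q) ∧ 1 ≤ j ∧ p.1 * p.2 = r ^ j) →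
    ∑ p ∈ P, BN.ww v1 v2 p * (((s (p.1 * p.2) : ℝ)) ^ (-(1 / 2) : ℝ) *
      (Real.log (s (Nat.minFac (p.1 * p.2))) / Real.log Q)) ≤ 2 := by
  classical
  obtain ⟨Q0, hQ0⟩ := wP_asymp K ε Z
  refine ⟨Q0, ?_⟩
  intro W _ cl Q hMd hq hBB h1 h2 v1 v2 hv1 hv2 hc P hP
  have hS := hX.sys
  have hB := hBB.toBg
  have hasy := hQ0 _ hq hBB
  have hK1 := hBB.K1
  have hL100 := hB.hL
  have hLpos := hB.Lpos
  have hz2 := hB.z_two
  have hε := hB.hε
  have hε1 := hB.hε1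
  have hd := cond_half hB hv1.one_le hv2.one_le hc
  set L := Real.log Q with hL
  set z := tz Z L with hz
  have hz0 : (0 : ℝ) < z := by exact_mod_cast (by omega : 0 < z)
  set J := ⌊L⌋₊ with hJ
  have hJb : ∀ p ∈ P, ∀ r j : ℕ, r.Prime → p.1 * p.2 = r ^ j → j ≤ J := by
    intro p hp r j hr hprod
    obtain ⟨_, hn, _⟩ := hP p hp
    rw [hJ]
    apply Nat.le_floor
    have h1 : 2 ^ j ≤ s (p.1 * p.2) := by
      rw [hprod, map_pow]
      exact Nat.pow_le_pow_left (hS.two_le r hr) j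
    have h2 : ((2 : ℝ)) ^ j ≤ Real.exp (kap ε Z * L) := by
      refine le_trans ?_ hn
      exact_mod_cast h1
    have h3 := Real.log_le_log (by positivity) h2
    rw [Real.log_exp, Real.log_pow] at h3
    have h4 := Real.log_two_gt_d9
    have h5 : (0 : ℝ) ≤ j := by positivity
    have h6 : kap ε Z * L ≤ (1 / 10) * L := by
      refine mul_le_mul_of_nonneg_right ?_ hLpos.le
      have := hB.kle
      linarith
    nlinarith
  rw [← Finset.sum_filter_add_sum_filter_not P (fun p => (p.1 * p.2).Prime)]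
  have hA : ∑ p ∈ P.filter (fun p => (p.1 * p.2).Prime),
      BN.ww v1 v2 p * (((s (p.1 * p.2) : ℝ)) ^ (-(1 / 2) : ℝ) *
      (Real.log (s (Nat.minFac (p.1 * p.2))) / L)) ≤
      1 / L * (32 * K ^ 2 * (Real.log z) ^ 3 * L ^ (1 - ε / 5)) := by
    have h3 : ∀ p ∈ P.filter (fun p => (p.1 * p.2).Prime),
        BN.ww v1 v2 p * (((s (p.1 * p.2) : ℝ)) ^ (-(1 / 2) : ℝ) *
        (Real.log (s (Nat.minFac (p.1 * p.2))) / L)) =
        1 / L * (BN.ww v1 v2 p * (Real.log (s (p.1 * p.2)) *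
          ((s (p.1 * p.2) : ℝ)) ^ (-(1 / 2) : ℝ))) := by
      intro p hp
      rw [(Finset.mem_filter.mp hp).2.minFac_eq]
      ring
    rw [Finset.sum_congr rfl h3, ← Finset.mul_sum]
    refine mul_le_mul_of_nonneg_left ?_ (by positivity)
    refine BN.wsum_primes hS hMd hv1 hv2 hε hε1 _ (z : ℝ) hz0 hB.logz_ε (by linarith) ?_ hB.z_q hd ?_
    · refine le_trans ?_ hB.logz_lo
      have h5 : 0 ≤ Real.log L := Real.log_nonneg (by linarith)
      refine mul_le_mul_of_nonneg_right ?_ h5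
      rw [div_le_iff₀ hε]
      nlinarith [hB.hZ]
    · intro p hp
      obtain ⟨hpP, hpr⟩ := Finset.mem_filter.mp hp
      refine ⟨hpr, ?_⟩
      obtain ⟨_, _, r, j, hr, hrz, hj, hprod⟩ := hP p hpP
      have hj1 : j = 1 := by
        rw [hprod] at hpr
        exact Nat.Prime.eq_one_of_pow hpr
      rw [hprod, hj1, pow_one]
      exact_mod_cast hrz
  have hBnd : ∑ p ∈ P.filter (fun p => ¬ (p.1 * p.2).Prime),
      BN.ww v1 v2 p * (((s (p.1 * p.2) : ℝ)) ^ (-(1 / 2) : ℝ) *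
      (Real.log (s (Nat.minFac (p.1 * p.2))) / L)) ≤ 8 / L * (Real.log z + K) := by
    refine le_trans ?_ (clsP_high hX z J (by omega) L hLpos
      (P.filter (fun p => ¬ (p.1 * p.2).Prime)) ?_)
    · refine Finset.sum_le_sum fun p _ => ?_
      have h3 : 0 ≤ ((s (p.1 * p.2) : ℝ)) ^ (-(1 / 2) : ℝ) *
        (Real.log (s (Nat.minFac (p.1 * p.2))) / L) := by
        have : 0 ≤ Real.log (s (Nat.minFac (p.1 * p.2))) := Real.log_natCast_nonneg _
        positivity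
      exact mul_le_of_le_one_left h3 (BN.ww_le_one hv1 hv2 p)
    · intro p hp
      obtain ⟨hpP, hpr⟩ := Finset.mem_filter.mp hp
      obtain ⟨hred, _, r, j, hr, hrz, hj, hprod⟩ := hP p hpP
      refine ⟨hred.1, r, j, hr, hrz, ?_, hJb p hpP r j hr hprod, hprod⟩
      by_contra hj2
      have hj1 : j = 1 := by omega
      rw [hprod, hj1, pow_one] at hpr
      exact hpr hr
  calc _ ≤ 1 / L * (32 * K ^ 2 * (Real.log z) ^ 3 * L ^ (1 - ε / 5)) +
        8 / L * (Real.log z + K) :=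
        add_le_add hA hBnd
    _ = (32 * K ^ 2 * (Real.log z) ^ 3 * L ^ (1 - ε / 5) + 8 * (Real.log z + K)) / L := by ring
    _ ≤ 1 := by
      rw [div_le_one hLpos]
      have h6 : 0 ≤ 32 * K ^ 2 * (Real.log z) ^ 3 * L ^ (1 - ε / 5) := by
        have := hB.logz_1000
        positivity
      linarith
    _ ≤ 2 := by norm_num

end Pool.Agent.H14.BN
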