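import Pool.Agent.H14.BN.Cls
import Pool.Agent.H14.BN.CharS
import Pool.Agent.H74.TS.ClsR

/-!
# Sums over the classes of fractions: a repeated small prime, sized numbers

Port of `Pool/Agent/H74/TS/ClsR.lean`.  `1 / (r : ℝ)` becomes `1 / (s r : ℝ)`; the indices
`(r, j)` run over `SP s z ×ˢ Icc 2 ⌊L⌋₊`; `∑_{r ∈ SP s z} 1 / s r ≤ K (1 + log z)`
(`hS.sum_inv_le`, `SP ⊆ SI`) and `K ≤ L` (`hB.KleL`).  `cl (r ^ j) ≠ 0`: the prime of `hM.zero` has size
`Q > z`, so it is not `r` (`hB.toBg.zL` as there).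
-/

namespace Pool.Agent.H14.BN

open Finset Pool.Agent.H14.PT Pool.Agent.H74.TS

universe u

variable {s : ℕ →*₀ ℕ} {κ K : ℝ} {W : Type u} [CommGroupWithZero W]

theorem wshift (hS : Sys s κ K) {cl : ℕ →*₀ W} {Q : ℕ} (hM : Md s K cl Q) {ε : ℝ} {Z : ℕ}
    (hB : BN.Bg K ε Z (Real.log Q))
    {h1 h2 : ℝ} {v1 v2 v1' v2' : ℕ × ℕ → ℝ} (hv1 : BN.KF K cl h1 v1') (hv2 : BN.KF K cl h2 v2')
    (hc : Real.log h1 + 2 * Real.log h2 ≤ (1 - ε) * Real.log Q)
    (r j : ℕ) (hr : r.Prime) (hj : 2 ≤ j) (P : Finset (ℕ × ℕ)) (φ : ℕ × ℕ → ℕ × ℕ)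
    (hinj : Set.InjOn φ (P : Set (ℕ × ℕ)))
    (hP : ∀ p ∈ P, BN.Red (φ p) ∧ tz Z (Real.log Q) ≤ s ((φ p).1 * (φ p).2) ∧
      (s ((φ p).1 * (φ p).2) : ℝ) ≤ Real.exp (kap ε Z * Real.log Q) ∧
      BN.Few s (tz Z (Real.log Q)) ((φ p).1 * (φ p).2) ∧ p.1 * p.2 = r ^ j * ((φ p).1 * (φ p).2) ∧
      Nat.Coprime (r ^ j) ((φ p).1 * (φ p).2) ∧ v1 p = v1' (φ p) ∧ v2 p = v2' (φ p)) :
    ∑ p ∈ P, BN.ww v1 v2 p * BN.T0 s p ≤
      (j + 1) * (1 / (s r : ℝ)) * (300 * (Real.log Q) ^ 3 * ((Real.log Q) ^ 25)⁻¹) := by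
  classical
  have h1 : ∑ p ∈ P, BN.ww v1' v2' (φ p) * BN.T0 s (φ p) ≤
      300 * (Real.log Q) ^ 3 * ((Real.log Q) ^ 25)⁻¹ := by
    rw [← Finset.sum_image (f := fun p => BN.ww v1' v2' p * BN.T0 s p) hinj]
    refine BN.wsum_R1' hS hM hB hv1 hv2 hc _ ?_
    intro p' hp'
    obtain ⟨p, hp, rfl⟩ := Finset.mem_image.mp hp'
    obtain ⟨a1, a2, a3, a4, _⟩ := hP p hp
    exact ⟨a1, a2, a3, a4⟩
  have hr0 : (0 : ℝ) < s r := hS.r_pos hr.ne_zero
  have hr1 : (1 : ℝ) ≤ s r := hS.r_one hr.ne_zero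
  have h2 : ∀ p ∈ P, BN.ww v1 v2 p * BN.T0 s p ≤
      (j + 1) * (1 / (s r : ℝ)) * (BN.ww v1' v2' (φ p) * BN.T0 s (φ p)) := by
    intro p hp
    obtain ⟨_, _, _, _, a5, a6, a7, a8⟩ := hP p hp
    have hw : BN.ww v1 v2 p = BN.ww v1' v2' (φ p) := by
      unfold BN.ww
      rw [a7, a8]
    have hT : BN.T0 s p ≤ (j + 1) * (1 / (s r : ℝ)) * BN.T0 s (φ p) := by
      have e0 : (s (r ^ j * ((φ p).1 * (φ p).2)) : ℝ) =
          (s r : ℝ) ^ j * (s ((φ p).1 * (φ p).2) : ℝ) := by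
        rw [s_cast_mul s (r ^ j), s_cast_pow]
      unfold BN.T0
      rw [a5, a6.card_divisors_mul, Nat.divisors_prime_pow hr, Finset.card_map, Finset.card_range,
        e0, Real.mul_rpow (by positivity) (by positivity)]
      have h3 : ((s r : ℝ) ^ j) ^ (-(1 / 2) : ℝ) ≤ 1 / (s r : ℝ) := by
        have e1 : (s r : ℝ) ^ 2 ≤ (s r : ℝ) ^ j := pow_le_pow_right₀ hr1 hj
        calc ((s r : ℝ) ^ j) ^ (-(1 / 2) : ℝ) ≤ ((s r : ℝ) ^ 2) ^ (-(1 / 2) : ℝ) :=
              Real.rpow_le_rpow_of_nonpos (by positivity) e1 (by norm_num)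
          _ = 1 / (s r : ℝ) := by
              rw [← Real.rpow_natCast, ← Real.rpow_mul hr0.le]
              norm_num
              rw [Real.rpow_neg_one]
      rw [Nat.cast_mul, Nat.cast_add, Nat.cast_one]
      calc ((j : ℝ) + 1) * ((((φ p).1 * (φ p).2).divisors.card : ℕ) : ℝ) *
            (((s r : ℝ) ^ j) ^ (-(1 / 2) : ℝ) * (s ((φ p).1 * (φ p).2) : ℝ) ^ (-(1 / 2) : ℝ))
          ≤ ((j : ℝ) + 1) * ((((φ p).1 * (φ p).2).divisors.card : ℕ) : ℝ) *
            ((1 / (s r : ℝ)) * (s ((φ p).1 * (φ p).2) : ℝ) ^ (-(1 / 2) : ℝ)) := by gcongr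
        _ = _ := by ring
    rw [hw]
    calc BN.ww v1' v2' (φ p) * BN.T0 s p
        ≤ BN.ww v1' v2' (φ p) * ((j + 1) * (1 / (s r : ℝ)) * BN.T0 s (φ p)) :=
          mul_le_mul_of_nonneg_left hT (BN.ww_nonneg _ _ _)
      _ = _ := by ring
  refine (Finset.sum_le_sum h2).trans ?_
  rw [← Finset.mul_sum]
  gcongr

theorem wsum_R2 (hS : Sys s κ K) {cl : ℕ →*₀ W} {Q : ℕ} (hM : Md s K cl Q) {ε : ℝ} {Z : ℕ}
    (hB : BN.Bg K ε Z (Real.log Q))
    {h1 h2 : ℝ} {v1 v2 : ℕ × ℕ → ℝ} (hv1 : BN.KF K cl h1 v1) (hv2 : BN.KF K cl h2 v2)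
    (hc : Real.log h1 + 2 * Real.log h2 ≤ (1 - ε) * Real.log Q)
    (P : Finset (ℕ × ℕ))
    (hP : ∀ p ∈ P, BN.Red p ∧ (s (p.1 * p.2) : ℝ) ≤ Real.exp (kap ε Z * Real.log Q) ∧
      ∃ r j n', r.Prime ∧ s r ≤ tz Z (Real.log Q) ∧ 2 ≤ j ∧ p.1 * p.2 = r ^ j * n' ∧ ¬ r ∣ n' ∧
        tz Z (Real.log Q) ≤ s n' ∧ BN.Few s (tz Z (Real.log Q)) n') :
    ∑ p ∈ P, BN.ww v1 v2 p * (BN.T0 s p * (16 * (Real.log Q) ^ 5)) ≤ 1 := by
  classical
  have hL100 := hB.toBg.hL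
  have hzL := hB.toBg.zL
  have hKL := hB.KleL
  have hK1 := hB.K1
  have hzQ : tz Z (Real.log Q) < Q := by
    have hz0 : (0 : ℝ) < tz Z (Real.log Q) := by
      exact_mod_cast (by have := hB.toBg.z_two; omega : 0 < tz Z (Real.log Q))
    have hq0 : (0 : ℝ) < Q := by
      have := hM.Q_two
      exact_mod_cast (by omega : 0 < Q)
    have h1 : Real.log (tz Z (Real.log Q)) < Real.log Q := by linarith
    have h2 := (Real.log_lt_log_iff hz0 hq0).mp h1
    exact_mod_cast h2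
  set L := Real.log Q with hL
  have hLpos : 0 < L := by linarith
  set J := ⌊L⌋₊ with hJ
  have hJL : (J : ℝ) ≤ L := Nat.floor_le hLpos.le
  set z := tz Z L with hz
  set I := (SP s z ×ˢ Finset.Icc 2 J) ×ˢ (Finset.univ : Finset Bool) with hI
  set R : (ℕ × ℕ) × Bool → ℕ × ℕ → Prop := fun i p =>
    ∃ n', p.1 * p.2 = i.1.1 ^ i.1.2 * n' ∧ ¬ i.1.1 ∣ n' ∧ z ≤ s n' ∧ BN.Few s z n' ∧
      (if i.2 then i.1.1 ∣ p.1 else i.1.1 ∣ p.2) with hR
  have hcov : ∀ p ∈ P, ∃ i ∈ I, R i p := by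
    intro p hp
    obtain ⟨hRd, hn, r, j, n', hr, hrz, hj, hprod, hnd, hzn, hfew⟩ := hP p hp
    have hdvd : r ∣ p.1 ∨ r ∣ p.2 := by
      have : r ∣ p.1 * p.2 := by rw [hprod]; exact (dvd_pow_self r (by omega)).mul_right _
      exact (Nat.Prime.dvd_mul hr).mp this
    have hjJ : j ≤ J := by
      rw [hJ]
      apply Nat.le_floor
      have hn'0 : 0 < s n' := by
        have := hB.toBg.z_two
        omega
      have h1 : 2 ^ j ≤ s (p.1 * p.2) := by
        rw [hprod, map_mul, map_pow]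
        calc 2 ^ j ≤ s r ^ j := Nat.pow_le_pow_left (hS.two_le r hr) j
          _ ≤ s r ^ j * s n' := Nat.le_mul_of_pos_right _ hn'0
      have h2 : ((2 : ℝ)) ^ j ≤ Real.exp (kap ε Z * L) := by
        refine le_trans ?_ hn
        exact_mod_cast h1
      have h3 := Real.log_le_log (by positivity) h2
      rw [Real.log_exp, Real.log_pow] at h3
      have h4 := Real.log_two_gt_d9
      have h5 : (0 : ℝ) ≤ j := by positivity
      have h6 := hB.toBg.kle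
      have h7 := hB.toBg.hε1
      nlinarith
    rcases hdvd with h | h
    · exact ⟨((r, j), true), by simp [hI, hS.mem_SP, hr, hrz, hj, hjJ],
        ⟨n', hprod, hnd, hzn, hfew, by simpa using h⟩⟩
    · exact ⟨((r, j), false), by simp [hI, hS.mem_SP, hr, hrz, hj, hjJ],
        ⟨n', hprod, hnd, hzn, hfew, by simpa using h⟩⟩
  have hmain : ∀ i ∈ I, ∑ p ∈ P.filter (R i), BN.ww v1 v2 p * BN.T0 s p ≤
      (L + 1) * (1 / (s i.1.1 : ℝ)) * (300 * L ^ 3 * (L ^ 25)⁻¹) := by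
    rintro ⟨⟨r, j⟩, side⟩ hi
    simp only [hI, mem_product, hS.mem_SP, mem_Icc, mem_univ, and_true] at hi
    obtain ⟨⟨hr, hrz⟩, hj, hjJ⟩ := hi
    have hjL : (j : ℝ) ≤ L := le_trans (by exact_mod_cast hjJ) hJL
    have hrq : s r < Q := lt_of_le_of_lt hrz hzQ
    have hru : cl (r ^ j) ≠ 0 := by
      intro h0
      obtain ⟨r0, hr0, hsr0, hcl⟩ := hM.zero
      rw [hcl] at h0
      have h1 := (Nat.prime_dvd_prime_iff_eq hr0 hr).mp (hr0.dvd_of_dvd_pow h0)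
      rw [h1] at hsr0
      omega
    have hle : (↑j + 1) * (1 / (s r : ℝ)) * (300 * L ^ 3 * (L ^ 25)⁻¹) ≤
        (L + 1) * (1 / (s r : ℝ)) * (300 * L ^ 3 * (L ^ 25)⁻¹) := by gcongr
    refine le_trans ?_ hle
    have hrj : 0 < r ^ j := pow_pos hr.pos j
    cases side
    · -- r ∣ p.2
      have hst : ∀ p ∈ P.filter (R ((r, j), false)), ∃ b', p.2 = r ^ j * b' ∧ ¬ r ∣ p.1 * b' ∧
          z ≤ s (p.1 * b') ∧ BN.Few s z (p.1 * b') ∧ p.2 / r ^ j = b' := by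
        intro p hp
        obtain ⟨hpP, n', hprod, hnd, hzn, hfew, hd⟩ := Finset.mem_filter.mp hp
        simp only [Bool.false_eq_true, if_false] at hprod hnd hd
        obtain ⟨hcop, h1, h2⟩ := (hP p hpP).1
        have hr1 : ¬ r ∣ p.1 := fun h => hr.one_lt.ne' (Nat.eq_one_of_dvd_coprimes hcop h hd)
        have hcr : Nat.Coprime (r ^ j) p.1 :=
          Nat.Coprime.pow_left j ((Nat.Prime.coprime_iff_not_dvd hr).mpr hr1)
        have h3 : r ^ j ∣ p.2 := by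
          have : r ^ j ∣ p.1 * p.2 := ⟨n', hprod⟩
          exact hcr.dvd_of_dvd_mul_left this
        obtain ⟨b', hb'⟩ := h3
        have h4 : p.1 * b' = n' := by
          have : r ^ j * (p.1 * b') = r ^ j * n' := by
            calc r ^ j * (p.1 * b') = p.1 * (r ^ j * b') := by ring
              _ = p.1 * p.2 := by rw [← hb']
              _ = _ := hprod
          exact Nat.eq_of_mul_eq_mul_left hrj this
        refine ⟨b', hb', by rw [h4]; exact hnd, by rw [h4]; exact hzn, by rw [h4]; exact hfew, ?_⟩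
        rw [hb']
        exact Nat.mul_div_cancel_left _ hrj
      refine wshift hS hM hB (kf_shiftR hv1 (r ^ j) hru) (kf_shiftR hv2 (r ^ j) hru) hc r j hr hj _
        (fun p => (p.1, p.2 / r ^ j)) ?_ ?_
      · intro p hp p' hp' h
        obtain ⟨b, e1, _, _, _, e2⟩ := hst p (Finset.mem_coe.mp hp)
        obtain ⟨b', e1', _, _, _, e2'⟩ := hst p' (Finset.mem_coe.mp hp')
        simp only [Prod.mk.injEq] at h
        refine Prod.ext h.1 ?_
        rw [e1, e1', ← e2, ← e2', h.2]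
      · intro p hp
        obtain ⟨b', e1, e2, e3, e4, e5⟩ := hst p hp
        have hpP := (Finset.mem_filter.mp hp).1
        obtain ⟨⟨hcop, h1, h2⟩, hn, _⟩ := hP p hpP
        simp only [e5]
        have hb'0 : b' ≠ 0 := by rintro rfl; rw [mul_zero] at e1; exact h2 e1
        refine ⟨⟨?_, h1, hb'0⟩, e3, ?_, e4, ?_, ?_, ?_, ?_⟩
        · rw [e1] at hcop
          exact Nat.Coprime.coprime_dvd_right (Dvd.intro_left _ rfl) hcop
        · refine le_trans ?_ hn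
          have h5 : s (p.1 * b') ≤ s (p.1 * p.2) := by
            refine hS.le_of_dvd ?_ (Nat.mul_ne_zero h1 h2)
            rw [e1]
            exact Nat.mul_dvd_mul_left _ (Dvd.intro_left _ rfl)
          exact_mod_cast h5
        · rw [e1]; ring
        · exact Nat.Coprime.pow_left j ((Nat.Prime.coprime_iff_not_dvd hr).mpr e2)
        · rw [← e1]
        · rw [← e1]
    · -- r ∣ p.1
      have hst : ∀ p ∈ P.filter (R ((r, j), true)), ∃ a', p.1 = r ^ j * a' ∧ ¬ r ∣ a' * p.2 ∧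
          z ≤ s (a' * p.2) ∧ BN.Few s z (a' * p.2) ∧ p.1 / r ^ j = a' := by
        intro p hp
        obtain ⟨hpP, n', hprod, hnd, hzn, hfew, hd⟩ := Finset.mem_filter.mp hp
        simp only [if_true] at hprod hnd hd
        obtain ⟨hcop, h1, h2⟩ := (hP p hpP).1
        have hr1 : ¬ r ∣ p.2 := fun h => hr.one_lt.ne' (Nat.eq_one_of_dvd_coprimes hcop hd h)
        have hcr : Nat.Coprime (r ^ j) p.2 :=
          Nat.Coprime.pow_left j ((Nat.Prime.coprime_iff_not_dvd hr).mpr hr1)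
        have h3 : r ^ j ∣ p.1 := by
          have : r ^ j ∣ p.1 * p.2 := ⟨n', hprod⟩
          exact hcr.dvd_of_dvd_mul_right this
        obtain ⟨a', ha'⟩ := h3
        have h4 : a' * p.2 = n' := by
          have : r ^ j * (a' * p.2) = r ^ j * n' := by
            calc r ^ j * (a' * p.2) = (r ^ j * a') * p.2 := by ring
              _ = p.1 * p.2 := by rw [← ha']
              _ = _ := hprod
          exact Nat.eq_of_mul_eq_mul_left hrj this
        refine ⟨a', ha', by rw [h4]; exact hnd, by rw [h4]; exact hzn, by rw [h4]; exact hfew, ?_⟩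
        rw [ha']
        exact Nat.mul_div_cancel_left _ hrj
      refine wshift hS hM hB (kf_shiftL hv1 (r ^ j) hru) (kf_shiftL hv2 (r ^ j) hru) hc r j hr hj _
        (fun p => (p.1 / r ^ j, p.2)) ?_ ?_
      · intro p hp p' hp' h
        obtain ⟨b, e1, _, _, _, e2⟩ := hst p (Finset.mem_coe.mp hp)
        obtain ⟨b', e1', _, _, _, e2'⟩ := hst p' (Finset.mem_coe.mp hp')
        simp only [Prod.mk.injEq] at h
        refine Prod.ext ?_ h.2
        rw [e1, e1', ← e2, ← e2', h.1]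
      · intro p hp
        obtain ⟨a', e1, e2, e3, e4, e5⟩ := hst p hp
        have hpP := (Finset.mem_filter.mp hp).1
        obtain ⟨⟨hcop, h1, h2⟩, hn, _⟩ := hP p hpP
        simp only [e5]
        have ha'0 : a' ≠ 0 := by rintro rfl; rw [mul_zero] at e1; exact h1 e1
        refine ⟨⟨?_, ha'0, h2⟩, e3, ?_, e4, ?_, ?_, ?_, ?_⟩
        · rw [e1] at hcop
          exact Nat.Coprime.coprime_dvd_left (Dvd.intro_left _ rfl) hcop
        · refine le_trans ?_ hn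
          have h5 : s (a' * p.2) ≤ s (p.1 * p.2) := by
            refine hS.le_of_dvd ?_ (Nat.mul_ne_zero h1 h2)
            rw [e1]
            exact Nat.mul_dvd_mul_right (Dvd.intro_left _ rfl) _
          exact_mod_cast h5
        · rw [e1]; ring
        · exact Nat.Coprime.pow_left j ((Nat.Prime.coprime_iff_not_dvd hr).mpr e2)
        · rw [← e1]
        · rw [← e1]
  have hsum : ∑ i ∈ I, (L + 1) * (1 / (s i.1.1 : ℝ)) * (300 * L ^ 3 * (L ^ 25)⁻¹) ≤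
      1200 * L ^ 7 * (L ^ 25)⁻¹ := by
    rw [hI, Finset.sum_product, Finset.sum_product]
    simp only [Finset.sum_const, Finset.card_univ, Fintype.card_bool, nsmul_eq_mul, Nat.card_Icc]
    have h1 : ∑ r ∈ SP s z, 1 / (s r : ℝ) ≤ L * L := by
      have h0 : 0 ≤ 1 + Real.log z := by
        have := hB.toBg.logz_1000
        linarith
      calc ∑ r ∈ SP s z, 1 / (s r : ℝ) ≤ ∑ r ∈ SI s z, 1 / (s r : ℝ) :=
            Finset.sum_le_sum_of_subset_of_nonneg (Finset.filter_subset _ _)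
              fun _ _ _ => by positivity
        _ ≤ K * (1 + Real.log z) := hS.sum_inv_le z
        _ ≤ L * L := mul_le_mul hKL hzL h0 hLpos.le
    have h2 : ((J + 1 - 2 : ℕ) : ℝ) ≤ L := by
      refine le_trans ?_ hJL
      have : J + 1 - 2 ≤ J := by omega
      exact_mod_cast this
    calc ∑ x ∈ SP s z, ((J + 1 - 2 : ℕ) : ℝ) * (((2 : ℕ) : ℝ) *
          ((L + 1) * (1 / (s x : ℝ)) * (300 * L ^ 3 * (L ^ 25)⁻¹)))
        = (((J + 1 - 2 : ℕ) : ℝ) * (2 * ((L + 1) * (300 * L ^ 3 * (L ^ 25)⁻¹)))) *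
          ∑ x ∈ SP s z, 1 / (s x : ℝ) := by
          rw [Finset.mul_sum]
          refine Finset.sum_congr rfl fun x _ => by push_cast; ring
      _ ≤ (L * (2 * ((2 * L) * (300 * L ^ 3 * (L ^ 25)⁻¹)))) * (L * L) := by
          have : L + 1 ≤ 2 * L := by linarith
          gcongr
      _ = _ := by ring
  have hall : ∑ p ∈ P, BN.ww v1 v2 p * BN.T0 s p ≤ 1200 * L ^ 7 * (L ^ 25)⁻¹ :=
    (cover_sum P I R (fun p => BN.ww v1 v2 p * BN.T0 s p)
      (fun p _ => mul_nonneg (BN.ww_nonneg _ _ _) (BN.T0_nonneg s p)) hcov).trans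
      ((Finset.sum_le_sum hmain).trans hsum)
  have hre : ∑ p ∈ P, BN.ww v1 v2 p * (BN.T0 s p * (16 * L ^ 5)) =
      (∑ p ∈ P, BN.ww v1 v2 p * BN.T0 s p) * (16 * L ^ 5) := by
    rw [Finset.sum_mul]
    exact Finset.sum_congr rfl fun p _ => by ring
  rw [hre]
  calc (∑ p ∈ P, BN.ww v1 v2 p * BN.T0 s p) * (16 * L ^ 5)
      ≤ (1200 * L ^ 7 * (L ^ 25)⁻¹) * (16 * L ^ 5) := by gcongr
    _ = 19200 / L ^ 13 := by field_simp; norm_num
    _ ≤ 1 := by
        rw [div_le_one (by positivity)]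
        calc (19200 : ℝ) ≤ 100 ^ 13 := by norm_num
          _ ≤ L ^ 13 := by gcongr

end Pool.Agent.H14.BN
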