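import Pool.Agent.H14.BN.DN
import Pool.Agent.H14.BN.Ext
import Pool.Agent.H14.PT.DN3

/-!
# Exact evaluation of the inner sum and logarithmic expansion, sized numbers

Port of `Pool/Agent/H14/PT/DN3.lean`.

* `inner_sum`: with `g = gcd (a m') (b m)`, `α = a m' / g`, `β = b m / g` the solutions of
  `m n₁ b = m' n₂ a` are `n₁ = α j`, `n₂ = β j`, and `s n₁ s n₂ = s (α β) (s j)² ≤ N` iff
  `s j ≤ Nat.sqrt (N / s (α β))`; the weight is `s (a b)^(-1/2) s g / (s m s m') / s j`.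
* `harm_expand`: `hX.harm` with `x = √(N / u)`, `⌊x⌋₊ = Nat.sqrt (N / u)`; the error is
  `K / √x = K (u / N)^(1/4)`.
* `DN_expand`: sum of the errors: with `u = s (α β) = s (a b m m') / (s g)²`,
  `s g / (s m s m') s (a b)^(-1/2) (u / N)^(1/4) ≤ (s m s m')^(-1/2) N^(-1/4)` as
  `(s g)² ≤ s (a b m m')`; the sum over `m, m'` is at most `(2 K √Y)²` (`hS.sum_rsqrt_le`), and
  `Y ≤ Y ^ 2`.  `u ≤ N` holds as `s (a b) Y² ≤ N`.
-/

namespace Pool.Agent.H14.BN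

open Finset

variable {s : ℕ →*₀ ℕ} {κ K B0 : ℝ}

/-- solutions of `m n₁ b = m' n₂ a` -/
theorem inner_sum (hS : Sys s κ K) (m m' a b N : ℕ) (hm : m ≠ 0) (hm' : m' ≠ 0) (ha : a ≠ 0)
    (hb : b ≠ 0) :
    ∑ n ∈ (hyp s N).filter (fun n => m * n.1 * b = m' * n.2 * a),
      ((s (m * m' * (n.1 * n.2)) : ℝ)) ^ (-(1 / 2) : ℝ) =
    (s (Nat.gcd (a * m') (b * m)) : ℝ) / ((s m : ℝ) * (s m' : ℝ)) *
      ((s (a * b) : ℝ)) ^ (-(1 / 2) : ℝ) *
      ∑ j ∈ SI s (Nat.sqrt (N / s (a * m' / Nat.gcd (a * m') (b * m) *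
        (b * m / Nat.gcd (a * m') (b * m))))), 1 / (s j : ℝ) := by
  have hg : 0 < Nat.gcd (a * m') (b * m) :=
    Nat.gcd_pos_of_pos_left _ (Nat.pos_of_ne_zero (Nat.mul_ne_zero ha hm'))
  have hcop := Nat.coprime_div_gcd_div_gcd hg
  have eα : a * m' / Nat.gcd (a * m') (b * m) * Nat.gcd (a * m') (b * m) = a * m' :=
    Nat.div_mul_cancel (Nat.gcd_dvd_left _ _)
  have eβ : b * m / Nat.gcd (a * m') (b * m) * Nat.gcd (a * m') (b * m) = b * m :=
    Nat.div_mul_cancel (Nat.gcd_dvd_right _ _)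
  set g := Nat.gcd (a * m') (b * m) with hgdef
  set α := a * m' / g with hα
  set β := b * m / g with hβ
  have hα0 : α ≠ 0 := by
    intro h
    rw [h, zero_mul] at eα
    exact absurd eα.symm (Nat.mul_ne_zero ha hm')
  have hβ0 : β ≠ 0 := by
    intro h
    rw [h, zero_mul] at eβ
    exact absurd eβ.symm (Nat.mul_ne_zero hb hm)
  have hj : ∀ j : ℕ, s j ≤ Nat.sqrt (N / s (α * β)) ↔ s (α * j) * s (β * j) ≤ N := by
    intro j
    rw [Nat.le_sqrt, Nat.le_div_iff_mul_le (hS.s_pos (mul_ne_zero hα0 hβ0))]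
    have e : s (α * j) * s (β * j) = s j * s j * s (α * β) := by
      rw [map_mul, map_mul, map_mul]
      ring
    rw [e]
  have hsol : ∀ n : ℕ × ℕ, m * n.1 * b = m' * n.2 * a →
      n.1 = α * (n.1 / α) ∧ n.2 = β * (n.1 / α) := by
    intro n h
    have h1 : β * n.1 = α * n.2 := by
      have : g * (β * n.1) = g * (α * n.2) := by
        calc g * (β * n.1) = (β * g) * n.1 := by ring
          _ = b * m * n.1 := by rw [eβ]
          _ = m * n.1 * b := by ring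
          _ = m' * n.2 * a := h
          _ = (a * m') * n.2 := by ring
          _ = (α * g) * n.2 := by rw [eα]
          _ = g * (α * n.2) := by ring
      exact Nat.eq_of_mul_eq_mul_left hg this
    have h2 : α ∣ n.1 := by
      have : α ∣ β * n.1 := ⟨n.2, h1⟩
      exact hcop.dvd_of_dvd_mul_left this
    have h3 : α * (n.1 / α) = n.1 := Nat.mul_div_cancel' h2
    refine ⟨h3.symm, ?_⟩
    have h4 : α * n.2 = α * (β * (n.1 / α)) := by
      calc α * n.2 = β * n.1 := h1.symm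
        _ = β * (α * (n.1 / α)) := by rw [h3]
        _ = _ := by ring
    exact Nat.eq_of_mul_eq_mul_left (Nat.pos_of_ne_zero hα0) h4
  rw [Finset.mul_sum]
  refine Finset.sum_bij' (fun n _ => n.1 / α) (fun j _ => (α * j, β * j)) ?_ ?_ ?_ ?_ ?_
  · intro n hn
    obtain ⟨h1, h2⟩ := Finset.mem_filter.mp hn
    obtain ⟨a1, a2, a3⟩ := (mem_hyp hS).mp h1
    obtain ⟨h3, h4⟩ := hsol n h2
    refine hS.mem_SI.mpr ⟨?_, ?_⟩
    · intro h
      rw [h, mul_zero] at h3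
      exact a1 h3
    · rw [hj, ← h3, ← h4]
      exact a3
  · intro j hjm
    obtain ⟨h1, h2⟩ := hS.mem_SI.mp hjm
    rw [Finset.mem_filter, mem_hyp hS]
    refine ⟨⟨?_, ?_, (hj j).mp h2⟩, ?_⟩
    · exact mul_ne_zero hα0 h1
    · exact mul_ne_zero hβ0 h1
    · calc m * (α * j) * b = α * j * (b * m) := by ring
        _ = α * j * (β * g) := by rw [eβ]
        _ = (α * g) * (β * j) := by ring
        _ = a * m' * (β * j) := by rw [eα]
        _ = m' * (β * j) * a := by ring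
  · intro n hn
    obtain ⟨h1, h2⟩ := Finset.mem_filter.mp hn
    obtain ⟨h3, h4⟩ := hsol n h2
    exact Prod.ext h3.symm h4.symm
  · intro j hjm
    simp only
    exact Nat.mul_div_cancel_left j (Nat.pos_of_ne_zero hα0)
  · intro n hn
    obtain ⟨h1, h2⟩ := Finset.mem_filter.mp hn
    obtain ⟨a1, a2, a3⟩ := (mem_hyp hS).mp h1
    obtain ⟨h3, h4⟩ := hsol n h2
    set j := n.1 / α with hjdef
    have hj1 : j ≠ 0 := by
      intro h
      rw [h, mul_zero] at h3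
      exact a1 h3
    have hjr : (0 : ℝ) < (s j : ℝ) := hS.r_pos hj1
    have hmr : (0 : ℝ) < (s m : ℝ) := hS.r_pos hm
    have hmr' : (0 : ℝ) < (s m' : ℝ) := hS.r_pos hm'
    have har : (0 : ℝ) < (s a : ℝ) := hS.r_pos ha
    have hbr : (0 : ℝ) < (s b : ℝ) := hS.r_pos hb
    have hgr : (0 : ℝ) < (s g : ℝ) := hS.r_pos hg.ne'
    have eα' : (s α : ℝ) * (s g : ℝ) = (s a : ℝ) * (s m' : ℝ) := by
      rw [← s_cast_mul, ← s_cast_mul, eα]
    have eβ' : (s β : ℝ) * (s g : ℝ) = (s b : ℝ) * (s m : ℝ) := by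
      rw [← s_cast_mul, ← s_cast_mul, eβ]
    have key : ((s (m * m' * (n.1 * n.2)) : ℝ)) =
        (s (a * b) : ℝ) * (((s m : ℝ) * (s m' : ℝ)) / (s g : ℝ) * (s j : ℝ)) ^ 2 := by
      rw [h3, h4]
      have e1 : (s α : ℝ) = (s a : ℝ) * (s m' : ℝ) / (s g : ℝ) := by rw [← eα']; field_simp
      have e2 : (s β : ℝ) = (s b : ℝ) * (s m : ℝ) / (s g : ℝ) := by rw [← eβ']; field_simp
      simp only [s_cast_mul]
      rw [e1, e2]
      field_simp
    rw [key, Pool.Agent.H14.PT.neg_half_sq (by positivity) (by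
      rw [s_cast_mul]
      positivity)]
    field_simp

/-- logarithmic expansion of the harmonic sum -/
theorem harm_expand (hX : Sx s κ K B0) (N u : ℕ) (hu : 0 < u) (huN : u ≤ N) :
    |∑ j ∈ SI s (Nat.sqrt (N / u)), 1 / (s j : ℝ) -
      (κ / 2 * Real.log N - κ / 2 * Real.log u + B0)| ≤ K * ((u : ℝ) / N) ^ (1 / 4 : ℝ) := by
  have hur : (0 : ℝ) < u := by exact_mod_cast hu
  have hNr : (0 : ℝ) < N := by exact_mod_cast (lt_of_lt_of_le hu huN)
  have hx1 : 1 ≤ Real.sqrt ((N : ℝ) / u) := by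
    rw [Real.one_le_sqrt, one_le_div hur]
    exact_mod_cast huN
  have h1 := hX.harm _ hx1
  have hfl : ⌊Real.sqrt ((N : ℝ) / u)⌋₊ = Nat.sqrt (N / u) := by
    rw [Nat.floor_eq_iff (Real.sqrt_nonneg _)]
    constructor
    · apply Real.le_sqrt_of_sq_le
      rw [le_div_iff₀ hur]
      have h2 : Nat.sqrt (N / u) * Nat.sqrt (N / u) * u ≤ N := by
        have := Nat.sqrt_le (N / u)
        exact (Nat.le_div_iff_mul_le hu).mp this
      have h3 : ((Nat.sqrt (N / u) * Nat.sqrt (N / u) * u : ℕ) : ℝ) ≤ N := by exact_mod_cast h2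
      push_cast at h3
      nlinarith
    · rw [Real.sqrt_lt' (by positivity), div_lt_iff₀ hur]
      have h2 : N < (Nat.sqrt (N / u) + 1) * (Nat.sqrt (N / u) + 1) * u := by
        have := Nat.lt_succ_sqrt (N / u)
        exact (Nat.div_lt_iff_lt_mul hu).mp this
      have h3 : (N : ℝ) < (((Nat.sqrt (N / u) + 1) * (Nat.sqrt (N / u) + 1) * u : ℕ) : ℝ) := by
        exact_mod_cast h2
      push_cast at h3
      nlinarith
  rw [hfl] at h1
  rw [Real.log_sqrt (by positivity), Real.log_div hNr.ne' hur.ne'] at h1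
  have h3 : K / √(√((N : ℝ) / u)) = K * ((u : ℝ) / N) ^ (1 / 4 : ℝ) := by
    have e0 : (0 : ℝ) ≤ (N : ℝ) / u := by positivity
    have e1 : √(√((N : ℝ) / u)) = ((N : ℝ) / u) ^ (1 / 4 : ℝ) := by
      rw [Real.sqrt_eq_rpow, Real.sqrt_eq_rpow, ← Real.rpow_mul e0]
      norm_num
    have e2 : ((u : ℝ) / N) = ((N : ℝ) / u)⁻¹ := by rw [inv_div]
    rw [e1, e2, Real.inv_rpow e0]
    rfl
  rw [h3] at h1
  refine le_trans (le_of_eq ?_) h1
  congr 1
  ring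

private lemma dn3_pow {G P Q U N K : ℝ} (hG : 0 < G) (hP : 0 < P) (hQ : 0 < Q) (hU : 1 ≤ U)
    (hN : 0 < N) (hK : 0 ≤ K) (hUe : U = Q * P / G ^ 2) :
    G / P * Q ^ (-(1 / 2) : ℝ) * (K * (U / N) ^ (1 / 4 : ℝ)) ≤
      K * (P ^ (-(1 / 2) : ℝ) * N ^ (-(1 / 4) : ℝ)) := by
  have hU0 : 0 < U := by linarith
  have h1 : (U / N) ^ (1 / 4 : ℝ) = U ^ (1 / 4 : ℝ) * N ^ (-(1 / 4) : ℝ) := by
    rw [Real.div_rpow hU0.le hN.le, Real.rpow_neg hN.le, div_eq_mul_inv]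
  have h2 : 1 ≤ U ^ (1 / 4 : ℝ) := Real.one_le_rpow hU (by norm_num)
  have h3 : √U = U ^ (1 / 4 : ℝ) * U ^ (1 / 4 : ℝ) := by
    rw [Real.sqrt_eq_rpow, ← Real.rpow_add hU0]
    norm_num
  have h4 : √U * G = √Q * √P := by
    rw [hUe, Real.sqrt_div (by positivity), Real.sqrt_sq hG.le, Real.sqrt_mul hQ.le]
    field_simp
  have hsQ : 0 < √Q := Real.sqrt_pos.mpr hQ
  have hsP : 0 < √P := Real.sqrt_pos.mpr hP
  have hsU : 0 < √U := Real.sqrt_pos.mpr hU0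
  have hPP : √P * √P = P := Real.mul_self_sqrt hP.le
  have h5 : Q ^ (-(1 / 2) : ℝ) = (√Q)⁻¹ := by rw [Real.rpow_neg hQ.le, ← Real.sqrt_eq_rpow]
  have h6 : P ^ (-(1 / 2) : ℝ) = (√P)⁻¹ := by rw [Real.rpow_neg hP.le, ← Real.sqrt_eq_rpow]
  have h7 : G / P * (√Q)⁻¹ = (√P)⁻¹ * (√U)⁻¹ := by
    calc G / P * (√Q)⁻¹ = G / (√P * √P) * (√Q)⁻¹ := by rw [hPP]
      _ = (√U * G) / (√U * (√P * √P) * √Q) := by field_simp
      _ = (√Q * √P) / (√U * (√P * √P) * √Q) := by rw [h4]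
      _ = (√P)⁻¹ * (√U)⁻¹ := by field_simp
  have h8 : (√U)⁻¹ * U ^ (1 / 4 : ℝ) ≤ 1 := by
    rw [h3, mul_inv, mul_assoc, inv_mul_cancel₀ (by positivity), mul_one]
    exact inv_le_one_of_one_le₀ h2
  have hN4 : 0 < N ^ (-(1 / 4) : ℝ) := Real.rpow_pos_of_pos hN _
  rw [h5, h6, h1, h7]
  calc (√P)⁻¹ * (√U)⁻¹ * (K * (U ^ (1 / 4 : ℝ) * N ^ (-(1 / 4) : ℝ)))
      = K * ((√P)⁻¹ * N ^ (-(1 / 4) : ℝ)) * ((√U)⁻¹ * U ^ (1 / 4 : ℝ)) := by ring
    _ ≤ K * ((√P)⁻¹ * N ^ (-(1 / 4) : ℝ)) * 1 := by gcongr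
    _ = _ := mul_one _

/-- **logarithmic form of `DN`** -/
theorem DN_expand (hX : Sx s κ K B0) (Mf : Finset ℕ) (w : ℕ → ℝ) (N Y a b : ℕ) (ha : a ≠ 0)
    (hb : b ≠ 0) (hM : ∀ m ∈ Mf, 1 ≤ m ∧ s m ≤ Y) (hw : ∀ m, |w m| ≤ 1)
    (hN : s (a * b) * Y ^ 2 ≤ N) :
    |DN s Mf w N a b - ((s (a * b) : ℝ)) ^ (-(1 / 2) : ℝ) * ∑ m ∈ Mf, ∑ m' ∈ Mf, w m * w m' *
      ((s (Nat.gcd (a * m') (b * m)) : ℝ) / ((s m : ℝ) * (s m' : ℝ))) *
      (κ / 2 * Real.log N + B0 + κ / 2 *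
        Real.log ((s (Nat.gcd (a * m') (b * m)) : ℝ) ^ 2 /
          ((s a : ℝ) * (s b : ℝ) * (s m : ℝ) * (s m' : ℝ))))| ≤
      4 * K ^ 3 * (Y : ℝ) ^ 2 * (N : ℝ) ^ (-(1 / 4) : ℝ) := by
  classical
  have hS := hX.sys
  have hK0 := hS.K_pos
  have har : (0 : ℝ) < (s a : ℝ) := hS.r_pos ha
  have hbr : (0 : ℝ) < (s b : ℝ) := hS.r_pos hb
  set E := ((s (a * b) : ℝ)) ^ (-(1 / 2) : ℝ) with hE
  set J : ℕ → ℕ → ℝ := fun m m' => ∑ j ∈ SI s (Nat.sqrt (N / s (a * m' / Nat.gcd (a * m') (b * m) *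
        (b * m / Nat.gcd (a * m') (b * m))))), 1 / (s j : ℝ) with hJ
  have h1 : DN s Mf w N a b = ∑ m ∈ Mf, ∑ m' ∈ Mf, w m * w m' *
      ((s (Nat.gcd (a * m') (b * m)) : ℝ) / ((s m : ℝ) * (s m' : ℝ))) * E * J m m' := by
    unfold DN quads
    rw [Finset.sum_filter, Finset.sum_product, Finset.sum_product]
    refine Finset.sum_congr rfl fun m hm => Finset.sum_congr rfl fun m' hm' => ?_
    have h2 := inner_sum hS m m' a b N (by have := (hM m hm).1; omega)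
      (by have := (hM m' hm').1; omega) ha hb
    rw [← Finset.sum_filter]
    simp only [qw]
    rw [← Finset.mul_sum, h2]
    ring
  rw [h1, Finset.mul_sum, ← Finset.sum_sub_distrib]
  have hterm : ∀ m ∈ Mf, ∀ m' ∈ Mf, |w m * w m' *
      ((s (Nat.gcd (a * m') (b * m)) : ℝ) / ((s m : ℝ) * (s m' : ℝ))) * E * J m m' -
      E * (w m * w m' * ((s (Nat.gcd (a * m') (b * m)) : ℝ) / ((s m : ℝ) * (s m' : ℝ))) *
      (κ / 2 * Real.log N + B0 + κ / 2 *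
        Real.log ((s (Nat.gcd (a * m') (b * m)) : ℝ) ^ 2 /
          ((s a : ℝ) * (s b : ℝ) * (s m : ℝ) * (s m' : ℝ)))))| ≤
      K * (N : ℝ) ^ (-(1 / 4) : ℝ) * ((s m : ℝ) ^ (-(1 / 2) : ℝ) * (s m' : ℝ) ^ (-(1 / 2) : ℝ)) := by
    intro m hm m' hm'
    obtain ⟨p1, p2⟩ := hM m hm
    obtain ⟨p1', p2'⟩ := hM m' hm'
    have hm0 : m ≠ 0 := by omega
    have hm0' : m' ≠ 0 := by omega
    have hmr : (0 : ℝ) < (s m : ℝ) := hS.r_pos hm0
    have hmr' : (0 : ℝ) < (s m' : ℝ) := hS.r_pos hm0'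
    have hg : 0 < Nat.gcd (a * m') (b * m) :=
      Nat.gcd_pos_of_pos_left _ (Nat.mul_pos (Nat.pos_of_ne_zero ha) p1')
    have eα : a * m' / Nat.gcd (a * m') (b * m) * Nat.gcd (a * m') (b * m) = a * m' :=
      Nat.div_mul_cancel (Nat.gcd_dvd_left _ _)
    have eβ : b * m / Nat.gcd (a * m') (b * m) * Nat.gcd (a * m') (b * m) = b * m :=
      Nat.div_mul_cancel (Nat.gcd_dvd_right _ _)
    set g := Nat.gcd (a * m') (b * m) with hgdef
    have hgr : (0 : ℝ) < (s g : ℝ) := hS.r_pos hg.ne'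
    have hα0 : a * m' / g ≠ 0 := by
      intro h
      rw [h, zero_mul] at eα
      exact absurd eα.symm (Nat.mul_ne_zero ha hm0')
    have hβ0 : b * m / g ≠ 0 := by
      intro h
      rw [h, zero_mul] at eβ
      exact absurd eβ.symm (Nat.mul_ne_zero hb hm0)
    set u := s (a * m' / g * (b * m / g)) with hu
    have hu0 : 0 < u := hS.s_pos (mul_ne_zero hα0 hβ0)
    have eα' : (s (a * m' / g) : ℝ) * (s g : ℝ) = (s a : ℝ) * (s m' : ℝ) := by
      rw [← s_cast_mul, ← s_cast_mul, eα]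
    have eβ' : (s (b * m / g) : ℝ) * (s g : ℝ) = (s b : ℝ) * (s m : ℝ) := by
      rw [← s_cast_mul, ← s_cast_mul, eβ]
    have huN : u ≤ N := by
      have e1 : s (a * m' / g) ≤ s (a * m') := by
        conv_rhs => rw [← eα]
        exact hS.le_mul_right _ hg.ne'
      have e2 : s (b * m / g) ≤ s (b * m) := by
        conv_rhs => rw [← eβ]
        exact hS.le_mul_right _ hg.ne'
      calc u = s (a * m' / g) * s (b * m / g) := by rw [hu, map_mul]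
        _ ≤ s (a * m') * s (b * m) := Nat.mul_le_mul e1 e2
        _ = (s a * s m') * (s b * s m) := by rw [map_mul, map_mul]
        _ ≤ (s a * Y) * (s b * Y) := Nat.mul_le_mul (Nat.mul_le_mul_left _ p2')
            (Nat.mul_le_mul_left _ p2)
        _ = s (a * b) * Y ^ 2 := by rw [map_mul]; ring
        _ ≤ N := hN
    have hNr : (0 : ℝ) < N := by exact_mod_cast (lt_of_lt_of_le hu0 huN)
    have hur : (u : ℝ) = ((s a : ℝ) * (s b : ℝ)) * ((s m : ℝ) * (s m' : ℝ)) / (s g : ℝ) ^ 2 := by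
      rw [hu, s_cast_mul, eq_div_iff (by positivity)]
      calc (s (a * m' / g) : ℝ) * (s (b * m / g) : ℝ) * (s g : ℝ) ^ 2
          = ((s (a * m' / g) : ℝ) * (s g : ℝ)) * ((s (b * m / g) : ℝ) * (s g : ℝ)) := by ring
        _ = _ := by rw [eα', eβ']; ring
    have hexp := harm_expand hX N u hu0 huN
    have hJe : J m m' = ∑ j ∈ SI s (Nat.sqrt (N / u)), 1 / (s j : ℝ) := by
      simp only [hJ]
      rw [← hgdef]
    have hlog : Real.log ((s g : ℝ) ^ 2 / ((s a : ℝ) * (s b : ℝ) * (s m : ℝ) * (s m' : ℝ))) =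
        - Real.log u := by
      rw [hur, ← Real.log_inv, inv_div]
      congr 1
      ring
    rw [hJe, hlog]
    have e1 : w m * w m' * ((s g : ℝ) / ((s m : ℝ) * (s m' : ℝ))) * E *
        (∑ j ∈ SI s (Nat.sqrt (N / u)), 1 / (s j : ℝ)) -
      E * (w m * w m' * ((s g : ℝ) / ((s m : ℝ) * (s m' : ℝ))) *
      (κ / 2 * Real.log N + B0 + κ / 2 * (-Real.log u))) =
      (w m * w m') * ((s g : ℝ) / ((s m : ℝ) * (s m' : ℝ)) * E *
        ((∑ j ∈ SI s (Nat.sqrt (N / u)), 1 / (s j : ℝ)) -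
      (κ / 2 * Real.log N - κ / 2 * Real.log u + B0))) := by ring
    rw [e1, abs_mul, abs_mul (w m)]
    have hww : |w m| * |w m'| ≤ 1 := by
      calc _ ≤ (1 : ℝ) * 1 := by
            gcongr
            · exact hw _
            · exact hw _
        _ = 1 := by norm_num
    refine (mul_le_of_le_one_left (abs_nonneg _) hww).trans ?_
    have hEe : E = ((s a : ℝ) * (s b : ℝ)) ^ (-(1 / 2) : ℝ) := by rw [hE, s_cast_mul]
    have hEpos : 0 < E := by rw [hEe]; positivity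
    rw [abs_mul, abs_of_pos (by positivity : 0 < (s g : ℝ) / ((s m : ℝ) * (s m' : ℝ)) * E)]
    refine (mul_le_mul_of_nonneg_left hexp (by positivity)).trans ?_
    rw [hEe]
    refine (dn3_pow hgr (by positivity) (by positivity) (by exact_mod_cast hu0) hNr hK0.le
      hur).trans (le_of_eq ?_)
    rw [Real.mul_rpow hmr.le hmr'.le]
    ring
  have hsum : ∑ m ∈ Mf, (s m : ℝ) ^ (-(1 / 2) : ℝ) ≤ 2 * K * √(Y : ℝ) := by
    refine le_trans (Finset.sum_le_sum_of_subset_of_nonneg (fun m hm => ?_) fun _ _ _ => by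
      positivity) (hS.sum_rsqrt_le Y)
    exact hS.mem_SI.mpr ⟨by have := (hM m hm).1; omega, (hM m hm).2⟩
  have hsum0 : 0 ≤ ∑ m ∈ Mf, (s m : ℝ) ^ (-(1 / 2) : ℝ) :=
    Finset.sum_nonneg fun _ _ => by positivity
  have hN4 : 0 ≤ (N : ℝ) ^ (-(1 / 4) : ℝ) := by positivity
  calc _ ≤ ∑ m ∈ Mf, ∑ m' ∈ Mf, K * (N : ℝ) ^ (-(1 / 4) : ℝ) *
        ((s m : ℝ) ^ (-(1 / 2) : ℝ) * (s m' : ℝ) ^ (-(1 / 2) : ℝ)) := by
        refine (Finset.abs_sum_le_sum_abs _ _).trans (Finset.sum_le_sum fun m hm => ?_)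
        rw [Finset.mul_sum, ← Finset.sum_sub_distrib]
        exact (Finset.abs_sum_le_sum_abs _ _).trans (Finset.sum_le_sum fun m' hm' => hterm m hm m' hm')
    _ = K * (N : ℝ) ^ (-(1 / 4) : ℝ) * (∑ m ∈ Mf, (s m : ℝ) ^ (-(1 / 2) : ℝ)) ^ 2 := by
        rw [sq, Finset.sum_mul_sum, Finset.mul_sum]
        refine Finset.sum_congr rfl fun m _ => ?_
        rw [Finset.mul_sum]
    _ ≤ K * (N : ℝ) ^ (-(1 / 4) : ℝ) * (2 * K * √(Y : ℝ)) ^ 2 := by gcongr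
    _ = 4 * K ^ 3 * (Y : ℝ) * (N : ℝ) ^ (-(1 / 4) : ℝ) := by
        have : √(Y : ℝ) ^ 2 = Y := Real.sq_sqrt (Nat.cast_nonneg Y)
        rw [mul_pow, this]
        ring
    _ ≤ 4 * K ^ 3 * (Y : ℝ) ^ 2 * (N : ℝ) ^ (-(1 / 4) : ℝ) := by
        have h3 : (Y : ℝ) ≤ (Y : ℝ) ^ 2 := by
          have h4 : Y ≤ Y ^ 2 := by
            rcases Nat.eq_zero_or_pos Y with h | h
            · rw [h]; norm_num
            · nlinarith
          exact_mod_cast h4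
        gcongr

end Pool.Agent.H14.BN
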