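import Pool.Agent.H14.BN.Base
import Pool.Agent.H14.BN.Orth
import Pool.Agent.H14.PT.Pair

/-!
# Sums over all sized numbers; the theta series

* `size_summable`: every finite set of nonzero numbers is contained in some `SI s N`, and
  `∑_{n ∈ SI s N} f (s n) ≤ K ∑_{k ∈ Icc 1 N} f k` (`hS.sum_le`); `summable_of_sum_le`,
  `tsum_le_of_sum_le`.
* `exp_summable`, `exp_sum_le`: `f k = exp (-(a k))`, geometric series (the number `0` has size `0` and
  gives the term `1` in `exp_summable`).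
* `hasSum_Tht` etc.: comparison (`norm_chi_le`); the term `n = 0` is `0` as `cl 0 = 0`, `χ 0 = 0`
  (`chi_zero`), and so it is in `thu` for `u ≠ 0`.
* `Tht_eq_sum`: for each `n`, `χ (cl n) = ∑_u [cl n = u] χ u`.
* measurability: partial sums over `range N` are continuous in `t`, and converge pointwise on `t > 0`
  (`aestronglyMeasurable_of_tendsto_ae`, `HasSum.tendsto_sum_nat`).
-/

namespace Pool.Agent.H14.BN

open Finset MeasureTheory
open Pool.Agent.H14.PT (mu0)
open scoped ComplexConjugate Real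

universe u

variable {s : ℕ →*₀ ℕ} {κ K : ℝ} {W : Type u} [CommGroupWithZero W]

theorem size_summable (hS : Sys s κ K) (f : ℕ → ℝ) (hf0 : ∀ k, 0 ≤ f k)
    (hf : ∀ k l, 1 ≤ k → k ≤ l → f l ≤ f k) (hs : Summable f) :
    Summable (fun n : ℕ => if n = 0 then 0 else f (s n)) ∧
      ∑' n : ℕ, (if n = 0 then 0 else f (s n)) ≤ K * ∑' k : ℕ, f (k + 1) := by
  have h0 : ∀ n : ℕ, 0 ≤ (if n = 0 then 0 else f (s n)) := fun n => by
    split_ifs
    · exact le_rfl
    · exact hf0 _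
  have hs1 : Summable (fun k => f (k + 1)) := (summable_nat_add_iff 1).2 hs
  have key : ∀ T : Finset ℕ, ∑ n ∈ T, (if n = 0 then 0 else f (s n)) ≤ K * ∑' k : ℕ, f (k + 1) := by
    intro T
    set N := T.sup (fun n => s n) with hN
    have h1 : ∑ n ∈ T, (if n = 0 then 0 else f (s n)) ≤ ∑ n ∈ SI s N, f (s n) := by
      have h2 : ∑ n ∈ T, (if n = 0 then 0 else f (s n)) =
          ∑ n ∈ T.filter (fun n => n ≠ 0), f (s n) := by
        rw [Finset.sum_filter]
        refine Finset.sum_congr rfl fun n _ => ?_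
        by_cases hn : n = 0
        · rw [if_pos hn, if_neg (not_not.2 hn)]
        · rw [if_neg hn, if_pos hn]
      rw [h2]
      refine Finset.sum_le_sum_of_subset_of_nonneg ?_ (fun _ _ _ => hf0 _)
      intro n hn
      rw [Finset.mem_filter] at hn
      exact hS.mem_SI.2 ⟨hn.2, Finset.le_sup (f := fun n => s n) hn.1⟩
    have h3 := hS.sum_le N f (fun k _ => hf0 k)
      (fun k hk l _ hkl => hf k l (Finset.mem_Icc.1 hk).1 hkl)
    have h4 : ∑ k ∈ Finset.Icc 1 N, f k ≤ ∑' k : ℕ, f (k + 1) := by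
      have h5 : ∑ k ∈ Finset.Icc 1 N, f k = ∑ k ∈ Finset.range N, f (k + 1) := by
        rw [Finset.range_eq_Ico, Finset.sum_Ico_add' f 0 N 1]
        rfl
      rw [h5]
      exact hs1.sum_le_tsum _ (fun _ _ => hf0 _)
    exact h1.trans (h3.trans (mul_le_mul_of_nonneg_left h4 hS.K_pos.le))
  have hsum := summable_of_sum_le h0 key
  exact ⟨hsum, hsum.tsum_le_of_sum_le key⟩

lemma exp_geo {a : ℝ} (ha : 0 < a) : Summable (fun k : ℕ => Real.exp (-(a * (k : ℝ)))) := by
  have h1 : (fun k : ℕ => Real.exp (-(a * (k : ℝ)))) = fun k : ℕ => (Real.exp (-a)) ^ k := by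
    funext k
    rw [← Real.exp_nat_mul]
    congr 1
    ring
  rw [h1]
  exact summable_geometric_of_lt_one (Real.exp_pos _).le (Real.exp_lt_one_iff.2 (by linarith))

lemma exp_nz (hS : Sys s κ K) {a : ℝ} (ha : 0 < a) :
    Summable (fun n : ℕ => if n = 0 then 0 else Real.exp (-(a * (s n : ℝ)))) ∧
      ∑' n : ℕ, (if n = 0 then 0 else Real.exp (-(a * (s n : ℝ)))) ≤
        K * ∑' k : ℕ, Real.exp (-(a * ((k + 1 : ℕ) : ℝ))) := by
  refine size_summable hS (fun k => Real.exp (-(a * (k : ℝ)))) (fun k => (Real.exp_pos _).le)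
    (fun k l _ hkl => ?_) (exp_geo ha)
  have h1 : (k : ℝ) ≤ l := by exact_mod_cast hkl
  have h2 : a * (k : ℝ) ≤ a * l := mul_le_mul_of_nonneg_left h1 ha.le
  exact Real.exp_le_exp.2 (by linarith)

theorem exp_summable (hS : Sys s κ K) {a : ℝ} (ha : 0 < a) :
    Summable (fun n : ℕ => Real.exp (-(a * (s n : ℝ)))) := by
  have h1 := (exp_nz hS ha).1
  have h2 : Summable (fun n : ℕ => if n = 0 then (1 : ℝ) else 0) :=
    summable_of_ne_finset_zero (s := {0}) fun n hn => by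
      rw [if_neg (by simpa using hn)]
  refine (h1.add h2).congr fun n => ?_
  by_cases hn : n = 0
  · rw [if_pos hn, if_pos hn, hn, map_zero]
    simp
  · rw [if_neg hn, if_neg hn, add_zero]

theorem exp_sum_le (hS : Sys s κ K) {a : ℝ} (ha : 0 < a) :
    ∑' n : ℕ, (if n = 0 then 0 else Real.exp (-(a * (s n : ℝ)))) ≤ K / (Real.exp a - 1) := by
  refine (exp_nz hS ha).2.trans (le_of_eq ?_)
  have h1 : ∀ k : ℕ, Real.exp (-(a * ((k + 1 : ℕ) : ℝ))) = Real.exp (-a) * (Real.exp (-a)) ^ k := by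
    intro k
    rw [← Real.exp_nat_mul, ← Real.exp_add]
    congr 1
    push_cast
    ring
  have h2 : 1 < Real.exp a := Real.one_lt_exp_iff.2 ha
  rw [tsum_congr h1, tsum_mul_left, tsum_geometric_of_lt_one (Real.exp_pos _).le
    (Real.exp_lt_one_iff.2 (by linarith)), div_eq_mul_inv]
  congr 1
  rw [Real.exp_neg]
  have h3 : Real.exp a ≠ 0 := (Real.exp_pos a).ne'
  have h4 : Real.exp a - 1 ≠ 0 := by linarith
  have h5 : 1 - (Real.exp a)⁻¹ ≠ 0 := by
    have : (Real.exp a)⁻¹ < 1 := inv_lt_one_of_one_lt₀ h2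
    linarith
  field_simp

lemma exp_arg (R t : ℝ) (n : ℕ) :
    -(2 * π * t * (s n : ℝ) / R) = -((2 * π * t / R) * (s n : ℝ)) := by
  ring

lemma exp_apos {R t : ℝ} (hR : 0 < R) (ht : 0 < t) : 0 < 2 * π * t / R := by
  have := Real.pi_pos
  positivity

lemma exp_norm_term [Finite W] (cl : ℕ →*₀ W) (χ : MulChar W ℂ) (R t : ℝ) (n : ℕ) :
    ‖χ (cl n) * ((Real.exp (-(2 * π * t * (s n : ℝ) / R)) : ℝ) : ℂ)‖ ≤
      (if n = 0 then 0 else Real.exp (-((2 * π * t / R) * (s n : ℝ)))) := by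
  by_cases hn : n = 0
  · rw [if_pos hn, hn, map_zero, chi_zero, zero_mul, norm_zero]
  · rw [if_neg hn, norm_mul, Complex.norm_real, Real.norm_of_nonneg (Real.exp_pos _).le, exp_arg]
    calc _ ≤ 1 * _ := mul_le_mul_of_nonneg_right (norm_chi_le χ _) (Real.exp_pos _).le
      _ = _ := one_mul _

theorem hasSum_Tht [Finite W] (hS : Sys s κ K) (cl : ℕ →*₀ W) {R : ℝ} (hR : 0 < R)
    (χ : MulChar W ℂ) {t : ℝ} (ht : 0 < t) :
    HasSum (fun n : ℕ => χ (cl n) * ((Real.exp (-(2 * π * t * (s n : ℝ) / R)) : ℝ) : ℂ))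
      (Tht s cl R χ t) := by
  have h1 := (exp_nz hS (exp_apos hR ht)).1
  have h2 : Summable (fun n : ℕ => χ (cl n) * ((Real.exp (-(2 * π * t * (s n : ℝ) / R)) : ℝ) : ℂ)) :=
    Summable.of_norm_bounded h1 (exp_norm_term cl χ R t)
  exact h2.hasSum

theorem norm_Tht_le [Finite W] (hS : Sys s κ K) (cl : ℕ →*₀ W) {R : ℝ} (hR : 0 < R)
    (χ : MulChar W ℂ) {t : ℝ} (ht : 0 < t) :
    ‖Tht s cl R χ t‖ ≤ K / (Real.exp (2 * π * t / R) - 1) := by
  have h1 := (exp_nz hS (exp_apos hR ht)).1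
  exact (tsum_of_norm_bounded h1.hasSum (exp_norm_term cl χ R t)).trans
    (exp_sum_le hS (exp_apos hR ht))

open Classical in
theorem hasSum_thu (hS : Sys s κ K) (cl : ℕ →*₀ W) {R : ℝ} (hR : 0 < R) (u : W) {t : ℝ}
    (ht : 0 < t) :
    HasSum (fun n : ℕ => if cl n = u then Real.exp (-(2 * π * t * (s n : ℝ) / R)) else 0)
      (thu s cl R u t) := by
  have h1 := exp_summable hS (exp_apos hR ht)
  have h2 : Summable (fun n : ℕ => if cl n = u then Real.exp (-(2 * π * t * (s n : ℝ) / R)) else 0) := by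
    refine Summable.of_nonneg_of_le (fun n => ?_) (fun n => ?_) h1
    · split_ifs
      · exact (Real.exp_pos _).le
      · exact le_rfl
    · split_ifs
      · rw [exp_arg]
      · exact (Real.exp_pos _).le
  exact h2.hasSum

theorem thu_nonneg (cl : ℕ →*₀ W) (R : ℝ) (u : W) (t : ℝ) : 0 ≤ thu s cl R u t := by
  unfold thu
  refine tsum_nonneg fun n => ?_
  split_ifs
  · exact (Real.exp_pos _).le
  · exact le_rfl

theorem thu_le (hS : Sys s κ K) (cl : ℕ →*₀ W) {R : ℝ} (hR : 0 < R) {u : W} (hu : u ≠ 0)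
    {t : ℝ} (ht : 0 < t) : thu s cl R u t ≤ K / (Real.exp (2 * π * t / R) - 1) := by
  classical
  refine le_trans ?_ (exp_sum_le hS (exp_apos hR ht))
  have h1 := hasSum_thu hS cl hR u ht
  refine hasSum_le (fun n => ?_) h1 (exp_nz hS (exp_apos hR ht)).1.hasSum
  by_cases hn : n = 0
  · rw [hn, map_zero, if_neg (Ne.symm hu)]
    simp
  · rw [if_neg hn]
    split_ifs
    · rw [exp_arg]
    · exact (Real.exp_pos _).le

theorem Tht_eq_sum [Fintype W] (hS : Sys s κ K) (cl : ℕ →*₀ W) {R : ℝ} (hR : 0 < R)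
    (χ : MulChar W ℂ) {t : ℝ} (ht : 0 < t) :
    Tht s cl R χ t = ∑ u : W, χ u * ((thu s cl R u t : ℝ) : ℂ) := by
  classical
  have h1 : HasSum (fun n : ℕ => ∑ u : W, χ u *
      (((if cl n = u then Real.exp (-(2 * π * t * (s n : ℝ) / R)) else 0 : ℝ)) : ℂ))
      (∑ u : W, χ u * ((thu s cl R u t : ℝ) : ℂ)) := by
    refine hasSum_sum fun u _ => ?_
    exact (Complex.hasSum_ofReal.2 (hasSum_thu hS cl hR u ht)).mul_left _
  have h2 : (fun n : ℕ => ∑ u : W, χ u *
      (((if cl n = u then Real.exp (-(2 * π * t * (s n : ℝ) / R)) else 0 : ℝ)) : ℂ)) =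
      fun n : ℕ => χ (cl n) * ((Real.exp (-(2 * π * t * (s n : ℝ) / R)) : ℝ) : ℂ) := by
    funext n
    rw [Finset.sum_eq_single (cl n)]
    · rw [if_pos rfl]
    · intro u _ hu
      rw [if_neg (Ne.symm hu)]
      simp
    · intro h
      exact absurd (Finset.mem_univ _) h
  rw [h2] at h1
  exact (hasSum_Tht hS cl hR χ ht).unique h1

theorem aesm_Tht [Finite W] (hS : Sys s κ K) (cl : ℕ →*₀ W) {R : ℝ} (hR : 0 < R)
    (χ : MulChar W ℂ) : AEStronglyMeasurable (fun t => Tht s cl R χ t) mu0 := by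
  refine aestronglyMeasurable_of_tendsto_ae Filter.atTop
    (f := fun N t => ∑ n ∈ Finset.range N,
      χ (cl n) * ((Real.exp (-(2 * π * t * (s n : ℝ) / R)) : ℝ) : ℂ)) (fun N => ?_) ?_
  · apply Continuous.aestronglyMeasurable
    refine continuous_finsetSum _ fun n _ => ?_
    fun_prop
  · rw [ae_restrict_iff' measurableSet_Ioi]
    refine Filter.Eventually.of_forall fun t ht => ?_
    exact (hasSum_Tht hS cl hR χ ht).tendsto_sum_nat

theorem aesm_thu (hS : Sys s κ K) (cl : ℕ →*₀ W) {R : ℝ} (hR : 0 < R) (u : W) :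
    AEStronglyMeasurable (fun t => thu s cl R u t) mu0 := by
  classical
  refine aestronglyMeasurable_of_tendsto_ae Filter.atTop
    (f := fun N t => ∑ n ∈ Finset.range N,
      (if cl n = u then Real.exp (-(2 * π * t * (s n : ℝ) / R)) else 0)) (fun N => ?_) ?_
  · apply Continuous.aestronglyMeasurable
    refine continuous_finsetSum _ fun n _ => ?_
    split_ifs
    · fun_prop
    · exact continuous_const
  · rw [ae_restrict_iff' measurableSet_Ioi]
    refine Filter.Eventually.of_forall fun t ht => ?_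
    exact (hasSum_thu hS cl hR u ht).tendsto_sum_nat

end Pool.Agent.H14.BN
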