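import Pool.Agent.H14.BN.Mom
import Pool.Agent.H14.BN.CU2
import Pool.Agent.H74.TS.FirA

/-!
# The first moment over a product set, sized numbers

`Lc χ = ∑_u χ u cU u` is the central value for `χ ∉ Bad` (`Lv_eq_sum`) and is used for all `χ`.

* `norm_Lc_le`: `|cU u| ≤ ∑_{cl n = u, s n < Q} (s n)^(-1/2) + C / √Q` (`cU_sub`); sum over `u ≠ 0`
  (`hS.sum_rsqrt_le`, `hM.card_le`; `Fintype.card W = Nat.card Wˣ + 1`).
* `wfirst_moment`: expand and exchange the sums; `fcu 𝒜 a = ∑_{χ ∈ 𝒜} χ a`.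
* `wfirst_err`: the terms with `cl m = 0` do not occur (`s m ≤ Y < Q`); regroup the second sum by the
  class of `k` (for `k ∈ SI s (Q - 1)` the class is not `0`), use `cU_sub` and, for fixed `m`,
  `∑_u ‖fcu 𝒜 (cl m u)‖ ‖fcu ℬ (cl m u)‖ ≤ √(∑ ‖fcu 𝒜‖²) √(∑ ‖fcu ℬ‖²)`, `sum_char_sq`, which is at
  most `|𝒜| |ℬ| √(hh K 𝒜 * hh K ℬ)`; there are at most `K Y` values of `m`.
-/

namespace Pool.Agent.H14.BN

open Finset Pool.Agent.H14.PT Pool.Agent.H74.TS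
open scoped ComplexConjugate

universe u

variable {s : ℕ →*₀ ℕ} {κ K : ℝ}

/-- the sum of `χ(a)` over `𝒜` -/
noncomputable def fcu {W : Type u} [CommGroupWithZero W] (𝒜 : Finset (MulChar W ℂ)) (a : W) : ℂ :=
  ∑ χ ∈ 𝒜, χ a

lemma fc_one_eq {W : Type u} [CommGroupWithZero W] (cl : ℕ →*₀ W) (𝒜 : Finset (MulChar W ℂ))
    (a : ℕ) : BN.fc cl 𝒜 (a, 1) = fcu 𝒜 (cl a) := by
  unfold BN.fc fcu
  refine Finset.sum_congr rfl fun χ _ => ?_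
  simp

/-- the sum over the classes -/
noncomputable def Lc {W : Type u} [CommGroupWithZero W] [Fintype W] (s : ℕ →*₀ ℕ) (cl : ℕ →*₀ W)
    (Q : ℕ) (R m : ℝ) (χ : MulChar W ℂ) : ℂ :=
  ∑ u : W, χ u * ((cU s cl Q R m u : ℝ) : ℂ)

open Classical in
/-- the sum over the elements of a class of size less than `Q` -/
noncomputable def firA_S {W : Type u} [CommGroupWithZero W] (s : ℕ →*₀ ℕ) (cl : ℕ →*₀ W)
    (Q : ℕ) (u : W) : ℝ :=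
  ∑ n ∈ (SI s (Q - 1)).filter (fun n => cl n = u), (s n : ℝ) ^ (-(1 / 2) : ℝ)

theorem firA_S_nonneg {W : Type u} [CommGroupWithZero W] (cl : ℕ →*₀ W) (Q : ℕ) (u : W) :
    0 ≤ firA_S s cl Q u := by
  unfold firA_S
  exact Finset.sum_nonneg fun _ _ => by positivity

theorem firA_S_sum {W : Type u} [CommGroupWithZero W] [Fintype W] (cl : ℕ →*₀ W) (Q : ℕ) :
    ∑ u : W, firA_S s cl Q u = ∑ n ∈ SI s (Q - 1), (s n : ℝ) ^ (-(1 / 2) : ℝ) := by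
  classical
  unfold firA_S
  exact Finset.sum_fiberwise (SI s (Q - 1)) (fun n => cl n) (fun n => (s n : ℝ) ^ (-(1 / 2) : ℝ))

theorem firA_S_sum' {W : Type u} [CommGroupWithZero W] [Fintype W] (cl : ℕ →*₀ W) (Q : ℕ)
    (g : W → ℂ) : ∑ u : W, ((firA_S s cl Q u : ℝ) : ℂ) * g u =
      ∑ n ∈ SI s (Q - 1), (((s n : ℝ) ^ (-(1 / 2) : ℝ) : ℝ) : ℂ) * g (cl n) := by
  classical
  rw [← Finset.sum_fiberwise (SI s (Q - 1)) (fun n => cl n)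
    (fun n => (((s n : ℝ) ^ (-(1 / 2) : ℝ) : ℝ) : ℂ) * g (cl n))]
  refine Finset.sum_congr rfl fun u _ => ?_
  unfold firA_S
  rw [Complex.ofReal_sum, Finset.sum_mul]
  refine Finset.sum_congr rfl fun n hn => ?_
  rw [(Finset.mem_filter.1 hn).2]

theorem firA_fcu_zero {W : Type u} [CommGroupWithZero W] (𝒜 : Finset (MulChar W ℂ)) :
    fcu 𝒜 (0 : W) = 0 := by
  unfold fcu
  exact Finset.sum_eq_zero fun χ _ => chi_zero χ

theorem firA_card {W : Type u} [CommGroupWithZero W] [Fintype W] (c : ℝ) :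
    (open Classical in ∑ u : W, (if u = 0 then 0 else c)) = (Nat.card Wˣ : ℝ) * c := by
  classical
  have h1 : ∑ u : W, (if u = 0 then 0 else c) = ∑ u ∈ Finset.univ.filter (fun u : W => u ≠ 0), c := by
    rw [Finset.sum_filter]
    refine Finset.sum_congr rfl fun u _ => ?_
    by_cases h : u = 0
    · rw [if_pos h, if_neg (not_not.2 h)]
    · rw [if_neg h, if_pos h]
  have h2 : Nat.card Wˣ = (Finset.univ.filter (fun u : W => u ≠ 0)).card := by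
    rw [Nat.card_congr unitsEquivNeZero, Nat.card_eq_fintype_card, Fintype.card_subtype]
  rw [h1, Finset.sum_const, nsmul_eq_mul, h2]

theorem norm_Lc_le (hS : Sys s κ K) : ∃ C : ℝ, 1 ≤ C ∧ ∀ (W : Type u) [CommGroupWithZero W]
    [Fintype W] (cl : ℕ →*₀ W) (Q : ℕ) (R m : ℝ) (Bad : Finset (MulChar W ℂ)), Md s K cl Q →
    Td s K cl Q R m Bad → ∀ χ : MulChar W ℂ, ‖Lc s cl Q R m χ‖ ≤ C * √(Q : ℝ) := by
  classical
  obtain ⟨C, hC, h⟩ := cU_sub.{u} hS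
  have hK1 := hS.K_one
  have hK0 := hS.K_pos
  refine ⟨2 * K + K * C, by nlinarith, ?_⟩
  intro W _ _ cl Q R m Bad hM hT χ
  have hQ2 := hM.Q_two
  have hQr : (0 : ℝ) < Q := by exact_mod_cast (by omega : 0 < Q)
  have hsQ : 0 < √(Q : ℝ) := Real.sqrt_pos.mpr hQr
  have hQQ : √(Q : ℝ) * √(Q : ℝ) = Q := Real.mul_self_sqrt hQr.le
  have h1 : ∀ u : W, ‖χ u * ((cU s cl Q R m u : ℝ) : ℂ)‖ ≤
      firA_S s cl Q u + (if u = 0 then 0 else C / √(Q : ℝ)) := by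
    intro u
    by_cases hu : u = 0
    · rw [if_pos hu, hu, chi_zero, zero_mul, norm_zero, add_zero]
      exact firA_S_nonneg cl Q 0
    · rw [if_neg hu, norm_mul, norm_chi χ hu, one_mul, Complex.norm_real, Real.norm_eq_abs]
      have h2 : |cU s cl Q R m u - firA_S s cl Q u| ≤ C / √(Q : ℝ) :=
        h W cl Q R m Bad hM hT u hu
      have h3 : |cU s cl Q R m u| ≤ |firA_S s cl Q u| +
          |cU s cl Q R m u - firA_S s cl Q u| := by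
        have h4 := abs_add_le (firA_S s cl Q u) (cU s cl Q R m u - firA_S s cl Q u)
        rwa [add_sub_cancel] at h4
      rw [abs_of_nonneg (firA_S_nonneg cl Q u)] at h3
      linarith
  have h5 : ‖Lc s cl Q R m χ‖ ≤ ∑ u : W, (firA_S s cl Q u + (if u = 0 then 0 else C / √(Q : ℝ))) :=
    (norm_sum_le _ _).trans (Finset.sum_le_sum fun u _ => h1 u)
  rw [Finset.sum_add_distrib, firA_S_sum, firA_card] at h5
  have h6 := hS.sum_rsqrt_le (Q - 1)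
  have h7 : √((Q - 1 : ℕ) : ℝ) ≤ √(Q : ℝ) := Real.sqrt_le_sqrt (by
    exact_mod_cast Nat.sub_le Q 1)
  have h8 : 2 * K * √((Q - 1 : ℕ) : ℝ) ≤ 2 * K * √(Q : ℝ) :=
    mul_le_mul_of_nonneg_left h7 (by positivity)
  have h9 : (Nat.card Wˣ : ℝ) * (C / √(Q : ℝ)) ≤ K * C * √(Q : ℝ) := by
    have h10 : (Nat.card Wˣ : ℝ) * (C / √(Q : ℝ)) ≤ (K * Q) * (C / √(Q : ℝ)) :=
      mul_le_mul_of_nonneg_right hM.card_le (by positivity)
    refine h10.trans (le_of_eq ?_)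
    calc K * (Q : ℝ) * (C / √(Q : ℝ)) = K * (√(Q : ℝ) * √(Q : ℝ)) * (C / √(Q : ℝ)) := by rw [hQQ]
      _ = K * C * √(Q : ℝ) := by field_simp
  linarith

theorem wfirst_moment {W : Type u} [CommGroupWithZero W] [Fintype W] (cl : ℕ →*₀ W) (Q : ℕ)
    (R m : ℝ) (𝒜 ℬ : Finset (MulChar W ℂ)) (Mf : Finset ℕ) (w : ℕ → ℝ) :
    ∑ x ∈ 𝒜 ×ˢ ℬ, BN.Mol s cl Mf w (x.1 * x.2) * Lc s cl Q R m (x.1 * x.2) =
      ∑ i ∈ Mf ×ˢ (Finset.univ : Finset W),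
        ((w i.1 * (s i.1 : ℝ) ^ (-(1 / 2) : ℝ) * cU s cl Q R m i.2 : ℝ) : ℂ) *
        (fcu 𝒜 (cl i.1 * i.2) * fcu ℬ (cl i.1 * i.2)) := by
  have h1 : ∀ χ : MulChar W ℂ, BN.Mol s cl Mf w χ * Lc s cl Q R m χ =
      ∑ i ∈ Mf ×ˢ (Finset.univ : Finset W),
        ((w i.1 * (s i.1 : ℝ) ^ (-(1 / 2) : ℝ) * cU s cl Q R m i.2 : ℝ) : ℂ) *
        χ (cl i.1 * i.2) := by
    intro χ
    unfold BN.Mol Lc
    rw [Finset.sum_mul_sum, Finset.sum_product]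
    refine Finset.sum_congr rfl fun a _ => Finset.sum_congr rfl fun u _ => ?_
    rw [map_mul]
    push_cast
    ring
  rw [Finset.sum_congr rfl fun x _ => h1 (x.1 * x.2), Finset.sum_comm]
  refine Finset.sum_congr rfl fun i _ => ?_
  rw [← Finset.mul_sum]
  congr 1
  unfold fcu
  rw [Finset.sum_mul_sum, Finset.sum_product]
  refine Finset.sum_congr rfl fun χ _ => Finset.sum_congr rfl fun ψ _ => ?_
  rw [MulChar.mul_apply]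

theorem firA_sum_sq {W : Type u} [CommGroupWithZero W] [Fintype W] (𝒜 : Finset (MulChar W ℂ))
    {a : W} (ha : a ≠ 0) :
    ∑ u : W, ‖fcu 𝒜 (a * u)‖ ^ 2 = (Nat.card Wˣ : ℝ) * 𝒜.card := by
  rw [← sum_char_sq 𝒜]
  exact Equiv.sum_comp (Equiv.mulLeft₀ a ha) (fun v => ‖∑ χ ∈ 𝒜, χ v‖ ^ 2)

theorem firA_cs {W : Type u} [CommGroupWithZero W] [Fintype W] (hK : 1 ≤ K)
    (𝒜 ℬ : Finset (MulChar W ℂ)) (h𝒜 : 𝒜.Nonempty) (hℬ : ℬ.Nonempty) (a : W) :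
    ∑ u : W, ‖fcu 𝒜 (a * u)‖ * ‖fcu ℬ (a * u)‖ ≤
      √(hh K 𝒜 * hh K ℬ) * ((𝒜.card : ℝ) * ℬ.card) := by
  by_cases ha : a = 0
  · have h1 : ∀ u : W, ‖fcu 𝒜 (a * u)‖ * ‖fcu ℬ (a * u)‖ = 0 := by
      intro u
      rw [ha, zero_mul, firA_fcu_zero, norm_zero, zero_mul]
    rw [Finset.sum_congr rfl fun u _ => h1 u, Finset.sum_const_zero]
    positivity
  have hA0 : (0 : ℝ) < 𝒜.card := by exact_mod_cast h𝒜.card_pos
  have hB0 : (0 : ℝ) < ℬ.card := by exact_mod_cast hℬ.card_pos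
  have hK0 : 0 < K := by linarith
  have hh0 : 0 ≤ hh K 𝒜 * hh K ℬ := by
    unfold hh
    positivity
  have h4 := Finset.sum_mul_sq_le_sq_mul_sq (Finset.univ : Finset W)
    (fun u => ‖fcu 𝒜 (a * u)‖) (fun u => ‖fcu ℬ (a * u)‖)
  rw [firA_sum_sq 𝒜 ha, firA_sum_sq ℬ ha] at h4
  have h5 : (∑ u : W, ‖fcu 𝒜 (a * u)‖ * ‖fcu ℬ (a * u)‖) ^ 2 ≤
      (√(hh K 𝒜 * hh K ℬ) * ((𝒜.card : ℝ) * ℬ.card)) ^ 2 := by
    refine h4.trans ?_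
    rw [mul_pow, Real.sq_sqrt hh0]
    unfold hh
    have e1 : K * (Nat.card Wˣ : ℝ) / 𝒜.card * (K * (Nat.card Wˣ : ℝ) / ℬ.card) *
        ((𝒜.card : ℝ) * ℬ.card) ^ 2 = K ^ 2 * ((Nat.card Wˣ : ℝ) * 𝒜.card *
          ((Nat.card Wˣ : ℝ) * ℬ.card)) := by
      field_simp
    rw [e1]
    exact le_mul_of_one_le_left (by positivity) (one_le_pow₀ hK)
  exact abs_le_of_sq_le_sq' h5 (by positivity) |>.2

theorem wfirst_err (hS : Sys s κ K) : ∃ C : ℝ, 1 ≤ C ∧ ∀ (W : Type u) [CommGroupWithZero W]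
    [Fintype W] (cl : ℕ →*₀ W) (Q : ℕ) (R m : ℝ) (Bad : Finset (MulChar W ℂ)), Md s K cl Q →
    Td s K cl Q R m Bad → ∀ (𝒜 ℬ : Finset (MulChar W ℂ)), 𝒜.Nonempty → ℬ.Nonempty →
    ∀ (Mf : Finset ℕ) (w : ℕ → ℝ) (Y : ℕ), (∀ m ∈ Mf, 1 ≤ m ∧ s m ≤ Y) → Y < Q →
    (∀ m, |w m| ≤ 1) →
    ‖∑ i ∈ Mf ×ˢ (Finset.univ : Finset W),
        ((w i.1 * (s i.1 : ℝ) ^ (-(1 / 2) : ℝ) * cU s cl Q R m i.2 : ℝ) : ℂ) *
        (fcu 𝒜 (cl i.1 * i.2) * fcu ℬ (cl i.1 * i.2)) -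
      ∑ i ∈ Mf ×ˢ SI s (Q - 1), ((w i.1 * ((s (i.1 * i.2) : ℝ)) ^ (-(1 / 2) : ℝ) : ℝ) : ℂ) *
        (BN.fc cl 𝒜 (i.1 * i.2, 1) * BN.fc cl ℬ (i.1 * i.2, 1))‖
      ≤ C / √(Q : ℝ) * (Y * √(hh K 𝒜 * hh K ℬ)) * ((𝒜.card : ℝ) * ℬ.card) := by
  classical
  obtain ⟨C, hC, h⟩ := cU_sub.{u} hS
  have hK1 := hS.K_one
  have hK0 := hS.K_pos
  refine ⟨C * K, by nlinarith, ?_⟩
  intro W _ _ cl Q R m Bad hM hT 𝒜 ℬ h𝒜 hℬ Mf w Y hMf hYQ hw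
  have hQ2 := hM.Q_two
  have hQr : (0 : ℝ) < Q := by exact_mod_cast (by omega : 0 < Q)
  have hsQ : 0 < √(Q : ℝ) := Real.sqrt_pos.mpr hQr
  set G : ℕ → W → ℂ := fun a u => fcu 𝒜 (cl a * u) * fcu ℬ (cl a * u) with hG
  have h1 : ∑ i ∈ Mf ×ˢ SI s (Q - 1), ((w i.1 * ((s (i.1 * i.2) : ℝ)) ^ (-(1 / 2) : ℝ) : ℝ) : ℂ) *
        (BN.fc cl 𝒜 (i.1 * i.2, 1) * BN.fc cl ℬ (i.1 * i.2, 1)) =
      ∑ i ∈ Mf ×ˢ (Finset.univ : Finset W),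
        ((w i.1 * (s i.1 : ℝ) ^ (-(1 / 2) : ℝ) * firA_S s cl Q i.2 : ℝ) : ℂ) * G i.1 i.2 := by
    rw [Finset.sum_product, Finset.sum_product]
    refine Finset.sum_congr rfl fun a _ => ?_
    have h2 : ∀ u : W, ((w a * (s a : ℝ) ^ (-(1 / 2) : ℝ) * firA_S s cl Q u : ℝ) : ℂ) * G a u =
        ((w a * (s a : ℝ) ^ (-(1 / 2) : ℝ) : ℝ) : ℂ) * (((firA_S s cl Q u : ℝ) : ℂ) * G a u) := by
      intro u
      push_cast
      ring
    rw [Finset.sum_congr rfl fun u _ => h2 u, ← Finset.mul_sum, firA_S_sum', Finset.mul_sum]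
    refine Finset.sum_congr rfl fun n _ => ?_
    simp only
    rw [fc_one_eq, fc_one_eq, map_mul cl, s_cast_mul,
      Real.mul_rpow (Nat.cast_nonneg _) (Nat.cast_nonneg _)]
    simp only [hG]
    push_cast
    ring
  rw [h1, ← Finset.sum_sub_distrib]
  refine (norm_sum_le _ _).trans ?_
  have h2 : ∀ i ∈ Mf ×ˢ (Finset.univ : Finset W),
      ‖((w i.1 * (s i.1 : ℝ) ^ (-(1 / 2) : ℝ) * cU s cl Q R m i.2 : ℝ) : ℂ) *
        (fcu 𝒜 (cl i.1 * i.2) * fcu ℬ (cl i.1 * i.2)) -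
      ((w i.1 * (s i.1 : ℝ) ^ (-(1 / 2) : ℝ) * firA_S s cl Q i.2 : ℝ) : ℂ) * G i.1 i.2‖ ≤
      C / √(Q : ℝ) * (‖fcu 𝒜 (cl i.1 * i.2)‖ * ‖fcu ℬ (cl i.1 * i.2)‖) := by
    rintro ⟨a, u⟩ hi
    obtain ⟨h3, _⟩ := Finset.mem_product.mp hi
    obtain ⟨h5, _⟩ := hMf _ h3
    simp only [hG]
    by_cases hu : u = 0
    · rw [hu, mul_zero, firA_fcu_zero, firA_fcu_zero]
      simp
    rw [← sub_mul, ← Complex.ofReal_sub, norm_mul, Complex.norm_real, Real.norm_eq_abs, norm_mul]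
    have e1 : w a * (s a : ℝ) ^ (-(1 / 2) : ℝ) * cU s cl Q R m u -
        w a * (s a : ℝ) ^ (-(1 / 2) : ℝ) * firA_S s cl Q u =
        w a * (s a : ℝ) ^ (-(1 / 2) : ℝ) * (cU s cl Q R m u - firA_S s cl Q u) := by
      ring
    rw [e1, abs_mul, abs_mul]
    have e2 : |(s a : ℝ) ^ (-(1 / 2) : ℝ)| ≤ 1 := by
      rw [abs_of_nonneg (by positivity)]
      exact Real.rpow_le_one_of_one_le_of_nonpos (hS.r_one (by omega)) (by norm_num)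
    have e3 : |cU s cl Q R m u - firA_S s cl Q u| ≤ C / √(Q : ℝ) :=
      h W cl Q R m Bad hM hT u hu
    refine mul_le_mul_of_nonneg_right ?_ (by positivity)
    calc |w a| * |(s a : ℝ) ^ (-(1 / 2) : ℝ)| * |cU s cl Q R m u - firA_S s cl Q u|
          ≤ 1 * 1 * (C / √(Q : ℝ)) := by
          gcongr
          exact hw _
      _ = _ := by ring
  refine (Finset.sum_le_sum h2).trans ?_
  rw [← Finset.mul_sum, Finset.sum_product]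
  have h3 : ∑ a ∈ Mf, ∑ u : W, ‖fcu 𝒜 (cl a * u)‖ * ‖fcu ℬ (cl a * u)‖ ≤
      Mf.card * (√(hh K 𝒜 * hh K ℬ) * ((𝒜.card : ℝ) * ℬ.card)) := by
    refine (Finset.sum_le_card_nsmul _ _ _ fun a _ => firA_cs hK1 𝒜 ℬ h𝒜 hℬ (cl a)).trans ?_
    rw [nsmul_eq_mul]
  have h4 : (Mf.card : ℝ) ≤ K * Y := by
    have h5 : Mf ⊆ SI s Y := fun a ha => by
      obtain ⟨h6, h7⟩ := hMf a ha
      exact hS.mem_SI.mpr ⟨by omega, h7⟩
    have h6 : (Mf.card : ℝ) ≤ ((SI s Y).card : ℝ) := by exact_mod_cast Finset.card_le_card h5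
    exact h6.trans (hS.card_le Y)
  have h5 : 0 ≤ √(hh K 𝒜 * hh K ℬ) * ((𝒜.card : ℝ) * ℬ.card) := by positivity
  calc C / √(Q : ℝ) * ∑ a ∈ Mf, ∑ u : W, ‖fcu 𝒜 (cl a * u)‖ * ‖fcu ℬ (cl a * u)‖
      ≤ C / √(Q : ℝ) * ((K * Y) * (√(hh K 𝒜 * hh K ℬ) * ((𝒜.card : ℝ) * ℬ.card))) := by
        refine mul_le_mul_of_nonneg_left (h3.trans ?_) (by positivity)
        exact mul_le_mul_of_nonneg_right h4 h5
    _ = _ := by ring

end Pool.Agent.H14.BN
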