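import Pool.Agent.H14.BN.Moll
import Pool.Agent.H14.BN.Cls
import Pool.Agent.H74.TS.FirM

/-!
# The main term of the first moment, sized numbers

Port of `Pool/Agent/H74/TS/FirM.lean` and of `beta_zero` of `Pool/Agent/H14/PT/S1b.lean` (`Pr_dvd_iff` is used
from there): `x ≤ Y` becomes `s x ≤ Y`, `r ≤ z` becomes `s r ≤ z`, `Icc 1 (q - 1)` becomes
`SI s (Q - 1)`.  For `s x ≤ U ≤ Y < Q` every factorisation `x = m k` has `k ∈ SI s (Q - 1)`.
-/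

namespace Pool.Agent.H14.BN

open Finset Pool.Agent.H14.PT Pool.Agent.H74.TS

variable {s : ℕ →*₀ ℕ} {κ K B0 : ℝ}

theorem beta_zero (hX : Sx s κ K B0) {z Y x r : ℕ} (hx0 : x ≠ 0) (hxY : s x ≤ Y) (hr : r.Prime)
    (hrz : s r ≤ z) (hrx : r ∣ x) :
    ∑ m ∈ BN.MfS s z Y Y, (if m ∣ x then BN.wS s z Y Y m else 0) = 0 := by
  rw [BN.sum_MfS hX, Finset.sum_comm]
  refine Finset.sum_eq_zero fun B hB => ?_
  obtain ⟨b1, b2⟩ := (BN.mem_T2 hX).mp hB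
  have hBp : ∀ p ∈ B, p.Prime := fun p hp => (BN.prime_rough hX b1 p hp).1
  have h1 : ∀ A ∈ BN.T1 s z Y, (if Pr A * Pr B ∣ x then BN.wS s z Y Y (Pr A * Pr B) else 0) =
      (if Pr B ∣ x then BN.cf s Y B else 0) * (if Pr A ∣ x then ((-1 : ℝ)) ^ A.card else 0) := by
    intro A hA
    obtain ⟨a1, a2⟩ := (BN.mem_T1 hX).mp hA
    have hAp : ∀ p ∈ A, p.Prime := fun p hp => (BN.prime_small hX a1 p hp).1
    have hU := BN.union_prime hX a1 b1
    have h2 : Pr A * Pr B ∣ x ↔ Pr A ∣ x ∧ Pr B ∣ x := by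
      rw [← Pr_union (BN.disj_AB hX a1 b1), Pr_dvd_iff hU, Pr_dvd_iff hAp, Pr_dvd_iff hBp]
      constructor
      · intro h
        exact ⟨fun p hp => h p (Finset.mem_union_left _ hp), fun p hp => h p (Finset.mem_union_right _ hp)⟩
      · rintro ⟨h3, h4⟩ p hp
        rcases Finset.mem_union.mp hp with h | h
        · exact h3 p h
        · exact h4 p h
    rw [BN.wS_eq hX hA hB]
    by_cases h3 : Pr A ∣ x
    · by_cases h4 : Pr B ∣ x
      · rw [if_pos (h2.mpr ⟨h3, h4⟩), if_pos h3, if_pos h4]; ring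
      · rw [if_neg (fun h => h4 (h2.mp h).2), if_neg h4]; ring
    · rw [if_neg (fun h => h3 (h2.mp h).1), if_neg h3]; ring
  rw [Finset.sum_congr rfl h1, ← Finset.mul_sum]
  have h2 : ∑ A ∈ BN.T1 s z Y, (if Pr A ∣ x then ((-1 : ℝ)) ^ A.card else 0) = 0 := by
    rw [← Finset.sum_filter]
    have h3 : (BN.T1 s z Y).filter (fun A => Pr A ∣ x) = ((SP s z).filter (fun p => p ∣ x)).powerset := by
      ext A
      rw [Finset.mem_filter, BN.mem_T1 hX, Finset.mem_powerset]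
      constructor
      · rintro ⟨⟨a1, a2⟩, a3⟩ p hp
        exact Finset.mem_filter.mpr
          ⟨a1 hp, (Pr_dvd_iff (fun p hp => (BN.prime_small hX a1 p hp).1) x).mp a3 p hp⟩
      · intro h
        have a1 : A ⊆ SP s z := fun p hp => (Finset.mem_filter.mp (h hp)).1
        have a3 : Pr A ∣ x := (Pr_dvd_iff (fun p hp => (BN.prime_small hX a1 p hp).1) x).mpr
          (fun p hp => (Finset.mem_filter.mp (h hp)).2)
        exact ⟨⟨a1, (hX.sys.le_of_dvd a3 hx0).trans hxY⟩, a3⟩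
    rw [h3]
    have h4 : ((SP s z).filter (fun p => p ∣ x)).Nonempty :=
      ⟨r, Finset.mem_filter.mpr ⟨hX.sys.mem_SP.mpr ⟨hr, hrz⟩, hrx⟩⟩
    have h5 := Finset.sum_powerset_neg_one_pow_card_of_nonempty h4
    exact_mod_cast h5
  rw [h2, mul_zero]

theorem wmain_term (hX : Sx s κ K B0) (Q z Y : ℕ) (U : ℝ) (hY2 : 2 ≤ Y) (hUY : U ≤ Y)
    (hYQ : Y < Q) (c : ℕ → ℂ) (hc : c 1 = 1) (P : Finset ℕ)
    (hP : ∀ x, x ∈ P ↔ ∃ m ∈ BN.MfS s z Y Y, ∃ k ∈ SI s (Q - 1), x = m * k)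
    [DecidablePred fun x : ℕ => (s x : ℝ) ≤ U ∧ ∃ r, r.Prime ∧ s r ≤ z ∧ r ∣ x] :
    ‖∑ i ∈ BN.MfS s z Y Y ×ˢ SI s (Q - 1),
        ((BN.wS s z Y Y i.1 * ((s (i.1 * i.2) : ℝ)) ^ (-(1 / 2) : ℝ) : ℝ) : ℂ) * c (i.1 * i.2) - 1‖ ≤
      ∑ x ∈ (P.erase 1).filter
        (fun x : ℕ => ¬ ((s x : ℝ) ≤ U ∧ ∃ r, r.Prime ∧ s r ≤ z ∧ r ∣ x)),
        ‖c x‖ * BN.T0 s (x, 1) := by
  classical
  set I := BN.MfS s z Y Y ×ˢ SI s (Q - 1) with hI
  have hmem : ∀ i ∈ I, (1 ≤ i.1 ∧ i.1 ∈ BN.MfS s z Y Y) ∧ (i.2 ≠ 0 ∧ s i.2 ≤ Q - 1) := by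
    intro i hi
    obtain ⟨h3, h4⟩ := Finset.mem_product.mp hi
    exact ⟨⟨(BN.MfS_bounds hX h3).1, h3⟩, hX.sys.mem_SI.mp h4⟩
  have hmaps : ∀ i ∈ I, i.1 * i.2 ∈ P := by
    intro i hi
    obtain ⟨⟨_, h1⟩, h2⟩ := hmem i hi
    exact (hP _).mpr ⟨i.1, h1, i.2, hX.sys.mem_SI.mpr h2, rfl⟩
  set β : ℕ → ℝ := fun x => ∑ i ∈ I.filter (fun i => i.1 * i.2 = x), BN.wS s z Y Y i.1 with hβ
  have hsum : ∑ i ∈ I, ((BN.wS s z Y Y i.1 * ((s (i.1 * i.2) : ℝ)) ^ (-(1 / 2) : ℝ) : ℝ) : ℂ) *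
          c (i.1 * i.2) =
      ∑ x ∈ P, ((β x * (s x : ℝ) ^ (-(1 / 2) : ℝ) : ℝ) : ℂ) * c x := by
    rw [← Finset.sum_fiberwise_of_maps_to hmaps]
    refine Finset.sum_congr rfl fun x _ => ?_
    simp only [hβ]
    rw [Finset.sum_mul]
    rw [Complex.ofReal_sum, Finset.sum_mul]
    refine Finset.sum_congr rfl fun i hi => ?_
    have := (Finset.mem_filter.mp hi).2
    rw [← this]
  have h11 : ((1, 1) : ℕ × ℕ) ∈ I := by
    rw [hI, Finset.mem_product]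
    exact ⟨BN.one_mem_MfS hX (by omega) hY2, hX.sys.one_mem_SI (by omega)⟩
  have h1P : 1 ∈ P := by
    have := hmaps _ h11
    simpa using this
  have hβ1 : β 1 = 1 := by
    simp only [hβ]
    have : I.filter (fun i => i.1 * i.2 = 1) = {((1, 1) : ℕ × ℕ)} := by
      ext i
      rw [Finset.mem_filter, Finset.mem_singleton]
      constructor
      · rintro ⟨_, h⟩
        have h' : i.1 = 1 := Nat.dvd_one.mp ⟨i.2, h.symm⟩
        have h'' : i.2 = 1 := Nat.dvd_one.mp ⟨i.1, by rw [mul_comm]; exact h.symm⟩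
        exact Prod.ext h' h''
      · rintro rfl
        exact ⟨h11, by simp⟩
    rw [this, Finset.sum_singleton]
    exact BN.wS_one hX (by omega) hY2
  rw [hsum, ← Finset.add_sum_erase _ _ h1P, hβ1]
  have e1 : ((1 * ((s 1 : ℕ) : ℝ) ^ (-(1 / 2) : ℝ) : ℝ) : ℂ) * c 1 = 1 := by
    simp [hc]
  rw [e1, add_sub_cancel_left]
  have hP0 : ∀ x ∈ P, x ≠ 0 := by
    intro x hx
    obtain ⟨m, hm, k, hk, rfl⟩ := (hP x).mp hx
    exact Nat.mul_ne_zero (by have := (BN.MfS_bounds hX hm).1; omega) (hX.sys.mem_SI.mp hk).1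
  -- vanishing
  have hvan : ∀ x ∈ P.erase 1, ((s x : ℝ) ≤ U ∧ ∃ r, r.Prime ∧ s r ≤ z ∧ r ∣ x) → β x = 0 := by
    rintro x hx ⟨hxU, r, hr, hrz, hrx⟩
    have hxP := Finset.mem_of_mem_erase hx
    have hx0 := hP0 x hxP
    have hxY : s x ≤ Y := by exact_mod_cast hxU.trans hUY
    rw [← BN.beta_zero hX (z := z) hx0 hxY hr hrz hrx, ← Finset.sum_filter]
    simp only [hβ]
    refine Finset.sum_bij' (fun i _ => i.1) (fun m _ => (m, x / m)) ?_ ?_ ?_ ?_ ?_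
    · intro i hi
      obtain ⟨h1, h2⟩ := Finset.mem_filter.mp hi
      exact Finset.mem_filter.mpr ⟨(hmem i h1).1.2, ⟨i.2, h2.symm⟩⟩
    · intro m hm
      obtain ⟨h1, h2⟩ := Finset.mem_filter.mp hm
      have hm1 := (BN.MfS_bounds hX h1).1
      have h3 : m * (x / m) = x := Nat.mul_div_cancel' h2
      have h4 : m ≤ x := Nat.le_of_dvd (Nat.pos_of_ne_zero hx0) h2
      have h5 : 0 < x / m := Nat.div_pos h4 (by omega)
      have h6 : s (x / m) ≤ s x := hX.sys.le_of_dvd (Nat.div_dvd_of_dvd h2) hx0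
      refine Finset.mem_filter.mpr ⟨?_, h3⟩
      rw [hI, Finset.mem_product]
      refine ⟨h1, hX.sys.mem_SI.mpr ⟨h5.ne', ?_⟩⟩
      show s (x / m) ≤ Q - 1
      omega
    · intro i hi
      obtain ⟨h1, h2⟩ := Finset.mem_filter.mp hi
      have hm1 := (hmem i h1).1.1
      refine Prod.ext rfl ?_
      show x / i.1 = i.2
      rw [← h2]
      exact Nat.mul_div_cancel_left _ (by omega)
    · intro m _; rfl
    · intro i _; rfl
  have hle : ∀ x ∈ P.erase 1, |β x| ≤ (x.divisors.card : ℝ) := by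
    intro x hx
    have hx0 := hP0 x (Finset.mem_of_mem_erase hx)
    simp only [hβ]
    refine (Finset.abs_sum_le_sum_abs _ _).trans ?_
    calc _ ≤ ∑ _i ∈ I.filter (fun i => i.1 * i.2 = x), (1 : ℝ) :=
          Finset.sum_le_sum fun i _ => BN.abs_wS_le hX hY2 _
      _ = ((I.filter (fun i => i.1 * i.2 = x)).card : ℝ) := by simp
      _ ≤ _ := by exact_mod_cast card_filter_mul_eq_le I x hx0
  refine (norm_sum_le _ _).trans ?_
  rw [Finset.sum_filter]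
  refine Finset.sum_le_sum fun x hx => ?_
  rw [norm_mul, Complex.norm_real, Real.norm_eq_abs, abs_mul,
    abs_of_nonneg (by positivity : (0 : ℝ) ≤ (s x : ℝ) ^ (-(1 / 2) : ℝ))]
  by_cases hc : ((s x : ℝ) ≤ U ∧ ∃ r, r.Prime ∧ s r ≤ z ∧ r ∣ x)
  · rw [if_neg (not_not.mpr hc), hvan x hx hc]
    simp
  · rw [if_pos hc]
    unfold BN.T0
    simp only [mul_one]
    have h2 := hle x hx
    calc |β x| * (s x : ℝ) ^ (-(1 / 2) : ℝ) * ‖c x‖
        ≤ (x.divisors.card : ℝ) * (s x : ℝ) ^ (-(1 / 2) : ℝ) * ‖c x‖ := by gcongr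
      _ = _ := by ring

end Pool.Agent.H14.BN
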