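import Pool.Agent.H14.BN.SecA
import Pool.Agent.H74.TS.SecS

/-!
# The weighted sum of `|DN|`, small range, sized numbers

Port of `Pool/Agent/H74/TS/SecS.lean`; `K ^ 2 ≤ L`.
-/

namespace Pool.Agent.H14.BN

open Finset Pool.Agent.H14.PT Pool.Agent.H74.TS

universe u

variable {s : ℕ →*₀ ℕ} {κ K B0 : ℝ}

theorem wS2_small (hX : Sx s κ K B0) (ε : ℝ) (Z : ℕ) (hε : 0 < ε) (hε1 : ε ≤ 1 / 10)
    (hZ : 400 ≤ ε * Z) :
    ∃ Q0 : ℝ, ∀ (W : Type u) [CommGroupWithZero W] (cl : ℕ →*₀ W) (Q : ℕ),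
    Md s K cl Q → Q0 ≤ Real.log Q → BN.Bg K ε Z (Real.log Q) →
    ∀ (h1 h2 : ℝ) (v1 v2 : ℕ × ℕ → ℝ), BN.KF K cl h1 v1 → BN.KF K cl h2 v2 →
    Real.log h1 + 2 * Real.log h2 ≤ (1 - ε) * Real.log Q → ∀ N : ℕ,
    1 ≤ N → (N : ℝ) ≤ Real.exp ((1 + ε / 1000) * Real.log Q) →
    ∑ p ∈ BN.RQ s ((ty ε (Real.log Q) * ty ε (Real.log Q)) ^ 2 * N), BN.ww v1 v2 p *
      |BN.DN s (BN.MfS s (tz Z (Real.log Q)) (ty ε (Real.log Q)) (ty ε (Real.log Q)))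
        (BN.wS s (tz Z (Real.log Q)) (ty ε (Real.log Q)) (ty ε (Real.log Q))) N p.1 p.2| ≤
      Real.exp (3 * kap ε Z * Real.log Q) := by
  classical
  have hS := hX.sys
  obtain ⟨C, hC, hdiv⟩ := BN.divisor_bound hS (1 / 2) (by norm_num)
  obtain ⟨Ql, hsumL⟩ := BN.wsum_L hS ε Z hε hε1 hZ
  have hκ : 0 < kap ε Z := by
    unfold kap
    have hZ0 : (0 : ℝ) < Z := by
      by_contra hc
      push Not at hc
      nlinarith
    positivity
  obtain ⟨Q1, _, hQ1⟩ := poly_le_exp 6 (16 * C + 1) (kap ε Z) hκ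
  refine ⟨max Ql Q1, ?_⟩
  intro W _ cl Q hM hq hB h1 h2 v1 v2 hv1 hv2 hc N hN1 hN2
  have hql : Ql ≤ Real.log Q := (le_max_left _ _).trans hq
  have hq1 : Q1 ≤ Real.log Q := (le_max_right _ _).trans hq
  have hsL := hsumL W cl Q hM hql h1 h2 v1 v2 hv1 hv2 hc
  set L := Real.log Q with hL
  have hL100 := hB.toBg.hL
  have hLpos : 0 < L := by linarith
  have hN2' : (N : ℝ) ≤ Real.exp (1.001 * L) := by
    refine hN2.trans (Real.exp_le_exp.mpr ?_)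
    nlinarith
  have hpoly := hQ1 L hq1
  set κ := kap ε Z with hκdef
  set Ex := Real.exp (κ * L) with hEx
  set z := tz Z L with hz
  set Y := ty ε L with hY
  set P := BN.RQ s ((Y * Y) ^ 2 * N) with hP
  set D : ℕ × ℕ → ℝ := fun p => |BN.DN s (BN.MfS s z Y Y) (BN.wS s z Y Y) N p.1 p.2| with hD
  have hCPall : ∀ p ∈ P, BN.Red p := fun p hp => ((BN.mem_RQ hS).mp hp).1
  have hup : ∀ p ∈ P, (s (p.1 * p.2) : ℝ) ≤ Real.exp ((1 + ε / 100) * L) := by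
    intro p hp
    have h1 := ((BN.mem_RQ hS).mp hp).2
    have h2 : (s (p.1 * p.2) : ℝ) ≤ (((Y * Y) ^ 2 * N : ℕ) : ℝ) := Nat.cast_le.mpr h1
    refine h2.trans ?_
    push_cast
    have hY' := hB.toBg.Y_hi
    calc ((Y : ℝ) * Y) ^ 2 * N ≤ (Real.exp (ε / 1000 * L) * Real.exp (ε / 1000 * L)) ^ 2 *
          Real.exp ((1 + ε / 1000) * L) := by
          gcongr
      _ = Real.exp ((1 + 5 * ε / 1000) * L) := by
          rw [← Real.exp_add, ← Real.exp_nat_mul, ← Real.exp_add]; congr 1; push_cast; ring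
      _ ≤ _ := Real.exp_le_exp.mpr (by nlinarith [mul_pos hε hLpos])
  have hpt : ∀ p ∈ P, BN.ww v1 v2 p * D p ≤
      (if Ex ≤ (s (p.1 * p.2) : ℝ) then BN.ww v1 v2 p * (BN.T0 s p * (16 * L ^ 5)) else 0) +
      (if (s (p.1 * p.2) : ℝ) ≤ Ex then C * (16 * L ^ 5) else 0) := by
    intro p hp
    obtain ⟨hcop, h1, h2⟩ := hCPall p hp
    have hT : D p ≤ BN.T0 s p * (16 * L ^ 5) := BN.wDN_T0 hX hB h1 h2 hcop hN1 hN2'
    have hD0 : 0 ≤ D p := abs_nonneg _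
    have hw0 := BN.ww_nonneg v1 v2 p
    have hw1 := BN.ww_le_one hv1 hv2 p
    have hT0 : 0 ≤ BN.T0 s p * (16 * L ^ 5) := mul_nonneg (BN.T0_nonneg s p) (by positivity)
    have hn0 : p.1 * p.2 ≠ 0 := Nat.mul_ne_zero h1 h2
    have hn0r : (0 : ℝ) < (s (p.1 * p.2) : ℝ) := hS.r_pos hn0
    by_cases hbig : Ex ≤ (s (p.1 * p.2) : ℝ)
    · rw [if_pos hbig]
      have h3 : 0 ≤ (if (s (p.1 * p.2) : ℝ) ≤ Ex then C * (16 * L ^ 5) else 0) := by
        split_ifs <;> positivity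
      have h4 : BN.ww v1 v2 p * D p ≤ BN.ww v1 v2 p * (BN.T0 s p * (16 * L ^ 5)) :=
        mul_le_mul_of_nonneg_left hT hw0
      linarith
    · rw [if_neg hbig]
      push Not at hbig
      rw [if_pos hbig.le]
      have hTC : BN.T0 s p ≤ C := by
        unfold BN.T0
        calc _ ≤ (C * ((s (p.1 * p.2) : ℝ)) ^ (1 / 2 : ℝ)) * ((s (p.1 * p.2) : ℝ)) ^ (-(1 / 2) : ℝ) := by
              gcongr
              exact hdiv _ hn0
          _ = C := by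
              rw [mul_assoc, ← Real.rpow_add hn0r]; norm_num
      have h5 : BN.T0 s p * (16 * L ^ 5) ≤ C * (16 * L ^ 5) := by gcongr
      have h6 : BN.ww v1 v2 p * D p ≤ 1 * D p := mul_le_mul_of_nonneg_right hw1 hD0
      linarith
  refine (Finset.sum_le_sum hpt).trans ?_
  rw [Finset.sum_add_distrib]
  have s2 : ∑ p ∈ P, (if Ex ≤ (s (p.1 * p.2) : ℝ) then BN.ww v1 v2 p * (BN.T0 s p * (16 * L ^ 5)) else 0)
      ≤ 1 := by
    rw [← Finset.sum_filter]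
    apply hsL
    intro p hp
    obtain ⟨h1, h2⟩ := Finset.mem_filter.mp hp
    exact ⟨hCPall p h1, h2, hup p h1⟩
  have s3 : ∑ p ∈ P, (if (s (p.1 * p.2) : ℝ) ≤ Ex then C * (16 * L ^ 5) else 0) ≤
      K ^ 2 * Ex ^ 2 * (C * (16 * L ^ 5)) := by
    rw [← Finset.sum_filter, Finset.sum_const, nsmul_eq_mul]
    have h1 := BN.count_small hS (E := Ex) (Real.exp_pos _).le (P.filter (fun p => (s (p.1 * p.2) : ℝ) ≤ Ex))
      (fun p hp => by
        obtain ⟨h1, h2⟩ := Finset.mem_filter.mp hp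
        obtain ⟨_, h3, h4⟩ := hCPall p h1
        exact ⟨h3, h4, h2⟩)
    gcongr
  have hEx1 : 1 ≤ Ex ^ 2 := one_le_pow₀ (Real.one_le_exp (by positivity))
  have hL6 : 1 ≤ L ^ 6 := one_le_pow₀ (by linarith)
  have hK2 : K ^ 2 ≤ L := (pow_le_pow_right₀ hB.K1 (by norm_num)).trans hB.KL
  have hC0 : 0 ≤ C * (16 * L ^ 5) := by positivity
  calc _ ≤ 1 + K ^ 2 * Ex ^ 2 * (C * (16 * L ^ 5)) := add_le_add s2 s3
    _ ≤ 1 * 1 + L * Ex ^ 2 * (C * (16 * L ^ 5)) := by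
        rw [mul_one]
        gcongr
    _ ≤ Ex ^ 2 * L ^ 6 + L * Ex ^ 2 * (C * (16 * L ^ 5)) :=
        add_le_add (mul_le_mul hEx1 hL6 zero_le_one (by positivity)) le_rfl
    _ = Ex ^ 2 * ((16 * C + 1) * L ^ 6) := by ring
    _ ≤ Ex ^ 2 * Real.exp (κ * L) := by gcongr
    _ = Real.exp (3 * κ * L) := by
        rw [hEx, ← Real.exp_nat_mul, ← Real.exp_add]; congr 1; push_cast; ring

end Pool.Agent.H14.BN
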