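import Pool.Agent.H14.BN.Mom
import Pool.Agent.H14.BN.SecS
import Pool.Agent.H74.TS.SecB

/-!
# The total mollified second moment over a product set, sized numbers

Port of `Pool/Agent/H74/TS/SecB.lean`.  `Cd.card_ge`: `K * Nat.card Wˣ ≥ Q` (`hM.card_ge`) and
`hh K 𝒜 ≥ 1` (`(va_kf ..).one_le`).  In `wG_bounds` the bad characters contribute at most
`|𝒜| K (K Y²)² (2 K² √k (1 + log k))`, which is at most `|𝒜| |ℬ|` for large `Q` as `K ^ 10 ≤ L`.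
-/

namespace Pool.Agent.H14.BN

open Finset Pool.Agent.H14.PT Pool.Agent.H74.TS
open scoped ComplexConjugate

universe u

variable {s : ℕ →*₀ ℕ} {κ K B0 : ℝ}

/-- condition on the sizes of the two sets -/
def Cd {W : Type u} [CommGroupWithZero W] (K ε : ℝ) (Q : ℕ) (𝒜 ℬ : Finset (MulChar W ℂ)) : Prop :=
  𝒜.Nonempty ∧ ℬ.Nonempty ∧ Real.log (hh K 𝒜) + 2 * Real.log (hh K ℬ) ≤ (1 - ε) * Real.log Q

theorem Cd.card_ge {W : Type u} [CommGroupWithZero W] [Finite W] (hS : Sys s κ K) {cl : ℕ →*₀ W}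
    {Q : ℕ} (hM : Md s K cl Q) {ε : ℝ} {Z : ℕ}
    (hB : BN.Bg K ε Z (Real.log Q)) {𝒜 ℬ : Finset (MulChar W ℂ)} (h : BN.Cd K ε Q 𝒜 ℬ) :
    Real.exp ((1 / 2 + ε / 4) * Real.log Q) ≤ (ℬ.card : ℝ) := by
  obtain ⟨hA, hBn, hc⟩ := h
  have hq0 : (0 : ℝ) < Q := by
    have : 0 < Q := by have := hM.Q_two; omega
    exact_mod_cast this
  have hqe : Real.exp (Real.log Q) = Q := Real.exp_log hq0
  have h1 := (BN.va_kf hS.K_one cl 𝒜 hA).one_le
  have h2 := (BN.va_kf hS.K_one cl ℬ hBn).one_le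
  have h3 : 0 ≤ Real.log (BN.hh K 𝒜) := Real.log_nonneg h1
  set L := Real.log Q with hL
  have hLpos := hB.toBg.Lpos
  have hε := hB.toBg.hLε
  have h4 : Real.log (BN.hh K ℬ) ≤ (1 - ε) / 2 * L := by linarith
  have hB0 : (0 : ℝ) < ℬ.card := by exact_mod_cast hBn.card_pos
  have hh0 : 0 < BN.hh K ℬ := lt_of_lt_of_le one_pos h2
  have h5 : BN.hh K ℬ ≤ Real.exp ((1 - ε) / 2 * L) := by
    rw [← Real.exp_log hh0]
    exact Real.exp_le_exp.mpr h4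
  have h6 : K * (Nat.card Wˣ : ℝ) = BN.hh K ℬ * ℬ.card := by
    unfold BN.hh
    field_simp
  have h9 : Real.exp L ≤ Real.exp ((1 - ε) / 2 * L) * ℬ.card := by
    rw [hqe]
    refine hM.card_ge.trans ?_
    rw [h6]
    gcongr
  have h11 : Real.exp ((1 / 2 + ε / 4) * L) * Real.exp ((1 - ε) / 2 * L) ≤
      (ℬ.card : ℝ) * Real.exp ((1 - ε) / 2 * L) := by
    calc Real.exp ((1 / 2 + ε / 4) * L) * Real.exp ((1 - ε) / 2 * L)
        = Real.exp ((1 - ε / 4) * L) := by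
          rw [← Real.exp_add]
          congr 1
          ring
      _ ≤ Real.exp L := Real.exp_le_exp.mpr (by linarith)
      _ ≤ Real.exp ((1 - ε) / 2 * L) * ℬ.card := h9
      _ = _ := by ring
  exact le_of_mul_le_mul_right h11 (by positivity)

theorem wG_bounds (hX : Sx s κ K B0) (ε : ℝ) (Z : ℕ) (hε : 0 < ε) (hε1 : ε ≤ 1 / 10)
    (hZ : 400 ≤ ε * Z) :
    ∃ C Q0 : ℝ, 0 < C ∧ ∀ (W : Type u) [CommGroupWithZero W] [Finite W] (cl : ℕ →*₀ W) (Q : ℕ),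
    Md s K cl Q → Q0 ≤ Real.log Q → BN.Bg K ε Z (Real.log Q) →
    ∀ (Bad : Finset (MulChar W ℂ)), (Bad.card : ℝ) ≤ K →
    ∀ (𝒜 ℬ : Finset (MulChar W ℂ)), BN.Cd K ε Q 𝒜 ℬ →
    ∀ k : ℕ, 1 ≤ k → (k : ℝ) ≤ Real.exp ((1 + ε / 1000) * Real.log Q) →
    ‖∑ x ∈ BN.PN Bad 𝒜 ℬ, ((‖BN.Mol s cl
        (BN.MfS s (tz Z (Real.log Q)) (ty ε (Real.log Q)) (ty ε (Real.log Q)))
        (BN.wS s (tz Z (Real.log Q)) (ty ε (Real.log Q)) (ty ε (Real.log Q)))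
          (x.1 * x.2)‖ ^ 2 : ℝ) : ℂ) *
        BN.TT s cl (x.1 * x.2) k‖ ≤
      2 * Real.exp (3 * kap ε Z * Real.log Q) * ((𝒜.card : ℝ) * ℬ.card) ∧
    (Real.exp ((1 - ε / 1000) * Real.log Q) ≤ k →
    ‖∑ x ∈ BN.PN Bad 𝒜 ℬ, ((‖BN.Mol s cl
        (BN.MfS s (tz Z (Real.log Q)) (ty ε (Real.log Q)) (ty ε (Real.log Q)))
        (BN.wS s (tz Z (Real.log Q)) (ty ε (Real.log Q)) (ty ε (Real.log Q)))
          (x.1 * x.2)‖ ^ 2 : ℝ) : ℂ) *
        BN.TT s cl (x.1 * x.2) k‖ ≤ C * ((𝒜.card : ℝ) * ℬ.card)) := by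
  obtain ⟨C, Q1, hC, hmid⟩ := BN.wS2_mid hX ε Z hε hε1 hZ
  obtain ⟨Q2, hsmall⟩ := BN.wS2_small hX ε Z hε hε1 hZ
  obtain ⟨Q3, _, hQ3⟩ := poly_le_exp 2 4 (ε / 100) (by positivity)
  refine ⟨C + 1, max (max Q1 Q2) Q3, by positivity, ?_⟩
  intro W _ _ cl Q hM hq hB Bad hBad 𝒜 ℬ hcd k hk1 hk2
  have hS := hX.sys
  have hq1 : Q1 ≤ Real.log Q := (le_max_left _ _).trans ((le_max_left _ _).trans hq)
  have hq2 : Q2 ≤ Real.log Q := (le_max_right _ _).trans ((le_max_left _ _).trans hq)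
  have hq3 : Q3 ≤ Real.log Q := (le_max_right _ _).trans hq
  have hq0 : (0 : ℝ) < Q := by
    have : 0 < Q := by have := hM.Q_two; omega
    exact_mod_cast this
  have hBge := hcd.card_ge hS hM hB
  obtain ⟨hA, hBn, hc⟩ := hcd
  have hva := BN.va_kf hS.K_one cl 𝒜 hA
  have hvb := BN.va_kf hS.K_one cl ℬ hBn
  have hm := hmid W cl Q hM hq1 hB _ _ _ _ hva hvb hc k
  have hs := hsmall W cl Q hM hq2 hB _ _ _ _ hva hvb hc k hk1 hk2
  have hqe : Real.exp (Real.log Q) = Q := Real.exp_log hq0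
  set L := Real.log Q with hL
  have hL100 := hB.toBg.hL
  have hLpos : 0 < L := by linarith
  have hεL : 0 < ε * L := by positivity
  set Y := ty ε L with hY
  set z := tz Z L with hz
  have hYhi := hB.toBg.Y_hi
  have hYhi' := hB.toBg.Y_hi'
  have hY2 : 2 ≤ Y := hB.toBg.Y_two
  have hYq : Y * Y < Q := by
    have : ((Y * Y : ℕ) : ℝ) < Q := by
      push_cast
      calc (Y : ℝ) * Y ≤ Real.exp (L / 1000) * Real.exp (L / 1000) := by gcongr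
        _ = Real.exp (L / 1000 + L / 1000) := by rw [Real.exp_add]
        _ < Real.exp L := Real.exp_lt_exp.mpr (by linarith)
        _ = Q := hqe
    exact_mod_cast this
  have hkq : k < Q ^ 2 := by
    have : (k : ℝ) < ((Q ^ 2 : ℕ) : ℝ) := by
      push_cast
      calc (k : ℝ) ≤ Real.exp ((1 + ε / 1000) * L) := hk2
        _ < Real.exp (2 * L) := Real.exp_lt_exp.mpr (by nlinarith)
        _ = (Q : ℝ) ^ 2 := by
            rw [← hqe, ← Real.exp_nat_mul]; push_cast; rfl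
    exact_mod_cast this
  have hfull := BN.wmoment_le hS hM 𝒜 ℬ hA hBn (BN.MfS s z Y Y) (BN.wS s z Y Y) k (Y * Y)
    (fun m hm => BN.MfS_bounds hX hm) hYq hkq
  have hK1 := hS.K_one
  have hK0 : 0 < K := by linarith
  have hK5 : K ^ 5 ≤ L := (pow_le_pow_right₀ hK1 (by norm_num)).trans hB.KL
  set E : ℝ := (K * ((Y * Y : ℕ) : ℝ)) ^ 2 * (2 * K ^ 2 * Real.sqrt k * (1 + Real.log k)) with hEdef
  have hk0 : (0 : ℝ) < k := by exact_mod_cast hk1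
  have h4 : 0 ≤ Real.log k := Real.log_natCast_nonneg _
  have hE0 : 0 ≤ E := by positivity
  have hE : ∀ η ∈ Bad, ‖((‖BN.Mol s cl (BN.MfS s z Y Y) (BN.wS s z Y Y) η‖ ^ 2 : ℝ) : ℂ) *
      BN.TT s cl η k‖ ≤ E := by
    intro η _
    rw [norm_mul, Complex.norm_real, Real.norm_of_nonneg (by positivity)]
    have h1 := BN.norm_Mol_le hS cl (BN.MfS s z Y Y) (BN.wS s z Y Y) η (Y := Y * Y)
      (fun m hm => BN.MfS_bounds hX hm) (fun m => BN.abs_wS_le hX hY2 m)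
    have h2 := BN.norm_TT_le2 hS cl η k
    rw [hEdef]
    gcongr
  have hKE : K * E ≤ (ℬ.card : ℝ) := by
    have h3 : Real.log k ≤ (1 + ε / 1000) * L := by
      have := Real.log_le_log hk0 hk2
      rwa [Real.log_exp] at this
    have h5 : Real.sqrt k ≤ Real.exp ((1 / 2 + ε / 2000) * L) := by
      rw [Real.sqrt_le_left (Real.exp_pos _).le, ← Real.exp_nat_mul]
      refine hk2.trans (Real.exp_le_exp.mpr ?_)
      push_cast
      linarith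
    have h6 := hQ3 L hq3
    have h7 : 1 + Real.log k ≤ 2 * L := by nlinarith
    calc K * E = K ^ 5 * ((Y : ℝ) * Y) ^ 2 * (Real.sqrt k * (2 * (1 + Real.log k))) := by
          rw [hEdef]; push_cast; ring
      _ ≤ L * (Real.exp (ε / 1000 * L) * Real.exp (ε / 1000 * L)) ^ 2 *
          (Real.exp ((1 / 2 + ε / 2000) * L) * (2 * (2 * L))) := by
          gcongr
      _ = (Real.exp (ε / 1000 * L) * Real.exp (ε / 1000 * L)) ^ 2 *
          (Real.exp ((1 / 2 + ε / 2000) * L) * (4 * L ^ 2)) := by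
          ring
      _ ≤ (Real.exp (ε / 1000 * L) * Real.exp (ε / 1000 * L)) ^ 2 *
          (Real.exp ((1 / 2 + ε / 2000) * L) * Real.exp (ε / 100 * L)) := by
          gcongr
      _ = Real.exp ((1 / 2 + ε * (29 / 2000)) * L) := by
          rw [← Real.exp_add, ← Real.exp_nat_mul, ← Real.exp_add, ← Real.exp_add]
          congr 1; push_cast; ring
      _ ≤ Real.exp ((1 / 2 + ε / 4) * L) := Real.exp_le_exp.mpr (by nlinarith)
      _ ≤ _ := hBge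
  have hPN : ‖∑ x ∈ BN.PN Bad 𝒜 ℬ,
        ((‖BN.Mol s cl (BN.MfS s z Y Y) (BN.wS s z Y Y) (x.1 * x.2)‖ ^ 2 : ℝ) : ℂ) *
        BN.TT s cl (x.1 * x.2) k‖ ≤
      ‖∑ x ∈ 𝒜 ×ˢ ℬ, ((‖BN.Mol s cl (BN.MfS s z Y Y) (BN.wS s z Y Y) (x.1 * x.2)‖ ^ 2 : ℝ) : ℂ) *
        BN.TT s cl (x.1 * x.2) k‖ + (𝒜.card : ℝ) * ℬ.card := by
    have h1 := BN.sum_PN_sub Bad 𝒜 ℬ
      (fun χ => ((‖BN.Mol s cl (BN.MfS s z Y Y) (BN.wS s z Y Y) χ‖ ^ 2 : ℝ) : ℂ) *
        BN.TT s cl χ k) E hE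
    have h2 := norm_le_norm_add_norm_sub' (∑ x ∈ BN.PN Bad 𝒜 ℬ,
      ((‖BN.Mol s cl (BN.MfS s z Y Y) (BN.wS s z Y Y) (x.1 * x.2)‖ ^ 2 : ℝ) : ℂ) *
        BN.TT s cl (x.1 * x.2) k)
      (∑ x ∈ 𝒜 ×ˢ ℬ, ((‖BN.Mol s cl (BN.MfS s z Y Y) (BN.wS s z Y Y) (x.1 * x.2)‖ ^ 2 : ℝ) : ℂ) *
        BN.TT s cl (x.1 * x.2) k)
    rw [norm_sub_rev] at h2
    refine h2.trans (add_le_add le_rfl (h1.trans ?_))
    refine mul_le_mul_of_nonneg_left ?_ (Nat.cast_nonneg _)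
    exact (mul_le_mul_of_nonneg_right hBad hE0).trans hKE
  have hAB0 : (0 : ℝ) ≤ (𝒜.card : ℝ) * ℬ.card := by positivity
  constructor
  · refine hPN.trans ?_
    have hk := hB.toBg.kpos
    have h1 : 1 ≤ Real.exp (3 * kap ε Z * L) := Real.one_le_exp (by positivity)
    calc _ ≤ ((𝒜.card : ℝ) * ℬ.card) * Real.exp (3 * kap ε Z * L) + (𝒜.card : ℝ) * ℬ.card := by
          refine add_le_add (hfull.trans ?_) le_rfl
          exact mul_le_mul_of_nonneg_left hs hAB0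
      _ ≤ _ := by nlinarith
  · intro hk3
    refine hPN.trans ?_
    have hm' := hm hk3 hk2
    calc _ ≤ ((𝒜.card : ℝ) * ℬ.card) * C + (𝒜.card : ℝ) * ℬ.card := by
          refine add_le_add (hfull.trans ?_) le_rfl
          exact mul_le_mul_of_nonneg_left hm' hAB0
      _ = _ := by ring

end Pool.Agent.H14.BN
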