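import Pool.Agent.H14.BN.FirA
import Pool.Agent.H14.BN.FirM
import Pool.Agent.H14.BN.SecB
import Pool.Agent.H74.TS.FirB

/-!
# The first moment: lower bound, sized numbers

Port of `Pool/Agent/H74/TS/FirB.lean`: `wfirst_moment`, `wfirst_err` (with `Y * Y` in place of `Y`),
`wmain_term`, `wsum_R1`, `wsum_L` of the BN files; the bad characters: `sum_PN_sub`, `norm_Lc_le`,
`norm_Mol_le`, `Cd.card_ge`, `hT.bad_card`.  For `x ∈ PN` one has `Lc = Lv` (`Lv_eq_sum`).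
-/

namespace Pool.Agent.H14.BN

open Finset Pool.Agent.H14.PT Pool.Agent.H74.TS
open scoped ComplexConjugate

universe u

variable {s : ℕ →*₀ ℕ} {κ K B0 : ℝ}

lemma norm_fc_mul {W : Type u} [CommGroupWithZero W] (cl : ℕ →*₀ W) (𝒜 ℬ : Finset (MulChar W ℂ))
    (p : ℕ × ℕ) :
    ‖BN.fc cl 𝒜 p * BN.fc cl ℬ p / (((𝒜.card : ℝ) * ℬ.card : ℝ) : ℂ)‖ =
      BN.ww (BN.va cl 𝒜) (BN.va cl ℬ) p := by
  unfold BN.ww BN.va
  rw [← mul_pow, Real.sqrt_sq (by positivity), norm_div, norm_mul, Complex.norm_real,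
    Real.norm_of_nonneg (by positivity), div_mul_div_comm]

lemma firb_fc_one {W : Type u} [CommGroupWithZero W] (cl : ℕ →*₀ W)
    (𝒜 : Finset (MulChar W ℂ)) : BN.fc cl 𝒜 (1, 1) = 𝒜.card := by
  unfold BN.fc
  simp

theorem wS1_total (hX : Sx s κ K B0) (ε : ℝ) (Z : ℕ) (hε : 0 < ε) (hε1 : ε ≤ 1 / 10)
    (hZ : 400 ≤ ε * Z) :
    ∃ Q0 : ℝ, ∀ (W : Type u) [CommGroupWithZero W] [Finite W] (cl : ℕ →*₀ W) (Q : ℕ)
    (R m : ℝ) (Bad : Finset (MulChar W ℂ)), Md s K cl Q → Td s K cl Q R m Bad →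
    Q0 ≤ Real.log Q → BN.Bg K ε Z (Real.log Q) →
    ∀ (𝒜 ℬ : Finset (MulChar W ℂ)), BN.Cd K ε Q 𝒜 ℬ →
    ((𝒜.card : ℝ) * ℬ.card) / 2 ≤ ‖∑ x ∈ BN.PN Bad 𝒜 ℬ,
      BN.Mol s cl (BN.MfS s (tz Z (Real.log Q)) (ty ε (Real.log Q)) (ty ε (Real.log Q)))
        (BN.wS s (tz Z (Real.log Q)) (ty ε (Real.log Q)) (ty ε (Real.log Q))) (x.1 * x.2) *
        Lv s cl R (x.1 * x.2)‖ := by
  classical
  have hS := hX.sys
  have hK1 := hS.K_one
  have hK0 := hS.K_pos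
  obtain ⟨Q1, hsumL⟩ := BN.wsum_L.{u} hS ε Z hε hε1 hZ
  obtain ⟨C1, hC1, herr0⟩ := BN.wfirst_err.{u} hS
  obtain ⟨C2, hC2, hLc0⟩ := BN.norm_Lc_le.{u} hS
  refine ⟨max Q1 (max (8 * C1 / (ε / 4)) (8 * (K ^ 2 * C2) / (ε / 8))), ?_⟩
  intro W _ _ cl Q R m Bad hM hT hq hB 𝒜 ℬ hcd
  haveI : Fintype W := Fintype.ofFinite W
  have hq1 : Q1 ≤ Real.log Q := (le_max_left _ _).trans hq
  have hq2' := (le_max_right _ _).trans hq
  have hq2 : 8 * C1 / (ε / 4) ≤ Real.log Q := (le_max_left _ _).trans hq2'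
  have hq3 : 8 * (K ^ 2 * C2) / (ε / 8) ≤ Real.log Q := (le_max_right _ _).trans hq2'
  have hQ2 := hM.Q_two
  have hq0 : (0 : ℝ) < Q := by exact_mod_cast (by omega : 0 < Q)
  have hℬge := BN.Cd.card_ge hS hM hB hcd
  have hqe : Real.exp (Real.log Q) = Q := Real.exp_log hq0
  obtain ⟨hAne, hBne, hsz⟩ := hcd
  have kA := BN.va_kf hK1 cl 𝒜 hAne
  have kB := BN.va_kf hK1 cl ℬ hBne
  have hL' := hsumL W cl Q hM hq1 (hh K 𝒜) (hh K ℬ) (BN.va cl 𝒜) (BN.va cl ℬ) kA kB hsz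
  have hR' := fun P hP => BN.wsum_R1 hS hM hB kA kB hsz P hP
  have h1A := kA.one_le
  have h1B := kB.one_le
  have hbad := hT.bad_card
  have hLv : ∀ χ : MulChar W ℂ, χ ∉ Bad → Lv s cl R χ = Lc s cl Q R m χ := by
    intro χ hχ
    rw [Lv_eq_sum hS hM hT hχ]
    rfl
  have hPNeq : ∑ x ∈ BN.PN Bad 𝒜 ℬ,
      BN.Mol s cl (BN.MfS s (tz Z (Real.log Q)) (ty ε (Real.log Q)) (ty ε (Real.log Q)))
        (BN.wS s (tz Z (Real.log Q)) (ty ε (Real.log Q)) (ty ε (Real.log Q))) (x.1 * x.2) *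
        Lv s cl R (x.1 * x.2) = ∑ x ∈ BN.PN Bad 𝒜 ℬ,
      BN.Mol s cl (BN.MfS s (tz Z (Real.log Q)) (ty ε (Real.log Q)) (ty ε (Real.log Q)))
        (BN.wS s (tz Z (Real.log Q)) (ty ε (Real.log Q)) (ty ε (Real.log Q))) (x.1 * x.2) *
        Lc s cl Q R m (x.1 * x.2) := by
    refine Finset.sum_congr rfl fun x hx => ?_
    simp only [BN.PN, Finset.mem_filter] at hx
    rw [hLv _ hx.2]
  rw [hPNeq]
  set L := Real.log Q with hL
  have hL100 := hB.toBg.hL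
  have hLpos : 0 < L := by linarith
  have hLε := hB.toBg.hLε
  set Y := ty ε L with hY
  set z := tz Z L with hz
  have hYhi : (Y : ℝ) ≤ Real.exp (ε / 1000 * L) := hB.toBg.Y_hi
  have hYlo : Real.exp (ε / 1000 * L) / 2 ≤ (Y : ℝ) := hB.toBg.Y_lo
  have hY2 : 2 ≤ Y := hB.toBg.Y_two
  have hYY : ((Y * Y : ℕ) : ℝ) ≤ Real.exp (2 * ε / 1000 * L) := by
    push_cast
    calc (Y : ℝ) * Y ≤ Real.exp (ε / 1000 * L) * Real.exp (ε / 1000 * L) := by gcongr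
      _ = Real.exp (2 * ε / 1000 * L) := by rw [← Real.exp_add]; congr 1; ring
  have hYq : Y * Y < Q := by
    have : ((Y * Y : ℕ) : ℝ) < Q := by
      calc _ ≤ Real.exp (2 * ε / 1000 * L) := hYY
        _ < Real.exp L := Real.exp_lt_exp.mpr (by nlinarith)
        _ = Q := hqe
    exact_mod_cast this
  have hYq1 : Y < Q := lt_of_le_of_lt (Nat.le_mul_of_pos_left _ (by omega)) hYq
  set U : ℝ := Real.exp (kap ε Z * L) with hU
  have hkle := hB.toBg.kle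
  have hkpos := hB.toBg.kpos
  have hUY : U ≤ Y := by
    refine le_trans ?_ hYlo
    have h1 : (2 : ℝ) ≤ Real.exp (ε / 2000 * L) := by
      have := Real.add_one_le_exp (ε / 2000 * L)
      linarith
    have h2 : U * 2 ≤ Real.exp (ε / 1000 * L) := by
      calc U * 2 ≤ U * Real.exp (ε / 2000 * L) := by gcongr
        _ = Real.exp (kap ε Z * L + ε / 2000 * L) := by rw [hU, ← Real.exp_add]
        _ ≤ _ := Real.exp_le_exp.mpr (by nlinarith)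
    linarith
  set Mf := BN.MfS s z Y Y with hMf
  set w := BN.wS s z Y Y with hw
  set P : Finset ℕ := (Mf ×ˢ SI s (Q - 1)).image (fun i => i.1 * i.2) with hPdef
  have hP : ∀ x, x ∈ P ↔ ∃ m ∈ BN.MfS s z Y Y, ∃ k ∈ SI s (Q - 1), x = m * k := by
    intro x
    rw [hPdef, Finset.mem_image]
    constructor
    · rintro ⟨i, hi, rfl⟩
      obtain ⟨h3, h4⟩ := Finset.mem_product.mp hi
      exact ⟨i.1, h3, i.2, h4, rfl⟩
    · rintro ⟨m, hm, k, hk, rfl⟩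
      exact ⟨(m, k), Finset.mem_product.mpr ⟨hm, hk⟩, rfl⟩
  set M : ℝ := (𝒜.card : ℝ) * ℬ.card with hMdef
  have hA0 : (0 : ℝ) < 𝒜.card := by exact_mod_cast hAne.card_pos
  have hB0' : (0 : ℝ) < ℬ.card := by exact_mod_cast hBne.card_pos
  have hM0 : 0 < M := by positivity
  have hMc : (M : ℂ) ≠ 0 := by exact_mod_cast hM0.ne'
  set c : ℕ → ℂ := fun x => BN.fc cl 𝒜 (x, 1) * BN.fc cl ℬ (x, 1) / (M : ℂ) with hc
  have hc1 : c 1 = 1 := by
    simp only [hc]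
    rw [firb_fc_one, firb_fc_one, hMdef]
    push_cast
    rw [div_self]
    push_cast [hMdef] at hMc
    exact hMc
  have hcn : ∀ x, ‖c x‖ = BN.ww (BN.va cl 𝒜) (BN.va cl ℬ) (x, 1) :=
    fun x => BN.norm_fc_mul cl 𝒜 ℬ (x, 1)
  have hmain := BN.wmain_term hX Q z Y U hY2 hUY hYq1 c hc1 P hP
  have herr := herr0 W cl Q R m Bad hM hT 𝒜 ℬ hAne hBne Mf w (Y * Y)
    (fun m hm => BN.MfS_bounds hX hm) hYq (fun m => BN.abs_wS_le hX hY2 m)
  have hfm := BN.wfirst_moment (s := s) cl Q R m 𝒜 ℬ Mf w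
  -- size facts for elements of P
  have hPx : ∀ x ∈ P, BN.Red (x, 1) ∧ (s x : ℝ) ≤ Real.exp ((1 + ε / 100) * L) := by
    intro x hx
    obtain ⟨m, hm, k, hk, rfl⟩ := (hP x).mp hx
    have hm1 := BN.MfS_bounds hX hm
    obtain ⟨hk1, hk2⟩ := hS.mem_SI.mp hk
    refine ⟨⟨Nat.coprime_one_right _, Nat.mul_ne_zero (by omega) hk1, one_ne_zero⟩, ?_⟩
    have h1 : ((s (m * k) : ℕ) : ℝ) ≤ ((Y * Y * Q : ℕ) : ℝ) := by
      rw [map_mul]
      exact_mod_cast Nat.mul_le_mul hm1.2 (by omega)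
    calc ((s (m * k) : ℕ) : ℝ) ≤ ((Y * Y * Q : ℕ) : ℝ) := h1
      _ = ((Y * Y : ℕ) : ℝ) * Q := by push_cast; ring
      _ ≤ Real.exp (2 * ε / 1000 * L) * Real.exp L := by
          rw [hqe]; gcongr
      _ = Real.exp ((1 + 2 * ε / 1000) * L) := by rw [← Real.exp_add]; congr 1; ring
      _ ≤ _ := Real.exp_le_exp.mpr (by nlinarith)
  -- the sum of T0
  set T := (P.erase 1).filter
    (fun x : ℕ => ¬ ((s x : ℝ) ≤ U ∧ ∃ r, r.Prime ∧ s r ≤ z ∧ r ∣ x)) with hTd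
  have hTs : ∑ x ∈ T, ‖c x‖ * BN.T0 s (x, 1) ≤ 1 / 8 := by
    rw [← Finset.sum_filter_add_sum_filter_not T (fun x : ℕ => (s x : ℝ) ≤ U)]
    have hpair : ∀ S : Finset ℕ, ∑ x ∈ S, ‖c x‖ * BN.T0 s (x, 1) =
        ∑ p ∈ S ×ˢ ({1} : Finset ℕ), BN.ww (BN.va cl 𝒜) (BN.va cl ℬ) p * BN.T0 s p := by
      intro S
      rw [Finset.sum_product]
      simp [hcn]
    have h16 : (0 : ℝ) < 16 * L ^ 5 := by positivity
    have h16' : 16 ≤ 16 * L ^ 5 := by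
      have : 1 ≤ L ^ 5 := one_le_pow₀ (by linarith)
      linarith
    have hmul : ∀ S : Finset ℕ, (∑ x ∈ S, ‖c x‖ * BN.T0 s (x, 1)) * (16 * L ^ 5) =
        ∑ p ∈ S ×ˢ ({1} : Finset ℕ), BN.ww (BN.va cl 𝒜) (BN.va cl ℬ) p *
          (BN.T0 s p * (16 * L ^ 5)) := by
      intro S
      rw [hpair, Finset.sum_mul]
      refine Finset.sum_congr rfl fun p _ => by ring
    have hA : (∑ x ∈ T.filter (fun x : ℕ => (s x : ℝ) ≤ U), ‖c x‖ * BN.T0 s (x, 1)) *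
        (16 * L ^ 5) ≤ 1 := by
      rw [hmul]
      refine hR' _ ?_
      intro p hp
      obtain ⟨h1, h2⟩ := Finset.mem_product.mp hp
      obtain ⟨h3, h4⟩ := Finset.mem_filter.mp h1
      obtain ⟨h5, h6⟩ := Finset.mem_filter.mp h3
      obtain ⟨h7, h8⟩ := Finset.mem_erase.mp h5
      have hp2 : p.2 = 1 := Finset.mem_singleton.mp h2
      have hpe : p = (p.1, 1) := Prod.ext rfl hp2
      obtain ⟨g1, g3⟩ := hPx p.1 h8
      have hx0 : p.1 ≠ 0 := g1.2.1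
      have hrough : ∀ r, r.Prime → r ∣ p.1 → z < s r := by
        intro r hr hrd
        by_contra hc
        exact h6 ⟨h4, r, hr, by omega, hrd⟩
      rw [hpe]
      simp only [mul_one]
      refine ⟨g1, BN.rough_ge hS hx0 h7 hrough, h4, ?_⟩
      unfold BN.Few
      have h9 := BN.rough_Omega hS p.1 hx0 hrough
      have hlz : 0 < Real.log z := by have := hB.toBg.logz_1000; linarith
      have h10 : (ArithmeticFunction.cardFactors p.1 : ℝ) ≤ Real.log (s p.1) / Real.log z := by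
        rw [le_div_iff₀ hlz]; exact h9
      linarith
    have hBd : (∑ x ∈ T.filter (fun x : ℕ => ¬ (s x : ℝ) ≤ U), ‖c x‖ * BN.T0 s (x, 1)) *
        (16 * L ^ 5) ≤ 1 := by
      rw [hmul]
      refine hL' _ ?_
      intro p hp
      obtain ⟨h1, h2⟩ := Finset.mem_product.mp hp
      obtain ⟨h3, h4⟩ := Finset.mem_filter.mp h1
      obtain ⟨h5, h6⟩ := Finset.mem_filter.mp h3
      obtain ⟨h7, h8⟩ := Finset.mem_erase.mp h5
      have hp2 : p.2 = 1 := Finset.mem_singleton.mp h2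
      have hpe : p = (p.1, 1) := Prod.ext rfl hp2
      obtain ⟨g1, g3⟩ := hPx p.1 h8
      push Not at h4
      rw [hpe]
      simp only [mul_one]
      exact ⟨g1, h4.le, g3⟩
    have hA0 : 0 ≤ ∑ x ∈ T.filter (fun x : ℕ => (s x : ℝ) ≤ U), ‖c x‖ * BN.T0 s (x, 1) :=
      Finset.sum_nonneg fun x _ => mul_nonneg (norm_nonneg _) (BN.T0_nonneg _ _)
    have hB0 : 0 ≤ ∑ x ∈ T.filter (fun x : ℕ => ¬ (s x : ℝ) ≤ U), ‖c x‖ * BN.T0 s (x, 1) :=
      Finset.sum_nonneg fun x _ => mul_nonneg (norm_nonneg _) (BN.T0_nonneg _ _)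
    nlinarith
  -- the error term
  have hs : √(Q : ℝ) = Real.exp (L / 2) := by
    rw [← hqe, Real.sqrt_eq_iff_mul_self_eq (Real.exp_pos _).le (Real.exp_pos _).le, ← Real.exp_add]
    congr 1; ring
  have hE : C1 / √(Q : ℝ) * (((Y * Y : ℕ) : ℝ) * √(hh K 𝒜 * hh K ℬ)) ≤ 1 / 8 := by
    have hpA : 0 < hh K 𝒜 := by linarith
    have hpB : 0 < hh K ℬ := by linarith
    have hC10 : 0 < C1 := by linarith
    have hd2 : √(hh K 𝒜 * hh K ℬ) ≤ Real.exp ((1 - ε) / 2 * L) := by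
      rw [Real.sqrt_le_left (Real.exp_pos _).le, ← Real.exp_nat_mul]
      rw [← Real.exp_log (mul_pos hpA hpB)]
      apply Real.exp_le_exp.mpr
      rw [Real.log_mul hpA.ne' hpB.ne']
      have h1 : 0 ≤ Real.log (hh K ℬ) := Real.log_nonneg h1B
      push_cast
      linarith
    have hexp : 8 * C1 ≤ Real.exp (ε / 4 * L) := by
      have := Real.add_one_le_exp (ε / 4 * L)
      rw [div_le_iff₀ (by positivity)] at hq2
      linarith
    rw [hs]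
    calc C1 / Real.exp (L / 2) * (((Y * Y : ℕ) : ℝ) * √(hh K 𝒜 * hh K ℬ))
        ≤ C1 / Real.exp (L / 2) *
          (Real.exp (2 * ε / 1000 * L) * Real.exp ((1 - ε) / 2 * L)) := by
          gcongr
      _ = C1 * Real.exp (-(L / 2) + (2 * ε / 1000 * L + (1 - ε) / 2 * L)) := by
          rw [Real.exp_add, Real.exp_add, Real.exp_neg]; ring
      _ ≤ C1 * Real.exp (-(ε / 4 * L)) := by
          have : -(L / 2) + (2 * ε / 1000 * L + (1 - ε) / 2 * L) ≤ -(ε / 4 * L) := by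
            nlinarith
          have := Real.exp_le_exp.mpr this
          exact mul_le_mul_of_nonneg_left this hC10.le
      _ ≤ 1 / 8 := by
          rw [Real.exp_neg, ← div_eq_mul_inv, div_le_div_iff₀ (Real.exp_pos _) (by norm_num)]
          linarith
  set S1 := ∑ i ∈ Mf ×ˢ (Finset.univ : Finset W),
        ((w i.1 * (s i.1 : ℝ) ^ (-(1 / 2) : ℝ) * cU s cl Q R m i.2 : ℝ) : ℂ) *
        (fcu 𝒜 (cl i.1 * i.2) * fcu ℬ (cl i.1 * i.2)) with hS1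
  set S2 := ∑ i ∈ Mf ×ˢ SI s (Q - 1),
        ((w i.1 * ((s (i.1 * i.2) : ℝ)) ^ (-(1 / 2) : ℝ) : ℝ) : ℂ) *
        (BN.fc cl 𝒜 (i.1 * i.2, 1) * BN.fc cl ℬ (i.1 * i.2, 1)) with hS2
  have hS2' : S2 = (M : ℂ) * ∑ i ∈ BN.MfS s z Y Y ×ˢ SI s (Q - 1),
        ((BN.wS s z Y Y i.1 * ((s (i.1 * i.2) : ℝ)) ^ (-(1 / 2) : ℝ) : ℝ) : ℂ) *
          c (i.1 * i.2) := by
    rw [hS2, Finset.mul_sum]
    refine Finset.sum_congr rfl fun i _ => ?_
    have h0 : ∀ a b : ℂ, a * b = (M : ℂ) * (a * (b / (M : ℂ))) := by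
      intro a b
      field_simp
    exact h0 _ _
  have hS2n : ‖S2 - (M : ℂ)‖ ≤ M / 8 := by
    have h1 : S2 - (M : ℂ) = (M : ℂ) * (∑ i ∈ BN.MfS s z Y Y ×ˢ SI s (Q - 1),
        ((BN.wS s z Y Y i.1 * ((s (i.1 * i.2) : ℝ)) ^ (-(1 / 2) : ℝ) : ℝ) : ℂ) *
          c (i.1 * i.2) - 1) := by
      rw [hS2']; ring
    rw [h1, norm_mul, Complex.norm_real, Real.norm_of_nonneg hM0.le]
    have h2 := hmain.trans hTs
    calc M * _ ≤ M * (1 / 8) := by gcongr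
      _ = M / 8 := by ring
  have hS1n : ‖S1 - S2‖ ≤ M / 8 := by
    refine herr.trans ?_
    calc _ ≤ 1 / 8 * M := by gcongr
      _ = M / 8 := by ring
  have hSb : 3 / 4 * M ≤ ‖S1‖ := by
    have h1 : ‖(M : ℂ)‖ ≤ ‖S1‖ + ‖S1 - (M : ℂ)‖ := by
      have := norm_sub_le S1 (S1 - (M : ℂ))
      rwa [sub_sub_cancel] at this
    have h2 : ‖S1 - (M : ℂ)‖ ≤ M / 4 := by
      have h3 : S1 - (M : ℂ) = (S1 - S2) + (S2 - (M : ℂ)) := by ring
      rw [h3]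
      refine (norm_add_le _ _).trans ?_
      linarith
    rw [Complex.norm_real, Real.norm_of_nonneg hM0.le] at h1
    linarith
  have hE0 : ∀ η ∈ Bad, ‖BN.Mol s cl Mf w η * Lc s cl Q R m η‖ ≤
      (K * ((Y * Y : ℕ) : ℝ)) * (C2 * √(Q : ℝ)) := by
    intro η _
    rw [norm_mul]
    exact mul_le_mul (BN.norm_Mol_le hS cl Mf w η (fun m hm => BN.MfS_bounds hX hm)
      (fun m => BN.abs_wS_le hX hY2 m)) (hLc0 W cl Q R m Bad hM hT η) (norm_nonneg _)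
      (by positivity)
  have hC20 : 0 < C2 := by linarith
  have hprin : (𝒜.card : ℝ) * (Bad.card * ((K * ((Y * Y : ℕ) : ℝ)) * (C2 * √(Q : ℝ)))) ≤
      M / 8 := by
    have hexp : 8 * (K ^ 2 * C2) ≤ Real.exp (ε / 8 * L) := by
      have := Real.add_one_le_exp (ε / 8 * L)
      rw [div_le_iff₀ (by positivity)] at hq3
      linarith
    have h3 : (Bad.card : ℝ) * ((K * ((Y * Y : ℕ) : ℝ)) * (C2 * √(Q : ℝ))) ≤
        (ℬ.card : ℝ) / 8 := by
      rw [hs]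
      calc (Bad.card : ℝ) * ((K * ((Y * Y : ℕ) : ℝ)) * (C2 * Real.exp (L / 2)))
          ≤ K * ((K * Real.exp (2 * ε / 1000 * L)) * (C2 * Real.exp (L / 2))) := by
            gcongr
        _ = (K ^ 2 * C2) * (Real.exp (2 * ε / 1000 * L) * Real.exp (L / 2)) := by ring
        _ ≤ (Real.exp (ε / 8 * L) / 8) * (Real.exp (2 * ε / 1000 * L) * Real.exp (L / 2)) := by
            gcongr
            linarith
        _ = Real.exp (ε / 8 * L + (2 * ε / 1000 * L + L / 2)) / 8 := by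
            rw [Real.exp_add, Real.exp_add]; ring
        _ ≤ Real.exp ((1 / 2 + ε / 4) * L) / 8 := by
            have : ε / 8 * L + (2 * ε / 1000 * L + L / 2) ≤ (1 / 2 + ε / 4) * L := by nlinarith
            have := Real.exp_le_exp.mpr this
            linarith
        _ ≤ _ := by linarith
    calc _ ≤ (𝒜.card : ℝ) * ((ℬ.card : ℝ) / 8) := by gcongr
      _ = M / 8 := by rw [hMdef]; ring
  have hsub := BN.sum_PN_sub Bad 𝒜 ℬ (fun χ => BN.Mol s cl Mf w χ * Lc s cl Q R m χ) _ hE0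
  rw [hfm] at hsub
  have h1 : ‖S1‖ ≤ ‖∑ x ∈ BN.PN Bad 𝒜 ℬ, BN.Mol s cl Mf w (x.1 * x.2) *
      Lc s cl Q R m (x.1 * x.2)‖ +
      ‖S1 - ∑ x ∈ BN.PN Bad 𝒜 ℬ, BN.Mol s cl Mf w (x.1 * x.2) *
        Lc s cl Q R m (x.1 * x.2)‖ := by
    have := norm_add_le (∑ x ∈ BN.PN Bad 𝒜 ℬ, BN.Mol s cl Mf w (x.1 * x.2) *
        Lc s cl Q R m (x.1 * x.2))
      (S1 - ∑ x ∈ BN.PN Bad 𝒜 ℬ, BN.Mol s cl Mf w (x.1 * x.2) * Lc s cl Q R m (x.1 * x.2))
    rwa [add_sub_cancel] at this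
  have h2 := hsub.trans hprin
  linarith

end Pool.Agent.H14.BN
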