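import Pool.Agent.H14.BN.Mid
import Pool.Agent.H74.TS.Ful

/-!
# Size of the main terms, sized numbers

Port of `full_M` of `Pool/Agent/H14/PT/Mid2.lean` and of `Pool/Agent/H74/TS/Ful.lean`: `full_bounds` with
`Vp_le` replaced by `hX.vp_le` (`Vp s z ≤ K / log z`), `mA_le` by `hX.mert`, `|cc| ≤ K L`
(`abs_cc_le'`), `κ ≤ K`, and the constant of `rough_bounds hX`.
-/

namespace Pool.Agent.H14.BN

open Finset Pool.Agent.H14.PT Pool.Agent.H74.TS

variable {s : ℕ →*₀ ℕ} {κ K B0 : ℝ}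

theorem full_M (hX : Sx s κ K B0) {z Y N a b r r' : ℕ} (hr : r.Prime) (hrz : s r ≤ z)
    (hr' : r'.Prime) (hrz' : s r' ≤ z)
    (hne : r ≠ r') (hd : r ∣ a ∨ r ∣ b) (hd' : r' ∣ a ∨ r' ∣ b) : BN.Full s κ B0 z Y N a b = 0 := by
  have hs : ∀ p ∈ SP s z, p.Prime := fun p hp => (hX.sys.mem_SP.mp hp).1
  have h1 : r ∈ SP s z := hX.sys.mem_SP.mpr ⟨hr, hrz⟩
  have h2 : r' ∈ SP s z := hX.sys.mem_SP.mpr ⟨hr', hrz'⟩
  unfold BN.Full
  rw [BN.S0_zero hX.sys hs h1 hd, BN.S1_zero hX.sys hs h1 h2 hne hd hd']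
  ring

theorem wfull_bounds (hX : Sx s κ K B0) (ε : ℝ) (hε : 0 < ε) : ∃ C : ℝ, 0 < C ∧ ∀ (Z : ℕ) (L : ℝ),
    BN.Bg K ε Z L → ∀ N : ℕ, 1 ≤ N → (N : ℝ) ≤ Real.exp (1.001 * L) →
    |BN.Full s κ B0 (tz Z L) (ty ε L) N 1 1| ≤ C ∧
    ∀ a b r j : ℕ, r.Prime → s r ≤ tz Z L → 1 ≤ j → a * b = r ^ j →
      |BN.Full s κ B0 (tz Z L) (ty ε L) N a b| ≤ C * (Real.log (s r) / L) := by
  obtain ⟨C0, hC0, hR⟩ := BN.rough_bounds hX
  have hK1 : 1 ≤ K := hX.sys.K_one
  have hK : 0 < K := hX.sys.K_pos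
  have hκ0 : 0 < κ := hX.sys.κ_pos
  have hκK : κ ≤ K := hX.sys.κ_le
  refine ⟨12000 * (K ^ 3 * C0 / ε), by positivity, ?_⟩
  intro Z L hBB N hN1 hN2
  have hB := hBB.toBg
  have hs : ∀ p ∈ SP s (tz Z L), p.Prime := fun p hp => (hX.sys.mem_SP.mp hp).1
  have hz2 := hB.z_two
  have hlz : 1000 ≤ Real.log (tz Z L) := hB.logz_1000
  have hlz0 : 0 < Real.log (tz Z L) := by linarith
  have hlY := hB.logY_lo
  have hL := hB.hL
  have hLpos : 0 < L := by linarith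
  have hlY0 : 0 < Real.log (ty ε L) := by
    have : 0 < ε / 2000 * L := by positivity
    linarith
  have hV := hX.vp_le (tz Z L) hz2
  have hV0 := BN.Vp_pos hX.sys (tz Z L)
  have hVe : ∏ p ∈ SP s (tz Z L), (1 - 1 / (s p : ℝ)) = BN.Vp s (tz Z L) := rfl
  have hlzL : Real.log (tz Z L) ≤ L := by
    have h1 := hB.zL
    linarith
  have hε1 := hB.hε1
  have hC0ε : C0 ≤ C0 / ε := by
    rw [le_div_iff₀ hε]
    nlinarith
  have hK2 : K ^ 2 ≤ K ^ 3 := pow_le_pow_right₀ hK1 (by norm_num)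
  have hR0' : Real.log (tz Z L) / Real.log (ty ε L) ≤ 2000 * Real.log (tz Z L) / (ε * L) := by
    rw [div_le_div_iff₀ hlY0 (by positivity)]
    have h1 : ε * L ≤ 2000 * Real.log (ty ε L) := by linarith
    calc Real.log (tz Z L) * (ε * L) ≤ Real.log (tz Z L) * (2000 * Real.log (ty ε L)) :=
          mul_le_mul_of_nonneg_left h1 hlz0.le
      _ = _ := by ring
  constructor
  · have hn1 : ∀ p ∈ BN.rs s (SP s (tz Z L)) (ty ε L), ¬ (p ∣ 1 ∨ p ∣ 1) := by
      intro p hp h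
      have hpp := BN.rs_prime hX hp
      have : p ∣ 1 := by tauto
      exact hpp.one_lt.ne' (Nat.dvd_one.mp this)
    have hn2 : ∀ p ∈ SP s (tz Z L), ¬ (p ∣ 1 ∨ p ∣ 1) := by
      intro p hp h
      have : p ∣ 1 := by tauto
      exact (hs p hp).one_lt.ne' (Nat.dvd_one.mp this)
    obtain ⟨r0, r1⟩ := hR (tz Z L) (ty ε L) hz2 hB.zY 1 1 hn1
    have e0 : BN.S0 s 1 1 (SP s (tz Z L)) = BN.Vp s (tz Z L) := BN.S0_none hX.sys hs hn2
    have e1 : |BN.S1 s 1 1 (SP s (tz Z L))| ≤ 8 * K ^ 2 := by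
      have h1 := BN.S1_none hX.sys hs hn2
      rw [hVe] at h1
      have h2 := (abs_le.mp (hX.mert (tz Z L) (by omega))).2
      have h3 : ∑ p ∈ SP s (tz Z L), Real.log (s p) / (s p : ℝ) = BN.mA s (tz Z L) := rfl
      rw [h3] at h1
      have h5 : BN.mA s (tz Z L) ≤ 2 * K * Real.log (tz Z L) := by nlinarith
      have h6 : 0 ≤ BN.mA s (tz Z L) := by
        rw [← h3]
        exact Finset.sum_nonneg fun p _ => div_nonneg (Real.log_natCast_nonneg _) (Nat.cast_nonneg _)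
      calc _ ≤ 4 * BN.Vp s (tz Z L) * BN.mA s (tz Z L) := h1
        _ ≤ 4 * (K / Real.log (tz Z L)) * (2 * K * Real.log (tz Z L)) := by
            gcongr
        _ = 8 * K ^ 2 := by field_simp; norm_num
    have hcc := BN.abs_cc_le' hX (by linarith : (100 : ℝ) ≤ L) one_ne_zero one_ne_zero hN1 hN2 (by
      simp only [mul_one, map_one, Nat.cast_one]
      exact Real.one_le_exp (by positivity))
    unfold BN.Full
    rw [e0]
    calc |BN.cc s κ B0 N 1 1 * BN.Vp s (tz Z L) * BN.R0 s 1 1 (SP s (tz Z L)) (ty ε L) +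
          κ / 2 * BN.S1 s 1 1 (SP s (tz Z L)) * BN.R0 s 1 1 (SP s (tz Z L)) (ty ε L) +
          κ / 2 * BN.Vp s (tz Z L) * BN.R1 s 1 1 (SP s (tz Z L)) (ty ε L)|
        ≤ |BN.cc s κ B0 N 1 1| * BN.Vp s (tz Z L) * |BN.R0 s 1 1 (SP s (tz Z L)) (ty ε L)| +
          κ / 2 * |BN.S1 s 1 1 (SP s (tz Z L))| * |BN.R0 s 1 1 (SP s (tz Z L)) (ty ε L)| +
          κ / 2 * BN.Vp s (tz Z L) * |BN.R1 s 1 1 (SP s (tz Z L)) (ty ε L)| := by
          refine (abs_add_three _ _ _).trans (le_of_eq ?_)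
          rw [abs_mul, abs_mul, abs_mul, abs_mul, abs_mul, abs_mul, abs_of_pos hV0,
            abs_of_pos (by positivity : (0 : ℝ) < κ / 2)]
      _ ≤ K * L * (K / Real.log (tz Z L)) * (C0 * (2000 * Real.log (tz Z L) / (ε * L))) +
          K / 2 * (8 * K ^ 2) * (C0 * (2000 * Real.log (tz Z L) / (ε * L))) +
          K / 2 * (K / Real.log (tz Z L)) * (C0 * Real.log (tz Z L)) := by
          have r0' := r0.trans (mul_le_mul_of_nonneg_left hR0' hC0.le)
          gcongr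
      _ = 2000 * (K ^ 2 * (C0 / ε)) + 8000 * (K ^ 3 * (C0 / ε)) * (Real.log (tz Z L) / L) +
          1 / 2 * (K ^ 2 * C0) := by
          field_simp
          ring
      _ ≤ 2000 * (K ^ 3 * (C0 / ε)) + 8000 * (K ^ 3 * (C0 / ε)) * 1 +
          1 / 2 * (K ^ 3 * (C0 / ε)) := by
          have : Real.log (tz Z L) / L ≤ 1 := by rw [div_le_one hLpos]; exact hlzL
          gcongr
      _ ≤ 12000 * (K ^ 3 * C0 / ε) := by
          have h0 : 0 < K ^ 3 * (C0 / ε) := by positivity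
          have h1 : 12000 * (K ^ 3 * C0 / ε) = 12000 * (K ^ 3 * (C0 / ε)) := by ring
          rw [h1]
          linarith
  · intro a b r j hr hrz hj hab
    have hdvd : r ∣ a ∨ r ∣ b := by
      have : r ∣ a * b := by rw [hab]; exact dvd_pow_self r (by omega)
      exact (Nat.Prime.dvd_mul hr).mp this
    have honly : ∀ p : ℕ, p.Prime → (p ∣ a ∨ p ∣ b) → p = r := by
      intro p hp h
      have h1 : p ∣ a * b := by
        rcases h with h | h
        · exact Dvd.dvd.mul_right h b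
        · exact Dvd.dvd.mul_left h a
      rw [hab] at h1
      exact (Nat.prime_dvd_prime_iff_eq hp hr).mp (hp.dvd_of_dvd_pow h1)
    have h1 : r ∈ SP s (tz Z L) := hX.sys.mem_SP.mpr ⟨hr, hrz⟩
    have e0 : BN.S0 s a b (SP s (tz Z L)) = 0 := BN.S0_zero hX.sys hs h1 hdvd
    have e1 : BN.S1 s a b (SP s (tz Z L)) = - Real.log (s r) * BN.Vp s (tz Z L) :=
      BN.S1_single hX.sys hs h1 hdvd (fun p hp hne h => hne (honly p (hs p hp) h))
    have hn1 : ∀ p ∈ BN.rs s (SP s (tz Z L)) (ty ε L), ¬ (p ∣ a ∨ p ∣ b) := by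
      intro p hp h
      have := honly p (BN.rs_prime hX hp) h
      rw [this] at hp
      exact (Finset.mem_sdiff.mp hp).2 h1
    obtain ⟨r0, _⟩ := hR (tz Z L) (ty ε L) hz2 hB.zY a b hn1
    have hlr : 0 ≤ Real.log (s r) := Real.log_natCast_nonneg _
    unfold BN.Full
    rw [e0, e1]
    have e2 : BN.cc s κ B0 N a b * 0 * BN.R0 s a b (SP s (tz Z L)) (ty ε L) +
        κ / 2 * (-Real.log (s r) * BN.Vp s (tz Z L)) * BN.R0 s a b (SP s (tz Z L)) (ty ε L) +
        κ / 2 * 0 * BN.R1 s a b (SP s (tz Z L)) (ty ε L) =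
        -(κ / 2 * (Real.log (s r) * BN.Vp s (tz Z L)) * BN.R0 s a b (SP s (tz Z L)) (ty ε L)) := by
      ring
    rw [e2, abs_neg, abs_mul,
      abs_of_nonneg (by positivity : 0 ≤ κ / 2 * (Real.log (s r) * BN.Vp s (tz Z L)))]
    calc κ / 2 * (Real.log (s r) * BN.Vp s (tz Z L)) * |BN.R0 s a b (SP s (tz Z L)) (ty ε L)|
        ≤ K / 2 * (Real.log (s r) * (K / Real.log (tz Z L))) *
            (C0 * (2000 * Real.log (tz Z L) / (ε * L))) := by
          have r0' := r0.trans (mul_le_mul_of_nonneg_left hR0' hC0.le)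
          gcongr
      _ = 1000 * (K ^ 2 * (C0 / ε)) * (Real.log (s r) / L) := by
          field_simp
          ring
      _ ≤ 12000 * (K ^ 3 * C0 / ε) * (Real.log (s r) / L) := by
          have h0 : 0 < C0 / ε := by positivity
          have h2 : 12000 * (K ^ 3 * C0 / ε) = 12000 * (K ^ 3 * (C0 / ε)) := by ring
          rw [h2]
          have h3 : 0 ≤ Real.log (s r) / L := by positivity
          have h4 : K ^ 2 * (C0 / ε) ≤ K ^ 3 * (C0 / ε) := mul_le_mul_of_nonneg_right hK2 h0.le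
          have h5 : 0 < K ^ 3 * (C0 / ε) := by positivity
          exact mul_le_mul_of_nonneg_right (by linarith) h3

end Pool.Agent.H14.BN
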