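import Pool.Agent.H14.BN.Base

/-!
# The harmonic sum of sized numbers

`∑_{n ∈ SI s ⌊x⌋} 1 / s n = κ log x + B + O(C / √x)`.

Partial summation (`1 / s n = 1 / N + ∑_{k = s n}^{N-1} 1 / (k (k+1))` for `n ∈ SI s N`):
`∑_{n ∈ SI s N} 1 / s n = #SI N / N + ∑_{1 ≤ k < N} #SI k / (k (k+1))`.
Put `E k = #SI k - κ k`, `|E k| ≤ K √k` (`hS.card_sub`); the sum is
`κ ∑_{k ≤ N} 1 / k + E N / N + ∑_{1 ≤ k < N} E k / (k (k+1))`, so
`B = κ γ + ∑_{k ≥ 1} E k / (k (k+1))` (absolutely convergent; the tail from `N` on is at most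
`K ∑_{k ≥ N} k^(-3/2) ≤ 3 K / √N`).  Then pass from `N = ⌊x⌋` to `x`
(`abs_harmonic_sub_le` of `Pool/Agent/PC10/MobiusLog.lean` may help for the harmonic numbers).
-/

namespace Pool.Agent.H14.BN

open Finset

variable {s : ℕ →*₀ ℕ} {κ K : ℝ}

/-- `|H(⌊x⌋) - log x - γ| ≤ 2/x` for `x ≥ 1`. -/
private lemma harm_aux {x : ℝ} (hx : 1 ≤ x) :
    |(∑ n ∈ Icc 1 ⌊x⌋₊, (1:ℝ) / n) - Real.log x - Real.eulerMascheroniConstant| ≤ 2 / x := by
  set k := ⌊x⌋₊ with hk
  have hk1 : 1 ≤ k := by rw [hk]; exact Nat.le_floor (by simpa using hx)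
  have hkr : (1:ℝ) ≤ k := by exact_mod_cast hk1
  have hH : (∑ n ∈ Icc 1 k, (1:ℝ) / n) = (harmonic k : ℝ) := by
    rw [harmonic_eq_sum_Icc]
    push_cast
    refine Finset.sum_congr rfl fun n _ => by rw [one_div]
  have h1 := Real.eulerMascheroniSeq_lt_eulerMascheroniConstant k
  have h2 := Real.eulerMascheroniConstant_lt_eulerMascheroniSeq' k
  simp only [Real.eulerMascheroniSeq] at h1
  simp only [Real.eulerMascheroniSeq', if_neg (by omega : k ≠ 0)] at h2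
  have hx0 : 0 < x := by linarith
  have hkx : (k:ℝ) ≤ x := Nat.floor_le hx0.le
  have hxk : x < k + 1 := Nat.lt_floor_add_one x
  have hl1 : Real.log k ≤ Real.log x := Real.log_le_log (by linarith) hkx
  have hl2 : Real.log x ≤ Real.log (k+1) := Real.log_le_log hx0 hxk.le
  have hl3 : Real.log (k+1) - Real.log k ≤ 1 / k := by
    rw [← Real.log_div (by linarith) (by linarith)]
    have := Real.log_le_sub_one_of_pos (show (0:ℝ) < (k+1)/k by positivity)
    have h3 : ((k:ℝ)+1)/k - 1 = 1 / k := by field_simp; ring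
    linarith
  have hl4 : 1 / (k:ℝ) ≤ 2 / x := by
    rw [div_le_div_iff₀ (by linarith) hx0]
    linarith
  rw [hH, abs_le]
  constructor <;> linarith

private lemma harm_succ (hS : Sys s κ K) (N : ℕ) : ∑ n ∈ SI s (N + 1), 1 / (s n : ℝ) =
    ∑ n ∈ SI s N, 1 / (s n : ℝ) + (((SI s (N + 1)).card : ℝ) - (SI s N).card) / ((N + 1 : ℕ) : ℝ) := by
  have hsub : SI s N ⊆ SI s (N + 1) := hS.SI_mono (Nat.le_succ N)
  rw [← Finset.sum_sdiff hsub, add_comm]
  congr 1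
  have h1 : ∀ n ∈ SI s (N + 1) \ SI s N, 1 / (s n : ℝ) = 1 / ((N + 1 : ℕ) : ℝ) := by
    intro n hn
    rw [Finset.mem_sdiff, hS.mem_SI, hS.mem_SI] at hn
    have : s n = N + 1 := by
      have h2 := hn.1.2
      have h3 : ¬ s n ≤ N := fun h => hn.2 ⟨hn.1.1, h⟩
      omega
    rw [this]
  rw [Finset.sum_congr rfl h1, Finset.sum_const, nsmul_eq_mul]
  have h2 : (((SI s (N + 1) \ SI s N).card : ℕ) : ℝ) = ((SI s (N + 1)).card : ℝ) - (SI s N).card := by
    have := Finset.card_sdiff_add_card_eq_card hsub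
    have h3 : (((SI s (N + 1) \ SI s N).card : ℕ) : ℝ) + ((SI s N).card : ℝ) = (SI s (N + 1)).card := by
      exact_mod_cast this
    linarith
  rw [h2]
  ring

private lemma harm_parts (hS : Sys s κ K) (N : ℕ) : ∑ n ∈ SI s N, 1 / (s n : ℝ) =
    ((SI s N).card : ℝ) / N + ∑ k ∈ Ico 1 N, ((SI s k).card : ℝ) / (k * (k + 1)) := by
  induction N with
  | zero => simp [hS.SI_zero]
  | succ N ih =>
    rw [harm_succ hS, ih]
    rcases Nat.eq_zero_or_pos N with h | h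
    · subst h
      simp [hS.SI_zero]
    · rw [Finset.sum_Ico_succ_top h]
      have hN : (0 : ℝ) < N := by exact_mod_cast h
      push_cast
      field_simp
      ring

/-- partial sums -/
private noncomputable def hP (s : ℕ →*₀ ℕ) (κ : ℝ) (N : ℕ) : ℝ :=
  ∑ k ∈ Ico 1 N, (((SI s k).card : ℝ) - κ * k) / (k * (k + 1))

private lemma harm_parts2 (hS : Sys s κ K) (N : ℕ) (hN : 1 ≤ N) : ∑ n ∈ SI s N, 1 / (s n : ℝ) =
    κ * ∑ k ∈ Icc 1 N, (1 : ℝ) / k + (((SI s N).card : ℝ) - κ * N) / N + hP s κ N := by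
  rw [harm_parts hS]
  have hN0 : (0 : ℝ) < N := by exact_mod_cast hN
  have h1 : ∑ k ∈ Icc 1 N, (1 : ℝ) / k = 1 + ∑ k ∈ Ico 1 N, (1 : ℝ) / ((k : ℝ) + 1) := by
    clear hN0
    induction N, hN using Nat.le_induction with
    | base => simp
    | succ n hn ih =>
      rw [Finset.sum_Icc_succ_top (by omega), ih, Finset.sum_Ico_succ_top hn]
      push_cast
      ring
  rw [h1, hP]
  have h2 : ∑ k ∈ Ico 1 N, ((SI s k).card : ℝ) / (k * (k + 1)) =
      κ * ∑ k ∈ Ico 1 N, (1 : ℝ) / ((k : ℝ) + 1) +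
        ∑ k ∈ Ico 1 N, (((SI s k).card : ℝ) - κ * k) / (k * (k + 1)) := by
    rw [Finset.mul_sum, ← Finset.sum_add_distrib]
    refine Finset.sum_congr rfl fun k hk => ?_
    have hk0 : (0 : ℝ) < k := by exact_mod_cast (Finset.mem_Ico.1 hk).1
    field_simp
    ring
  rw [h2]
  field_simp
  ring

private lemma harm_tele (k : ℕ) (hk : 1 ≤ k) :
    √(k : ℝ) / (k * (k + 1)) ≤ 2 * (1 / √(k : ℝ) - 1 / √((k + 1 : ℕ) : ℝ)) := by
  have hk0 : (0 : ℝ) < k := by exact_mod_cast hk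
  have hk1 : (0 : ℝ) < ((k + 1 : ℕ) : ℝ) := by positivity
  set a := √(k : ℝ) with ha
  set b := √((k + 1 : ℕ) : ℝ) with hb
  have ha0 : 0 < a := Real.sqrt_pos.2 hk0
  have hb0 : 0 < b := Real.sqrt_pos.2 hk1
  have ha2 : a ^ 2 = k := Real.sq_sqrt hk0.le
  have hb2 : b ^ 2 = (k : ℝ) + 1 := by rw [hb, Real.sq_sqrt hk1.le]; push_cast; ring
  have hab : a ≤ b := Real.sqrt_le_sqrt (by push_cast; linarith)
  rw [← ha2, show a ^ 2 + 1 = b ^ 2 by rw [hb2, ha2]]
  have h1 : 2 * (1 / a - 1 / b) - a / (a ^ 2 * b ^ 2) = (2 * b * (b - a) - 1) / (a * b ^ 2) := by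
    field_simp
  have h2 : (b - a) * (b + a) = 1 := by nlinarith
  have h3 : 0 ≤ 2 * b * (b - a) - 1 := by nlinarith
  have h4 : 0 ≤ (2 * b * (b - a) - 1) / (a * b ^ 2) := by positivity
  linarith

private lemma harm_cauchy (hS : Sys s κ K) (N M : ℕ) (hN : 1 ≤ N) (hNM : N ≤ M) :
    |hP s κ M - hP s κ N| ≤ 2 * K * (1 / √(N : ℝ) - 1 / √(M : ℝ)) := by
  induction M, hNM using Nat.le_induction with
  | base => simp
  | succ M hM ih =>
    have hM1 : 1 ≤ M := hN.trans hM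
    have hM0 : (0 : ℝ) < M := by exact_mod_cast hM1
    have e : hP s κ (M + 1) - hP s κ N = (hP s κ M - hP s κ N) +
        (((SI s M).card : ℝ) - κ * M) / (M * (M + 1)) := by
      rw [hP, Finset.sum_Ico_succ_top hM1, hP, hP]
      ring
    rw [e]
    refine (abs_add_le _ _).trans ?_
    have h1 : |(((SI s M).card : ℝ) - κ * M) / (M * (M + 1))| ≤ K * (√(M : ℝ) / (M * (M + 1))) := by
      rw [abs_div, abs_of_pos (show (0 : ℝ) < M * (M + 1) by positivity), mul_div_assoc']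
      gcongr
      exact hS.card_sub M
    have h2 := harm_tele M hM1
    have h3 : K * (√(M : ℝ) / (M * (M + 1))) ≤ K * (2 * (1 / √(M : ℝ) - 1 / √((M + 1 : ℕ) : ℝ))) :=
      mul_le_mul_of_nonneg_left h2 hS.K_pos.le
    calc _ ≤ 2 * K * (1 / √(N : ℝ) - 1 / √(M : ℝ)) +
          K * (2 * (1 / √(M : ℝ) - 1 / √((M + 1 : ℕ) : ℝ))) := by linarith
      _ = _ := by ring

private lemma harm_lim (hS : Sys s κ K) : ∃ L : ℝ, ∀ N : ℕ, 1 ≤ N →
    |L - hP s κ N| ≤ 2 * K / √(N : ℝ) := by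
  have hb : Filter.Tendsto (fun N : ℕ => 2 * K / √((N + 1 : ℕ) : ℝ)) Filter.atTop (nhds 0) := by
    have h1 : Filter.Tendsto (fun N : ℕ => √((N + 1 : ℕ) : ℝ)) Filter.atTop Filter.atTop := by
      refine Real.tendsto_sqrt_atTop.comp ?_
      exact tendsto_natCast_atTop_atTop.comp (Filter.tendsto_add_atTop_nat 1)
    exact h1.const_div_atTop _
  have hle : ∀ N M : ℕ, 1 ≤ N → N ≤ M → |hP s κ M - hP s κ N| ≤ 2 * K / √(N : ℝ) := by
    intro N M hN hNM
    have h := harm_cauchy hS N M hN hNM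
    have h2 : 0 ≤ 1 / √(M : ℝ) := by positivity
    have h3 : 2 * K * (1 / √(N : ℝ) - 1 / √(M : ℝ)) ≤ 2 * K * (1 / √(N : ℝ)) := by
      have := hS.K_pos
      gcongr
      linarith
    calc _ ≤ _ := h
      _ ≤ _ := h3
      _ = _ := by ring
  have hc : CauchySeq (fun N : ℕ => hP s κ (N + 1)) := by
    refine cauchySeq_of_le_tendsto_0' (fun N : ℕ => 2 * K / √((N + 1 : ℕ) : ℝ)) ?_ hb
    intro n m hnm
    rw [Real.dist_eq, abs_sub_comm]
    exact hle (n + 1) (m + 1) (by omega) (by omega)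
  obtain ⟨L, hL⟩ := cauchySeq_tendsto_of_complete hc
  refine ⟨L, fun N hN => ?_⟩
  have h1 : Filter.Tendsto (fun M : ℕ => |hP s κ (M + 1) - hP s κ N|) Filter.atTop
      (nhds |L - hP s κ N|) := (hL.sub_const _).abs
  refine le_of_tendsto h1 ?_
  filter_upwards [Filter.eventually_ge_atTop N] with M hM
  exact hle N (M + 1) hN (by omega)

theorem harm_asymp (hS : Sys s κ K) : ∃ B C : ℝ, 1 ≤ C ∧ |B| ≤ C ∧ ∀ x : ℝ, 1 ≤ x →
    |∑ n ∈ SI s ⌊x⌋₊, 1 / (s n : ℝ) - (κ * Real.log x + B)| ≤ C / √x := by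
  obtain ⟨L, hL⟩ := harm_lim hS
  set B := κ * Real.eulerMascheroniConstant + L with hB
  have hK := hS.K_pos
  refine ⟨B, 8 * K + |B|, ?_, ?_, fun x hx => ?_⟩
  · have := hS.K_one
    have := abs_nonneg B
    linarith
  · linarith
  have hx0 : 0 < x := by linarith
  set N := ⌊x⌋₊ with hN
  have hN1 : 1 ≤ N := by rw [hN]; exact Nat.le_floor (by simpa using hx)
  have hNr : (1 : ℝ) ≤ N := by exact_mod_cast hN1
  have hxN : x ≤ 2 * N := by
    have := Nat.lt_floor_add_one x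
    linarith
  have hs1 : 1 ≤ √x := by rw [Real.one_le_sqrt]; exact hx
  have hs0 : 0 < √x := by linarith
  have hsN : 0 < √(N : ℝ) := Real.sqrt_pos.2 (by linarith)
  have hsx : √x ≤ 2 * √(N : ℝ) := by
    have h1 : √x ≤ √(2 ^ 2 * (N : ℝ)) := Real.sqrt_le_sqrt (by linarith)
    rwa [Real.sqrt_mul (by norm_num), Real.sqrt_sq (by norm_num)] at h1
  have hinv : 1 / √(N : ℝ) ≤ 2 / √x := by
    rw [div_le_div_iff₀ hsN hs0]
    linarith
  have hxinv : 1 / x ≤ 1 / √x := by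
    refine one_div_le_one_div_of_le hs0 ?_
    nlinarith [Real.sq_sqrt hx0.le]
  have h1 := harm_aux hx
  have h2 : |(((SI s N).card : ℝ) - κ * N) / N| ≤ K * (1 / √(N : ℝ)) := by
    rw [abs_div, abs_of_pos (by linarith : (0 : ℝ) < N), div_le_iff₀ (by linarith)]
    refine (hS.card_sub N).trans (le_of_eq ?_)
    have : (N : ℝ) = √(N : ℝ) * √(N : ℝ) := (Real.mul_self_sqrt (by linarith)).symm
    field_simp
    rw [Real.sq_sqrt (by linarith)]
  have h3 := hL N hN1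
  rw [harm_parts2 hS N hN1]
  have e : κ * ∑ k ∈ Icc 1 N, (1 : ℝ) / k + (((SI s N).card : ℝ) - κ * N) / N + hP s κ N -
      (κ * Real.log x + B) = κ * ((∑ k ∈ Icc 1 N, (1 : ℝ) / k) - Real.log x -
        Real.eulerMascheroniConstant) + (((SI s N).card : ℝ) - κ * N) / N - (L - hP s κ N) := by
    rw [hB]; ring
  rw [e]
  have h4 : |κ * ((∑ k ∈ Icc 1 N, (1 : ℝ) / k) - Real.log x - Real.eulerMascheroniConstant)| ≤
      K * (2 / x) := by
    rw [abs_mul, abs_of_pos hS.κ_pos]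
    exact mul_le_mul hS.κ_le h1 (abs_nonneg _) hK.le
  have h5 : K * (2 / x) ≤ 2 * K * (1 / √x) := by
    calc K * (2 / x) = 2 * K * (1 / x) := by ring
      _ ≤ _ := by gcongr
  have h6 : K * (1 / √(N : ℝ)) ≤ K * (2 / √x) := by gcongr
  have h7 : 2 * K / √(N : ℝ) ≤ 2 * K * (2 / √x) := by
    calc 2 * K / √(N : ℝ) = 2 * K * (1 / √(N : ℝ)) := by ring
      _ ≤ _ := by gcongr
  have h8 : |κ * ((∑ k ∈ Icc 1 N, (1 : ℝ) / k) - Real.log x - Real.eulerMascheroniConstant) +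
      (((SI s N).card : ℝ) - κ * N) / N - (L - hP s κ N)| ≤
      |κ * ((∑ k ∈ Icc 1 N, (1 : ℝ) / k) - Real.log x - Real.eulerMascheroniConstant)| +
      |(((SI s N).card : ℝ) - κ * N) / N| + |L - hP s κ N| := by
    refine (abs_sub _ _).trans ?_
    gcongr
    exact abs_add_le _ _
  have h9 : 0 ≤ |B| / √x := by positivity
  calc _ ≤ _ := h8
    _ ≤ 2 * K * (1 / √x) + K * (2 / √x) + 2 * K * (2 / √x) := by linarith
    _ = 8 * K / √x := by ring
    _ ≤ 8 * K / √x + |B| / √x := by linarith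
    _ = (8 * K + |B|) / √x := by ring

end Pool.Agent.H14.BN
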