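import Mathlib

/-!
# Sized natural numbers: the interface

`s : ℕ →*₀ ℕ` is a completely multiplicative function (size).  In the application `ℕ` is identified
with the monoid of ideals of an imaginary quadratic field `K` (multiplicative bijection
`ι : ℕ ≃* Ideal (𝓞 K)`) and `s n` is the absolute norm of the ideal `ι n`.

* `Sys s κ K`: there are `κ N + O(√N)` elements of size at most `N`, and Chebyshev's upper bound.
* `Md s K cl Q`: a modulus: a prime `r` of size `Q`, the class `cl n` of `n` in a finite group with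
  zero `W` (the ray class group modulo `r` with a zero added; `cl n = 0` iff `r ∣ n`), and the bound
  `slope` for the number of fractions in a class.
* `Td s K cl Q R m Bad`: the functional equation of the theta series of the characters outside the
  set `Bad` (the characters of the class group), and the expansion of the partial theta series.
-/

namespace Pool.Agent.H14.BN

open Finset
open scoped ComplexConjugate Real

/-- the numbers of size at most `N` -/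
noncomputable def SI (s : ℕ →*₀ ℕ) (N : ℕ) : Finset ℕ :=
  open Classical in if h : {n : ℕ | n ≠ 0 ∧ s n ≤ N}.Finite then h.toFinset else ∅

/-- the primes of size at most `N` -/
noncomputable def SP (s : ℕ →*₀ ℕ) (N : ℕ) : Finset ℕ := (SI s N).filter Nat.Prime

/-- a system of sized numbers with density `κ`; all constants are bounded by `K` -/
structure Sys (s : ℕ →*₀ ℕ) (κ K : ℝ) : Prop where
  two_le : ∀ p : ℕ, p.Prime → 2 ≤ s p
  fin : ∀ N : ℕ, {n : ℕ | n ≠ 0 ∧ s n ≤ N}.Finite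
  κ_pos : 0 < κ
  K_one : 1 ≤ K
  κ_le : κ ≤ K
  κ_inv : 1 ≤ K * κ
  card_sub : ∀ N : ℕ, |((SI s N).card : ℝ) - κ * N| ≤ K * √(N : ℝ)
  card_le : ∀ N : ℕ, ((SI s N).card : ℝ) ≤ K * N
  cheb : ∀ N : ℕ, ∑ p ∈ SP s N, Real.log (s p) ≤ K * N

universe u

variable {W : Type u} [CommGroupWithZero W]

/-- a modulus of size `Q` -/
structure Md (s : ℕ →*₀ ℕ) (K : ℝ) (cl : ℕ →*₀ W) (Q : ℕ) : Prop where
  Q_two : 2 ≤ Q
  zero : ∃ r : ℕ, r.Prime ∧ s r = Q ∧ ∀ n : ℕ, cl n = 0 ↔ r ∣ n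
  card_le : (Nat.card Wˣ : ℝ) ≤ K * Q
  card_ge : (Q : ℝ) ≤ K * Nat.card Wˣ
  slope : ∀ (c : W) (P : Finset (ℕ × ℕ)) (X Y c0 : ℝ), 0 < Y → 0 < c0 → 0 ≤ X →
    (∀ p ∈ P, Nat.Coprime p.1 p.2 ∧ p.1 ≠ 0 ∧ p.2 ≠ 0 ∧ (s p.1 : ℝ) ≤ X ∧ Y / c0 ≤ (s p.2 : ℝ) ∧
      (s p.2 : ℝ) ≤ Y ∧ cl p.1 = c * cl p.2) →
    (P.card : ℝ) ≤ K * (1 + c0 * X * Y / Q)

/-- the theta series of the character `χ` -/
noncomputable def Tht (s : ℕ →*₀ ℕ) (cl : ℕ →*₀ W) (R : ℝ) (χ : MulChar W ℂ) (t : ℝ) : ℂ :=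
  ∑' n : ℕ, χ (cl n) * ((Real.exp (-(2 * π * t * (s n : ℝ) / R)) : ℝ) : ℂ)

open Classical in
/-- the partial theta series of the class `u` -/
noncomputable def thu (s : ℕ →*₀ ℕ) (cl : ℕ →*₀ W) (R : ℝ) (u : W) (t : ℝ) : ℝ :=
  ∑' n : ℕ, if cl n = u then Real.exp (-(2 * π * t * (s n : ℝ) / R)) else 0

/-- theta data of a modulus -/
structure Td (s : ℕ →*₀ ℕ) (K : ℝ) (cl : ℕ →*₀ W) (Q : ℕ) (R m : ℝ)
    (Bad : Finset (MulChar W ℂ)) : Prop where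
  R_pos : 0 < R
  R_lo : (Q : ℝ) ≤ K * R ^ 2
  R_hi : R ^ 2 ≤ K * Q
  bad_card : (Bad.card : ℝ) ≤ K
  one_mem : (1 : MulChar W ℂ) ∈ Bad
  fe : ∀ χ : MulChar W ℂ, χ ∉ Bad → ∃ ω : ℂ, ‖ω‖ = 1 ∧ ∀ t : ℝ, 0 < t →
    Tht s cl R χ (1 / t) = ω * t * conj (Tht s cl R χ t)
  part : ∀ u : W, u ≠ 0 → ∀ t : ℝ, 0 < t → t * √(Q : ℝ) ≤ 1 →
    |thu s cl R u t - m / t| ≤ K / (√(Q : ℝ) * t) * Real.exp (-(1 / (K * √(Q : ℝ) * t)))

/-- the completed central value: `∫ t^(1/2) Θ(t, χ) dt / t` over `t > 0` -/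
noncomputable def Lint (s : ℕ →*₀ ℕ) (cl : ℕ →*₀ W) (R : ℝ) (χ : MulChar W ℂ) : ℂ :=
  ∫ t in Set.Ioi (0 : ℝ), ((t ^ (-(1 / 2) : ℝ) : ℝ) : ℂ) * Tht s cl R χ t

end Pool.Agent.H14.BN
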