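import Pool.Agent.H14.BN.Base
import Pool.Agent.H14.PT.KFold

/-!
# Weights with the `k`-fold product property, sized numbers

Port of `Pool/Agent/H74/TS/KF.lean`: `ZMod q` becomes the group with zero `W`, the cast
`ℕ → ZMod q` becomes `cl`, `slope_count` becomes `hM.slope` (with its constant `K`, which is built
into the field `kf`), `(n : ℝ)` becomes `(s n : ℝ)`.  `dk` and its lemmas (`H14/PT/KFold.lean`) are
used as they are.

`wkfold`: put `R = D * (K * (1 + (8AB)^k / Q))`; `hv.kf P k R` gives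
`K * (∑ v)^k ≤ h * R`; divide by `K > 0`.
-/

namespace Pool.Agent.H14.BN

open Finset Pool.Agent.H14.PT

universe u

variable {W : Type u} [CommGroupWithZero W]

open Classical in
/-- a weight on fractions with the `k`-fold product property of constant `h` -/
structure KF (K : ℝ) (cl : ℕ →*₀ W) (h : ℝ) (v : ℕ × ℕ → ℝ) : Prop where
  one_le : 1 ≤ h
  nonneg : ∀ p, 0 ≤ v p
  le_one : ∀ p, v p ≤ 1
  kf : ∀ (P : Finset (ℕ × ℕ)) (k : ℕ) (R : ℝ), 1 ≤ k →
    (∀ u : W, (((Fintype.piFinset (fun _ : Fin k => P)).filter (fun t =>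
      cl (∏ i, (t i).1) = u * cl (∏ i, (t i).2))).card : ℝ) ≤ R) →
    K * (∑ p ∈ P, v p) ^ k ≤ h * R

/-- the geometric mean of two weights -/
noncomputable def ww (v1 v2 : ℕ × ℕ → ℝ) (p : ℕ × ℕ) : ℝ := Real.sqrt (v1 p * v2 p)

/-- reduced fractions in a dyadic box -/
def IB (s : ℕ →*₀ ℕ) (A B : ℝ) (p : ℕ × ℕ) : Prop :=
  Nat.Coprime p.1 p.2 ∧ p.1 ≠ 0 ∧ p.2 ≠ 0 ∧ (s p.1 : ℝ) ≤ 2 * A ∧ B ≤ (s p.2 : ℝ) ∧
    (s p.2 : ℝ) ≤ 2 * B

lemma ww_nonneg (v1 v2 : ℕ × ℕ → ℝ) (p : ℕ × ℕ) : 0 ≤ ww v1 v2 p := Real.sqrt_nonneg _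

lemma ww_le_one {K : ℝ} {cl : ℕ →*₀ W} {h1 h2 : ℝ} {v1 v2 : ℕ × ℕ → ℝ} (hv1 : KF K cl h1 v1)
    (hv2 : KF K cl h2 v2) (p : ℕ × ℕ) : ww v1 v2 p ≤ 1 := by
  unfold ww
  rw [Real.sqrt_le_left (by norm_num), one_pow]
  exact mul_le_one₀ (hv1.le_one p) (hv2.nonneg p) (hv2.le_one p)

theorem wkfold {s : ℕ →*₀ ℕ} {κ K : ℝ} (hS : Sys s κ K) {cl : ℕ →*₀ W} {Q : ℕ}
    (hM : Md s K cl Q) {h : ℝ} {v : ℕ × ℕ → ℝ} (hv : KF K cl h v) (P : Finset (ℕ × ℕ))
    (A B : ℝ) (hA : 0 < A) (hB : 0 < B) (k : ℕ) (hk : 1 ≤ k)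
    (hcop : ∀ p ∈ P, ∀ p' ∈ P, Nat.Coprime p.1 p'.2)
    (hbox : ∀ p ∈ P, IB s A B p)
    (D : ℕ) (hD : ∀ t : Fin k → ℕ × ℕ, (∀ i, t i ∈ P) →
      dk k (∏ i, (t i).1) * dk k (∏ i, (t i).2) ≤ D) :
    (∑ p ∈ P, v p) ^ k ≤ h * (D * (1 + (8 * A * B) ^ k / Q)) := by
  classical
  have hK : 0 < K := hS.K_pos
  have key : K * (∑ p ∈ P, v p) ^ k ≤ h * (D * (K * (1 + (8 * A * B) ^ k / Q))) := by
    refine hv.kf P k _ hk fun u => ?_
    set T : Finset (Fin k → ℕ × ℕ) := (Fintype.piFinset (fun _ : Fin k => P)).filter (fun t =>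
        cl (∏ i, (t i).1) = u * cl (∏ i, (t i).2)) with hT
    set Φ : (Fin k → ℕ × ℕ) → ℕ × ℕ := fun t => (∏ i, (t i).1, ∏ i, (t i).2) with hΦ
    have hmem : ∀ t ∈ T, ∀ i, t i ∈ P := fun t ht i =>
      Fintype.mem_piFinset.mp (Finset.mem_filter.mp ht).1 i
    have hcong : ∀ t ∈ T, cl (∏ i, (t i).1) = u * cl (∏ i, (t i).2) :=
      fun t ht => (Finset.mem_filter.mp ht).2
    have hfib : ∀ b ∈ T.image Φ, (T.filter (fun t => Φ t = b)).card ≤ D := by
      intro b hb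
      obtain ⟨t, ht, rfl⟩ := mem_image.mp hb
      refine le_trans ?_ (hD t (hmem t ht))
      unfold dk
      rw [← Finset.card_product]
      refine Finset.card_le_card_of_injOn (fun z => (fun i => (z i).1, fun i => (z i).2)) ?_ ?_
      · intro z hz
        have hz' := Finset.mem_filter.mp (Finset.mem_coe.mp hz)
        simp only [hΦ, Prod.mk.injEq] at hz'
        simp only [coe_product, Set.mem_prod, mem_coe, Nat.mem_finMulAntidiag]
        refine ⟨⟨hz'.2.1, ?_⟩, hz'.2.2, ?_⟩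
        · exact Finset.prod_ne_zero_iff.mpr fun i _ => (hbox _ (hmem t ht i)).2.1
        · exact Finset.prod_ne_zero_iff.mpr fun i _ => (hbox _ (hmem t ht i)).2.2.1
      · intro z _ z' _ hzz
        simp only [Prod.mk.injEq] at hzz
        funext i
        exact Prod.ext (congrFun hzz.1 i) (congrFun hzz.2 i)
    have h1 := Finset.card_le_mul_card_image T D hfib
    have h2 : ((T.image Φ).card : ℝ) ≤ K * (1 + (2 : ℝ) ^ k * (2 * A) ^ k * (2 * B) ^ k / Q) := by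
      refine hM.slope u _ ((2 * A) ^ k) ((2 * B) ^ k) (2 ^ k) (by positivity) (by positivity)
        (by positivity) ?_
      intro b hb
      obtain ⟨t, ht, rfl⟩ := mem_image.mp hb
      have htm := hmem t ht
      simp only [hΦ]
      refine ⟨?_, ?_, ?_, ?_, ?_, ?_, ?_⟩
      · exact Nat.Coprime.prod_left fun i _ => Nat.Coprime.prod_right fun j _ =>
          hcop _ (htm i) _ (htm j)
      · exact Finset.prod_ne_zero_iff.mpr fun i _ => (hbox _ (htm i)).2.1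
      · exact Finset.prod_ne_zero_iff.mpr fun i _ => (hbox _ (htm i)).2.2.1
      · rw [s_cast_prod]
        calc ∏ i, (s (t i).1 : ℝ) ≤ ∏ _i : Fin k, (2 * A) :=
              Finset.prod_le_prod (fun i _ => by positivity) fun i _ => (hbox _ (htm i)).2.2.2.1
          _ = (2 * A) ^ k := by simp
      · rw [s_cast_prod]
        calc (2 * B) ^ k / 2 ^ k = ∏ _i : Fin k, B := by
              rw [Finset.prod_const, Finset.card_univ, Fintype.card_fin, mul_pow]
              field_simp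
          _ ≤ ∏ i, (s (t i).2 : ℝ) :=
              Finset.prod_le_prod (fun i _ => hB.le) fun i _ => (hbox _ (htm i)).2.2.2.2.1
      · rw [s_cast_prod]
        calc ∏ i, (s (t i).2 : ℝ) ≤ ∏ _i : Fin k, (2 * B) :=
              Finset.prod_le_prod (fun i _ => by positivity) fun i _ => (hbox _ (htm i)).2.2.2.2.2
          _ = (2 * B) ^ k := by simp
      · exact hcong t ht
    have h1' : (T.card : ℝ) ≤ D * (T.image Φ).card := by exact_mod_cast h1
    refine h1'.trans ?_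
    have h3 : (2 : ℝ) ^ k * (2 * A) ^ k * (2 * B) ^ k = (8 * A * B) ^ k := by
      rw [← mul_pow, ← mul_pow]; congr 1; ring
    rw [h3] at h2
    exact mul_le_mul_of_nonneg_left h2 (by positivity)
  have e : h * (D * (K * (1 + (8 * A * B) ^ k / Q))) =
      K * (h * (D * (1 + (8 * A * B) ^ k / Q))) := by ring
  rw [e] at key
  exact le_of_mul_le_mul_left key hK

end Pool.Agent.H14.BN
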