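import Pool.Agent.H14.BN.Wt
import Pool.Agent.H74.TS.SecC

/-!
# The weights of the approximate functional equation: initial and far range

Compare `Pool/Agent/H74/TS/SecC.lean`.

* `wpik_far`: `k / R² ≥ k / (K Q) ≥ k^(ε/2000) / K` for `k > exp ((1 + ε/1000) log Q)` (as there:
  `log Q ≤ log k / (1 + ε/1000)` and `1 - 1/(1 + ε/1000) ≥ ε/2000`), and `Wt_upper` with
  `A = 10000/ε`; `C = Γ(1/2 + 10000/ε)² K^(10000/ε)`.
* `wWt_init`: `Wt_lower` with `x ≤ 2 exp ((1 - ε/1000) log Q)`, `x / R² ≤ 2 K exp (-(ε/1000) log Q)`;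
  `8 (2 K)^(1/4) ≤ 16 K`.
-/

namespace Pool.Agent.H14.BN

open Finset

theorem wpik_far (K ε : ℝ) (hK : 1 ≤ K) (hε : 0 < ε) (hε1 : ε ≤ 1 / 10) : ∃ C : ℝ, 1 ≤ C ∧
    ∀ (R : ℝ) (Q : ℕ), 0 < R → (Q : ℝ) ≤ K * R ^ 2 → R ^ 2 ≤ K * Q → 2 ≤ Q → ∀ k : ℕ,
    Real.exp ((1 + ε / 1000) * Real.log Q) < k → pik R k ≤ C * (1 / (k : ℝ) ^ 5) := by
  have hA : (0 : ℝ) ≤ 10000 / ε := by positivity
  have hK0 : (0 : ℝ) < K := by linarith
  refine ⟨1 + Real.Gamma (1 / 2 + 10000 / ε) ^ 2 * K ^ (10000 / ε : ℝ), ?_, ?_⟩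
  · have : 0 ≤ Real.Gamma (1 / 2 + 10000 / ε) ^ 2 * K ^ (10000 / ε : ℝ) := by positivity
    linarith
  intro R Q hR _ h2R hQ k hk
  have hQ0 : (0 : ℝ) < Q := by
    have : (2 : ℝ) ≤ Q := by exact_mod_cast hQ
    linarith
  have hk0 : (0 : ℝ) < k := lt_trans (Real.exp_pos _) hk
  have hL : 0 < Real.log Q := Real.log_pos (by exact_mod_cast hQ)
  have h1 := (pik_le R k).trans (Wt_upper hR hA hk0)
  refine h1.trans ?_
  have h2 : (1 + ε / 1000) * Real.log Q ≤ Real.log k := by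
    have := Real.log_le_log (Real.exp_pos _) hk.le
    rwa [Real.log_exp] at this
  have h3 : (k : ℝ) ^ (ε / 2000 : ℝ) * Q ≤ k := by
    have h5 : Real.log k * (ε / 2000) + Real.log Q ≤ Real.log k := by
      have h6 : (1 - ε / 2000) * ((1 + ε / 1000) * Real.log Q) ≤ (1 - ε / 2000) * Real.log k :=
        mul_le_mul_of_nonneg_left h2 (by linarith)
      have h7 : Real.log Q ≤ (1 - ε / 2000) * ((1 + ε / 1000) * Real.log Q) := by
        have h8 : 0 ≤ ε * (1 - ε / 1000) * Real.log Q := by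
          have h9 : 0 ≤ 1 - ε / 1000 := by linarith
          positivity
        nlinarith
      linarith
    calc (k : ℝ) ^ (ε / 2000 : ℝ) * Q = Real.exp (Real.log k * (ε / 2000)) * Real.exp (Real.log Q) := by
          rw [Real.rpow_def_of_pos hk0, Real.exp_log hQ0]
      _ = Real.exp (Real.log k * (ε / 2000) + Real.log Q) := by rw [Real.exp_add]
      _ ≤ Real.exp (Real.log k) := Real.exp_le_exp.mpr h5
      _ = k := Real.exp_log hk0
  have h4 : (k : ℝ) ^ (ε / 2000 : ℝ) / K ≤ k / R ^ 2 := by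
    rw [div_le_div_iff₀ hK0 (by positivity)]
    have h0 : (0 : ℝ) ≤ (k : ℝ) ^ (ε / 2000 : ℝ) := by positivity
    calc (k : ℝ) ^ (ε / 2000 : ℝ) * R ^ 2 ≤ (k : ℝ) ^ (ε / 2000 : ℝ) * (K * Q) :=
          mul_le_mul_of_nonneg_left h2R h0
      _ = ((k : ℝ) ^ (ε / 2000 : ℝ) * Q) * K := by ring
      _ ≤ k * K := mul_le_mul_of_nonneg_right h3 hK0.le
  have h5 : ((k : ℝ) / R ^ 2) ^ (-(10000 / ε) : ℝ) ≤ K ^ (10000 / ε : ℝ) * (1 / (k : ℝ) ^ 5) := by
    calc ((k : ℝ) / R ^ 2) ^ (-(10000 / ε) : ℝ) ≤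
          ((k : ℝ) ^ (ε / 2000 : ℝ) / K) ^ (-(10000 / ε) : ℝ) := by
          rw [Real.rpow_neg (by positivity), Real.rpow_neg (by positivity)]
          apply inv_anti₀ (by positivity)
          exact Real.rpow_le_rpow (by positivity) h4 hA
      _ = K ^ (10000 / ε : ℝ) * (1 / (k : ℝ) ^ 5) := by
          rw [Real.div_rpow (by positivity) hK0.le, ← Real.rpow_mul hk0.le,
            Real.rpow_neg hK0.le, div_inv_eq_mul, mul_comm]
          congr 1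
          have e1 : ε / 2000 * -(10000 / ε) = -5 := by
            field_simp
            norm_num
          rw [e1, Real.rpow_neg hk0.le, one_div]
          congr 1
          exact_mod_cast Real.rpow_natCast (k : ℝ) 5
  calc Real.Gamma (1 / 2 + 10000 / ε) ^ 2 * ((k : ℝ) / R ^ 2) ^ (-(10000 / ε) : ℝ) ≤
        Real.Gamma (1 / 2 + 10000 / ε) ^ 2 * (K ^ (10000 / ε : ℝ) * (1 / (k : ℝ) ^ 5)) :=
        mul_le_mul_of_nonneg_left h5 (sq_nonneg _)
    _ ≤ (1 + Real.Gamma (1 / 2 + 10000 / ε) ^ 2 * K ^ (10000 / ε : ℝ)) * (1 / (k : ℝ) ^ 5) := by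
        have : (0 : ℝ) ≤ 1 / (k : ℝ) ^ 5 := by positivity
        nlinarith

theorem wWt_init (K ε : ℝ) (hK : 1 ≤ K) (hε : 0 < ε) (hε1 : ε ≤ 1 / 10) (R : ℝ) (Q : ℕ)
    (hR : 0 < R) (h1 : (Q : ℝ) ≤ K * R ^ 2) (hQ : 2 ≤ Q) :
    1 - Wt R (⌈Real.exp ((1 - ε / 1000) * Real.log Q)⌉₊ : ℕ) ≤
      16 * K * Real.exp (-(ε / 4000 * Real.log Q)) := by
  have hK0 : (0 : ℝ) < K := by linarith
  have hQ0 : (0 : ℝ) < Q := by
    have : (2 : ℝ) ≤ Q := by exact_mod_cast hQ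
    linarith
  have hL0 : 0 < Real.log Q := Real.log_pos (by exact_mod_cast hQ)
  have hR2 : (0 : ℝ) < R ^ 2 := by positivity
  set L := Real.log Q with hL
  set k : ℕ := ⌈Real.exp ((1 - ε / 1000) * L)⌉₊ with hk
  have h2 := Wt_lower hR (x := (k : ℝ)) (by positivity)
  refine h2.trans ?_
  have hk1 : (k : ℝ) ≤ 2 * Real.exp ((1 - ε / 1000) * L) := by
    have h2 : (k : ℝ) < Real.exp ((1 - ε / 1000) * L) + 1 := Nat.ceil_lt_add_one (Real.exp_pos _).le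
    have h3 : 1 ≤ Real.exp ((1 - ε / 1000) * L) := by
      apply Real.one_le_exp
      have h9 : 0 ≤ 1 - ε / 1000 := by linarith
      positivity
    linarith
  have hqe : (Q : ℝ) = Real.exp L := (Real.exp_log hQ0).symm
  have h4 : (k : ℝ) / R ^ 2 ≤ 2 * K * Real.exp (-(ε / 1000 * L)) := by
    rw [div_le_iff₀ hR2]
    have e1 : Real.exp (-(ε / 1000 * L)) * Real.exp L = Real.exp ((1 - ε / 1000) * L) := by
      rw [← Real.exp_add]; congr 1; ring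
    have e2 : (0 : ℝ) < Real.exp (-(ε / 1000 * L)) := Real.exp_pos _
    calc (k : ℝ) ≤ 2 * Real.exp ((1 - ε / 1000) * L) := hk1
      _ = 2 * (Real.exp (-(ε / 1000 * L)) * Q) := by rw [← e1, hqe]
      _ ≤ 2 * (Real.exp (-(ε / 1000 * L)) * (K * R ^ 2)) := by gcongr
      _ = _ := by ring
  calc 8 * ((k : ℝ) / R ^ 2) ^ (1 / 4 : ℝ) ≤
        8 * (2 * K * Real.exp (-(ε / 1000 * L))) ^ (1 / 4 : ℝ) := by
        gcongr
    _ = 8 * ((2 * K) ^ (1 / 4 : ℝ) * (Real.exp (-(ε / 1000 * L))) ^ (1 / 4 : ℝ)) := by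
        rw [Real.mul_rpow (by positivity) (Real.exp_pos _).le]
    _ ≤ 8 * ((2 * K) * Real.exp (-(ε / 4000 * L))) := by
        have e1 : (Real.exp (-(ε / 1000 * L))) ^ (1 / 4 : ℝ) = Real.exp (-(ε / 4000 * L)) := by
          rw [← Real.exp_mul]; congr 1; ring
        have e2 : (2 * K) ^ (1 / 4 : ℝ) ≤ (2 * K) ^ (1 : ℝ) :=
          Real.rpow_le_rpow_of_exponent_le (by linarith) (by norm_num)
        rw [Real.rpow_one] at e2
        rw [e1]
        gcongr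
    _ = 16 * K * Real.exp (-(ε / 4000 * L)) := by ring

end Pool.Agent.H14.BN
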