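import Pool.Agent.H14.BN.SecB
import Pool.Agent.H14.BN.SecC
import Pool.Agent.H14.BN.Afe3
import Pool.Agent.H74.TS.SecD

/-!
# The total mollified second moment over a product set, sized numbers

Port of `Pool/Agent/H74/TS/SecD.lean` (and `TT_zero` of `H14/PT/S2d.lean`): `afe_discrete` for the pairs of
`PN Bad 𝒜 ℬ` (their product is not in `Bad`), `wG_bounds` for `k` in the initial and the middle range,
`wpik_far`, `norm_TT_le`, `norm_Mol_le` in the far range (`R_lo`, `R_hi`, `bad_card` of `hT`).  The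
initial part: `16 K exp (-(ε/4000) L) * 2 * 2 exp (3 kap L) ≤ 64 K`.
-/

namespace Pool.Agent.H14.BN

open Finset Pool.Agent.H14.PT Pool.Agent.H74.TS
open scoped ComplexConjugate

universe u

variable {s : ℕ →*₀ ℕ} {κ K B0 : ℝ}

lemma TT_zero {W : Type u} [CommGroupWithZero W] (hS : Sys s κ K) (cl : ℕ →*₀ W)
    (χ : MulChar W ℂ) : BN.TT s cl χ 0 = 0 := by
  unfold BN.TT
  have : BN.hyp s 0 = ∅ := by
    ext n
    rw [BN.mem_hyp hS]
    simp only [notMem_empty, iff_false, not_and]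
    intro h1 h2 h3
    have := Nat.mul_pos (hS.s_pos h1) (hS.s_pos h2)
    omega
  rw [this, sum_empty]

theorem wS2_total (hX : Sx s κ K B0) (ε : ℝ) (Z : ℕ) (hε : 0 < ε) (hε1 : ε ≤ 1 / 10)
    (hZ : 400 ≤ ε * Z) :
    ∃ C Q0 : ℝ, 0 < C ∧ ∀ (W : Type u) [CommGroupWithZero W] [Finite W] (cl : ℕ →*₀ W) (Q : ℕ)
    (R m : ℝ) (Bad : Finset (MulChar W ℂ)), Md s K cl Q → Td s K cl Q R m Bad →
    Q0 ≤ Real.log Q → BN.Bg K ε Z (Real.log Q) →
    ∀ (𝒜 ℬ : Finset (MulChar W ℂ)), BN.Cd K ε Q 𝒜 ℬ →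
    ∑ x ∈ BN.PN Bad 𝒜 ℬ, ‖BN.Mol s cl
        (BN.MfS s (tz Z (Real.log Q)) (ty ε (Real.log Q)) (ty ε (Real.log Q)))
        (BN.wS s (tz Z (Real.log Q)) (ty ε (Real.log Q)) (ty ε (Real.log Q))) (x.1 * x.2)‖ ^ 2 *
        ‖Lv s cl R (x.1 * x.2)‖ ^ 2 ≤ C * ((𝒜.card : ℝ) * ℬ.card) := by
  classical
  have hS := hX.sys
  have hK1 : 1 ≤ K := hS.K_one
  have hKpos : 0 < K := hS.K_pos
  obtain ⟨C2, Q1, hC2, hG⟩ := BN.wG_bounds.{u} hX ε Z hε hε1 hZ
  obtain ⟨D, hD1, hfarD⟩ := BN.wpik_far K ε hK1 hε hε1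
  have hsq : Summable (fun k : ℕ => 1 / (k : ℝ) ^ 2) :=
    Real.summable_one_div_nat_pow.mpr (by norm_num)
  set S : ℝ := ∑' k : ℕ, 1 / (k : ℝ) ^ 2 with hSd
  have hSnn : 0 ≤ S := tsum_nonneg fun k => by positivity
  have hDnn : 0 ≤ D := by linarith
  refine ⟨64 * K + 2 * C2 + 2 * D * S, Q1, by positivity, ?_⟩
  intro W _ _ cl Q R m Bad hM hT hq1 hB 𝒜 ℬ hCd
  have hG' := hG W cl Q hM hq1 hB Bad hT.bad_card 𝒜 ℬ hCd
  set L := Real.log Q with hL
  set Y := ty ε L with hY
  set z := tz Z L with hz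
  have hLpos : 0 < L := hB.toBg.Lpos
  have hεL : 0 < ε * L := mul_pos hε hLpos
  have hY2 : 2 ≤ Y := hB.toBg.Y_two
  have hYhi : (Y : ℝ) ≤ Real.exp (L / 1000) := hB.toBg.Y_hi'
  set NA : ℝ := (𝒜.card : ℝ) * ℬ.card with hNA
  have hXc : (0 : ℝ) ≤ NA := by positivity
  set B1 : ℝ := 2 * Real.exp (3 * kap ε Z * L) * NA with hB1
  set B2 : ℝ := C2 * NA with hB2
  set G : ℕ → ℂ := fun k => ∑ x ∈ BN.PN Bad 𝒜 ℬ,
    ((‖BN.Mol s cl (BN.MfS s z Y Y) (BN.wS s z Y Y) (x.1 * x.2)‖ ^ 2 : ℝ) : ℂ) *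
      BN.TT s cl (x.1 * x.2) k with hGdef
  set K1 : ℕ := ⌈Real.exp ((1 - ε / 1000) * L)⌉₊ with hK1d
  -- the series
  have hsum : HasSum (fun k : ℕ => BN.pik R k * (2 * (G k).re))
      (∑ x ∈ BN.PN Bad 𝒜 ℬ, ‖BN.Mol s cl (BN.MfS s z Y Y) (BN.wS s z Y Y) (x.1 * x.2)‖ ^ 2 *
        ‖Lv s cl R (x.1 * x.2)‖ ^ 2) := by
    have h1 : HasSum (fun k : ℕ => ∑ x ∈ BN.PN Bad 𝒜 ℬ,
        ‖BN.Mol s cl (BN.MfS s z Y Y) (BN.wS s z Y Y) (x.1 * x.2)‖ ^ 2 *
        (BN.pik R k * (2 * (BN.TT s cl (x.1 * x.2) k).re)))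
        (∑ x ∈ BN.PN Bad 𝒜 ℬ, ‖BN.Mol s cl (BN.MfS s z Y Y) (BN.wS s z Y Y) (x.1 * x.2)‖ ^ 2 *
        ‖Lv s cl R (x.1 * x.2)‖ ^ 2) := by
      apply hasSum_sum
      intro x hx
      have hx' : x ∈ 𝒜 ×ˢ ℬ ∧ x.1 * x.2 ∉ Bad := by
        unfold BN.PN at hx
        exact Finset.mem_filter.mp hx
      exact (BN.afe_discrete hS hT hx'.2).mul_left _
    refine h1.congr_fun fun k => ?_
    simp only [hGdef]
    rw [Complex.re_sum, Finset.mul_sum, Finset.mul_sum]
    refine Finset.sum_congr rfl fun x _ => ?_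
    rw [Complex.re_ofReal_mul]
    ring
  -- majorants
  have hu : HasSum (fun k : ℕ => if k < K1 then BN.pik R k * (2 * B1) else 0)
      ((1 - BN.Wt R K1) * (2 * B1)) := by
    have h1 : ∀ k ∉ range K1, (if k < K1 then BN.pik R k * (2 * B1) else 0) = 0 := by
      intro k hk
      rw [if_neg (by simpa using hk)]
    have h2 : HasSum (fun k : ℕ => if k < K1 then BN.pik R k * (2 * B1) else 0)
        (∑ k ∈ range K1, if k < K1 then BN.pik R k * (2 * B1) else 0) :=
      hasSum_sum_of_ne_finset_zero h1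
    convert h2 using 1
    rw [← BN.sum_pik_range, Finset.sum_mul]
    refine Finset.sum_congr rfl fun k hk => ?_
    rw [if_pos (by simpa using hk)]
  have hv : HasSum (fun k : ℕ => BN.pik R k * (2 * B2)) (1 * (2 * B2)) :=
    (BN.hasSum_pik hT.R_pos).mul_right _
  have hw : HasSum (fun k : ℕ => (2 * D * NA) * (1 / (k : ℝ) ^ 2)) ((2 * D * NA) * S) :=
    hsq.hasSum.mul_left _
  have hall := (hu.add hv).add hw
  have hle := hasSum_le (fun k => ?_) hsum hall
  · refine hle.trans ?_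
    have h1 := BN.wWt_init K ε hK1 hε hε1 R Q hT.R_pos hT.R_lo hM.Q_two
    rw [← hL, ← hK1d] at h1
    have h2 : (1 - BN.Wt R K1) * (2 * B1) ≤ 64 * K * NA := by
      have h4 : Real.exp (-(ε / 4000 * L)) * Real.exp (3 * kap ε Z * L) ≤ 1 := by
        rw [← Real.exp_add]
        apply Real.exp_le_one_iff.mpr
        have hk := mul_le_mul_of_nonneg_right hB.toBg.kle hLpos.le
        have h5 : 3 * kap ε Z * L ≤ 3 * (ε / 10 ^ 8 * L) := by linarith
        have h6 : ε / 10 ^ 8 * L = ε * L / 10 ^ 8 := by ring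
        have h7 : ε / 4000 * L = ε * L / 4000 := by ring
        rw [h6] at h5
        rw [h7]
        linarith
      calc (1 - BN.Wt R K1) * (2 * B1) ≤ (16 * K * Real.exp (-(ε / 4000 * L))) * (2 * B1) := by
            gcongr
        _ = (Real.exp (-(ε / 4000 * L)) * Real.exp (3 * kap ε Z * L)) * (64 * K * NA) := by
            rw [hB1]; ring
        _ ≤ 1 * (64 * K * NA) := by
            gcongr
        _ = _ := by ring
    rw [hB2]
    calc _ ≤ 64 * K * NA + 1 * (2 * (C2 * NA)) + (2 * D * NA) * S := by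
          linarith
      _ = _ := by ring
  · -- termwise
    have hpn := BN.pik_nonneg R k
    have hB1n : 0 ≤ B1 := by rw [hB1]; positivity
    have hB2n : 0 ≤ B2 := by rw [hB2]; positivity
    have hwn : 0 ≤ (2 * D * NA) * (1 / (k : ℝ) ^ 2) := by positivity
    have hun : 0 ≤ (if k < K1 then BN.pik R k * (2 * B1) else 0) := by
      split_ifs
      · positivity
      · exact le_rfl
    have hvn : 0 ≤ BN.pik R k * (2 * B2) := by positivity
    have hre : (G k).re ≤ ‖G k‖ := Complex.re_le_norm _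
    rcases Nat.eq_zero_or_pos k with rfl | hk
    · have : G 0 = 0 := by
        simp only [hGdef]
        simp [BN.TT_zero hS]
      rw [this]
      simp only [Complex.zero_re, mul_zero]
      linarith
    · by_cases hk2 : (k : ℝ) ≤ Real.exp ((1 + ε / 1000) * L)
      · obtain ⟨g1, g2⟩ := hG' k hk hk2
        by_cases hk3 : Real.exp ((1 - ε / 1000) * L) ≤ k
        · have g3 := g2 hk3
          have : BN.pik R k * (2 * (G k).re) ≤ BN.pik R k * (2 * B2) := by
            refine mul_le_mul_of_nonneg_left ?_ hpn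
            have : ‖G k‖ ≤ B2 := g3
            linarith
          linarith
        · push Not at hk3
          have hk4 : k < K1 := by
            rw [hK1d]
            exact Nat.lt_ceil.mpr hk3
          have : BN.pik R k * (2 * (G k).re) ≤ (if k < K1 then BN.pik R k * (2 * B1) else 0) := by
            rw [if_pos hk4]
            refine mul_le_mul_of_nonneg_left ?_ hpn
            have : ‖G k‖ ≤ B1 := g1
            linarith
          linarith
      · push Not at hk2
        have hk0 : (0 : ℝ) < k := by exact_mod_cast hk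
        have hfar := hfarD R Q hT.R_pos hT.R_lo hT.R_hi hM.Q_two k hk2
        have hK4 : K ^ 4 * (((Y * Y : ℕ) : ℝ)) ^ 2 ≤ k := by
          have e1 : K ^ 4 ≤ L := (pow_le_pow_right₀ hK1 (by norm_num)).trans hB.KL
          have e2 : L ≤ Real.exp (L / 2) := by
            have := Real.add_one_le_exp (L / 2 - 1)
            have h3 : Real.exp (L / 2) = Real.exp (L / 2 - 1) * Real.exp 1 := by
              rw [← Real.exp_add]
              congr 1
              ring
            have h4 : 2 ≤ Real.exp 1 := by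
              have := Real.add_one_le_exp (1 : ℝ)
              linarith
            have h5 : 0 < Real.exp (L / 2 - 1) := Real.exp_pos _
            rw [h3]
            nlinarith
          push_cast
          calc K ^ 4 * ((Y : ℝ) * Y) ^ 2
              ≤ Real.exp (L / 2) * (Real.exp (L / 1000) * Real.exp (L / 1000)) ^ 2 := by
                have := e1.trans e2
                gcongr
            _ = Real.exp (L / 2 + 4 * (L / 1000)) := by
                rw [Real.exp_add, ← Real.exp_add (L / 1000), ← Real.exp_nat_mul]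
                congr 2
                push_cast
                ring
            _ ≤ Real.exp ((1 + ε / 1000) * L) := Real.exp_le_exp.mpr (by nlinarith)
            _ ≤ k := hk2.le
        have hGk : ‖G k‖ ≤ NA * (k : ℝ) ^ 3 := by
          simp only [hGdef]
          calc _ ≤ ∑ x ∈ BN.PN Bad 𝒜 ℬ,
                ‖((‖BN.Mol s cl (BN.MfS s z Y Y) (BN.wS s z Y Y) (x.1 * x.2)‖ ^ 2 : ℝ) : ℂ) *
                BN.TT s cl (x.1 * x.2) k‖ := norm_sum_le _ _
            _ ≤ ∑ x ∈ BN.PN Bad 𝒜 ℬ, (k : ℝ) ^ 3 := by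
                refine Finset.sum_le_sum fun x _ => ?_
                rw [norm_mul, Complex.norm_real, Real.norm_of_nonneg (by positivity)]
                have h1 := BN.norm_Mol_le hS cl (BN.MfS s z Y Y) (BN.wS s z Y Y) (x.1 * x.2)
                  (Y := Y * Y) (fun m hm => BN.MfS_bounds hX hm)
                  (fun m => BN.abs_wS_le hX hY2 m)
                have h2 := BN.norm_TT_le hS cl (x.1 * x.2) k
                calc ‖BN.Mol s cl (BN.MfS s z Y Y) (BN.wS s z Y Y) (x.1 * x.2)‖ ^ 2 *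
                      ‖BN.TT s cl (x.1 * x.2) k‖
                    ≤ (K * ((Y * Y : ℕ) : ℝ)) ^ 2 * (K ^ 2 * (k : ℝ) ^ 2) := by gcongr
                  _ = (K ^ 4 * (((Y * Y : ℕ) : ℝ)) ^ 2) * (k : ℝ) ^ 2 := by ring
                  _ ≤ k * (k : ℝ) ^ 2 := by gcongr
                  _ = (k : ℝ) ^ 3 := by ring
            _ = ((BN.PN Bad 𝒜 ℬ).card : ℝ) * (k : ℝ) ^ 3 := by rw [Finset.sum_const, nsmul_eq_mul]
            _ ≤ _ := by
                have h5 : (BN.PN Bad 𝒜 ℬ).card ≤ 𝒜.card * ℬ.card := by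
                  unfold BN.PN
                  refine (Finset.card_filter_le _ _).trans ?_
                  rw [Finset.card_product]
                have h6 : ((BN.PN Bad 𝒜 ℬ).card : ℝ) ≤ NA := by
                  rw [hNA]
                  exact_mod_cast h5
                gcongr
        have : BN.pik R k * (2 * (G k).re) ≤ (2 * D * NA) * (1 / (k : ℝ) ^ 2) := by
          calc BN.pik R k * (2 * (G k).re) ≤ BN.pik R k * (2 * (NA * (k : ℝ) ^ 3)) := by
                refine mul_le_mul_of_nonneg_left ?_ hpn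
                linarith
            _ ≤ (D * (1 / (k : ℝ) ^ 5)) * (2 * (NA * (k : ℝ) ^ 3)) :=
                mul_le_mul_of_nonneg_right hfar (by positivity)
            _ = _ := by
                field_simp
        linarith

end Pool.Agent.H14.BN
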