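import Pool.Agent.H14.BN.FirB
import Pool.Agent.H14.BN.SecD
import Pool.Agent.H74.TS.Main

/-!
# Positive proportion of nonvanishing in product sets, sized numbers

Compare `Pool/Agent/H74/TS/Main.lean` (`csq_norm_sum_le`, `wcount_par`, `wcount`; no parity here).

`wcount0`: `Z = ⌈400/ε⌉₊`; Cauchy-Schwarz (`csq_norm_sum_le`) with `f x = Mol * Lv`:
`(|𝒜||ℬ|/2)² ≤ #{f ≠ 0} * C |𝒜||ℬ|`, and `f x ≠ 0` implies `Lv ≠ 0`, so `Lint ≠ 0`, so `x ∈ S`.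

`wcount`: take `ε' = min (ε/2) (1/10)` and the system `hX` of `exists_Sx hS`, and pass from `K` to the
larger constant with `Md.mono`, `Td.mono`.  `Cd K' ε' Q 𝒜 ℬ`:
`hh 𝒜 (hh ℬ)² = K'³ |Wˣ|³ / (|𝒜||ℬ|²) ≤ K'^6 Q³ / Q^(2+ε) ≤ Q^(1-ε')` for large `Q`; both sets are
nonempty as `0 < Q^(2+ε) ≤ |𝒜||ℬ|²`.
-/

namespace Pool.Agent.H14.BN

open Finset Pool.Agent.H14.PT Pool.Agent.H74.TS

universe u

variable {s : ℕ →*₀ ℕ} {κ K B0 : ℝ}

theorem wcount0 (hX : Sx s κ K B0) (ε : ℝ) (hε : 0 < ε) (hε1 : ε ≤ 1 / 10) :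
    ∃ c Q0 : ℝ, 0 < c ∧ ∀ (W : Type u) [CommGroupWithZero W] [Finite W] (cl : ℕ →*₀ W) (Q : ℕ)
    (R m : ℝ) (Bad : Finset (MulChar W ℂ)), Md s K cl Q → Td s K cl Q R m Bad →
    Q0 ≤ Real.log Q → ∀ (𝒜 ℬ : Finset (MulChar W ℂ)), BN.Cd K ε Q 𝒜 ℬ →
    ∀ (S : Finset (MulChar W ℂ × MulChar W ℂ)),
    (∀ x ∈ 𝒜 ×ˢ ℬ, x.1 * x.2 ∉ Bad → Lint s cl R (x.1 * x.2) ≠ 0 → x ∈ S) →
    c * ((𝒜.card : ℝ) * ℬ.card) ≤ (S.card : ℝ) := by
  classical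
  obtain ⟨Z, hZ'⟩ := exists_nat_ge (400 / ε)
  have hZ : 400 ≤ ε * Z := by
    rw [div_le_iff₀ hε] at hZ'
    linarith
  obtain ⟨C, Q1, hC, hS2⟩ := BN.wS2_total.{u} hX ε Z hε hε1 hZ
  obtain ⟨Q2, hS1⟩ := BN.wS1_total.{u} hX ε Z hε hε1 hZ
  obtain ⟨Q3, hbig⟩ := BN.bg_facts K ε Z hX.sys.K_one hε hε1 hZ
  refine ⟨1 / (4 * C), max (max Q1 Q2) Q3, by positivity, ?_⟩
  intro W _ _ cl Q R m Bad hM hT hq 𝒜 ℬ hcd S hS
  have hq1 : Q1 ≤ Real.log Q := (le_max_left _ _).trans ((le_max_left _ _).trans hq)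
  have hq2 : Q2 ≤ Real.log Q := (le_max_right _ _).trans ((le_max_left _ _).trans hq)
  have hB : BN.Bg K ε Z (Real.log Q) := hbig _ ((le_max_right _ _).trans hq)
  have h2 := hS2 W cl Q R m Bad hM hT hq1 hB 𝒜 ℬ hcd
  have h1 := hS1 W cl Q R m Bad hM hT hq2 hB 𝒜 ℬ hcd
  set f : MulChar W ℂ × MulChar W ℂ → ℂ := fun x =>
    BN.Mol s cl (BN.MfS s (tz Z (Real.log Q)) (ty ε (Real.log Q)) (ty ε (Real.log Q)))
        (BN.wS s (tz Z (Real.log Q)) (ty ε (Real.log Q)) (ty ε (Real.log Q))) (x.1 * x.2) *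
        Lv s cl R (x.1 * x.2) with hf
  have hcs := csq_norm_sum_le (BN.PN Bad 𝒜 ℬ) f
  have hf2 : ∑ x ∈ BN.PN Bad 𝒜 ℬ, ‖f x‖ ^ 2 ≤ C * ((𝒜.card : ℝ) * ℬ.card) := by
    refine le_trans (le_of_eq ?_) h2
    refine Finset.sum_congr rfl fun x _ => ?_
    simp only [hf]
    rw [norm_mul, mul_pow]
  have hcard : ((BN.PN Bad 𝒜 ℬ).filter fun x => f x ≠ 0).card ≤ S.card := by
    refine Finset.card_le_card ?_
    intro x hx
    obtain ⟨a1, a2⟩ := Finset.mem_filter.mp hx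
    unfold BN.PN at a1
    obtain ⟨a3, a4⟩ := Finset.mem_filter.mp a1
    refine hS x a3 a4 ?_
    intro h0
    apply a2
    simp only [hf]
    rw [Lv, h0, zero_div, mul_zero]
  have hXpos : (0 : ℝ) < (𝒜.card : ℝ) * ℬ.card := by
    have h3 : (0 : ℝ) < 𝒜.card := by exact_mod_cast hcd.1.card_pos
    have h4 : (0 : ℝ) < ℬ.card := by exact_mod_cast hcd.2.1.card_pos
    positivity
  set M : ℝ := (𝒜.card : ℝ) * ℬ.card with hM'
  have hnn : 0 ≤ ‖∑ x ∈ BN.PN Bad 𝒜 ℬ, f x‖ := norm_nonneg _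
  have h3 : M ^ 2 / 4 ≤ ‖∑ x ∈ BN.PN Bad 𝒜 ℬ, f x‖ ^ 2 := by
    have : M / 2 ≤ ‖∑ x ∈ BN.PN Bad 𝒜 ℬ, f x‖ := h1
    nlinarith
  have hScard : (((BN.PN Bad 𝒜 ℬ).filter fun x => f x ≠ 0).card : ℝ) ≤ S.card := by
    exact_mod_cast hcard
  have h4 : M ^ 2 / 4 ≤ (S.card : ℝ) * (C * M) := by
    refine h3.trans (hcs.trans ?_)
    have h5 : 0 ≤ ∑ x ∈ BN.PN Bad 𝒜 ℬ, ‖f x‖ ^ 2 := Finset.sum_nonneg fun _ _ => by positivity
    calc _ ≤ (S.card : ℝ) * ∑ x ∈ BN.PN Bad 𝒜 ℬ, ‖f x‖ ^ 2 := by gcongr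
      _ ≤ _ := by gcongr
  have h5 : M / 4 ≤ S.card * C := by
    have h6 : M / 4 * M ≤ (S.card * C) * M := by
      calc _ = M ^ 2 / 4 := by ring
        _ ≤ _ := h4
        _ = _ := by ring
    exact le_of_mul_le_mul_right h6 hXpos
  rw [div_mul_eq_mul_div, one_mul, div_le_iff₀ (by positivity)]
  linarith

/-- **Positive proportion of nonvanishing in product sets**, for sized natural numbers -/
theorem wcount (hS : Sys s κ K) (ε : ℝ) (hε : 0 < ε) :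
    ∃ c : ℝ, 0 < c ∧ ∃ Q0 : ℝ, ∀ (W : Type u) [CommGroupWithZero W] [Finite W] (cl : ℕ →*₀ W)
      (Q : ℕ) (R m : ℝ) (Bad : Finset (MulChar W ℂ)), Md s K cl Q → Td s K cl Q R m Bad →
      Q0 ≤ Q → ∀ 𝒜 ℬ : Finset (MulChar W ℂ),
      (Q : ℝ) ^ (2 + ε) ≤ (𝒜.card : ℝ) * (ℬ.card : ℝ) ^ 2 →
      ∀ (S : Finset (MulChar W ℂ × MulChar W ℂ)),
      (∀ x ∈ 𝒜 ×ˢ ℬ, x.1 * x.2 ∉ Bad → Lint s cl R (x.1 * x.2) ≠ 0 → x ∈ S) →
      c * ((𝒜.card : ℝ) * ℬ.card) ≤ (S.card : ℝ) := by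
  classical
  obtain ⟨K', B, hKK, hX⟩ := exists_Sx hS
  set ε' : ℝ := min (ε / 2) (1 / 10) with hε'
  have hε'0 : 0 < ε' := lt_min (by linarith) (by norm_num)
  obtain ⟨c, Q1, hc, hmain⟩ := BN.wcount0.{u} hX ε' hε'0 (min_le_right _ _)
  have hK0 : 0 < K := hS.K_pos
  have hK1 : 1 ≤ K' := hX.sys.K_one
  have hK'0 : 0 < K' := by linarith
  refine ⟨c, hc, Real.exp (max Q1 (12 * Real.log K' / ε)), ?_⟩
  intro W _ _ cl Q R m Bad hM hT hq 𝒜 ℬ hsize S hSS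
  have hQ2 := hM.Q_two
  have hQ0 : (0 : ℝ) < Q := by exact_mod_cast (by omega : 0 < Q)
  have hq' : max Q1 (12 * Real.log K' / ε) ≤ Real.log Q := by
    rw [Real.le_log_iff_exp_le hQ0]
    exact hq
  have hq1 : Q1 ≤ Real.log Q := (le_max_left _ _).trans hq'
  have hq2 : 12 * Real.log K' / ε ≤ Real.log Q := (le_max_right _ _).trans hq'
  have hLε : 12 * Real.log K' ≤ Real.log Q * ε := (div_le_iff₀ hε).mp hq2
  have hpos : (0 : ℝ) < (𝒜.card : ℝ) * (ℬ.card : ℝ) ^ 2 := lt_of_lt_of_le (by positivity) hsize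
  have hApos : 0 < 𝒜.card := by
    rcases Nat.eq_zero_or_pos 𝒜.card with h | h
    · rw [h] at hpos; simp at hpos
    · exact h
  have hBpos : 0 < ℬ.card := by
    rcases Nat.eq_zero_or_pos ℬ.card with h | h
    · rw [h] at hpos; simp at hpos
    · exact h
  have rA : (0 : ℝ) < 𝒜.card := by exact_mod_cast hApos
  have rB : (0 : ℝ) < ℬ.card := by exact_mod_cast hBpos
  have hL0 : 0 ≤ Real.log Q := Real.log_natCast_nonneg _
  have lS : (2 + ε) * Real.log Q ≤ Real.log 𝒜.card + 2 * Real.log ℬ.card := by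
    have h1 := Real.log_le_log (by positivity) hsize
    rw [Real.log_rpow hQ0, Real.log_mul rA.ne' (by positivity), Real.log_pow] at h1
    push_cast at h1
    exact h1
  have hw0 : (0 : ℝ) < (Nat.card Wˣ : ℝ) := by
    exact_mod_cast (Nat.card_pos : 0 < Nat.card Wˣ)
  have lw : Real.log (K' * (Nat.card Wˣ : ℝ)) ≤ 2 * Real.log K' + Real.log Q := by
    have h1 : K' * (Nat.card Wˣ : ℝ) ≤ K' ^ 2 * Q := by
      calc K' * (Nat.card Wˣ : ℝ) ≤ K' * (K' * Q) := by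
            refine mul_le_mul_of_nonneg_left ?_ hK'0.le
            exact hM.card_le.trans (mul_le_mul_of_nonneg_right hKK hQ0.le)
        _ = K' ^ 2 * Q := by ring
    have h2 := Real.log_le_log (by positivity) h1
    rw [Real.log_mul (by positivity) hQ0.ne', Real.log_pow] at h2
    push_cast at h2
    exact h2
  have lhA : Real.log (BN.hh K' 𝒜) = Real.log (K' * (Nat.card Wˣ : ℝ)) - Real.log 𝒜.card := by
    unfold BN.hh
    rw [Real.log_div (by positivity) rA.ne']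
  have lhB : Real.log (BN.hh K' ℬ) = Real.log (K' * (Nat.card Wˣ : ℝ)) - Real.log ℬ.card := by
    unfold BN.hh
    rw [Real.log_div (by positivity) rB.ne']
  have hcd : BN.Cd K' ε' Q 𝒜 ℬ := by
    refine ⟨Finset.card_pos.mp hApos, Finset.card_pos.mp hBpos, ?_⟩
    rw [lhA, lhB]
    have h1 : ε' * Real.log Q ≤ ε / 2 * Real.log Q :=
      mul_le_mul_of_nonneg_right (min_le_left _ _) hL0
    nlinarith
  exact hmain W cl Q R m Bad (hM.mono hK0.le hKK) (hT.mono hK0 hKK) hq1 𝒜 ℬ hcd S hSS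

end Pool.Agent.H14.BN
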