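import Pool.Agent.H14.BN.Base

/-!
# Mertens' first theorem for sized numbers

`T(n) = ∑_{m ∈ SI s n} log (s m)`.

* `sum_log_asymp`: `log (s m) = log n - ∑_{k = s m}^{n-1} log ((k+1)/k)`, so
  `T(n) = #SI n * log n - ∑_{1 ≤ k < n} #SI k * log ((k+1)/k)`, and the last sum is in `[0, K n]`
  (`hS.card_le_real`, `log ((k+1)/k) ≤ 1/k`); `#SI n = κ n + O(K √n)`, `log n ≤ √n`.
* `sum_log_eq`: `log (s m) = ∑_p v_p(m) log (s p)` (`Nat.prod_factorization_pow_eq_self`, `map_prod`),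
  `v_p(m)` is the number of `j ≥ 1` with `p^j ∣ m`, and `m ↦ p^j m` is a bijection from
  `SI s (n / (s p)^j)` to the multiples of `p^j` in `SI s n` (`Nat.le_div_iff_mul_le`).  As `2 ≤ s p`
  and `k < 2 ^ k`, only `j ≤ n` matter (`SI_zero`).
* `mA_bound`: `#SI (n / (s p)^j) = κ n / (s p)^j + O(3 K √(n / (s p)^j))` if `(s p)^j ≤ n` (the floor
  costs `κ ≤ K`).  Main term `j = 1`: `κ n mA(n)`; error `3 K √n ∑ log (s p) / √(s p) ≤ C n`
  (partial summation from `hS.cheb`, or dyadically: for `2^i ≤ s p < 2^(i+1)` the sum is at most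
  `2^(-i/2) K 2^(i+1)`).  The terms `j ≥ 2`: `∑_p log (s p) ∑_{j ≥ 2, (s p)^j ≤ n} K n / (s p)^j ≤
  2 K n ∑_p log (s p) / (s p)^2 ≤ C n` (again dyadically, or `hS.card_le` and `log x ≤ 4 x^(1/4)`,
  `hS.sum_tail_le`).  Divide by `κ n` (`1 ≤ K κ`).
-/

namespace Pool.Agent.H14.BN

open Finset

variable {s : ℕ →*₀ ℕ} {κ K : ℝ}

/-- `∑_{s p ≤ n} log (s p) / s p` -/
noncomputable def mA (s : ℕ →*₀ ℕ) (n : ℕ) : ℝ := ∑ p ∈ SP s n, Real.log (s p) / (s p : ℝ)

theorem mert1_log_le_sqrt (x : ℝ) (hx : 1 ≤ x) : Real.log x ≤ √x := by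
  have h0 : 0 < √(√x) := Real.sqrt_pos.mpr (Real.sqrt_pos.mpr (by linarith))
  have e1 : √(√x) ^ 2 = √x := Real.sq_sqrt (Real.sqrt_nonneg _)
  have e2 : √x ^ 2 = x := Real.sq_sqrt (by linarith)
  have h1 : Real.log x = 4 * Real.log (√(√x)) := by
    conv_lhs => rw [← e2, ← e1]
    rw [Real.log_pow, Real.log_pow]
    push_cast
    ring
  have h2 := Real.log_le_sub_one_of_pos h0
  rw [h1]
  nlinarith [sq_nonneg (√(√x) - 2)]

/-- passing from size `n` to size `n + 1` -/
theorem mert1_SI_succ (hS : Sys s κ K) (n : ℕ) (f : ℕ → ℝ) :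
    ∑ m ∈ SI s (n + 1), f (s m) = ∑ m ∈ SI s n, f (s m) +
      (((SI s (n + 1)).card : ℝ) - (SI s n).card) * f (n + 1) := by
  have hsub := hS.SI_mono (Nat.le_succ n)
  rw [← Finset.sum_sdiff hsub, add_comm]
  congr 1
  have h1 : ∀ m ∈ SI s (n + 1) \ SI s n, f (s m) = f (n + 1) := by
    intro m hm
    rw [mem_sdiff, hS.mem_SI, hS.mem_SI] at hm
    have : s m = n + 1 := by
      by_contra h
      exact hm.2 ⟨hm.1.1, by omega⟩
    rw [this]
  rw [Finset.sum_congr rfl h1, Finset.sum_const, nsmul_eq_mul]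
  congr 1
  rw [Finset.card_sdiff_of_subset hsub, Nat.cast_sub (Finset.card_le_card hsub)]

theorem sum_log_asymp (hS : Sys s κ K) (n : ℕ) (hn : 1 ≤ n) :
    |∑ m ∈ SI s n, Real.log (s m) - κ * n * Real.log n| ≤ 2 * K * n := by
  have key : ∀ n : ℕ, 1 ≤ n → ((SI s n).card : ℝ) * Real.log n - K * n ≤
      ∑ m ∈ SI s n, Real.log (s m) ∧
      ∑ m ∈ SI s n, Real.log (s m) ≤ ((SI s n).card : ℝ) * Real.log n := by
    intro n hn
    induction n, hn using Nat.le_induction with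
    | base =>
      have h1 : ∑ m ∈ SI s 1, Real.log (s m) = 0 := by
        refine Finset.sum_eq_zero fun m hm => ?_
        rw [hS.mem_SI] at hm
        have : s m = 1 := le_antisymm hm.2 (hS.one_le_of hm.1)
        rw [this]
        simp
      rw [h1]
      have := hS.K_pos
      simp
      linarith
    | succ n hn ih =>
      have hn0 : (0 : ℝ) < n := by exact_mod_cast hn
      have h1 := mert1_SI_succ hS n (fun k => Real.log k)
      have h2 : Real.log ((n + 1 : ℕ) : ℝ) - Real.log n ≤ 1 / n := by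
        rw [← Real.log_div (by positivity) hn0.ne']
        refine (Real.log_le_sub_one_of_pos (by positivity)).trans ?_
        push_cast
        rw [sub_le_iff_le_add, div_le_iff₀ hn0]
        have : (1 / (n : ℝ) + 1) * n = 1 + n := by
          field_simp
        linarith
      have h3 : 0 ≤ Real.log ((n + 1 : ℕ) : ℝ) - Real.log n := by
        have := Real.log_le_log hn0 (show (n : ℝ) ≤ ((n + 1 : ℕ) : ℝ) by push_cast; linarith)
        linarith
      have h4 := hS.card_le n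
      have h5 : ((SI s n).card : ℝ) * (Real.log ((n + 1 : ℕ) : ℝ) - Real.log n) ≤ K := by
        calc _ ≤ K * n * (1 / n) := mul_le_mul h4 h2 h3 (by have := hS.K_pos; positivity)
          _ = K := by field_simp
      have h6 : 0 ≤ ((SI s n).card : ℝ) * (Real.log ((n + 1 : ℕ) : ℝ) - Real.log n) :=
        mul_nonneg (Nat.cast_nonneg _) h3
      rw [h1]
      obtain ⟨i1, i2⟩ := ih
      push_cast at h5 h6 ⊢
      constructor <;> nlinarith
  obtain ⟨h1, h2⟩ := key n hn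
  have h3 := hS.card_sub n
  have hn1 : (1 : ℝ) ≤ n := by exact_mod_cast hn
  have h4 := mert1_log_le_sqrt n hn1
  have h5 : 0 ≤ Real.log n := Real.log_nonneg hn1
  have h6 : |((SI s n).card : ℝ) * Real.log n - κ * n * Real.log n| ≤ K * n := by
    have e1 : ((SI s n).card : ℝ) * Real.log n - κ * n * Real.log n =
        (((SI s n).card : ℝ) - κ * n) * Real.log n := by ring
    rw [e1, abs_mul, abs_of_nonneg h5]
    calc _ ≤ K * √(n : ℝ) * √(n : ℝ) := mul_le_mul h3 h4 h5 (by have := hS.K_pos; positivity)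
      _ = K * n := by
        rw [mul_assoc, Real.mul_self_sqrt (by positivity)]
  rw [abs_le] at h6 ⊢
  have := hS.K_pos
  constructor
  · nlinarith
  · nlinarith

/-- multiples of `p ^ j` -/
theorem mert1_mult (hS : Sys s κ K) (n p j : ℕ) (hp : p.Prime) :
    ((SI s n).filter (fun m => p ^ j ∣ m)).card = (SI s (n / (s p) ^ j)).card := by
  symm
  have hpj : p ^ j ≠ 0 := pow_ne_zero _ hp.ne_zero
  apply Finset.card_bij (fun k _ => p ^ j * k)
  · intro k hk
    rw [hS.mem_SI] at hk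
    rw [mem_filter, hS.mem_SI]
    refine ⟨⟨mul_ne_zero hpj hk.1, ?_⟩, dvd_mul_right _ _⟩
    rw [map_mul, map_pow]
    have h1 := (Nat.le_div_iff_mul_le (pow_pos (hS.s_pos hp.ne_zero) j)).1 hk.2
    rw [mul_comm]
    exact h1
  · intro a _ b _ hab
    exact Nat.eq_of_mul_eq_mul_left (Nat.pos_of_ne_zero hpj) hab
  · intro m hm
    rw [mem_filter, hS.mem_SI] at hm
    obtain ⟨⟨h1, h2⟩, k, rfl⟩ := hm
    refine ⟨k, ?_, rfl⟩
    rw [hS.mem_SI]
    refine ⟨right_ne_zero_of_mul h1, ?_⟩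
    rw [Nat.le_div_iff_mul_le (pow_pos (hS.s_pos hp.ne_zero) j), mul_comm, ← map_pow, ← map_mul]
    exact h2

theorem mert1_val (hS : Sys s κ K) (n m p : ℕ) (hp : p.Prime) (hm : m ∈ SI s n) :
    (m.factorization p : ℝ) = ∑ j ∈ Icc 1 n, if p ^ j ∣ m then (1 : ℝ) else 0 := by
  rw [hS.mem_SI] at hm
  have h1 : m.factorization p ≤ n := by
    have h2 : p ^ m.factorization p ∣ m := Nat.ordProj_dvd m p
    have h3 := hS.le_of_dvd h2 hm.1
    rw [map_pow] at h3
    have h4 : 2 ^ m.factorization p ≤ (s p) ^ m.factorization p :=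
      Nat.pow_le_pow_left (hS.two_le p hp) _
    have h5 : m.factorization p < 2 ^ m.factorization p := Nat.lt_two_pow_self
    omega
  rw [← Finset.sum_filter, Finset.sum_const, nsmul_eq_mul, mul_one]
  congr 1
  have h2 : (Icc 1 n).filter (fun j => p ^ j ∣ m) = Icc 1 (m.factorization p) := by
    ext j
    rw [mem_filter, mem_Icc, mem_Icc, hp.pow_dvd_iff_le_factorization hm.1]
    omega
  rw [h2, Nat.card_Icc]
  omega

theorem sum_log_eq (hS : Sys s κ K) (n : ℕ) :
    ∑ m ∈ SI s n, Real.log (s m) =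
      ∑ p ∈ SP s n, (∑ j ∈ Icc 1 n, ((SI s (n / (s p) ^ j)).card : ℝ)) * Real.log (s p) := by
  have h1 : ∀ m ∈ SI s n, Real.log (s m) =
      ∑ p ∈ SP s n, (∑ j ∈ Icc 1 n, if p ^ j ∣ m then (1 : ℝ) else 0) * Real.log (s p) := by
    intro m hm
    have hm' := hm
    rw [hS.mem_SI] at hm'
    have h2 : Real.log (s m) = ∑ p ∈ m.primeFactors, (m.factorization p : ℝ) * Real.log (s p) := by
      conv_lhs => rw [← Nat.prod_factorization_pow_eq_self hm'.1]
      rw [Finsupp.prod, s_cast_prod, Real.log_prod]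
      · refine Finset.sum_congr rfl fun p _ => ?_
        rw [s_cast_pow, Real.log_pow]
      · intro p hp
        have hpp : p.Prime := Nat.prime_of_mem_primeFactors hp
        exact (hS.r_pos (pow_ne_zero _ hpp.ne_zero)).ne'
    rw [h2]
    have h3 : m.primeFactors ⊆ SP s n := by
      intro p hp
      rw [hS.mem_SP]
      have hpp : p.Prime := Nat.prime_of_mem_primeFactors hp
      exact ⟨hpp, (hS.le_of_dvd (Nat.dvd_of_mem_primeFactors hp) hm'.1).trans hm'.2⟩
    have h4 : ∑ p ∈ m.primeFactors, (m.factorization p : ℝ) * Real.log (s p) =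
        ∑ p ∈ SP s n, (m.factorization p : ℝ) * Real.log (s p) := by
      apply Finset.sum_subset h3
      intro p _ hp
      have : m.factorization p = 0 := by
        rw [← Nat.support_factorization, Finsupp.notMem_support_iff] at hp
        exact hp
      rw [this]
      simp
    rw [h4]
    refine Finset.sum_congr rfl fun p hp => ?_
    rw [hS.mem_SP] at hp
    rw [mert1_val hS n m p hp.1 hm]
  rw [Finset.sum_congr rfl h1, Finset.sum_comm]
  refine Finset.sum_congr rfl fun p hp => ?_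
  rw [hS.mem_SP] at hp
  rw [← Finset.sum_mul, Finset.sum_comm]
  congr 1
  refine Finset.sum_congr rfl fun j _ => ?_
  rw [← mert1_mult hS n p j hp.1, ← Finset.sum_filter, Finset.sum_const, nsmul_eq_mul, mul_one]

/-- sums over primes against the Chebyshev bound -/
theorem mert1_sum_le (hS : Sys s κ K) (N : ℕ) : ∀ (f : ℕ → ℝ), (∀ k ∈ Icc 1 N, 0 ≤ f k) →
    (∀ k ∈ Icc 1 N, ∀ l ∈ Icc 1 N, k ≤ l → f l ≤ f k) →
    ∑ p ∈ SP s N, Real.log (s p) * f (s p) ≤ K * ∑ k ∈ Icc 1 N, f k := by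
  induction N with
  | zero =>
    intro f _ _
    unfold SP
    rw [hS.SI_zero]
    simp
  | succ N ih =>
    intro f hf0 hf
    set c := f (N + 1) with hc
    have hmem : N + 1 ∈ Icc 1 (N + 1) := mem_Icc.mpr ⟨by omega, le_rfl⟩
    have hsub : ∀ k ∈ Icc 1 N, k ∈ Icc 1 (N + 1) := fun k hk => by
      rw [mem_Icc] at hk ⊢; omega
    have h1 := ih (fun k => f k - c) (fun k hk => by
        have := hf k (hsub k hk) (N + 1) hmem (by have := mem_Icc.mp hk; omega)
        linarith)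
      (fun k hk l hl hkl => by
        have := hf k (hsub k hk) l (hsub l hl) hkl
        linarith)
    have hc0 : 0 ≤ c := hf0 _ hmem
    have h2 : ∑ p ∈ SP s (N + 1), Real.log (s p) * (f (s p) - c) =
        ∑ p ∈ SP s N, Real.log (s p) * (f (s p) - c) := by
      symm
      apply Finset.sum_subset (hS.SP_mono (Nat.le_succ N))
      intro n hn hn2
      rw [hS.mem_SP] at hn hn2
      have : s n = N + 1 := by
        by_contra h
        exact hn2 ⟨hn.1, by omega⟩
      rw [this, hc, sub_self, mul_zero]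
    have h3 : ∑ p ∈ SP s (N + 1), Real.log (s p) * f (s p) =
        ∑ p ∈ SP s (N + 1), Real.log (s p) * (f (s p) - c) +
          (∑ p ∈ SP s (N + 1), Real.log (s p)) * c := by
      rw [Finset.sum_mul, ← Finset.sum_add_distrib]
      refine Finset.sum_congr rfl fun p _ => ?_
      ring
    have h4 := hS.cheb (N + 1)
    have h5 : ∑ k ∈ Icc 1 (N + 1), f k = ∑ k ∈ Icc 1 N, f k + c := by
      rw [Finset.sum_Icc_succ_top (by omega)]
    have h6 : ∑ k ∈ Icc 1 N, (f k - c) = ∑ k ∈ Icc 1 N, f k - N * c := by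
      rw [Finset.sum_sub_distrib, Finset.sum_const, nsmul_eq_mul, Nat.card_Icc]
      simp
    rw [h3, h2, h5]
    rw [h6] at h1
    have h7 : (∑ p ∈ SP s (N + 1), Real.log (s p)) * c ≤ K * ((N + 1 : ℕ) : ℝ) * c :=
      mul_le_mul_of_nonneg_right h4 hc0
    push_cast at h7
    nlinarith

theorem mert1_rsqrt (N : ℕ) : ∑ k ∈ Icc 1 N, 1 / √(k : ℝ) ≤ 2 * √(N : ℝ) := by
  induction N with
  | zero => simp
  | succ n ih =>
    rw [Finset.sum_Icc_succ_top (by omega)]
    refine (add_le_add ih le_rfl).trans ?_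
    have hp : 0 < √((n + 1 : ℕ) : ℝ) := Real.sqrt_pos.mpr (by positivity)
    have hq : √(n : ℝ) ≤ √((n + 1 : ℕ) : ℝ) := Real.sqrt_le_sqrt (by push_cast; linarith)
    have e1 : √((n + 1 : ℕ) : ℝ) * √((n + 1 : ℕ) : ℝ) = n + 1 := by
      rw [Real.mul_self_sqrt (by positivity)]; push_cast; ring
    have e2 : √(n : ℝ) * √(n : ℝ) = n := Real.mul_self_sqrt (by positivity)
    have h0 : 0 ≤ √(n : ℝ) := Real.sqrt_nonneg _
    have : 1 / √((n + 1 : ℕ) : ℝ) ≤ 2 * (√((n + 1 : ℕ) : ℝ) - √(n : ℝ)) := by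
      rw [div_le_iff₀ hp]
      nlinarith
    linarith

/-- `∑ log (s p) / √(s p) ≤ C √n` over the primes of size at most `n` -/
theorem sum_log_rsqrt_le (hS : Sys s κ K) (n : ℕ) :
    ∑ p ∈ SP s n, Real.log (s p) / √(s p : ℝ) ≤ 8 * K * √(n : ℝ) := by
  have h1 := mert1_sum_le hS n (fun k => 1 / √(k : ℝ)) (fun k _ => by positivity)
    (fun k hk l _ hkl => by
      have : (0 : ℝ) < k := by exact_mod_cast (mem_Icc.mp hk).1
      exact one_div_le_one_div_of_le (Real.sqrt_pos.mpr this)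
        (Real.sqrt_le_sqrt (by exact_mod_cast hkl)))
  have h2 := mert1_rsqrt n
  have h3 : ∑ p ∈ SP s n, Real.log (s p) / √(s p : ℝ) =
      ∑ p ∈ SP s n, Real.log (s p) * (1 / √((s p : ℕ) : ℝ)) :=
    Finset.sum_congr rfl fun p _ => by rw [mul_one_div]
  rw [h3]
  refine h1.trans ?_
  have hK := hS.K_pos
  have h4 : 0 ≤ √(n : ℝ) := Real.sqrt_nonneg _
  calc K * ∑ k ∈ Icc 1 n, 1 / √(k : ℝ) ≤ K * (2 * √(n : ℝ)) :=
        mul_le_mul_of_nonneg_left h2 hK.le
    _ ≤ 8 * K * √(n : ℝ) := by nlinarith [mul_nonneg hK.le h4]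

theorem mert1_sq (N : ℕ) : ∑ k ∈ Icc 1 N, 1 / (k : ℝ) ^ 2 ≤ 2 := by
  have h : ∀ N : ℕ, 1 ≤ N → ∑ k ∈ Icc 1 N, 1 / (k : ℝ) ^ 2 ≤ 2 - 1 / (N : ℝ) := by
    intro N hN
    induction N, hN using Nat.le_induction with
    | base => simp; norm_num
    | succ n hn ih =>
      rw [Finset.sum_Icc_succ_top (by omega)]
      have hn0 : (0 : ℝ) < n := by exact_mod_cast hn
      have h1 : 1 / ((n + 1 : ℕ) : ℝ) ^ 2 ≤ 1 / n - 1 / ((n + 1 : ℕ) : ℝ) := by
        push_cast
        rw [div_sub_div _ _ hn0.ne' (by positivity), div_le_div_iff₀ (by positivity) (by positivity)]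
        nlinarith
      linarith
  rcases Nat.eq_zero_or_pos N with h0 | h0
  · subst h0
    simp
  · have := h N h0
    have h1 : (0 : ℝ) ≤ 1 / (N : ℝ) := by positivity
    linarith

/-- the number of elements of size at most `n / t` -/
theorem mert1_card (hS : Sys s κ K) (n t : ℕ) (ht : 1 ≤ t) (htn : t ≤ n) :
    |((SI s (n / t)).card : ℝ) - κ * (n / t)| ≤ 2 * K * √((n : ℝ) / t) := by
  have h1 := hS.card_sub (n / t)
  have ht0 : (0 : ℝ) < t := by exact_mod_cast ht
  have h2 : ((n / t : ℕ) : ℝ) ≤ (n : ℝ) / t := Nat.cast_div_le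
  have h3 : (n : ℝ) / t ≤ ((n / t : ℕ) : ℝ) + 1 := by
    rw [div_le_iff₀ ht0]
    have h4 := Nat.lt_div_mul_add (a := n) (b := t) ht
    have h5 : n ≤ (n / t + 1) * t := by
      rw [add_mul, one_mul]
      exact h4.le
    exact_mod_cast h5
  have h4 : (1 : ℝ) ≤ (n : ℝ) / t := (one_le_div ht0).2 (by exact_mod_cast htn)
  have h5 : (1 : ℝ) ≤ √((n : ℝ) / t) := Real.one_le_sqrt.2 h4
  have h6 : √((n / t : ℕ) : ℝ) ≤ √((n : ℝ) / t) := Real.sqrt_le_sqrt h2
  have hK := hS.K_pos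
  have hκ := hS.κ_pos
  have hκ1 := hS.κ_le
  have h7 : K * √((n / t : ℕ) : ℝ) ≤ K * √((n : ℝ) / t) := mul_le_mul_of_nonneg_left h6 hK.le
  have h8 : |κ * ((n / t : ℕ) : ℝ) - κ * ((n : ℝ) / t)| ≤ K * √((n : ℝ) / t) := by
    rw [← mul_sub, abs_mul, abs_of_pos hκ]
    have h9 : |((n / t : ℕ) : ℝ) - (n : ℝ) / t| ≤ 1 := by
      rw [abs_le]
      constructor <;> linarith
    calc κ * _ ≤ K * 1 := mul_le_mul hκ1 h9 (abs_nonneg _) hK.le
      _ ≤ K * √((n : ℝ) / t) := mul_le_mul_of_nonneg_left h5 hK.le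
  calc |((SI s (n / t)).card : ℝ) - κ * (n / t)| ≤
        |((SI s (n / t)).card : ℝ) - κ * ((n / t : ℕ) : ℝ)| +
          |κ * ((n / t : ℕ) : ℝ) - κ * ((n : ℝ) / t)| := abs_sub_le _ _ _
    _ ≤ K * √((n : ℝ) / t) + K * √((n : ℝ) / t) := add_le_add (h1.trans h7) h8
    _ = 2 * K * √((n : ℝ) / t) := by ring

/-- the terms with `j ≥ 2` -/
theorem mert1_high (hS : Sys s κ K) (n q : ℕ) (hq : 2 ≤ q) :
    ∑ j ∈ Icc 2 n, ((SI s (n / q ^ j)).card : ℝ) ≤ 2 * K * n * (1 / (q : ℝ) ^ 2) := by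
  have hq0 : (2 : ℝ) ≤ q := by exact_mod_cast hq
  have hK := hS.K_pos
  have h1 : ∀ j ∈ Icc 2 n, ((SI s (n / q ^ j)).card : ℝ) ≤ K * n * (1 / (q : ℝ)) ^ j := by
    intro j _
    refine (hS.card_le _).trans ?_
    rw [mul_assoc]
    refine mul_le_mul_of_nonneg_left ?_ hK.le
    refine Nat.cast_div_le.trans ?_
    rw [Nat.cast_pow, one_div, inv_pow]
    exact le_of_eq (div_eq_mul_inv _ _)
  refine (Finset.sum_le_sum h1).trans ?_
  rw [← Finset.mul_sum]
  have h2 : ∑ j ∈ Icc 2 n, (1 / (q : ℝ)) ^ j ≤ 2 * (1 / (q : ℝ) ^ 2) := by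
    have h3 : ∀ n : ℕ, ∑ j ∈ Icc 2 n, (1 / (q : ℝ)) ^ j ≤ 2 * (1 / (q : ℝ) ^ 2) -
        (if 2 ≤ n then (1 / (q : ℝ)) ^ n else 0) := by
      intro n
      induction n with
      | zero => simp
      | succ n ih =>
        rcases Nat.lt_or_ge (n + 1) 2 with h | h
        · have h4 : Icc 2 (n + 1) = ∅ := by
            ext j
            simp only [mem_Icc, notMem_empty, iff_false]
            omega
          rw [h4, if_neg (by omega)]
          simp
        · rw [Finset.sum_Icc_succ_top h, if_pos h]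
          have h5 : (1 / (q : ℝ)) ^ (n + 1) ≤ (1 / (q : ℝ)) ^ n / 2 := by
            rw [pow_succ, div_eq_mul_inv ((1 / (q : ℝ)) ^ n)]
            refine mul_le_mul_of_nonneg_left ?_ (by positivity)
            rw [one_div]
            exact inv_anti₀ (by norm_num) hq0
          rcases Nat.lt_or_ge n 2 with h6 | h6
          · have h7 : n = 1 := by omega
            subst h7
            simp
            ring_nf
            rfl
          · rw [if_pos h6] at ih
            linarith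
    have h4 := h3 n
    have h5 : (0 : ℝ) ≤ (if 2 ≤ n then (1 / (q : ℝ)) ^ n else 0) := by
      split_ifs <;> positivity
    linarith
  calc K * n * ∑ j ∈ Icc 2 n, (1 / (q : ℝ)) ^ j ≤ K * n * (2 * (1 / (q : ℝ) ^ 2)) :=
        mul_le_mul_of_nonneg_left h2 (by positivity)
    _ = 2 * K * n * (1 / (q : ℝ) ^ 2) := by ring

theorem mA_bound (hS : Sys s κ K) :
    ∃ C : ℝ, 1 ≤ C ∧ ∀ n : ℕ, 1 ≤ n → |mA s n - Real.log n| ≤ C := by
  have hK := hS.K_pos
  have hK1 := hS.K_one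
  have hκ := hS.κ_pos
  refine ⟨K * (2 * K + 16 * K ^ 2 + 4 * K ^ 2), ?_, ?_⟩
  · nlinarith [pow_pos hK 2, pow_pos hK 3, mul_pos hK hK]
  intro n hn
  have hn0 : (0 : ℝ) < n := by exact_mod_cast hn
  have h1 := sum_log_asymp hS n hn
  rw [sum_log_eq hS n] at h1
  have h2 : ∑ p ∈ SP s n, (∑ j ∈ Icc 1 n, ((SI s (n / (s p) ^ j)).card : ℝ)) * Real.log (s p) =
      ∑ p ∈ SP s n, ((SI s (n / s p)).card : ℝ) * Real.log (s p) +
        ∑ p ∈ SP s n, (∑ j ∈ Icc 2 n, ((SI s (n / (s p) ^ j)).card : ℝ)) * Real.log (s p) := by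
    rw [← Finset.sum_add_distrib]
    refine Finset.sum_congr rfl fun p _ => ?_
    rw [← add_mul]
    congr 1
    have e1 : Icc 1 n = insert 1 (Icc 2 n) := by
      ext j
      simp only [mem_Icc, mem_insert]
      omega
    rw [e1, Finset.sum_insert (by simp), pow_one]
  have h3 : |∑ p ∈ SP s n, ((SI s (n / s p)).card : ℝ) * Real.log (s p) - κ * n * mA s n| ≤
      16 * K ^ 2 * n := by
    have e1 : κ * n * mA s n = ∑ p ∈ SP s n, (κ * (n / s p)) * Real.log (s p) := by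
      unfold mA
      rw [Finset.mul_sum]
      refine Finset.sum_congr rfl fun p _ => ?_
      ring
    rw [e1, ← Finset.sum_sub_distrib]
    refine (Finset.abs_sum_le_sum_abs _ _).trans ?_
    have h4 : ∀ p ∈ SP s n, |((SI s (n / s p)).card : ℝ) * Real.log (s p) -
        (κ * (n / s p)) * Real.log (s p)| ≤ 2 * K * √(n : ℝ) * (Real.log (s p) / √(s p : ℝ)) := by
      intro p hp
      rw [hS.mem_SP] at hp
      rw [← sub_mul, abs_mul, abs_of_nonneg (hS.log_nonneg p)]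
      refine (mul_le_mul_of_nonneg_right (mert1_card hS n (s p) (hS.one_le_of hp.1.ne_zero) hp.2)
        (hS.log_nonneg p)).trans ?_
      rw [Real.sqrt_div (Nat.cast_nonneg n)]
      refine le_of_eq ?_
      ring
    refine (Finset.sum_le_sum h4).trans ?_
    rw [← Finset.mul_sum]
    refine (mul_le_mul_of_nonneg_left (sum_log_rsqrt_le hS n) (by positivity)).trans ?_
    have e2 : √(n : ℝ) * √(n : ℝ) = n := Real.mul_self_sqrt hn0.le
    have e3 : 2 * K * √(n : ℝ) * (8 * K * √(n : ℝ)) = 16 * K ^ 2 * (√(n : ℝ) * √(n : ℝ)) := by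
      ring
    rw [e3, e2]
  have h4 : ∑ p ∈ SP s n, (∑ j ∈ Icc 2 n, ((SI s (n / (s p) ^ j)).card : ℝ)) * Real.log (s p) ≤
      4 * K ^ 2 * n := by
    have h5 : ∀ p ∈ SP s n, (∑ j ∈ Icc 2 n, ((SI s (n / (s p) ^ j)).card : ℝ)) * Real.log (s p) ≤
        2 * K * n * (Real.log (s p) * (1 / ((s p : ℕ) : ℝ) ^ 2)) := by
      intro p hp
      rw [hS.mem_SP] at hp
      refine (mul_le_mul_of_nonneg_right (mert1_high hS n (s p) (hS.two_le p hp.1))
        (hS.log_nonneg p)).trans (le_of_eq ?_)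
      ring
    refine (Finset.sum_le_sum h5).trans ?_
    rw [← Finset.mul_sum]
    have h6 := mert1_sum_le hS n (fun k => 1 / (k : ℝ) ^ 2) (fun k _ => by positivity)
      (fun k hk l _ hkl => by
        have : (0 : ℝ) < k := by exact_mod_cast (mem_Icc.mp hk).1
        exact one_div_le_one_div_of_le (by positivity)
          (pow_le_pow_left₀ this.le (by exact_mod_cast hkl) 2))
    have h7 := mert1_sq n
    have h8 : K * ∑ k ∈ Icc 1 n, 1 / (k : ℝ) ^ 2 ≤ K * 2 := mul_le_mul_of_nonneg_left h7 hK.le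
    calc _ ≤ 2 * K * n * (K * 2) := mul_le_mul_of_nonneg_left (h6.trans h8) (by positivity)
      _ = 4 * K ^ 2 * n := by ring
  have h5 : 0 ≤ ∑ p ∈ SP s n, (∑ j ∈ Icc 2 n, ((SI s (n / (s p) ^ j)).card : ℝ)) *
      Real.log (s p) := Finset.sum_nonneg fun p _ =>
    mul_nonneg (Finset.sum_nonneg fun _ _ => Nat.cast_nonneg _) (hS.log_nonneg p)
  rw [h2] at h1
  have h6 : |κ * n * (mA s n - Real.log n)| ≤ (2 * K + 16 * K ^ 2 + 4 * K ^ 2) * n := by
    rw [abs_le] at h1 h3 ⊢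
    constructor <;> nlinarith
  rw [abs_mul, abs_of_pos (by positivity : 0 < κ * n)] at h6
  have h7 : κ * |mA s n - Real.log n| ≤ 2 * K + 16 * K ^ 2 + 4 * K ^ 2 := by
    have e1 : κ * n * |mA s n - Real.log n| = κ * |mA s n - Real.log n| * n := by ring
    rw [e1] at h6
    exact le_of_mul_le_mul_right h6 hn0
  have h8 := hS.κ_inv
  have h9 := abs_nonneg (mA s n - Real.log n)
  calc |mA s n - Real.log n| ≤ K * κ * |mA s n - Real.log n| := by nlinarith
    _ = K * (κ * |mA s n - Real.log n|) := by ring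
    _ ≤ K * (2 * K + 16 * K ^ 2 + 4 * K ^ 2) := mul_le_mul_of_nonneg_left h7 hK.le

end Pool.Agent.H14.BN
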