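import Pool.Agent.H14.BN.Mert1
import Pool.Agent.H16.Mertens

/-!
# Mertens' second theorem, upper bound on short ranges, for sized numbers

Port of `sum_inv_primes_aux`, `sum_inv_primes_le` of `Pool/Agent/H16/Mertens.lean`: induction on `n`;
from `n` to `n + 1` the primes of size exactly `n + 1` enter, and for these
`1/(n+1) = (log (n+1)/(n+1)) / log (n+1)`.  `log_log_step` there is about real numbers and can be used.
The constants `log 4`, `3` there are replaced by the constant of `mA_bound`.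
-/

namespace Pool.Agent.H14.BN

open Finset

variable {s : ℕ →*₀ ℕ} {κ K : ℝ}

/-- primes of size in `(m, n]` -/
noncomputable def PIoc (s : ℕ →*₀ ℕ) (m n : ℕ) : Finset ℕ := (SP s n).filter (fun p => m < s p)

lemma mem_PIoc (hS : Sys s κ K) {m n p : ℕ} : p ∈ PIoc s m n ↔ p.Prime ∧ m < s p ∧ s p ≤ n := by
  unfold PIoc
  rw [mem_filter, hS.mem_SP]
  tauto

/-- the primes of size exactly `n + 1` -/
theorem mert2_succ (hS : Sys s κ K) (m n : ℕ) (hmn : m ≤ n) (f : ℕ → ℝ) :
    ∑ p ∈ PIoc s m (n + 1), f (s p) = ∑ p ∈ PIoc s m n, f (s p) +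
      ((SP s (n + 1) \ SP s n).card : ℝ) * f (n + 1) := by
  have hsub : PIoc s m n ⊆ PIoc s m (n + 1) := by
    intro p hp
    rw [mem_PIoc hS] at hp ⊢
    exact ⟨hp.1, hp.2.1, by omega⟩
  rw [← Finset.sum_sdiff hsub, add_comm]
  congr 1
  have h1 : PIoc s m (n + 1) \ PIoc s m n = SP s (n + 1) \ SP s n := by
    ext p
    rw [mem_sdiff, mem_sdiff, mem_PIoc hS, mem_PIoc hS, hS.mem_SP, hS.mem_SP]
    constructor
    · rintro ⟨⟨h1, h2, h3⟩, h4⟩
      exact ⟨⟨h1, h3⟩, fun h5 => h4 ⟨h5.1, h2, h5.2⟩⟩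
    · rintro ⟨⟨h1, h2⟩, h3⟩
      have h4 : n < s p := by
        by_contra h5
        exact h3 ⟨h1, by omega⟩
      exact ⟨⟨h1, by omega, h2⟩, fun h5 => h3 ⟨h1, h5.2.2⟩⟩
  rw [h1]
  have h2 : ∀ p ∈ SP s (n + 1) \ SP s n, f (s p) = f (n + 1) := by
    intro p hp
    rw [mem_sdiff, hS.mem_SP, hS.mem_SP] at hp
    have : s p = n + 1 := by
      by_contra h
      exact hp.2 ⟨hp.1.1, by omega⟩
    rw [this]
  rw [Finset.sum_congr rfl h2, Finset.sum_const, nsmul_eq_mul]

theorem mert2_SP_succ (hS : Sys s κ K) (n : ℕ) (f : ℕ → ℝ) :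
    ∑ p ∈ SP s (n + 1), f (s p) = ∑ p ∈ SP s n, f (s p) +
      ((SP s (n + 1) \ SP s n).card : ℝ) * f (n + 1) := by
  have h : ∀ n, PIoc s 0 n = SP s n := by
    intro n
    ext p
    rw [mem_PIoc hS, hS.mem_SP]
    constructor
    · rintro ⟨h1, _, h3⟩
      exact ⟨h1, h3⟩
    · rintro ⟨h1, h2⟩
      exact ⟨h1, hS.s_pos h1.ne_zero, h2⟩
  have := mert2_succ hS 0 n (Nat.zero_le _) f
  rwa [h, h] at this

theorem mert2_aux (hS : Sys s κ K) {C : ℝ} (hC : ∀ n : ℕ, 1 ≤ n → |mA s n - Real.log n| ≤ C)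
    (m n : ℕ) (hm : 2 ≤ m) (hmn : m ≤ n) :
    ∑ p ∈ PIoc s m n, (1 : ℝ) / (s p : ℝ) - mA s n / Real.log n ≤
      - mA s m / Real.log m + (Real.log (Real.log n) - Real.log (Real.log m))
        + C * (1 / Real.log m - 1 / Real.log n) := by
  induction n, hmn using Nat.le_induction with
  | base =>
    have : PIoc s m m = ∅ := by
      ext x
      simp only [mem_PIoc hS, notMem_empty, iff_false]
      omega
    rw [this]
    simp
    ring_nf
    rfl
  | succ n hn ih =>
    have hn2 : 2 ≤ n := hm.trans hn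
    have hn' : (1 : ℝ) < n := by exact_mod_cast hn2
    have h1 : 0 < Real.log n := Real.log_pos hn'
    have h2 : 0 < Real.log ((n : ℝ) + 1) := Real.log_pos (by linarith)
    have hlogmono : Real.log n ≤ Real.log ((n : ℝ) + 1) :=
      Real.log_le_log (by linarith) (by linarith)
    have hstep := Pool.Agent.H16.log_log_step n hn2
    have hA : mA s n ≤ Real.log n + C := by
      have := (abs_le.1 (hC n (by omega))).2
      linarith
    have hdiff : 0 ≤ 1 / Real.log n - 1 / Real.log ((n : ℝ) + 1) := by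
      have := one_div_le_one_div_of_le h1 hlogmono
      linarith
    have hrec : ∑ p ∈ PIoc s m (n + 1), (1 : ℝ) / (s p : ℝ) -
        mA s (n + 1) / Real.log ((n : ℝ) + 1) =
        ∑ p ∈ PIoc s m n, (1 : ℝ) / (s p : ℝ) - mA s n / Real.log ((n : ℝ) + 1) := by
      have e1 := mert2_succ hS m n hn (fun k => (1 : ℝ) / (k : ℝ))
      have e2 := mert2_SP_succ hS n (fun k => Real.log k / (k : ℝ))
      unfold mA
      rw [e1, e2]
      push_cast
      have hnn : ((n : ℝ) + 1) ≠ 0 := by positivity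
      field_simp
      ring
    push_cast
    rw [hrec]
    have h5 : mA s n * (1 / Real.log n - 1 / Real.log ((n : ℝ) + 1)) ≤
        (Real.log n + C) * (1 / Real.log n - 1 / Real.log ((n : ℝ) + 1)) :=
      mul_le_mul_of_nonneg_right hA hdiff
    have h6 : Real.log n * (1 / Real.log n - 1 / Real.log ((n : ℝ) + 1))
        = 1 - Real.log n / Real.log ((n : ℝ) + 1) := by
      field_simp
    have h7 : mA s n / Real.log n - mA s n / Real.log ((n : ℝ) + 1)
        = mA s n * (1 / Real.log n - 1 / Real.log ((n : ℝ) + 1)) := by ring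
    nlinarith

theorem sum_inv_primes_le (hS : Sys s κ K) : ∃ C : ℝ, 1 ≤ C ∧ ∀ m n : ℕ, 2 ≤ m → m ≤ n →
    ∑ p ∈ PIoc s m n, (1 : ℝ) / (s p : ℝ) ≤
      Real.log (Real.log n / Real.log m) + C / Real.log m := by
  obtain ⟨C, hC1, hC⟩ := mA_bound hS
  refine ⟨2 * C, by linarith, fun m n hm hmn => ?_⟩
  have h := mert2_aux hS hC m n hm hmn
  have hm' : (1 : ℝ) < m := by exact_mod_cast hm
  have hn' : (1 : ℝ) < n := by exact_mod_cast (hm.trans hmn)
  have h1 : 0 < Real.log m := Real.log_pos hm'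
  have h2 : 0 < Real.log n := Real.log_pos hn'
  have hA : mA s n ≤ Real.log n + C := by
    have := (abs_le.1 (hC n (by omega))).2
    linarith
  have hB : Real.log m - C ≤ mA s m := by
    have := (abs_le.1 (hC m (by omega))).1
    linarith
  have h3 : mA s n / Real.log n ≤ 1 + C / Real.log n := by
    rw [div_le_iff₀ h2, add_mul, div_mul_cancel₀ _ h2.ne']
    linarith
  have h4 : - mA s m / Real.log m ≤ - 1 + C / Real.log m := by
    rw [div_le_iff₀ h1, add_mul, div_mul_cancel₀ _ h1.ne']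
    linarith
  rw [Real.log_div h2.ne' h1.ne']
  have e1 : C * (1 / Real.log m - 1 / Real.log n) = C / Real.log m - C / Real.log n := by ring
  have e2 : 2 * C / Real.log m = C / Real.log m + C / Real.log m := by ring
  rw [e1] at h
  rw [e2]
  linarith

end Pool.Agent.H14.BN
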