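import Pool.Agent.H14.BN.Rough2x

/-!
# Final bounds for the rough double sums, sized numbers

Port of `Pool/Agent/H14/PT/Rough3.lean`: `Nat.primesLE z` becomes `SP s z`, `Vp_le`, `Vp_ge` become
`hX.vp_le`, `hX.vp_ge`, `mA_le` becomes `hX.mert`, the constant `16` of `abs_Qf_le` becomes `K ^ 2`.
-/

namespace Pool.Agent.H14.BN

open Finset ArithmeticFunction Pool.Agent.H14.PT
open scoped ArithmeticFunction.Moebius

variable {s : ℕ →*₀ ℕ} {κ K B0 : ℝ}

lemma eulerFac_SP (hX : Sx s κ K B0) (z : ℕ) : eulerFac s (SP s z) = (Vp s z)⁻¹ := by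
  unfold eulerFac Vp
  rw [Finset.prod_inv_distrib]

lemma rs_eq (hX : Sx s κ K B0) (z Y : ℕ) : rs s (SP s z) Y = PIoc s z Y := by
  ext p
  rw [rs, Finset.mem_sdiff, hX.sys.mem_SP, hX.sys.mem_SP, mem_PIoc' hX.sys]
  constructor
  · rintro ⟨⟨h1, h2⟩, h3⟩
    refine ⟨⟨h1, h2⟩, ?_⟩
    by_contra h
    exact h3 ⟨h1, by omega⟩
  · rintro ⟨⟨h2, h3⟩, h1⟩
    exact ⟨⟨h2, h3⟩, fun h => by omega⟩

lemma prod_rs (hX : Sx s κ K B0) (z Y : ℕ) (hzY : z ≤ Y) :
    ∏ p ∈ rs s (SP s z) Y, (1 - 1 / (s p : ℝ))⁻¹ = Vp s z / Vp s Y := by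
  rw [rs_eq hX, Finset.prod_inv_distrib, ← Vp_mul hX.sys z Y hzY]
  have h1 := Vp_pos hX.sys z
  have h2 : 0 < ∏ p ∈ PIoc s z Y, (1 - 1 / (s p : ℝ)) :=
    Finset.prod_pos fun p hp => one_sub_inv_pos hX.sys ((mem_PIoc' hX.sys).mp hp).1.1
  field_simp

/-- **bounds for the rough sums** -/
theorem rough_bounds (hX : Sx s κ K B0) : ∃ C : ℝ, 0 < C ∧ ∀ z Y : ℕ, 2 ≤ z → z ≤ Y → ∀ a b : ℕ,
    (∀ p ∈ rs s (SP s z) Y, ¬ (p ∣ a ∨ p ∣ b)) →
    |R0 s a b (SP s z) Y| ≤ C * (Real.log z / Real.log Y) ∧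
      |R1 s a b (SP s z) Y| ≤ C * Real.log z := by
  have hK1 : 1 ≤ K := hX.sys.K_one
  have hK : 0 < K := hX.sys.K_pos
  have hS0 := hX.sys
  refine ⟨24 * K ^ 5, by positivity, ?_⟩
  intro z Y hz hzY a b hn
  have hS : ∀ p ∈ SP s z, p.Prime := fun p hp => (hS0.mem_SP.mp hp).1
  set S := SP s z with hSdef
  have hz1 : (1 : ℝ) < z := by exact_mod_cast hz
  have hY2 : (2 : ℝ) ≤ Y := by exact_mod_cast hz.trans hzY
  have hlz : 0 < Real.log z := Real.log_pos hz1
  have hlY : 0 < Real.log Y := Real.log_pos (by linarith)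
  have hVz := Vp_pos hS0 z
  have hVY := Vp_pos hS0 Y
  have hE : eulerFac s S = (Vp s z)⁻¹ := eulerFac_SP hX z
  have hW : ∏ p ∈ SP s Y \ S, (1 - 1 / (s p : ℝ))⁻¹ = Vp s z / Vp s Y := prod_rs hX z Y hzY
  have hVz2 : 1 / (K * Real.log z) ≤ Vp s z := hX.vp_ge z hz
  have hVY2 : 1 / (K * Real.log Y) ≤ Vp s Y := hX.vp_ge Y (hz.trans hzY)
  have hfl : ⌊(Y : ℝ)⌋₊ ≤ Y := by rw [Nat.floor_natCast]
  have hEW : eulerFac s S ^ 2 * (Vp s z / Vp s Y) ≤ K ^ 2 * (Real.log z * Real.log Y) := by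
    have e1 : eulerFac s S ^ 2 * (Vp s z / Vp s Y) = 1 / (Vp s z * Vp s Y) := by
      rw [hE]; field_simp
    rw [e1]
    calc 1 / (Vp s z * Vp s Y) ≤ 1 / ((1 / (K * Real.log z)) * (1 / (K * Real.log Y))) := by
          apply one_div_le_one_div_of_le (by positivity)
          gcongr
      _ = _ := by field_simp
  constructor
  · rw [R0_eq hX hS hn, abs_div, abs_of_pos (by positivity : (0 : ℝ) < Real.log Y ^ 2)]
    have h1 := abs_Qf_le hX hS (Y : ℝ) Y Y hfl
    rw [hW] at h1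
    rw [div_le_iff₀ (by positivity)]
    calc |Qf s S Y Y| ≤ K ^ 2 * eulerFac s S ^ 2 * (Vp s z / Vp s Y) := h1
      _ = K ^ 2 * (eulerFac s S ^ 2 * (Vp s z / Vp s Y)) := by ring
      _ ≤ K ^ 2 * (K ^ 2 * (Real.log z * Real.log Y)) := by gcongr
      _ = K ^ 4 * (Real.log z * Real.log Y) := by ring
      _ ≤ 24 * K ^ 5 * (Real.log z * Real.log Y) := by
          have h2 : K ^ 4 ≤ 24 * K ^ 5 := by
            have h3 : 0 < K ^ 4 := by positivity
            nlinarith
          gcongr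
      _ = _ := by field_simp
  · rw [R1_eq hX hn, abs_mul]
    have hterm : ∀ p ∈ rs s S Y, |Real.log (s p) * Xp s S Y p| ≤
        (Real.log (s p) / (s p : ℝ)) * (4 * K ^ 4 * (Real.log z * Real.log Y) / Real.log Y ^ 2) := by
      intro p hp
      have hpp : p.Prime := rs_prime hX hp
      have hp0 : (0 : ℝ) < (s p : ℝ) := hS0.r_pos hpp.ne_zero
      have hlp : 0 ≤ Real.log (s p) := hS0.log_nonneg p
      have hpS : p ∉ S := (Finset.mem_sdiff.mp hp).2
      have hS' : ∀ r ∈ insert p S, r.Prime := by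
        intro r hr
        rcases Finset.mem_insert.mp hr with h | h
        · rw [h]; exact hpp
        · exact hS r h
      have hfl2 : ⌊(Y : ℝ) / (s p : ℝ)⌋₊ ≤ Y := by
        rw [Nat.floor_div_natCast, Nat.floor_natCast]
        exact Nat.div_le_self _ _
      have h1 := abs_Qf_le hX hS' ((Y : ℝ) / (s p : ℝ)) Y Y hfl2
      have h2 : eulerFac s (insert p S) ≤ 2 * eulerFac s S := by
        unfold eulerFac
        rw [Finset.prod_insert hpS]
        have h3 : (1 - 1 / (s p : ℝ))⁻¹ ≤ 2 := by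
          rw [inv_le_comm₀ (one_sub_inv_pos hS0 hpp) (by norm_num)]
          have h2 : (2 : ℝ) ≤ (s p : ℝ) := hS0.r_two hpp
          have : 1 / (s p : ℝ) ≤ 1 / 2 := one_div_le_one_div_of_le (by norm_num) h2
          linarith
        have h4 : 0 < ∏ p ∈ S, (1 - 1 / (s p : ℝ))⁻¹ := eulerFac_pos' hX hS
        nlinarith
      have h3 : ∏ r ∈ SP s Y \ insert p S, (1 - 1 / (s r : ℝ))⁻¹ ≤ Vp s z / Vp s Y := by
        rw [← hW]
        have hsub : SP s Y \ insert p S ⊆ SP s Y \ S :=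
          Finset.sdiff_subset_sdiff (le_refl _) (Finset.subset_insert _ _)
        have hpr : ∀ r ∈ SP s Y \ S, r.Prime := fun r hr => rs_prime hX (S := S) hr
        rw [← Finset.prod_sdiff hsub]
        have hge : ∀ r ∈ (SP s Y \ S) \ (SP s Y \ insert p S),
            (1 : ℝ) ≤ (1 - 1 / (s r : ℝ))⁻¹ := by
          intro r hr
          have hrp := hpr r (Finset.mem_sdiff.mp hr).1
          rw [one_le_inv₀ (one_sub_inv_pos hS0 hrp)]
          have : 0 < 1 / (s r : ℝ) := by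
            have : (0 : ℝ) < (s r : ℝ) := hS0.r_pos hrp.ne_zero
            positivity
          linarith
        have h5 := Finset.prod_le_prod (f := fun _ : ℕ => (1 : ℝ)) (fun _ _ => zero_le_one) hge
        rw [Finset.prod_const_one] at h5
        refine le_mul_of_one_le_left ?_ h5
        exact Finset.prod_nonneg fun r hr => by
          have := one_sub_inv_pos hS0 (rs_prime hX (S := insert p S) hr)
          positivity
      have hE0 : 0 < eulerFac s S := eulerFac_pos' hX hS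
      have hE0' : 0 < eulerFac s (insert p S) := eulerFac_pos' hX hS'
      have hprodpos : 0 ≤ ∏ r ∈ SP s Y \ insert p S, (1 - 1 / (s r : ℝ))⁻¹ :=
        Finset.prod_nonneg fun r hr => by
          have := one_sub_inv_pos hS0 (rs_prime hX (S := insert p S) hr)
          positivity
      have h4 : |Qf s (insert p S) ((Y : ℝ) / (s p : ℝ)) Y| ≤ 4 * K ^ 4 * (Real.log z * Real.log Y) := by
        calc |Qf s (insert p S) ((Y : ℝ) / (s p : ℝ)) Y| ≤ K ^ 2 * eulerFac s (insert p S) ^ 2 *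
              ∏ r ∈ SP s Y \ insert p S, (1 - 1 / (s r : ℝ))⁻¹ := h1
          _ ≤ K ^ 2 * (2 * eulerFac s S) ^ 2 * (Vp s z / Vp s Y) := by gcongr
          _ = 4 * K ^ 2 * (eulerFac s S ^ 2 * (Vp s z / Vp s Y)) := by ring
          _ ≤ 4 * K ^ 2 * (K ^ 2 * (Real.log z * Real.log Y)) := by gcongr
          _ = _ := by ring
      rw [Xp_eq hX hS hp, abs_mul, abs_of_nonneg hlp, abs_mul, abs_mul, abs_neg,
        abs_of_pos (by positivity : (0 : ℝ) < 1 / (s p : ℝ)),
        abs_of_pos (by positivity : (0 : ℝ) < 1 / Real.log Y ^ 2)]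
      calc Real.log (s p) * (1 / (s p : ℝ) * (1 / Real.log Y ^ 2) *
            |Qf s (insert p S) ((Y : ℝ) / (s p : ℝ)) Y|)
          ≤ Real.log (s p) * (1 / (s p : ℝ) * (1 / Real.log Y ^ 2) *
            (4 * K ^ 4 * (Real.log z * Real.log Y))) := by gcongr
        _ = _ := by ring
    have hsum : |∑ p ∈ rs s S Y, Real.log (s p) * Xp s S Y p| ≤
        (3 * K * Real.log Y) * (4 * K ^ 4 * (Real.log z * Real.log Y) / Real.log Y ^ 2) := by
      refine (Finset.abs_sum_le_sum_abs _ _).trans ((Finset.sum_le_sum hterm).trans ?_)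
      rw [← Finset.sum_mul]
      refine mul_le_mul_of_nonneg_right ?_ (by positivity)
      have h5 : ∑ p ∈ rs s S Y, Real.log (s p) / (s p : ℝ) ≤ mA s Y := by
        unfold mA
        apply Finset.sum_le_sum_of_subset_of_nonneg
        · exact Finset.sdiff_subset
        · intro p hp _
          have := hS0.log_nonneg p
          positivity
      have h6 := (abs_le.mp (hX.mert Y (by omega))).2
      have h7 : 1 ≤ 2 * Real.log Y := by
        have h8 := Real.log_le_log (by norm_num) hY2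
        have h9 := Real.log_two_gt_d9
        linarith
      have h8 : K * 1 ≤ K * (2 * Real.log Y) := mul_le_mul_of_nonneg_left h7 hK.le
      have h9 : 1 * Real.log Y ≤ K * Real.log Y := mul_le_mul_of_nonneg_right hK1 hlY.le
      linarith
    rw [show |(-2 : ℝ)| = 2 by norm_num]
    calc 2 * |∑ p ∈ rs s S Y, Real.log (s p) * Xp s S Y p| ≤
        2 * ((3 * K * Real.log Y) * (4 * K ^ 4 * (Real.log z * Real.log Y) / Real.log Y ^ 2)) := by gcongr
      _ = 24 * K ^ 5 * Real.log z := by field_simp; ring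

end Pool.Agent.H14.BN
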