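import Pool.Agent.H14.BN.Moll2x
import Pool.Agent.H14.BN.DN3
import Pool.Agent.H14.BN.Rough3
import Pool.Agent.H14.PT.Moll3

/-!
# `DN` for the mollifier: main term plus power-saving error, sized numbers

Port of `Pool/Agent/H14/PT/Moll3.lean` (`filter_subset_pf` is used from there).

* `Rt_le`: `rankin` with `σ = 0`, `∏ (1 + 3 / s p) ≤ exp (3 ∑ 1 / s p)` and `hX.inv_primes`:
  at most `exp (3 K / log 2) (log Y / log z)^3 ≤ C (log Y)^3`.
* `Rk_le`: `∑_{p ∈ SP s z} (s p)^(2σ-1) ≤ z^(2σ) K (1 + log z)` (`hS.sum_inv_le`).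
* `DN_eval`: `DN_expand` with `Y * Y`, `MfS_bounds`, and `MM_full`.
-/

namespace Pool.Agent.H14.BN

open Finset Pool.Agent.H14.PT

variable {s : ℕ →*₀ ℕ} {κ K B0 : ℝ}

lemma prod_filter_le (hX : Sx s κ K B0) {n : ℕ} (hn : n ≠ 0) {T : Finset ℕ}
    (hT : T ⊆ n.primeFactors) {σ : ℝ} (hσ : 0 ≤ σ) :
    ∏ p ∈ T, (4 * (s p : ℝ) ^ σ) ≤ (n.divisors.card : ℝ) ^ 2 * (s n : ℝ) ^ σ := by
  rw [Finset.prod_mul_distrib, Finset.prod_const, Real.finsetProd_rpow _ _ (fun p _ => by positivity)]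
  have h1 : (4 : ℝ) ^ T.card ≤ (n.divisors.card : ℝ) ^ 2 := by
    have h2 : 2 ^ n.primeFactors.card ≤ n.divisors.card := two_pow_omega_le n hn
    have h3 : (2 : ℝ) ^ n.primeFactors.card ≤ (n.divisors.card : ℝ) := by exact_mod_cast h2
    calc (4 : ℝ) ^ T.card ≤ 4 ^ n.primeFactors.card :=
          pow_le_pow_right₀ (by norm_num) (Finset.card_le_card hT)
      _ = ((2 : ℝ) ^ n.primeFactors.card) ^ 2 := by
          rw [← pow_mul, mul_comm, pow_mul]; norm_num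
      _ ≤ _ := by gcongr
  have h2 : ∏ p ∈ T, (s p : ℝ) ≤ (s n : ℝ) := by
    have h3 : ∏ p ∈ T, p ∣ n :=
      (Finset.prod_dvd_prod_of_subset T n.primeFactors (fun p => p) hT).trans (Nat.prod_primeFactors_dvd n)
    have h4 := hX.sys.le_of_dvd h3 hn
    have h5 : (s (∏ p ∈ T, p) : ℝ) ≤ (s n : ℝ) := by exact_mod_cast h4
    rwa [s_cast_prod] at h5
  gcongr

theorem Rt_le (hX : Sx s κ K B0) : ∃ C : ℝ, 1 ≤ C ∧ ∀ a b z Y : ℕ, a ≠ 0 → b ≠ 0 → 2 ≤ z → z ≤ Y →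
    Rt s a b z Y ≤ (C * (Real.log Y) ^ 3) * ((a * b).divisors.card : ℝ) ^ 2 := by
  have hK : 0 < K := hX.sys.K_pos
  have hl2 : 0 < Real.log 2 := Real.log_pos (by norm_num)
  have hl2' : Real.log 2 ≤ 1 := by have := Real.log_two_lt_d9; linarith
  refine ⟨Real.exp (3 * (K / Real.log 2)) / Real.log 2 ^ 3, ?_, ?_⟩
  · rw [one_le_div (by positivity)]
    have h1 : (Real.log 2) ^ 3 ≤ 1 := pow_le_one₀ hl2.le hl2'
    have h2 : 1 ≤ Real.exp (3 * (K / Real.log 2)) := Real.one_le_exp (by positivity)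
    linarith
  intro a b z Y ha hb hz2 hzY
  have hz2r : (2 : ℝ) ≤ z := by exact_mod_cast hz2
  have hzYr : (z : ℝ) ≤ Y := by exact_mod_cast hzY
  have hlz2 : Real.log 2 ≤ Real.log z := Real.log_le_log (by norm_num) hz2r
  have hlz : 0 < Real.log z := by linarith
  have hlzY : Real.log z ≤ Real.log Y := Real.log_le_log (by linarith) hzYr
  have hs : ∀ p ∈ rs s (SP s z) Y, p.Prime := fun p hp => rs_prime hX hp
  have h0 : Rt s a b z Y = ∑ A ∈ (rs s (SP s z) Y).powerset, ∑ B ∈ (rs s (SP s z) Y).powerset,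
      GG s a b (rs s (SP s z) Y) A B * ((s (Pr A) : ℝ) * (s (Pr B) : ℝ)) ^ (0 : ℝ) := by
    unfold Rt
    simp
  rw [h0]
  refine (rankin hX.sys a b hs (le_refl 0) zero_le_one).trans ?_
  have h1 := prod_filter_le hX (Nat.mul_ne_zero ha hb) (filter_subset_pf ha hb hs) (le_refl (0 : ℝ))
  rw [Real.rpow_zero, mul_one] at h1
  have h2 : ∏ p ∈ rs s (SP s z) Y, (1 + 3 * (s p : ℝ) ^ (2 * (0 : ℝ) - 1)) ≤
      Real.exp (3 * (K / Real.log 2)) / Real.log 2 ^ 3 * Real.log Y ^ 3 := by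
    have h3 : ∏ p ∈ rs s (SP s z) Y, (1 + 3 * (s p : ℝ) ^ (2 * (0 : ℝ) - 1)) ≤
        Real.exp (3 * ∑ p ∈ rs s (SP s z) Y, (1 : ℝ) / (s p : ℝ)) := by
      rw [Finset.mul_sum, Real.exp_sum]
      refine Finset.prod_le_prod (fun p _ => by positivity) fun p hp => ?_
      have e1 : (s p : ℝ) ^ (2 * (0 : ℝ) - 1) = 1 / (s p : ℝ) := by
        rw [show (2 * (0 : ℝ) - 1) = -1 by norm_num, Real.rpow_neg_one, one_div]
      rw [e1, add_comm]
      exact Real.add_one_le_exp _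
    refine h3.trans ?_
    rw [rs_eq hX]
    have h4 := hX.inv_primes z Y hz2 hzY
    have h5 : K / Real.log z ≤ K / Real.log 2 := by gcongr
    have h6 : Real.exp (3 * ∑ p ∈ PIoc s z Y, (1 : ℝ) / (s p : ℝ)) ≤
        Real.exp (3 * Real.log (Real.log Y / Real.log z) + 3 * (K / Real.log 2)) := by
      apply Real.exp_le_exp.mpr
      linarith
    refine h6.trans ?_
    rw [Real.exp_add, show (3 : ℝ) * Real.log (Real.log Y / Real.log z) =
      ((3 : ℕ) : ℝ) * Real.log (Real.log Y / Real.log z) by norm_num, ← Real.log_pow,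
      Real.exp_log (pow_pos (div_pos (by linarith) hlz) 3)]
    have h8 : (Real.log Y / Real.log z) ^ 3 ≤ (Real.log Y / Real.log 2) ^ 3 := by
      gcongr
    calc (Real.log Y / Real.log z) ^ 3 * Real.exp (3 * (K / Real.log 2)) ≤
        (Real.log Y / Real.log 2) ^ 3 * Real.exp (3 * (K / Real.log 2)) := by gcongr
      _ = _ := by rw [div_pow]; ring
  gcongr

theorem Rk_le (hX : Sx s κ K B0) {a b z : ℕ} (ha : a ≠ 0) (hb : b ≠ 0) (hz : 1 ≤ z) {σ : ℝ}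
    (hσ : 0 ≤ σ) (hσ1 : σ ≤ 1) :
    Rk s a b z σ ≤ Real.exp (3 * K * (z : ℝ) ^ (2 * σ) * (1 + Real.log z)) *
      (((a * b).divisors.card : ℝ) ^ 2 * (s (a * b) : ℝ) ^ σ) := by
  have hK : 0 < K := hX.sys.K_pos
  have hs : ∀ p ∈ SP s z, p.Prime := fun p hp => (hX.sys.mem_SP.mp hp).1
  unfold Rk
  refine (rankin hX.sys a b hs hσ hσ1).trans ?_
  have h1 := prod_filter_le hX (Nat.mul_ne_zero ha hb) (filter_subset_pf ha hb hs) hσ
  have hz0 : (0 : ℝ) < z := by exact_mod_cast hz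
  have h2 : ∏ p ∈ SP s z, (1 + 3 * (s p : ℝ) ^ (2 * σ - 1)) ≤
      Real.exp (3 * K * (z : ℝ) ^ (2 * σ) * (1 + Real.log z)) := by
    have h3 : ∏ p ∈ SP s z, (1 + 3 * (s p : ℝ) ^ (2 * σ - 1)) ≤
        Real.exp (∑ p ∈ SP s z, 3 * (s p : ℝ) ^ (2 * σ - 1)) := by
      rw [Real.exp_sum]
      refine Finset.prod_le_prod (fun p _ => by positivity) fun p hp => ?_
      rw [add_comm]
      exact Real.add_one_le_exp _
    refine h3.trans (Real.exp_le_exp.mpr ?_)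
    have h4 : ∀ p ∈ SP s z, 3 * (s p : ℝ) ^ (2 * σ - 1) ≤ 3 * (z : ℝ) ^ (2 * σ) * (1 / (s p : ℝ)) := by
      intro p hp
      obtain ⟨h6, h5⟩ := hX.sys.mem_SP.mp hp
      have hp0 : (0 : ℝ) < (s p : ℝ) := hX.sys.r_pos h6.ne_zero
      have hpz : (s p : ℝ) ≤ z := by exact_mod_cast h5
      rw [Real.rpow_sub hp0, Real.rpow_one, mul_div_assoc', mul_one_div]
      have : (s p : ℝ) ^ (2 * σ) ≤ (z : ℝ) ^ (2 * σ) := Real.rpow_le_rpow hp0.le hpz (by positivity)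
      gcongr
    refine (Finset.sum_le_sum h4).trans ?_
    rw [← Finset.mul_sum]
    have h7 : ∑ p ∈ SP s z, 1 / (s p : ℝ) ≤ K * (1 + Real.log z) := by
      refine le_trans ?_ (hX.sys.sum_inv_le z)
      apply Finset.sum_le_sum_of_subset_of_nonneg
      · intro p hp
        obtain ⟨h6, h5⟩ := hX.sys.mem_SP.mp hp
        exact hX.sys.mem_SI.mpr ⟨h6.ne_zero, h5⟩
      · intro _ _ _
        positivity
    calc 3 * (z : ℝ) ^ (2 * σ) * ∑ p ∈ SP s z, 1 / (s p : ℝ) ≤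
        3 * (z : ℝ) ^ (2 * σ) * (K * (1 + Real.log z)) := by gcongr
      _ = _ := by ring
  gcongr

/-- the untruncated main term -/
noncomputable def Full (s : ℕ →*₀ ℕ) (κ B0 : ℝ) (z Y N a b : ℕ) : ℝ :=
  cc s κ B0 N a b * S0 s a b (SP s z) * R0 s a b (SP s z) Y +
      κ / 2 * S1 s a b (SP s z) * R0 s a b (SP s z) Y +
      κ / 2 * S0 s a b (SP s z) * R1 s a b (SP s z) Y

/-- **evaluation of `DN`** -/
theorem DN_eval (hX : Sx s κ K B0) : ∃ C : ℝ, 1 ≤ C ∧ ∀ z Y N a b : ℕ, a ≠ 0 → b ≠ 0 →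
    Nat.Coprime a b → 2 ≤ z → z ≤ Y → s (a * b) * (Y * Y) ^ 2 ≤ N → ∀ σ : ℝ, 0 ≤ σ → σ ≤ 1 →
    |DN s (MfS s z Y Y) (wS s z Y Y) N a b -
        (s (a * b) : ℝ) ^ (-(1 / 2) : ℝ) * Full s κ B0 z Y N a b| ≤
      4 * K ^ 3 * (Y : ℝ) ^ 4 * (N : ℝ) ^ (-(1 / 4) : ℝ) + (s (a * b) : ℝ) ^ (-(1 / 2) : ℝ) *
      ((|cc s κ B0 N a b| + κ * (K * z) + κ * Real.log Y) *
        ((C * (Real.log Y) ^ 3) * (Y : ℝ) ^ (-σ) *
        Real.exp (3 * K * (z : ℝ) ^ (2 * σ) * (1 + Real.log z))) *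
        (((a * b).divisors.card : ℝ) ^ 4 * (s (a * b) : ℝ) ^ σ)) := by
  obtain ⟨C, hC1, hC⟩ := Rt_le hX
  refine ⟨C, hC1, ?_⟩
  intro z Y N a b ha hb hab hz2 hzY hN σ hσ hσ1
  have hK : 0 < K := hX.sys.K_pos
  have hκ : 0 < κ := hX.sys.κ_pos
  have hC0 : 0 < C := by linarith
  have hY2 : 2 ≤ Y := hz2.trans hzY
  have hYr : (1 : ℝ) < Y := by exact_mod_cast hY2
  have hlY : 0 < Real.log Y := Real.log_pos hYr
  have h1 := DN_expand hX (MfS s z Y Y) (wS s z Y Y) N (Y * Y) a b ha hb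
    (fun m hm => MfS_bounds hX hm) (fun m => abs_wS_le hX hY2 m) hN
  have h2 := MM_full hX (z := z) (Y1 := Y) (Y2 := Y) (N := N) ha hb hab (by omega) hY2 hσ
  have hRt := hC a b z Y ha hb hz2 hzY
  have hRk := Rk_le hX (a := a) (b := b) (z := z) ha hb (by omega) hσ hσ1
  have hE : 0 < (s (a * b) : ℝ) ^ (-(1 / 2) : ℝ) := by
    have : (0 : ℝ) < (s (a * b) : ℝ) := hX.sys.r_pos (Nat.mul_ne_zero ha hb)
    positivity
  have hRt0 : 0 ≤ Rt s a b z Y := (abs_nonneg _).trans (abs_R0_le hX (z := z) hY2)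
  have hRk0 : 0 ≤ Rk s a b z σ := Finset.sum_nonneg fun _ _ => Finset.sum_nonneg fun _ _ =>
    mul_nonneg (GG_nonneg hX.sys _ _ _ _ _) (by positivity)
  have h3 : |MM s κ B0 z Y Y N a b - Full s κ B0 z Y N a b| ≤
      (|cc s κ B0 N a b| + κ * (K * z) + κ * Real.log Y) * ((C * (Real.log Y) ^ 3) * (Y : ℝ) ^ (-σ) *
        Real.exp (3 * K * (z : ℝ) ^ (2 * σ) * (1 + Real.log z))) *
        (((a * b).divisors.card : ℝ) ^ 4 * (s (a * b) : ℝ) ^ σ) := by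
    refine h2.trans ?_
    calc (|cc s κ B0 N a b| + κ * (K * z) + κ * Real.log Y) * Rt s a b z Y *
          ((Y : ℝ) ^ (-σ) * Rk s a b z σ)
        ≤ (|cc s κ B0 N a b| + κ * (K * z) + κ * Real.log Y) *
          ((C * (Real.log Y) ^ 3) * ((a * b).divisors.card : ℝ) ^ 2) * ((Y : ℝ) ^ (-σ) *
          (Real.exp (3 * K * (z : ℝ) ^ (2 * σ) * (1 + Real.log z)) *
            (((a * b).divisors.card : ℝ) ^ 2 * (s (a * b) : ℝ) ^ σ))) := by gcongr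
      _ = _ := by ring
  calc |DN s (MfS s z Y Y) (wS s z Y Y) N a b -
        (s (a * b) : ℝ) ^ (-(1 / 2) : ℝ) * Full s κ B0 z Y N a b|
      = |(DN s (MfS s z Y Y) (wS s z Y Y) N a b -
          (s (a * b) : ℝ) ^ (-(1 / 2) : ℝ) * MM s κ B0 z Y Y N a b) +
        (s (a * b) : ℝ) ^ (-(1 / 2) : ℝ) * (MM s κ B0 z Y Y N a b - Full s κ B0 z Y N a b)| := by
        congr 1; ring
    _ ≤ |DN s (MfS s z Y Y) (wS s z Y Y) N a b -
          (s (a * b) : ℝ) ^ (-(1 / 2) : ℝ) * MM s κ B0 z Y Y N a b| +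
        |(s (a * b) : ℝ) ^ (-(1 / 2) : ℝ) * (MM s κ B0 z Y Y N a b - Full s κ B0 z Y N a b)| :=
        abs_add_le _ _
    _ ≤ _ := by
        rw [abs_mul, abs_of_pos hE]
        refine add_le_add ?_ (mul_le_mul_of_nonneg_left h3 hE.le)
        refine h1.trans (le_of_eq ?_)
        push_cast
        ring

end Pool.Agent.H14.BN
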