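import Pool.Agent.H14.BN.Param
import Pool.Agent.H14.BN.Moll3
import Pool.Agent.H14.BN.Div
import Pool.Agent.H74.TS.Mid

/-!
# Error term and size of the constant, sized numbers

Port of `Pool/Agent/H74/TS/Mid.lean` (read its header and proof).

* `abs_cc_le'`: `κ ≤ K`, `|B0| ≤ K`: at most `K (0.5006 L + 1) ≤ K L`.
* `werr_bound`: `DN_eval hX` with `σ = 1 / (5 Z)`, the divisor bound `divisor_bound hX.sys`, `hB.exp3`
  (which has the factor `K`) and `K ^ 10 ≤ L` (`hB.KL`, `hB.KleL`).  First term: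
  `4 K^3 Y^4 N^(-1/4) ≤ 4 L exp (-0.24 L)`.
-/

namespace Pool.Agent.H14.BN

open Finset Pool.Agent.H14.PT Pool.Agent.H74.TS

variable {s : ℕ →*₀ ℕ} {κ K B0 : ℝ}

theorem abs_cc_le' (hX : Sx s κ K B0) {L : ℝ} (h : 100 ≤ L) {N a b : ℕ} (ha : a ≠ 0) (hb : b ≠ 0)
    (hN1 : 1 ≤ N) (hN2 : (N : ℝ) ≤ Real.exp (1.001 * L))
    (hab : (s (a * b) : ℝ) ≤ Real.exp (1 / 10 ^ 8 * L)) :
    |BN.cc s κ B0 N a b| ≤ K * L := by
  have hNr : (1 : ℝ) ≤ N := by exact_mod_cast hN1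
  have h1 : 0 ≤ Real.log N := Real.log_nonneg hNr
  have h2 : Real.log N ≤ 1.001 * L := by
    have := Real.log_le_log (by linarith) hN2
    rwa [Real.log_exp] at this
  have hn : (1 : ℝ) ≤ (s a : ℝ) * (s b : ℝ) := by
    rw [← s_cast_mul]
    exact hX.sys.r_one (Nat.mul_ne_zero ha hb)
  have h3 : 0 ≤ Real.log ((s a : ℝ) * (s b : ℝ)) := Real.log_nonneg hn
  have h4 : Real.log ((s a : ℝ) * (s b : ℝ)) ≤ 1 / 10 ^ 8 * L := by
    rw [s_cast_mul] at hab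
    have := Real.log_le_log (by linarith) hab
    rw [Real.log_exp] at this
    exact this
  have hκ0 := hX.sys.κ_pos
  have hκK := hX.sys.κ_le
  have hK1 := hX.sys.K_one
  have hB := abs_le.1 hX.B_le
  have e1 : κ / 2 * Real.log N ≤ K / 2 * (1.001 * L) :=
    mul_le_mul (by linarith) h2 h1 (by linarith)
  have e2 : κ / 2 * Real.log ((s a : ℝ) * (s b : ℝ)) ≤ K / 2 * (1 / 10 ^ 8 * L) :=
    mul_le_mul (by linarith) h4 h3 (by linarith)
  have e3 : 0 ≤ κ / 2 * Real.log N := by positivity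
  have e4 : 0 ≤ κ / 2 * Real.log ((s a : ℝ) * (s b : ℝ)) := by positivity
  have e5 : K * 100 ≤ K * L := mul_le_mul_of_nonneg_left h (by linarith)
  unfold BN.cc
  rw [abs_le]
  constructor <;> linarith

theorem werr_bound (hX : Sx s κ K B0) (ε : ℝ) (Z : ℕ) :
    ∃ Q0 : ℝ, ∀ L : ℝ, Q0 ≤ L → BN.Bg K ε Z L → ∀ N a b : ℕ, a ≠ 0 →
    b ≠ 0 → Nat.Coprime a b → Real.exp ((1 - ε / 1000) * L) ≤ N →
    (N : ℝ) ≤ Real.exp ((1 + ε / 1000) * L) →
    (s (a * b) : ℝ) ≤ Real.exp (kap ε Z * L) →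
    |BN.DN s (BN.MfS s (tz Z L) (ty ε L) (ty ε L)) (BN.wS s (tz Z L) (ty ε L) (ty ε L)) N a b -
      (s (a * b) : ℝ) ^ (-(1 / 2) : ℝ) * BN.Full s κ B0 (tz Z L) (ty ε L) N a b| ≤
      Real.exp (-(10 * kap ε Z) * L) := by
  by_cases hκ : 0 < kap ε Z
  swap
  · exact ⟨0, fun L _ hB => absurd hB.toBg.kpos hκ⟩
  obtain ⟨C, hC, hdiv⟩ := BN.divisor_bound hX.sys (1 / 32) (by norm_num)
  obtain ⟨C1, hC1, heval⟩ := BN.DN_eval hX
  obtain ⟨Q1, _, hQ1⟩ := poly_le_exp (Z + 4) (8 * C1 * C ^ 4) (kap ε Z) hκ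
  refine ⟨Q1, ?_⟩
  intro L hLQ1 hBK N a b ha hb hab hN1 hN2 hn
  have hB := hBK.toBg
  have hL100 := hB.hL
  have hLpos := hB.Lpos
  have hε := hB.hε
  have hε1 := hB.hε1
  have hZpos := hB.Zpos
  have hZbig := hB.Zbig
  have hLκ := hB.hLκ
  have hL24 := hB.hL24
  have hK1 := hBK.K1
  have hKL := hBK.KleL
  have hKpos : 0 < K := by linarith
  have hK2 : K ^ 2 ≤ L := (pow_le_pow_right₀ hK1 (by norm_num)).trans hBK.KL
  have hK3 : K ^ 3 ≤ L := (pow_le_pow_right₀ hK1 (by norm_num)).trans hBK.KL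
  have hκ0 := hX.sys.κ_pos
  have hκK := hX.sys.κ_le
  have hZ1 : 1 ≤ Z := by
    have : (0 : ℝ) < Z := hZpos
    exact_mod_cast this
  have hκle : kap ε Z ≤ 1 / 10 ^ 9 := by
    have h1 := hB.kle
    have h2 : ε / 10 ^ 8 ≤ 1 / 10 ^ 9 := by linarith
    linarith
  have hεL : ε / 1000 * L ≤ 1 / 10000 * L := by
    apply mul_le_mul_of_nonneg_right _ hLpos.le
    linarith
  have hκL : kap ε Z * L ≤ 1 / 10 ^ 9 * L := mul_le_mul_of_nonneg_right hκle hLpos.le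
  have hNr : (0 : ℝ) < N := lt_of_lt_of_le (Real.exp_pos _) hN1
  have hN1a : Real.exp (0.999 * L) ≤ N := by
    refine le_trans (Real.exp_le_exp.mpr ?_) hN1
    linarith
  have hN2a : (N : ℝ) ≤ Real.exp (1.001 * L) := by
    refine hN2.trans (Real.exp_le_exp.mpr ?_)
    linarith
  have hN1' : 1 ≤ N := by exact_mod_cast Nat.one_le_cast.mp (by
    have : (1 : ℝ) ≤ N := (Real.one_le_exp (by positivity)).trans hN1a
    exact this)
  have hYhi := hB.Y_hi'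
  have hYpos := hB.Y_pos
  have hnr : (1 : ℝ) ≤ (s (a * b) : ℝ) := hX.sys.r_one (Nat.mul_ne_zero ha hb)
  have hnr0 : (0 : ℝ) < (s (a * b) : ℝ) := by linarith
  have hn8 : (s (a * b) : ℝ) ≤ Real.exp (1 / 10 ^ 8 * L) := by
    refine hn.trans (Real.exp_le_exp.mpr ?_)
    linarith
  have hY4 : (ty ε L : ℝ) ^ 4 ≤ Real.exp (0.004 * L) := by
    calc (ty ε L : ℝ) ^ 4 ≤ (Real.exp (L / 1000)) ^ 4 := by gcongr
      _ = Real.exp (0.004 * L) := by rw [← Real.exp_nat_mul]; congr 1; push_cast; ring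
  have hcond : s (a * b) * (ty ε L * ty ε L) ^ 2 ≤ N := by
    have h1 : ((s (a * b) * (ty ε L * ty ε L) ^ 2 : ℕ) : ℝ) ≤ (N : ℝ) := by
      have e1 : ((s (a * b) * (ty ε L * ty ε L) ^ 2 : ℕ) : ℝ) =
          (s (a * b) : ℝ) * (ty ε L : ℝ) ^ 4 := by
        push_cast; ring
      rw [e1]
      calc (s (a * b) : ℝ) * (ty ε L : ℝ) ^ 4 ≤
            Real.exp (1 / 10 ^ 8 * L) * Real.exp (0.004 * L) := by
            gcongr
        _ = Real.exp (1 / 10 ^ 8 * L + 0.004 * L) := by rw [Real.exp_add]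
        _ ≤ Real.exp (0.999 * L) := Real.exp_le_exp.mpr (by nlinarith)
        _ ≤ N := hN1a
    exact_mod_cast h1
  have hσ0 : (0 : ℝ) ≤ 1 / (5 * Z) := by positivity
  have hσs : (1 : ℝ) / (5 * Z) ≤ 1 / 20000 := by
    apply one_div_le_one_div_of_le (by norm_num)
    linarith
  have hσ1 : (1 : ℝ) / (5 * Z) ≤ 1 := by linarith
  have hz2 : 2 ≤ tz Z L := by
    have h1 : (2 : ℝ) ≤ tz Z L := by
      refine le_trans ?_ hB.z_lo
      calc (2 : ℝ) ≤ L := by linarith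
        _ ≤ L ^ Z := le_self_pow₀ (by linarith) (by omega)
    exact_mod_cast h1
  have h := heval (tz Z L) (ty ε L) N a b ha hb hab hz2 hB.zY hcond (1 / (5 * Z)) hσ0 hσ1
  refine h.trans ?_
  -- first term
  have hLexp : L ≤ Real.exp (0.1 * L) := by
    have h1 := Real.quadratic_le_exp_of_nonneg (x := 0.1 * L) (by positivity)
    nlinarith
  have h1 : 4 * K ^ 3 * (ty ε L : ℝ) ^ 4 * (N : ℝ) ^ (-(1 / 4) : ℝ) ≤
      4 * Real.exp (-0.1 * L) := by
    have hs : (N : ℝ) ^ (-(1 / 4) : ℝ) ≤ Real.exp (-0.24 * L) := by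
      calc (N : ℝ) ^ (-(1 / 4) : ℝ) ≤ (Real.exp (0.999 * L)) ^ (-(1 / 4) : ℝ) :=
            Real.rpow_le_rpow_of_nonpos (Real.exp_pos _) hN1a (by norm_num)
        _ = Real.exp (0.999 * L * (-(1 / 4))) := by rw [← Real.exp_mul]
        _ ≤ Real.exp (-0.24 * L) := Real.exp_le_exp.mpr (by linarith)
    calc 4 * K ^ 3 * (ty ε L : ℝ) ^ 4 * (N : ℝ) ^ (-(1 / 4) : ℝ)
        ≤ 4 * Real.exp (0.1 * L) * Real.exp (0.004 * L) * Real.exp (-0.24 * L) := by
          have : K ^ 3 ≤ Real.exp (0.1 * L) := hK3.trans hLexp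
          gcongr
      _ = 4 * Real.exp (0.1 * L + 0.004 * L + -0.24 * L) := by
          rw [Real.exp_add, Real.exp_add]; ring
      _ ≤ 4 * Real.exp (-0.1 * L) := by
          have : Real.exp (0.1 * L + 0.004 * L + -0.24 * L) ≤ Real.exp (-0.1 * L) :=
            Real.exp_le_exp.mpr (by linarith)
          linarith
  -- second term
  have hcc := abs_cc_le' hX hL100 ha hb hN1' hN2a hn8
  have hLone : 1 ≤ L := by linarith
  have hlY : Real.log (ty ε L) ≤ L := by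
    have := hB.logY_hi
    linarith
  have hlY0 : 0 ≤ Real.log (ty ε L) := by
    have := hB.logY_lo
    have h2 : 0 ≤ ε / 2000 * L := by positivity
    linarith
  have hLZ : L ^ 2 ≤ L ^ (Z + 1) := pow_le_pow_right₀ hLone (by omega)
  have hA : |BN.cc s κ B0 N a b| + κ * (K * (tz Z L : ℝ)) + κ * Real.log (ty ε L) ≤
      4 * L ^ (Z + 1) := by
    have e1 : |BN.cc s κ B0 N a b| ≤ L ^ 2 := by
      refine hcc.trans ?_
      rw [pow_two]
      gcongr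
    have e2 : κ * (K * (tz Z L : ℝ)) ≤ 2 * L ^ (Z + 1) := by
      calc κ * (K * (tz Z L : ℝ)) ≤ K * (K * (2 * L ^ Z)) := by
            have := hB.z_hi
            gcongr
        _ = K ^ 2 * (2 * L ^ Z) := by ring
        _ ≤ L * (2 * L ^ Z) := by gcongr
        _ = 2 * L ^ (Z + 1) := by ring
    have e3 : κ * Real.log (ty ε L) ≤ L ^ 2 := by
      calc κ * Real.log (ty ε L) ≤ L * L := by
            have : κ ≤ L := hκK.trans hKL
            gcongr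
        _ = L ^ 2 := by ring
    linarith
  have hlY3 : C1 * Real.log (ty ε L) ^ 3 ≤ C1 * L ^ 3 := by
    gcongr
  have hYσ : (ty ε L : ℝ) ^ (-(1 / (5 * Z)) : ℝ) ≤ 2 * Real.exp (-(20 * kap ε Z) * L) := by
    have e1 : (ty ε L : ℝ) ^ (-(1 / (5 * Z)) : ℝ) ≤
        (Real.exp (ε / 1000 * L) / 2) ^ (-(1 / (5 * Z)) : ℝ) :=
      Real.rpow_le_rpow_of_nonpos (by positivity) hB.Y_lo (by linarith)
    refine e1.trans ?_
    rw [Real.div_rpow (by positivity) (by norm_num), div_eq_mul_inv, ← Real.rpow_neg (by norm_num),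
      neg_neg, mul_comm]
    have e2 : (2 : ℝ) ^ (1 / (5 * Z) : ℝ) ≤ 2 := by
      calc (2 : ℝ) ^ (1 / (5 * Z) : ℝ) ≤ (2 : ℝ) ^ (1 : ℝ) :=
            Real.rpow_le_rpow_of_exponent_le (by norm_num) hσ1
        _ = 2 := Real.rpow_one _
    have e3 : (Real.exp (ε / 1000 * L)) ^ (-(1 / (5 * Z)) : ℝ) =
        Real.exp (-(20 * kap ε Z) * L) := by
      rw [← Real.exp_mul]
      congr 1
      unfold kap
      field_simp
      norm_num
    rw [e3]
    gcongr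
  have hexp : Real.exp (3 * K * (tz Z L : ℝ) ^ (2 * (1 / (5 * Z)) : ℝ) * (1 + Real.log (tz Z L))) ≤
      Real.exp (2 * kap ε Z * L) := Real.exp_le_exp.mpr hBK.exp3
  have hτ : (s (a * b) : ℝ) ^ (-(1 / 2) : ℝ) *
      (((a * b).divisors.card : ℝ) ^ 4 * (s (a * b) : ℝ) ^ (1 / (5 * Z) : ℝ)) ≤ C ^ 4 := by
    have e1 := hdiv (a * b) (Nat.mul_ne_zero ha hb)
    set x : ℝ := (s (a * b) : ℝ) with hx
    calc x ^ (-(1 / 2) : ℝ) * (((a * b).divisors.card : ℝ) ^ 4 * x ^ (1 / (5 * Z) : ℝ))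
        ≤ x ^ (-(1 / 2) : ℝ) * ((C * x ^ (1 / 32 : ℝ)) ^ 4 * x ^ (1 / (5 * Z) : ℝ)) := by gcongr
      _ = C ^ 4 * (x ^ (-(1 / 2) : ℝ) * ((x ^ (1 / 32 : ℝ)) ^ 4 * x ^ (1 / (5 * Z) : ℝ))) := by
          ring
      _ = C ^ 4 * x ^ (-(1 / 2) + (1 / 8 + 1 / (5 * Z)) : ℝ) := by
          rw [← Real.rpow_natCast (x ^ (1 / 32 : ℝ)), ← Real.rpow_mul hnr0.le, ← Real.rpow_add hnr0,
            ← Real.rpow_add hnr0]
          norm_num
      _ ≤ C ^ 4 * 1 := by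
          gcongr
          exact Real.rpow_le_one_of_one_le_of_nonpos hnr (by linarith)
      _ = C ^ 4 := mul_one _
  have h2 : (s (a * b) : ℝ) ^ (-(1 / 2) : ℝ) *
      ((|BN.cc s κ B0 N a b| + κ * (K * (tz Z L : ℝ)) + κ * Real.log (ty ε L)) *
        ((C1 * (Real.log (ty ε L)) ^ 3) *
        (ty ε L : ℝ) ^ (-(1 / (5 * Z)) : ℝ) *
        Real.exp (3 * K * (tz Z L : ℝ) ^ (2 * (1 / (5 * Z)) : ℝ) * (1 + Real.log (tz Z L)))) *
        (((a * b).divisors.card : ℝ) ^ 4 * (s (a * b) : ℝ) ^ (1 / (5 * Z) : ℝ))) ≤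
      Real.exp (-(17 * kap ε Z) * L) := by
    calc _ = ((|BN.cc s κ B0 N a b| + κ * (K * (tz Z L : ℝ)) + κ * Real.log (ty ε L)) *
        ((C1 * (Real.log (ty ε L)) ^ 3) *
        (ty ε L : ℝ) ^ (-(1 / (5 * Z)) : ℝ) *
        Real.exp (3 * K * (tz Z L : ℝ) ^ (2 * (1 / (5 * Z)) : ℝ) * (1 + Real.log (tz Z L))))) *
        ((s (a * b) : ℝ) ^ (-(1 / 2) : ℝ) *
          (((a * b).divisors.card : ℝ) ^ 4 * (s (a * b) : ℝ) ^ (1 / (5 * Z) : ℝ))) := by ring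
      _ ≤ ((4 * L ^ (Z + 1)) * ((C1 * L ^ 3) * (2 * Real.exp (-(20 * kap ε Z) * L)) *
        Real.exp (2 * kap ε Z * L))) * C ^ 4 := by
          have hK1 : 0 ≤ |BN.cc s κ B0 N a b| + κ * (K * (tz Z L : ℝ)) +
              κ * Real.log (ty ε L) := by
            positivity
          gcongr
      _ = (8 * C1 * C ^ 4 * L ^ (Z + 4)) * (Real.exp (-(20 * kap ε Z) * L) *
          Real.exp (2 * kap ε Z * L)) := by
          rw [pow_add, pow_add]
          ring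
      _ ≤ Real.exp (kap ε Z * L) * (Real.exp (-(20 * kap ε Z) * L) *
          Real.exp (2 * kap ε Z * L)) := by
          gcongr
          exact hQ1 L hLQ1
      _ = Real.exp (-(17 * kap ε Z) * L) := by
          rw [← Real.exp_add, ← Real.exp_add]; congr 1; ring
  have h3 : Real.exp (-0.1 * L) ≤ Real.exp (-(17 * kap ε Z) * L) :=
    Real.exp_le_exp.mpr (by linarith)
  have h4 : 5 ≤ Real.exp (kap ε Z * L) := by
    have := Real.add_one_le_exp (kap ε Z * L)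
    linarith
  have hp := Real.exp_pos (-(17 * kap ε Z) * L)
  calc _ ≤ 4 * Real.exp (-0.1 * L) + Real.exp (-(17 * kap ε Z) * L) := add_le_add h1 h2
    _ ≤ 5 * Real.exp (-(17 * kap ε Z) * L) := by
        linarith
    _ ≤ Real.exp (kap ε Z * L) * Real.exp (-(17 * kap ε Z) * L) := by gcongr
    _ ≤ Real.exp (-(10 * kap ε Z) * L) := by
        rw [← Real.exp_add]
        exact Real.exp_le_exp.mpr (by linarith)

end Pool.Agent.H14.BN
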