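import Pool.Agent.H14.BN.Rough2
import Pool.Agent.H14.PT.Moll

/-!
# The mollifier, sized numbers

Port of `Pool/Agent/H14/PT/Moll.lean` (`Pr_union` is used from there): `Nat.primesLE z` becomes `SP s z`,
`Pr A ≤ Y1` becomes `s (Pr A) ≤ Y1`, `z < p` becomes `z < s p`.
-/

namespace Pool.Agent.H14.BN

open Finset ArithmeticFunction Pool.Agent.H14.PT
open scoped ArithmeticFunction.Moebius

variable {s : ℕ →*₀ ℕ} {κ K B0 : ℝ}

/-- sets of small primes with product at most `Y1` -/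
noncomputable def T1 (s : ℕ →*₀ ℕ) (z Y1 : ℕ) : Finset (Finset ℕ) :=
  (SP s z).powerset.filter (fun A => s (Pr A) ≤ Y1)

/-- sets of rough primes with product at most `Y2` -/
noncomputable def T2 (s : ℕ →*₀ ℕ) (z Y2 : ℕ) : Finset (Finset ℕ) := TS s (SP s z) Y2 Y2

/-- support of the mollifier -/
noncomputable def MfS (s : ℕ →*₀ ℕ) (z Y1 Y2 : ℕ) : Finset ℕ :=
  ((T1 s z Y1) ×ˢ (T2 s z Y2)).image (fun X => Pr X.1 * Pr X.2)

/-- coefficients of the mollifier -/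
noncomputable def wS (s : ℕ →*₀ ℕ) (z Y1 Y2 : ℕ) (m : ℕ) : ℝ :=
  if m ∈ MfS s z Y1 Y2 then (μ m : ℝ) * Lam s Y2 (Pr (m.primeFactors.filter (fun p => z < s p))) else 0

lemma mem_T1 (hX : Sx s κ K B0) {z Y1 : ℕ} {A : Finset ℕ} : A ∈ T1 s z Y1 ↔ A ⊆ SP s z ∧ s (Pr A) ≤ Y1 := by
  unfold T1
  rw [Finset.mem_filter, Finset.mem_powerset]

lemma mem_T2 (hX : Sx s κ K B0) {z Y2 : ℕ} {A : Finset ℕ} :
    A ∈ T2 s z Y2 ↔ A ⊆ rs s (SP s z) Y2 ∧ (s (Pr A) : ℝ) ≤ Y2 := mem_TS hX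

lemma prime_small (hX : Sx s κ K B0) {z : ℕ} {A : Finset ℕ} (hA : A ⊆ SP s z) : ∀ p ∈ A, p.Prime ∧ s p ≤ z :=
  fun p hp => ⟨(hX.sys.mem_SP.mp (hA hp)).1, (hX.sys.mem_SP.mp (hA hp)).2⟩

lemma prime_rough (hX : Sx s κ K B0) {z Y : ℕ} {A : Finset ℕ} (hA : A ⊆ rs s (SP s z) Y) :
    ∀ p ∈ A, p.Prime ∧ z < s p ∧ s p ≤ Y := by
  intro p hp
  have h := hA hp
  rw [rs, Finset.mem_sdiff, hX.sys.mem_SP, hX.sys.mem_SP] at h
  refine ⟨h.1.1, ?_, h.1.2⟩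
  by_contra h2
  exact h.2 ⟨h.1.1, by omega⟩

lemma disj_AB (hX : Sx s κ K B0) {z Y : ℕ} {A B : Finset ℕ} (hA : A ⊆ SP s z)
    (hB : B ⊆ rs s (SP s z) Y) : Disjoint A B := by
  rw [Finset.disjoint_left]
  intro p hp hp'
  have h1 := (prime_small hX hA p hp).2
  have h2 := (prime_rough hX hB p hp').2.1
  omega

lemma rough_filter (hX : Sx s κ K B0) {z Y : ℕ} {A B : Finset ℕ} (hA : A ⊆ SP s z)
    (hB : B ⊆ rs s (SP s z) Y) : (A ∪ B).filter (fun p => z < s p) = B := by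
  ext p
  rw [Finset.mem_filter, Finset.mem_union]
  constructor
  · rintro ⟨h | h, h2⟩
    · have := (prime_small hX hA p h).2; omega
    · exact h
  · intro h
    exact ⟨Or.inr h, (prime_rough hX hB p h).2.1⟩

lemma small_filter (hX : Sx s κ K B0) {z Y : ℕ} {A B : Finset ℕ} (hA : A ⊆ SP s z)
    (hB : B ⊆ rs s (SP s z) Y) : (A ∪ B).filter (fun p => ¬ z < s p) = A := by
  ext p
  rw [Finset.mem_filter, Finset.mem_union]
  constructor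
  · rintro ⟨h | h, h2⟩
    · exact h
    · exact absurd (prime_rough hX hB p h).2.1 h2
  · intro h
    refine ⟨Or.inl h, ?_⟩
    have := (prime_small hX hA p h).2; omega

lemma pf_union (hX : Sx s κ K B0) {z Y : ℕ} {A B : Finset ℕ} (hA : A ⊆ SP s z)
    (hB : B ⊆ rs s (SP s z) Y) : (Pr A * Pr B).primeFactors = A ∪ B := by
  rw [← Pr_union (disj_AB hX hA hB)]
  apply primeFactors_Pr
  intro p hp
  rcases Finset.mem_union.mp hp with h | h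
  · exact (prime_small hX hA p h).1
  · exact (prime_rough hX hB p h).1

lemma union_prime (hX : Sx s κ K B0) {z Y : ℕ} {A B : Finset ℕ} (hA : A ⊆ SP s z)
    (hB : B ⊆ rs s (SP s z) Y) : ∀ p ∈ A ∪ B, p.Prime := by
  intro p hp
  rcases Finset.mem_union.mp hp with h | h
  · exact (prime_small hX hA p h).1
  · exact (prime_rough hX hB p h).1

/-- conversion of sums over the support -/
lemma sum_MfS (hX : Sx s κ K B0) (z Y1 Y2 : ℕ) (F : ℕ → ℝ) :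
    ∑ m ∈ MfS s z Y1 Y2, F m = ∑ A ∈ T1 s z Y1, ∑ B ∈ T2 s z Y2, F (Pr A * Pr B) := by
  unfold MfS
  rw [Finset.sum_image, Finset.sum_product]
  intro X hXX X' hXX' h
  simp only [Finset.coe_product, Set.mem_prod, Finset.mem_coe] at hXX hXX'
  have a1 := ((mem_T1 hX).mp hXX.1).1
  have a2 := ((mem_T2 hX).mp hXX.2).1
  have b1 := ((mem_T1 hX).mp hXX'.1).1
  have b2 := ((mem_T2 hX).mp hXX'.2).1
  have h' : Pr X.1 * Pr X.2 = Pr X'.1 * Pr X'.2 := h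
  have e1 : X.1 ∪ X.2 = X'.1 ∪ X'.2 := by rw [← pf_union hX a1 a2, ← pf_union hX b1 b2, h']
  have e2 : X.2 = X'.2 := by rw [← rough_filter hX a1 a2, ← rough_filter hX b1 b2, e1]
  have e3 : X.1 = X'.1 := by rw [← small_filter hX a1 a2, ← small_filter hX b1 b2, e1]
  exact Prod.ext e3 e2

lemma mem_MfS (hX : Sx s κ K B0) {z Y1 Y2 : ℕ} {A B : Finset ℕ} (hA : A ∈ T1 s z Y1) (hB : B ∈ T2 s z Y2) :
    Pr A * Pr B ∈ MfS s z Y1 Y2 :=
  Finset.mem_image.mpr ⟨(A, B), Finset.mem_product.mpr ⟨hA, hB⟩, rfl⟩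

lemma wS_eq (hX : Sx s κ K B0) {z Y1 Y2 : ℕ} {A B : Finset ℕ} (hA : A ∈ T1 s z Y1) (hB : B ∈ T2 s z Y2) :
    wS s z Y1 Y2 (Pr A * Pr B) = (-1) ^ A.card * cf s Y2 B := by
  have a1 := ((mem_T1 hX).mp hA).1
  have a2 := ((mem_T2 hX).mp hB).1
  unfold wS
  rw [if_pos (mem_MfS hX hA hB), pf_union hX a1 a2, rough_filter hX a1 a2, ← Pr_union (disj_AB hX a1 a2),
    moebius_Pr (union_prime hX a1 a2), Finset.card_union_of_disjoint (disj_AB hX a1 a2)]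
  unfold cf
  rw [pow_add]
  ring

lemma Lam_bounds (hX : Sx s κ K B0) {Y n : ℕ} (hn : n ≠ 0) (hnY : s n ≤ Y) (hY : 2 ≤ Y) : 0 ≤ Lam s Y n ∧ Lam s Y n ≤ 1 := by
  have hY1 : (1 : ℝ) < Y := by exact_mod_cast hY
  have hn0 : (0 : ℝ) < (s n : ℝ) := hX.sys.r_pos hn
  have hn1 : (1 : ℝ) ≤ (s n : ℝ) := hX.sys.r_one hn
  have hnY' : (s n : ℝ) ≤ Y := by exact_mod_cast hnY
  have hlY : 0 < Real.log Y := Real.log_pos hY1
  unfold Lam
  constructor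
  · apply div_nonneg _ hlY.le
    apply Real.log_nonneg
    rw [le_div_iff₀ hn0, one_mul]
    exact hnY'
  · rw [div_le_one hlY]
    apply Real.log_le_log (by positivity)
    rw [div_le_iff₀ hn0]
    nlinarith

lemma MfS_bounds (hX : Sx s κ K B0) {z Y1 Y2 m : ℕ} (hm : m ∈ MfS s z Y1 Y2) : 1 ≤ m ∧ s m ≤ Y1 * Y2 := by
  obtain ⟨X, hXX, rfl⟩ := Finset.mem_image.mp hm
  obtain ⟨h1, h2⟩ := Finset.mem_product.mp hXX
  obtain ⟨a1, a2⟩ := (mem_T1 hX).mp h1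
  obtain ⟨b1, b2⟩ := (mem_T2 hX).mp h2
  refine ⟨Nat.mul_pos (Pr_pos fun p hp => (prime_small hX a1 p hp).1)
    (Pr_pos fun p hp => (prime_rough hX b1 p hp).1), ?_⟩
  change s (Pr X.1 * Pr X.2) ≤ _
  rw [map_mul]
  refine Nat.mul_le_mul a2 ?_
  exact_mod_cast b2

lemma abs_wS_le (hX : Sx s κ K B0) {z Y1 Y2 : ℕ} (hY : 2 ≤ Y2) (m : ℕ) : |wS s z Y1 Y2 m| ≤ 1 := by
  by_cases hm : m ∈ MfS s z Y1 Y2
  · obtain ⟨X, hXX, rfl⟩ := Finset.mem_image.mp hm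
    obtain ⟨h1, h2⟩ := Finset.mem_product.mp hXX
    rw [wS_eq hX h1 h2]
    unfold cf
    obtain ⟨b1, b2⟩ := (mem_T2 hX).mp h2
    have hb2 : s (Pr X.2) ≤ Y2 := by exact_mod_cast b2
    obtain ⟨l1, l2⟩ := Lam_bounds hX (Pr_ne_zero fun p hp => (prime_rough hX b1 p hp).1) hb2 hY
    rw [abs_mul, abs_mul, abs_pow, abs_pow, abs_neg, abs_one, one_pow, one_pow, one_mul, one_mul,
      abs_of_nonneg l1]
    exact l2
  · unfold wS
    rw [if_neg hm]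
    simp

lemma empty_mem_T1 (hX : Sx s κ K B0) {z Y1 : ℕ} (hY : 1 ≤ Y1) : ∅ ∈ T1 s z Y1 := by
  rw [mem_T1 hX]
  exact ⟨Finset.empty_subset _, by simpa [Pr] using hY⟩

lemma empty_mem_T2 (hX : Sx s κ K B0) {z Y2 : ℕ} (hY : 1 ≤ Y2) : ∅ ∈ T2 s z Y2 := by
  rw [mem_T2 hX]
  refine ⟨Finset.empty_subset _, ?_⟩
  simp only [Pr, Finset.prod_empty, map_one, Nat.cast_one]
  exact_mod_cast hY

lemma one_mem_MfS (hX : Sx s κ K B0) {z Y1 Y2 : ℕ} (hY1 : 1 ≤ Y1) (hY : 2 ≤ Y2) : 1 ∈ MfS s z Y1 Y2 := by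
  have := mem_MfS hX (z := z) (empty_mem_T1 hX (z := z) hY1) (empty_mem_T2 hX (z := z) (show 1 ≤ Y2 by omega))
  simpa [Pr] using this

lemma wS_one (hX : Sx s κ K B0) {z Y1 Y2 : ℕ} (hY1 : 1 ≤ Y1) (hY : 2 ≤ Y2) : wS s z Y1 Y2 1 = 1 := by
  have h := wS_eq hX (z := z) (empty_mem_T1 hX (z := z) hY1) (empty_mem_T2 hX (z := z) (show 1 ≤ Y2 by omega))
  simp only [Pr, Finset.prod_empty, mul_one, Finset.card_empty, pow_zero, one_mul, cf, Lam] at h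
  rw [h]
  have hY1' : (1 : ℝ) < Y2 := by exact_mod_cast hY
  have hlY : 0 < Real.log Y2 := Real.log_pos hY1'
  simp only [map_one, Nat.cast_one, div_one]
  exact div_self hlY.ne'

end Pool.Agent.H14.BN
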