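import Pool.Agent.H14.BN.Moll
import Pool.Agent.H14.PT.Moll2

/-!
# Factorisation of the main term into small and rough parts, sized numbers

Port of the first part of `Pool/Agent/H14/PT/Moll2.lean` (up to `MM_eq`), with
`κ/2 log N + B0 + κ/2 log (...)` in place of `1/2 log N + γ + 1/2 log (...)`.
-/

namespace Pool.Agent.H14.BN

open Finset ArithmeticFunction Pool.Agent.H14.PT
open scoped ArithmeticFunction.Moebius

variable {s : ℕ →*₀ ℕ} {κ K B0 : ℝ}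

lemma decide_union_left (hX : Sx s κ K B0) {z Y : ℕ} {A1 A2 : Finset ℕ}
    (hA2 : A2 ⊆ rs s (SP s z) Y) {p : ℕ} (hp : p ∈ SP s z) :
    decide (p ∈ A1 ∪ A2) = decide (p ∈ A1) := by
  have h : p ∉ A2 := fun h => (Finset.mem_sdiff.mp (hA2 h)).2 hp
  simp [h]

lemma decide_union_right (hX : Sx s κ K B0) {z Y : ℕ} {A1 A2 : Finset ℕ}
    (hA1 : A1 ⊆ SP s z) {p : ℕ} (hp : p ∈ rs s (SP s z) Y) :
    decide (p ∈ A1 ∪ A2) = decide (p ∈ A2) := by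
  have h : p ∉ A1 := fun h => (Finset.mem_sdiff.mp hp).2 (hA1 h)
  simp [h]

lemma GG_union (hX : Sx s κ K B0) (a b : ℕ) {z Y : ℕ} {A1 A2 B1 B2 : Finset ℕ} (hA1 : A1 ⊆ SP s z)
    (hA2 : A2 ⊆ rs s (SP s z) Y) (hB1 : B1 ⊆ SP s z)
    (hB2 : B2 ⊆ rs s (SP s z) Y) :
    GG s a b (SP s z ∪ rs s (SP s z) Y) (A1 ∪ A2) (B1 ∪ B2) =
      GG s a b (SP s z) A1 B1 * GG s a b (rs s (SP s z) Y) A2 B2 := by
  unfold GG
  rw [Finset.prod_union (disj_AB hX (Finset.Subset.refl _) (Finset.Subset.refl _))]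
  congr 1
  · refine Finset.prod_congr rfl fun p hp => ?_
    rw [decide_union_left hX hA2 hp, decide_union_left hX hB2 hp]
  · refine Finset.prod_congr rfl fun p hp => ?_
    rw [decide_union_right hX hA1 hp, decide_union_right hX hB1 hp]

lemma LL_union (hX : Sx s κ K B0) (a b : ℕ) {z Y : ℕ} {A1 A2 B1 B2 : Finset ℕ} (hA1 : A1 ⊆ SP s z)
    (hA2 : A2 ⊆ rs s (SP s z) Y) (hB1 : B1 ⊆ SP s z)
    (hB2 : B2 ⊆ rs s (SP s z) Y) :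
    LL s a b (SP s z ∪ rs s (SP s z) Y) (A1 ∪ A2) (B1 ∪ B2) =
      LL s a b (SP s z) A1 B1 + LL s a b (rs s (SP s z) Y) A2 B2 := by
  unfold LL
  rw [Finset.sum_union (disj_AB hX (Finset.Subset.refl _) (Finset.Subset.refl _))]
  congr 1
  · refine Finset.sum_congr rfl fun p hp => ?_
    rw [decide_union_left hX hA2 hp, decide_union_left hX hB2 hp]
  · refine Finset.sum_congr rfl fun p hp => ?_
    rw [decide_union_right hX hA1 hp, decide_union_right hX hB1 hp]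

/-- the main term of `DN` -/
noncomputable def MM (s : ℕ →*₀ ℕ) (κ B0 : ℝ) (z Y1 Y2 N a b : ℕ) : ℝ :=
  ∑ m ∈ MfS s z Y1 Y2, ∑ m' ∈ MfS s z Y1 Y2, wS s z Y1 Y2 m * wS s z Y1 Y2 m' *
      ((s (Nat.gcd (a * m') (b * m)) : ℝ) / ((s m : ℝ) * (s m' : ℝ))) *
      (κ / 2 * Real.log N + B0 + κ / 2 *
        Real.log ((s (Nat.gcd (a * m') (b * m)) : ℝ) ^ 2 / ((s a : ℝ) * (s b : ℝ) * (s m : ℝ) * (s m' : ℝ))))

/-- the constant -/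
noncomputable def cc (s : ℕ →*₀ ℕ) (κ B0 : ℝ) (N a b : ℕ) : ℝ :=
  κ / 2 * Real.log N + B0 - κ / 2 * Real.log ((s a : ℝ) * (s b : ℝ))

lemma MM_eq (hX : Sx s κ K B0) {z Y1 Y2 N a b : ℕ} (ha : a ≠ 0) (hb : b ≠ 0) (hab : Nat.Coprime a b) :
    MM s κ B0 z Y1 Y2 N a b = ∑ A1 ∈ T1 s z Y1, ∑ B1 ∈ T1 s z Y1,
      (-1) ^ A1.card * (-1) ^ B1.card * GG s a b (SP s z) A1 B1 *
      ((cc s κ B0 N a b + κ / 2 * LL s a b (SP s z) A1 B1) * R0 s a b (SP s z) Y2 +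
        κ / 2 * R1 s a b (SP s z) Y2) := by
  have har : (0 : ℝ) < s a := hX.sys.r_pos ha
  have hbr : (0 : ℝ) < s b := hX.sys.r_pos hb
  unfold MM
  rw [sum_MfS hX]
  have hterm : ∀ A1 ∈ T1 s z Y1, ∀ A2 ∈ T2 s z Y2, ∀ B1 ∈ T1 s z Y1, ∀ B2 ∈ T2 s z Y2,
      wS s z Y1 Y2 (Pr A1 * Pr A2) * wS s z Y1 Y2 (Pr B1 * Pr B2) *
      ((s (Nat.gcd (a * (Pr B1 * Pr B2)) (b * (Pr A1 * Pr A2))) : ℝ) /
        ((s (Pr A1 * Pr A2) : ℝ) * (s (Pr B1 * Pr B2) : ℝ))) *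
      (κ / 2 * Real.log N + B0 + κ / 2 *
        Real.log ((s (Nat.gcd (a * (Pr B1 * Pr B2)) (b * (Pr A1 * Pr A2))) : ℝ) ^ 2 /
          ((s a : ℝ) * (s b : ℝ) * (s (Pr A1 * Pr A2) : ℝ) * (s (Pr B1 * Pr B2) : ℝ)))) =
      ((-1) ^ A1.card * (-1) ^ B1.card * GG s a b (SP s z) A1 B1) *
        ((cc s κ B0 N a b + κ / 2 * LL s a b (SP s z) A1 B1) *
          (cf s Y2 A2 * cf s Y2 B2 * GG s a b (rs s (SP s z) Y2) A2 B2) + κ / 2 *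
          (cf s Y2 A2 * cf s Y2 B2 * GG s a b (rs s (SP s z) Y2) A2 B2 *
            LL s a b (rs s (SP s z) Y2) A2 B2)) := by
    intro A1 hA1 A2 hA2 B1 hB1 B2 hB2
    have a1 := ((mem_T1 hX).mp hA1).1
    have a2 := ((mem_T2 hX).mp hA2).1
    have b1 := ((mem_T1 hX).mp hB1).1
    have b2 := ((mem_T2 hX).mp hB2).1
    have hs : ∀ p ∈ SP s z ∪ rs s (SP s z) Y2, p.Prime :=
      union_prime hX (Finset.Subset.refl _) (Finset.Subset.refl _)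
    have hA : A1 ∪ A2 ⊆ SP s z ∪ rs s (SP s z) Y2 := Finset.union_subset_union a1 a2
    have hB : B1 ∪ B2 ⊆ SP s z ∪ rs s (SP s z) Y2 := Finset.union_subset_union b1 b2
    have hPA : Pr (A1 ∪ A2) ≠ 0 := Pr_ne_zero (union_prime hX a1 a2)
    have hPB : Pr (B1 ∪ B2) ≠ 0 := Pr_ne_zero (union_prime hX b1 b2)
    have hPAr : (0 : ℝ) < s (Pr (A1 ∪ A2)) := hX.sys.r_pos hPA
    have hPBr : (0 : ℝ) < s (Pr (B1 ∪ B2)) := hX.sys.r_pos hPB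
    have hg : (0 : ℝ) < (s (Nat.gcd (a * Pr (B1 ∪ B2)) (b * Pr (A1 ∪ A2))) : ℝ) :=
      hX.sys.r_pos (Nat.gcd_pos_of_pos_left _ (Nat.pos_of_ne_zero (Nat.mul_ne_zero ha hPB))).ne'
    rw [wS_eq hX hA1 hA2, wS_eq hX hB1 hB2, ← Pr_union (disj_AB hX a1 a2),
      ← Pr_union (disj_AB hX b1 b2)]
    have hlog : Real.log ((s (Nat.gcd (a * Pr (B1 ∪ B2)) (b * Pr (A1 ∪ A2))) : ℝ) ^ 2 /
          ((s a : ℝ) * (s b : ℝ) * (s (Pr (A1 ∪ A2)) : ℝ) * (s (Pr (B1 ∪ B2)) : ℝ))) =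
        LL s a b (SP s z) A1 B1 + LL s a b (rs s (SP s z) Y2) A2 B2 -
          Real.log ((s a : ℝ) * (s b : ℝ)) := by
      have e1 : (s (Nat.gcd (a * Pr (B1 ∪ B2)) (b * Pr (A1 ∪ A2))) : ℝ) ^ 2 /
          ((s a : ℝ) * (s b : ℝ) * (s (Pr (A1 ∪ A2)) : ℝ) * (s (Pr (B1 ∪ B2)) : ℝ)) =
          ((s (Nat.gcd (a * Pr (B1 ∪ B2)) (b * Pr (A1 ∪ A2))) : ℝ) ^ 2 /
          ((s (Pr (A1 ∪ A2)) : ℝ) * (s (Pr (B1 ∪ B2)) : ℝ))) / ((s a : ℝ) * (s b : ℝ)) := by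
        field_simp
      rw [e1, Real.log_div (by positivity) (by positivity), log_eq hX.sys hs hA hB ha hb hab,
        LL_union hX a b a1 a2 b1 b2]
    rw [hlog, ratio_eq hX.sys hs hA hB ha hb hab, GG_union hX a b a1 a2 b1 b2]
    unfold cc
    ring
  have hstep : ∑ A1 ∈ T1 s z Y1, ∑ A2 ∈ T2 s z Y2, ∑ m' ∈ MfS s z Y1 Y2,
      wS s z Y1 Y2 (Pr A1 * Pr A2) * wS s z Y1 Y2 m' *
      ((s (Nat.gcd (a * m') (b * (Pr A1 * Pr A2))) : ℝ) /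
        ((s (Pr A1 * Pr A2) : ℝ) * (s m' : ℝ))) *
      (κ / 2 * Real.log N + B0 + κ / 2 *
        Real.log ((s (Nat.gcd (a * m') (b * (Pr A1 * Pr A2))) : ℝ) ^ 2 /
          ((s a : ℝ) * (s b : ℝ) * (s (Pr A1 * Pr A2) : ℝ) * (s m' : ℝ)))) =
      ∑ A1 ∈ T1 s z Y1, ∑ A2 ∈ T2 s z Y2, ∑ B1 ∈ T1 s z Y1, ∑ B2 ∈ T2 s z Y2,
      ((-1) ^ A1.card * (-1) ^ B1.card * GG s a b (SP s z) A1 B1) *
        ((cc s κ B0 N a b + κ / 2 * LL s a b (SP s z) A1 B1) *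
          (cf s Y2 A2 * cf s Y2 B2 * GG s a b (rs s (SP s z) Y2) A2 B2) + κ / 2 *
          (cf s Y2 A2 * cf s Y2 B2 * GG s a b (rs s (SP s z) Y2) A2 B2 *
            LL s a b (rs s (SP s z) Y2) A2 B2)) := by
    refine Finset.sum_congr rfl fun A1 hA1 => Finset.sum_congr rfl fun A2 hA2 => ?_
    rw [sum_MfS hX]
    refine Finset.sum_congr rfl fun B1 hB1 => Finset.sum_congr rfl fun B2 hB2 => ?_
    exact hterm A1 hA1 A2 hA2 B1 hB1 B2 hB2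
  rw [hstep]
  refine Finset.sum_congr rfl fun A1 hA1 => ?_
  rw [Finset.sum_comm]
  refine Finset.sum_congr rfl fun B1 hB1 => ?_
  unfold R0 R1 T2
  simp_rw [← Finset.mul_sum, Finset.sum_add_distrib, ← Finset.mul_sum]

end Pool.Agent.H14.BN
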