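import Pool.Agent.H14.BN.Moll2

/-!
# Comparison with the untruncated main term, sized numbers

Port of the second part of `Pool/Agent/H14/PT/Moll2.lean` (from `Rt` on; `abs_le'_le` is used from there).
`log_Pr_small`: `log (s (Pr A)) = ∑_{p ∈ A} log (s p) ≤ ∑_{p ∈ SP s z} log (s p) ≤ K z` (`cheb`).
In `MM_full` the bound `z log 4` becomes `K z`, and `1/2` becomes `κ/2`.
-/

namespace Pool.Agent.H14.BN

open Finset ArithmeticFunction Pool.Agent.H14.PT
open scoped ArithmeticFunction.Moebius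

variable {s : ℕ →*₀ ℕ} {κ K B0 : ℝ}

/-- absolute rough double sum -/
noncomputable def Rt (s : ℕ →*₀ ℕ) (a b z Y2 : ℕ) : ℝ :=
  ∑ A ∈ (rs s (SP s z) Y2).powerset, ∑ B ∈ (rs s (SP s z) Y2).powerset,
    GG s a b (rs s (SP s z) Y2) A B

/-- weighted absolute small double sum -/
noncomputable def Rk (s : ℕ →*₀ ℕ) (a b z : ℕ) (σ : ℝ) : ℝ :=
  ∑ A ∈ (SP s z).powerset, ∑ B ∈ (SP s z).powerset,
    GG s a b (SP s z) A B * ((s (Pr A) : ℝ) * (s (Pr B) : ℝ)) ^ σ

lemma abs_LL_le (hX : Sx s κ K B0) (a b : ℕ) {P A B : Finset ℕ} (hP : ∀ p ∈ P, p.Prime) (hA : A ⊆ P) (hB : B ⊆ P) :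
    |LL s a b P A B| ≤ Real.log (s (Pr A)) + Real.log (s (Pr B)) := by
  have hlog : ∀ A ⊆ P, Real.log (s (Pr A) : ℝ) = ∑ p ∈ P, Real.log (s p) * ((decide (p ∈ A)).toNat : ℝ) := by
    intro A hA
    rw [Pr_eq_prod hA, s_cast_prod]
    simp only [s_cast_pow]
    rw [Real.log_prod (fun p hp => pow_ne_zero _ (hX.sys.r_pos (hP p hp).ne_zero).ne')]
    refine Finset.sum_congr rfl fun p _ => by rw [Real.log_pow]; ring
  rw [hlog A hA, hlog B hB, ← Finset.sum_add_distrib]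
  unfold LL
  refine (Finset.abs_sum_le_sum_abs _ _).trans (Finset.sum_le_sum fun p hp => ?_)
  have hlp : 0 ≤ Real.log (s p) := hX.sys.log_nonneg p
  rw [abs_mul, abs_of_nonneg hlp, ← mul_add]
  exact mul_le_mul_of_nonneg_left (abs_le'_le a b p _ _) hlp

lemma abs_cf_le (hX : Sx s κ K B0) {z Y2 : ℕ} (hY : 2 ≤ Y2) {A : Finset ℕ} (hA : A ∈ T2 s z Y2) : |cf s Y2 A| ≤ 1 := by
  obtain ⟨b1, b2⟩ := (mem_T2 hX).mp hA
  have hb2 : s (Pr A) ≤ Y2 := by exact_mod_cast b2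
  obtain ⟨l1, l2⟩ := Lam_bounds hX (Pr_ne_zero fun p hp => (prime_rough hX b1 p hp).1) hb2 hY
  unfold cf
  rw [abs_mul, abs_pow, abs_neg, abs_one, one_pow, one_mul, abs_of_nonneg l1]
  exact l2

lemma abs_R0_le (hX : Sx s κ K B0) {a b z Y2 : ℕ} (hY : 2 ≤ Y2) : |R0 s a b (SP s z) Y2| ≤ Rt s a b z Y2 := by
  unfold R0 Rt
  have hsub : TS s (SP s z) Y2 Y2 ⊆ (rs s (SP s z) Y2).powerset := Finset.filter_subset _ _
  calc _ ≤ ∑ A ∈ TS s (SP s z) Y2 Y2, ∑ B ∈ TS s (SP s z) Y2 Y2,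
        GG s a b (rs s (SP s z) Y2) A B := by
        refine (Finset.abs_sum_le_sum_abs _ _).trans (Finset.sum_le_sum fun A hA => ?_)
        refine (Finset.abs_sum_le_sum_abs _ _).trans (Finset.sum_le_sum fun B hB => ?_)
        rw [abs_mul, abs_mul, abs_of_nonneg (GG_nonneg hX.sys _ _ _ _ _)]
        have h1 : |cf s Y2 A| * |cf s Y2 B| ≤ 1 * 1 := by
          gcongr
          · exact abs_cf_le hX hY hA
          · exact abs_cf_le hX hY hB
        rw [one_mul] at h1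
        exact mul_le_of_le_one_left (GG_nonneg hX.sys _ _ _ _ _) h1
    _ ≤ _ := by
        refine (Finset.sum_le_sum fun A _ => Finset.sum_le_sum_of_subset_of_nonneg hsub
          fun _ _ _ => GG_nonneg hX.sys _ _ _ _ _).trans
          (Finset.sum_le_sum_of_subset_of_nonneg hsub fun _ _ _ =>
            Finset.sum_nonneg fun _ _ => GG_nonneg hX.sys _ _ _ _ _)

lemma abs_R1_le (hX : Sx s κ K B0) {a b z Y2 : ℕ} (hY : 2 ≤ Y2) :
    |R1 s a b (SP s z) Y2| ≤ 2 * Real.log Y2 * Rt s a b z Y2 := by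
  unfold R1 Rt
  have hsub : TS s (SP s z) Y2 Y2 ⊆ (rs s (SP s z) Y2).powerset := Finset.filter_subset _ _
  have hY1 : (1 : ℝ) < Y2 := by exact_mod_cast hY
  have hlY : 0 < Real.log Y2 := Real.log_pos hY1
  calc _ ≤ ∑ A ∈ TS s (SP s z) Y2 Y2, ∑ B ∈ TS s (SP s z) Y2 Y2,
        2 * Real.log Y2 * GG s a b (rs s (SP s z) Y2) A B := by
        refine (Finset.abs_sum_le_sum_abs _ _).trans (Finset.sum_le_sum fun A hA => ?_)
        refine (Finset.abs_sum_le_sum_abs _ _).trans (Finset.sum_le_sum fun B hB => ?_)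
        rw [abs_mul, abs_mul, abs_mul, abs_of_nonneg (GG_nonneg hX.sys _ _ _ _ _)]
        have h1 : |cf s Y2 A| * |cf s Y2 B| ≤ 1 * 1 := by
          gcongr
          · exact abs_cf_le hX hY hA
          · exact abs_cf_le hX hY hB
        rw [one_mul] at h1
        have hA' := (mem_TS hX).mp hA
        have hB' := (mem_TS hX).mp hB
        have h2 := abs_LL_le hX a b (fun p hp => rs_prime hX hp) hA'.1 hB'.1
        have hPA : (0 : ℝ) < (s (Pr A) : ℝ) := hX.sys.r_pos (Pr_ne_zero fun p hp => rs_prime hX (hA'.1 hp))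
        have hPB : (0 : ℝ) < (s (Pr B) : ℝ) := hX.sys.r_pos (Pr_ne_zero fun p hp => rs_prime hX (hB'.1 hp))
        have h3 := Real.log_le_log hPA hA'.2
        have h4 := Real.log_le_log hPB hB'.2
        have hG := GG_nonneg hX.sys a b (rs s (SP s z) Y2) A B
        calc |cf s Y2 A| * |cf s Y2 B| * GG s a b (rs s (SP s z) Y2) A B *
              |LL s a b (rs s (SP s z) Y2) A B|
            ≤ 1 * GG s a b (rs s (SP s z) Y2) A B * (2 * Real.log Y2) := by
              gcongr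
              linarith
          _ = _ := by ring
    _ ≤ _ := by
        rw [Finset.mul_sum]
        simp_rw [Finset.mul_sum]
        refine (Finset.sum_le_sum fun A _ => Finset.sum_le_sum_of_subset_of_nonneg hsub
          fun _ _ _ => mul_nonneg (by positivity) (GG_nonneg hX.sys _ _ _ _ _)).trans
          (Finset.sum_le_sum_of_subset_of_nonneg hsub fun _ _ _ =>
            Finset.sum_nonneg fun _ _ => mul_nonneg (by positivity) (GG_nonneg hX.sys _ _ _ _ _))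

lemma log_Pr_small (hX : Sx s κ K B0) {z : ℕ} {A : Finset ℕ} (hA : A ⊆ SP s z) :
    Real.log (s (Pr A)) ≤ K * z := by
  have h1 : Real.log (s (Pr A) : ℝ) = ∑ p ∈ A, Real.log (s p) := by
    unfold Pr
    rw [s_cast_prod, Real.log_prod (fun p hp =>
      (hX.sys.r_pos (prime_small hX hA p hp).1.ne_zero).ne')]
  rw [h1]
  exact (Finset.sum_le_sum_of_subset_of_nonneg hA fun p _ _ => hX.sys.log_nonneg p).trans
    (hX.sys.cheb z)

/-- **comparison with the untruncated main term** -/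
theorem MM_full (hX : Sx s κ K B0) {z Y1 Y2 N a b : ℕ} (ha : a ≠ 0) (hb : b ≠ 0) (hab : Nat.Coprime a b)
    (hY1 : 1 ≤ Y1) (hY : 2 ≤ Y2) {σ : ℝ} (hσ : 0 ≤ σ) :
    |MM s κ B0 z Y1 Y2 N a b - (cc s κ B0 N a b * S0 s a b (SP s z) * R0 s a b (SP s z) Y2 +
      κ / 2 * S1 s a b (SP s z) * R0 s a b (SP s z) Y2 +
      κ / 2 * S0 s a b (SP s z) * R1 s a b (SP s z) Y2)| ≤
      (|cc s κ B0 N a b| + κ * (K * z) + κ * Real.log Y2) * Rt s a b z Y2 * ((Y1 : ℝ) ^ (-σ) * Rk s a b z σ) := by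
  classical
  have hκ : 0 < κ := hX.sys.κ_pos
  have hK00 : 0 < K := hX.sys.K_pos
  set s1 := SP s z with hs1
  set U := s1.powerset with hU
  set E : Finset ℕ → Finset ℕ → ℝ := fun A1 B1 => (-1) ^ A1.card * (-1) ^ B1.card * GG s a b s1 A1 B1 *
      ((cc s κ B0 N a b + κ / 2 * LL s a b s1 A1 B1) * R0 s a b s1 Y2 + κ / 2 * R1 s a b s1 Y2) with hE
  have hT : T1 s z Y1 ⊆ U := Finset.filter_subset _ _
  have hfull : cc s κ B0 N a b * S0 s a b s1 * R0 s a b s1 Y2 + κ / 2 * S1 s a b s1 * R0 s a b s1 Y2 +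
      κ / 2 * S0 s a b s1 * R1 s a b s1 Y2 = ∑ A1 ∈ U, ∑ B1 ∈ U, E A1 B1 := by
    have e1 : ∀ A1 B1, E A1 B1 = (cc s κ B0 N a b * R0 s a b s1 Y2 + κ / 2 * R1 s a b s1 Y2) *
        ((-1) ^ A1.card * (-1) ^ B1.card * GG s a b s1 A1 B1) + (κ / 2 * R0 s a b s1 Y2) *
        ((-1) ^ A1.card * (-1) ^ B1.card * GG s a b s1 A1 B1 * LL s a b s1 A1 B1) := by
      intro A1 B1
      simp only [hE]
      ring
    simp_rw [e1, Finset.sum_add_distrib, ← Finset.mul_sum]
    unfold S0 S1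
    ring
  have hMM : MM s κ B0 z Y1 Y2 N a b = ∑ A1 ∈ U, ∑ B1 ∈ U,
      (if A1 ∈ T1 s z Y1 ∧ B1 ∈ T1 s z Y1 then E A1 B1 else 0) := by
    rw [MM_eq hX ha hb hab]
    rw [← Finset.sum_subset hT (f := fun A1 => ∑ B1 ∈ U,
      (if A1 ∈ T1 s z Y1 ∧ B1 ∈ T1 s z Y1 then E A1 B1 else 0))]
    · refine Finset.sum_congr rfl fun A1 hA1 => ?_
      rw [← Finset.sum_subset hT]
      · refine Finset.sum_congr rfl fun B1 hB1 => ?_
        rw [if_pos ⟨hA1, hB1⟩]
      · intro B1 _ hB1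
        rw [if_neg (fun h => hB1 h.2)]
    · intro A1 _ hA1
      refine Finset.sum_eq_zero fun B1 _ => ?_
      rw [if_neg (fun h => hA1 h.1)]
  rw [hfull, hMM, ← Finset.sum_sub_distrib]
  have hY1r : (0 : ℝ) < Y1 := by exact_mod_cast hY1
  have hY2r : (1 : ℝ) < Y2 := by exact_mod_cast hY
  have hlY : 0 < Real.log Y2 := Real.log_pos hY2r
  have hRt : 0 ≤ Rt s a b z Y2 := (abs_nonneg _).trans (abs_R0_le hX (z := z) hY)
  set L := (|cc s κ B0 N a b| + κ * (K * z) + κ * Real.log Y2) * Rt s a b z Y2 with hL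
  have hL0 : 0 ≤ L := by rw [hL]; positivity
  have hterm : ∀ A1 ∈ U, ∀ B1 ∈ U,
      |(if A1 ∈ T1 s z Y1 ∧ B1 ∈ T1 s z Y1 then E A1 B1 else 0) - E A1 B1| ≤
      L * (Y1 : ℝ) ^ (-σ) * (GG s a b s1 A1 B1 * ((s (Pr A1) : ℝ) * (s (Pr B1) : ℝ)) ^ σ) := by
    intro A1 hA1 B1 hB1
    have hA1' := Finset.mem_powerset.mp hA1
    have hB1' := Finset.mem_powerset.mp hB1
    have hG := GG_nonneg hX.sys a b s1 A1 B1
    have hPAr : (1 : ℝ) ≤ (s (Pr A1) : ℝ) :=
      hX.sys.r_one (Pr_ne_zero fun p hp => (prime_small hX hA1' p hp).1)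
    have hPBr : (1 : ℝ) ≤ (s (Pr B1) : ℝ) :=
      hX.sys.r_one (Pr_ne_zero fun p hp => (prime_small hX hB1' p hp).1)
    split_ifs with h
    · rw [sub_self, abs_zero]
      positivity
    · rw [zero_sub, abs_neg]
      have hbig : (Y1 : ℝ) ≤ (s (Pr A1) : ℝ) * (s (Pr B1) : ℝ) := by
        rcases not_and_or.mp h with h1 | h1
        · have h2 : Y1 < s (Pr A1) := by
            by_contra h3
            exact h1 ((mem_T1 hX).mpr ⟨hA1', by omega⟩)
          have h3 : (Y1 : ℝ) ≤ (s (Pr A1) : ℝ) := by exact_mod_cast h2.le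
          nlinarith
        · have h2 : Y1 < s (Pr B1) := by
            by_contra h3
            exact h1 ((mem_T1 hX).mpr ⟨hB1', by omega⟩)
          have h3 : (Y1 : ℝ) ≤ (s (Pr B1) : ℝ) := by exact_mod_cast h2.le
          nlinarith
      have h1 : 1 ≤ (Y1 : ℝ) ^ (-σ) * ((s (Pr A1) : ℝ) * (s (Pr B1) : ℝ)) ^ σ := by
        have e1 : (Y1 : ℝ) ^ σ ≤ ((s (Pr A1) : ℝ) * (s (Pr B1) : ℝ)) ^ σ :=
          Real.rpow_le_rpow hY1r.le hbig hσ
        calc (1 : ℝ) = (Y1 : ℝ) ^ (-σ) * (Y1 : ℝ) ^ σ := by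
              rw [← Real.rpow_add hY1r]; simp
          _ ≤ _ := by gcongr
      have h2 : |E A1 B1| ≤ GG s a b s1 A1 B1 * L := by
        simp only [hE]
        rw [abs_mul, abs_mul, abs_mul, abs_pow, abs_pow, abs_neg, abs_one, one_pow, one_pow, one_mul,
          one_mul, abs_of_nonneg hG]
        refine mul_le_mul_of_nonneg_left ?_ hG
        have h3 : |LL s a b s1 A1 B1| ≤ 2 * (K * z) := by
          have e1 := abs_LL_le hX a b (fun p hp => (hX.sys.mem_SP.mp hp).1) hA1' hB1'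
          have e2 := log_Pr_small hX hA1'
          have e3 := log_Pr_small hX hB1'
          linarith
        have h4 := abs_R0_le hX (a := a) (b := b) (z := z) hY
        have h5 := abs_R1_le hX (a := a) (b := b) (z := z) hY
        have hκ2 : 0 < κ / 2 := by positivity
        calc |(cc s κ B0 N a b + κ / 2 * LL s a b s1 A1 B1) * R0 s a b s1 Y2 + κ / 2 * R1 s a b s1 Y2|
            ≤ |(cc s κ B0 N a b + κ / 2 * LL s a b s1 A1 B1) * R0 s a b s1 Y2| +
              |κ / 2 * R1 s a b s1 Y2| := abs_add_le _ _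
          _ = |cc s κ B0 N a b + κ / 2 * LL s a b s1 A1 B1| * |R0 s a b s1 Y2| +
              κ / 2 * |R1 s a b s1 Y2| := by
              rw [abs_mul, abs_mul, abs_of_pos hκ2]
          _ ≤ (|cc s κ B0 N a b| + κ * (K * z)) * Rt s a b z Y2 +
              κ / 2 * (2 * Real.log Y2 * Rt s a b z Y2) := by
              have e4 : |cc s κ B0 N a b + κ / 2 * LL s a b s1 A1 B1| ≤
                  |cc s κ B0 N a b| + κ * (K * z) := by
                refine (abs_add_le _ _).trans ?_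
                rw [abs_mul, abs_of_pos hκ2]
                have e5 := mul_le_mul_of_nonneg_left h3 hκ2.le
                linarith
              gcongr
          _ = L := by rw [hL]; ring
      calc |E A1 B1| ≤ GG s a b s1 A1 B1 * L := h2
        _ = GG s a b s1 A1 B1 * L * 1 := by ring
        _ ≤ GG s a b s1 A1 B1 * L *
            ((Y1 : ℝ) ^ (-σ) * ((s (Pr A1) : ℝ) * (s (Pr B1) : ℝ)) ^ σ) :=
            mul_le_mul_of_nonneg_left h1 (by positivity)
        _ = _ := by ring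
  calc _ ≤ ∑ A1 ∈ U, ∑ B1 ∈ U, L * (Y1 : ℝ) ^ (-σ) *
        (GG s a b s1 A1 B1 * ((s (Pr A1) : ℝ) * (s (Pr B1) : ℝ)) ^ σ) := by
        refine (Finset.abs_sum_le_sum_abs _ _).trans (Finset.sum_le_sum fun A1 hA1 => ?_)
        rw [← Finset.sum_sub_distrib]
        exact (Finset.abs_sum_le_sum_abs _ _).trans (Finset.sum_le_sum fun B1 hB1 => hterm A1 hA1 B1 hB1)
    _ = _ := by
        simp_rw [← Finset.mul_sum]
        unfold Rk
        ring

end Pool.Agent.H14.BN
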