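import Pool.Agent.H14.BN.SecA
import Pool.Agent.H14.BN.Chars
import Pool.Agent.H74.TS.Mom

/-!
# The twisted second moment over a product set, and removal of the bad characters, sized numbers

Port of `Pool/Agent/H74/TS/Mom.lean` and of `norm_Mol_le`, `norm_TT_le`, `norm_TT_le2` of
`Pool/Agent/H14/PT/S2b.lean`.

* `sum_PN_sub`: for every `χ ∈ 𝒜` and every `η ∈ Bad` there is at most one `ψ` with `χ ψ = η`.
* `wmoment_le`: as there; if the gcd `t` of `m n₁` and `m' n₂` has class `0` then the prime `r` of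
  `hM.zero` divides `m n₁` and `m' n₂`; as `s m, s m' ≤ Y < Q = s r`, it divides `n₁` and `n₂`, so
  `s n₁ s n₂ ≥ Q²`, a contradiction.
* `norm_TT_le2`: for fixed `n₁`, `∑_{s n₂ ≤ N / s n₁} (s n₂)^(-1/2) ≤ 2 K √(N / s n₁)`
  (`hS.sum_rsqrt_le`), then `hS.sum_inv_le`.
-/

namespace Pool.Agent.H14.BN

open Finset Pool.Agent.H14.PT Pool.Agent.H74.TS
open scoped ComplexConjugate

universe u

variable {s : ℕ →*₀ ℕ} {κ K B0 : ℝ} {W : Type u} [CommGroupWithZero W]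

/-- the pairs whose product is not bad -/
noncomputable def PN (Bad 𝒜 ℬ : Finset (MulChar W ℂ)) : Finset (MulChar W ℂ × MulChar W ℂ) :=
  open Classical in (𝒜 ×ˢ ℬ).filter (fun x => x.1 * x.2 ∉ Bad)

theorem sum_pairs (cl : ℕ →*₀ W) (𝒜 ℬ : Finset (MulChar W ℂ)) (a b : ℕ) :
    ∑ x ∈ 𝒜 ×ˢ ℬ, (x.1 * x.2) (cl a) * conj ((x.1 * x.2) (cl b)) =
      BN.fc cl 𝒜 (a, b) * BN.fc cl ℬ (a, b) := by
  unfold BN.fc
  rw [Finset.sum_mul_sum, Finset.sum_product]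
  refine Finset.sum_congr rfl fun χ _ => Finset.sum_congr rfl fun ψ _ => ?_
  simp only [MulChar.mul_apply, map_mul]
  ring

theorem fc_red [Finite W] (cl : ℕ →*₀ W) (𝒜 : Finset (MulChar W ℂ)) (a b t : ℕ) (ht : cl t ≠ 0) :
    BN.fc cl 𝒜 (a * t, b * t) = BN.fc cl 𝒜 (a, b) := by
  unfold BN.fc
  refine Finset.sum_congr rfl fun χ _ => ?_
  have h4 : χ (cl t) * conj (χ (cl t)) = 1 := by
    rw [BN.conj_chi, ← map_mul, mul_inv_cancel₀ ht, map_one]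
  simp only [map_mul]
  calc χ (cl a) * χ (cl t) * (conj (χ (cl b)) * conj (χ (cl t)))
      = χ (cl a) * conj (χ (cl b)) * (χ (cl t) * conj (χ (cl t))) := by ring
    _ = _ := by rw [h4, mul_one]

theorem mom_quads (hS : Sys s κ K) (cl : ℕ →*₀ W) (𝒜 ℬ : Finset (MulChar W ℂ)) (Mf : Finset ℕ)
    (w : ℕ → ℝ) (N : ℕ) :
    ∑ x ∈ 𝒜 ×ˢ ℬ, ((‖BN.Mol s cl Mf w (x.1 * x.2)‖ ^ 2 : ℝ) : ℂ) * BN.TT s cl (x.1 * x.2) N =
      ∑ i ∈ BN.quads s Mf N, ((BN.qw s w i : ℝ) : ℂ) *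
        (BN.fc cl 𝒜 (i.1.1 * i.2.1, i.1.2 * i.2.2) *
          BN.fc cl ℬ (i.1.1 * i.2.1, i.1.2 * i.2.2)) := by
  simp_rw [BN.mollified_term hS]
  rw [Finset.sum_comm]
  refine Finset.sum_congr rfl fun i _ => ?_
  rw [← Finset.mul_sum, BN.sum_pairs]

lemma mom_ww (cl : ℕ →*₀ W) (𝒜 ℬ : Finset (MulChar W ℂ)) (h𝒜 : 𝒜.Nonempty) (hℬ : ℬ.Nonempty)
    (p : ℕ × ℕ) :
    ‖BN.fc cl 𝒜 p * BN.fc cl ℬ p‖ =
      ((𝒜.card : ℝ) * ℬ.card) * BN.ww (BN.va cl 𝒜) (BN.va cl ℬ) p := by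
  have hA : (0 : ℝ) < 𝒜.card := by exact_mod_cast h𝒜.card_pos
  have hB : (0 : ℝ) < ℬ.card := by exact_mod_cast hℬ.card_pos
  unfold BN.ww BN.va
  rw [← mul_pow, Real.sqrt_sq (by positivity), norm_mul]
  field_simp

theorem wmoment_le [Finite W] (hS : Sys s κ K) {cl : ℕ →*₀ W} {Q : ℕ} (hM : Md s K cl Q)
    (𝒜 ℬ : Finset (MulChar W ℂ)) (h𝒜 : 𝒜.Nonempty) (hℬ : ℬ.Nonempty)
    (Mf : Finset ℕ) (w : ℕ → ℝ) (N Y : ℕ) (hMf : ∀ m ∈ Mf, 1 ≤ m ∧ s m ≤ Y) (hYq : Y < Q)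
    (hNq : N < Q ^ 2) :
    ‖∑ x ∈ 𝒜 ×ˢ ℬ, ((‖BN.Mol s cl Mf w (x.1 * x.2)‖ ^ 2 : ℝ) : ℂ) * BN.TT s cl (x.1 * x.2) N‖ ≤
      ((𝒜.card : ℝ) * ℬ.card) *
        ∑ p ∈ BN.RQ s (Y ^ 2 * N), BN.ww (BN.va cl 𝒜) (BN.va cl ℬ) p * |BN.DN s Mf w N p.1 p.2| := by
  classical
  rw [BN.mom_quads hS]
  set r : (ℕ × ℕ) × (ℕ × ℕ) → ℕ × ℕ := fun i =>
    ((i.1.1 * i.2.1) / Nat.gcd (i.1.1 * i.2.1) (i.1.2 * i.2.2),
     (i.1.2 * i.2.2) / Nat.gcd (i.1.1 * i.2.1) (i.1.2 * i.2.2)) with hr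
  obtain ⟨rr, hrp, hrQ, hr0⟩ := hM.zero
  have hquad : ∀ i ∈ BN.quads s Mf N, (1 ≤ i.1.1 ∧ s i.1.1 ≤ Y) ∧ (1 ≤ i.1.2 ∧ s i.1.2 ≤ Y) ∧
      i.2.1 ≠ 0 ∧ i.2.2 ≠ 0 ∧ s i.2.1 * s i.2.2 ≤ N := by
    intro i hi
    rw [BN.mem_quads hS] at hi
    exact ⟨hMf _ hi.1, hMf _ hi.2.1, hi.2.2.1, hi.2.2.2.1, hi.2.2.2.2⟩
  have hdvd : ∀ m n : ℕ, 1 ≤ m → s m ≤ Y → rr ∣ m * n → rr ∣ n := by
    intro m n h1 h2 h3
    rcases (Nat.Prime.dvd_mul hrp).mp h3 with h | h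
    · have := hS.le_of_dvd h (by omega)
      omega
    · exact h
  have hunit : ∀ i ∈ BN.quads s Mf N, cl (Nat.gcd (i.1.1 * i.2.1) (i.1.2 * i.2.2)) ≠ 0 := by
    intro i hi h0
    obtain ⟨⟨a1, a2⟩, ⟨a3, a4⟩, a5, a6, a7⟩ := hquad i hi
    rw [hr0] at h0
    have h3 : rr ∣ i.2.1 := hdvd _ _ a1 a2 (h0.trans (Nat.gcd_dvd_left _ _))
    have h4 : rr ∣ i.2.2 := hdvd _ _ a3 a4 (h0.trans (Nat.gcd_dvd_right _ _))
    have h5 : Q ≤ s i.2.1 := hrQ ▸ hS.le_of_dvd h3 a5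
    have h6 : Q ≤ s i.2.2 := hrQ ▸ hS.le_of_dvd h4 a6
    have h7 : Q ^ 2 ≤ N := by
      calc Q ^ 2 = Q * Q := sq Q
        _ ≤ s i.2.1 * s i.2.2 := Nat.mul_le_mul h5 h6
        _ ≤ N := a7
    omega
  have hpos : ∀ i ∈ BN.quads s Mf N, i.1.1 * i.2.1 ≠ 0 ∧ i.1.2 * i.2.2 ≠ 0 := by
    intro i hi
    obtain ⟨⟨a1, a2⟩, ⟨a3, a4⟩, a5, a6, a7⟩ := hquad i hi
    exact ⟨Nat.mul_ne_zero (by omega) a5, Nat.mul_ne_zero (by omega) a6⟩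
  have hmaps : ∀ i ∈ BN.quads s Mf N, r i ∈ BN.RQ s (Y ^ 2 * N) := by
    intro i hiq
    obtain ⟨hx, hy⟩ := hpos i hiq
    obtain ⟨⟨a1, a2⟩, ⟨a3, a4⟩, a5, a6, a7⟩ := hquad i hiq
    have hg : 0 < Nat.gcd (i.1.1 * i.2.1) (i.1.2 * i.2.2) :=
      Nat.gcd_pos_of_pos_left _ (Nat.pos_of_ne_zero hx)
    rw [BN.mem_RQ hS]
    simp only [hr]
    refine ⟨⟨Nat.coprime_div_gcd_div_gcd hg, ?_, ?_⟩, ?_⟩
    · exact (Nat.div_pos (Nat.le_of_dvd (Nat.pos_of_ne_zero hx) (Nat.gcd_dvd_left _ _)) hg).ne'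
    · exact (Nat.div_pos (Nat.le_of_dvd (Nat.pos_of_ne_zero hy) (Nat.gcd_dvd_right _ _)) hg).ne'
    · have e1 : s ((i.1.1 * i.2.1) / Nat.gcd (i.1.1 * i.2.1) (i.1.2 * i.2.2)) ≤
          s (i.1.1 * i.2.1) := hS.le_of_dvd (Nat.div_dvd_of_dvd (Nat.gcd_dvd_left _ _)) hx
      have e2 : s ((i.1.2 * i.2.2) / Nat.gcd (i.1.1 * i.2.1) (i.1.2 * i.2.2)) ≤
          s (i.1.2 * i.2.2) := hS.le_of_dvd (Nat.div_dvd_of_dvd (Nat.gcd_dvd_right _ _)) hy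
      rw [map_mul]
      calc s ((i.1.1 * i.2.1) / Nat.gcd (i.1.1 * i.2.1) (i.1.2 * i.2.2)) *
            s ((i.1.2 * i.2.2) / Nat.gcd (i.1.1 * i.2.1) (i.1.2 * i.2.2))
          ≤ s (i.1.1 * i.2.1) * s (i.1.2 * i.2.2) := Nat.mul_le_mul e1 e2
        _ = (s i.1.1 * s i.1.2) * (s i.2.1 * s i.2.2) := by rw [map_mul, map_mul]; ring
        _ ≤ (Y * Y) * N := Nat.mul_le_mul (Nat.mul_le_mul a2 a4) a7
        _ = Y ^ 2 * N := by ring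
  rw [← Finset.sum_fiberwise_of_maps_to hmaps, Finset.mul_sum]
  refine (norm_sum_le _ _).trans (Finset.sum_le_sum fun p hp => ?_)
  obtain ⟨⟨hcop, hp1, hp2⟩, _⟩ := (BN.mem_RQ hS).mp hp
  have hfib : (BN.quads s Mf N).filter (fun i => r i = p) =
      (BN.quads s Mf N).filter (fun i => i.1.1 * i.2.1 * p.2 = i.1.2 * i.2.2 * p.1) := by
    ext i
    simp only [hr, mem_filter, Prod.ext_iff]
    constructor
    · rintro ⟨h1, h3⟩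
      exact ⟨h1, (red_iff (hpos i h1).1 hcop).mp h3⟩
    · rintro ⟨h1, h2⟩
      exact ⟨h1, (red_iff (hpos i h1).1 hcop).mpr h2⟩
  rw [hfib]
  have hval : ∑ i ∈ (BN.quads s Mf N).filter (fun i => i.1.1 * i.2.1 * p.2 = i.1.2 * i.2.2 * p.1),
      ((BN.qw s w i : ℝ) : ℂ) * (BN.fc cl 𝒜 (i.1.1 * i.2.1, i.1.2 * i.2.2) *
        BN.fc cl ℬ (i.1.1 * i.2.1, i.1.2 * i.2.2)) =
      (BN.fc cl 𝒜 p * BN.fc cl ℬ p) * ((BN.DN s Mf w N p.1 p.2 : ℝ) : ℂ) := by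
    unfold BN.DN
    rw [Complex.ofReal_sum, Finset.mul_sum]
    refine Finset.sum_congr rfl fun i hi => ?_
    obtain ⟨h1, h2⟩ := Finset.mem_filter.mp hi
    have h3 := (red_iff (hpos i h1).1 hcop).mpr h2
    have ex := Nat.div_mul_cancel (Nat.gcd_dvd_left (i.1.1 * i.2.1) (i.1.2 * i.2.2))
    have ey := Nat.div_mul_cancel (Nat.gcd_dvd_right (i.1.1 * i.2.1) (i.1.2 * i.2.2))
    rw [h3.1] at ex
    rw [h3.2] at ey
    have hu := hunit i h1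
    have e1 := BN.fc_red cl 𝒜 p.1 p.2 _ hu
    have e2 := BN.fc_red cl ℬ p.1 p.2 _ hu
    rw [ex, ey] at e1 e2
    rw [e1, e2]
    ring
  rw [hval, norm_mul, BN.mom_ww cl 𝒜 ℬ h𝒜 hℬ, Complex.norm_real, Real.norm_eq_abs]
  exact le_of_eq (by ring)

theorem sum_PN_sub (Bad 𝒜 ℬ : Finset (MulChar W ℂ)) (F : MulChar W ℂ → ℂ) (E : ℝ)
    (hE : ∀ η ∈ Bad, ‖F η‖ ≤ E) :
    ‖∑ x ∈ 𝒜 ×ˢ ℬ, F (x.1 * x.2) - ∑ x ∈ BN.PN Bad 𝒜 ℬ, F (x.1 * x.2)‖ ≤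
      𝒜.card * (Bad.card * E) := by
  classical
  have h1 : ∑ x ∈ 𝒜 ×ˢ ℬ, F (x.1 * x.2) = ∑ x ∈ BN.PN Bad 𝒜 ℬ, F (x.1 * x.2) +
      ∑ x ∈ (𝒜 ×ˢ ℬ).filter (fun x => ¬ (x.1 * x.2 ∉ Bad)), F (x.1 * x.2) := by
    unfold BN.PN
    rw [← Finset.sum_filter_add_sum_filter_not (𝒜 ×ˢ ℬ) (fun x => x.1 * x.2 ∉ Bad)]
  have h2 : ∑ x ∈ 𝒜 ×ˢ ℬ, F (x.1 * x.2) - ∑ x ∈ BN.PN Bad 𝒜 ℬ, F (x.1 * x.2) =
      ∑ x ∈ (𝒜 ×ˢ ℬ).filter (fun x => ¬ (x.1 * x.2 ∉ Bad)), F (x.1 * x.2) := by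
    rw [h1]; ring
  rw [h2]
  rcases Bad.eq_empty_or_nonempty with hB | ⟨η0, hη0⟩
  · rw [hB]
    simp
  have hE0 : 0 ≤ E := (norm_nonneg _).trans (hE η0 hη0)
  have h3 : ∀ x ∈ (𝒜 ×ˢ ℬ).filter (fun x => ¬ (x.1 * x.2 ∉ Bad)), ‖F (x.1 * x.2)‖ ≤ E := by
    intro x hx
    have := (Finset.mem_filter.mp hx).2
    push Not at this
    exact hE _ this
  refine (norm_sum_le _ _).trans ((Finset.sum_le_sum h3).trans ?_)
  rw [Finset.sum_const, nsmul_eq_mul, ← mul_assoc]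
  refine mul_le_mul_of_nonneg_right ?_ hE0
  have h4 : ((𝒜 ×ˢ ℬ).filter (fun x => ¬ (x.1 * x.2 ∉ Bad))).card ≤ (𝒜 ×ˢ Bad).card := by
    refine Finset.card_le_card_of_injOn (fun x => (x.1, x.1 * x.2)) ?_ ?_
    · intro x hx
      have h5 := Finset.mem_filter.mp hx
      have h6 := h5.2
      push Not at h6
      exact Finset.mem_product.mpr ⟨(Finset.mem_product.mp h5.1).1, h6⟩
    · intro x hx y hy hxy
      have hxy' : (x.1, x.1 * x.2) = (y.1, y.1 * y.2) := hxy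
      have h7 : x.1 = y.1 := (Prod.mk.inj hxy').1
      have h8 : x.1 * x.2 = y.1 * y.2 := (Prod.mk.inj hxy').2
      refine Prod.ext h7 ?_
      rw [h7] at h8
      exact mul_left_cancel h8
  rw [Finset.card_product] at h4
  exact_mod_cast h4

theorem norm_Mol_le [Finite W] (hS : Sys s κ K) (cl : ℕ →*₀ W) (Mf : Finset ℕ) (w : ℕ → ℝ)
    (χ : MulChar W ℂ) {Y : ℕ} (hMf : ∀ m ∈ Mf, 1 ≤ m ∧ s m ≤ Y) (hw : ∀ m, |w m| ≤ 1) :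
    ‖BN.Mol s cl Mf w χ‖ ≤ K * Y := by
  unfold BN.Mol
  refine (norm_sum_le _ _).trans ?_
  have h1 : ∀ m ∈ Mf, ‖((w m * (s m : ℝ) ^ (-(1 / 2) : ℝ) : ℝ) : ℂ) * χ (cl m)‖ ≤ 1 := by
    intro m hm
    have hm0 : m ≠ 0 := by have := (hMf m hm).1; omega
    rw [norm_mul, Complex.norm_real, Real.norm_eq_abs, abs_mul,
      abs_of_nonneg (by positivity : (0 : ℝ) ≤ (s m : ℝ) ^ (-(1 / 2) : ℝ))]
    have h2 : (s m : ℝ) ^ (-(1 / 2) : ℝ) ≤ 1 :=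
      Real.rpow_le_one_of_one_le_of_nonpos (hS.r_one hm0) (by norm_num)
    calc |w m| * (s m : ℝ) ^ (-(1 / 2) : ℝ) * ‖χ (cl m)‖ ≤ 1 * 1 * 1 := by
          gcongr
          · exact hw m
          · exact BN.norm_chi_le _ _
      _ = 1 := by norm_num
  refine (Finset.sum_le_sum h1).trans ?_
  rw [Finset.sum_const, nsmul_eq_mul, mul_one]
  refine hS.card_le_real Mf Y (Nat.cast_nonneg Y) ?_
  intro m hm
  refine ⟨by have := (hMf m hm).1; omega, by exact_mod_cast (hMf m hm).2⟩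

lemma norm_TT_term [Finite W] (s : ℕ →*₀ ℕ) (cl : ℕ →*₀ W) (χ : MulChar W ℂ) (n : ℕ × ℕ) :
    ‖χ (cl n.1) * conj (χ (cl n.2)) * ((((s (n.1 * n.2) : ℝ)) ^ (-(1 / 2) : ℝ) : ℝ) : ℂ)‖ ≤
      ((s (n.1 * n.2) : ℝ)) ^ (-(1 / 2) : ℝ) := by
  rw [norm_mul, norm_mul, RCLike.norm_conj, Complex.norm_real, Real.norm_of_nonneg (by positivity)]
  have h2 : ‖χ (cl n.1)‖ * ‖χ (cl n.2)‖ ≤ 1 := by
    calc _ ≤ (1 : ℝ) * 1 := by
          gcongr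
          · exact BN.norm_chi_le _ _
          · exact BN.norm_chi_le _ _
      _ = 1 := by norm_num
  exact mul_le_of_le_one_left (by positivity) h2

theorem norm_TT_le [Finite W] (hS : Sys s κ K) (cl : ℕ →*₀ W) (χ : MulChar W ℂ) (N : ℕ) :
    ‖BN.TT s cl χ N‖ ≤ K ^ 2 * (N : ℝ) ^ 2 := by
  unfold BN.TT
  refine (norm_sum_le _ _).trans ?_
  have h1 : ∀ n ∈ BN.hyp s N, ‖χ (cl n.1) * conj (χ (cl n.2)) *
      ((((s (n.1 * n.2) : ℝ)) ^ (-(1 / 2) : ℝ) : ℝ) : ℂ)‖ ≤ 1 := by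
    intro n hn
    refine (BN.norm_TT_term s cl χ n).trans ?_
    obtain ⟨h1, h2, _⟩ := (BN.mem_hyp hS).mp hn
    exact Real.rpow_le_one_of_one_le_of_nonpos (hS.r_one (Nat.mul_ne_zero h1 h2)) (by norm_num)
  refine (Finset.sum_le_sum h1).trans ?_
  rw [Finset.sum_const, nsmul_eq_mul, mul_one]
  have h3 : (BN.hyp s N).card ≤ (SI s N).card * (SI s N).card := by
    unfold BN.hyp
    refine (Finset.card_filter_le _ _).trans ?_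
    rw [card_product]
  have h4 := hS.card_le N
  calc ((BN.hyp s N).card : ℝ) ≤ (((SI s N).card * (SI s N).card : ℕ) : ℝ) := by exact_mod_cast h3
    _ = ((SI s N).card : ℝ) * ((SI s N).card : ℝ) := by push_cast; ring
    _ ≤ (K * N) * (K * N) := mul_le_mul h4 h4 (Nat.cast_nonneg _)
        (mul_nonneg hS.K_pos.le (Nat.cast_nonneg _))
    _ = _ := by ring

theorem norm_TT_le2 [Finite W] (hS : Sys s κ K) (cl : ℕ →*₀ W) (χ : MulChar W ℂ) (N : ℕ) :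
    ‖BN.TT s cl χ N‖ ≤ 2 * K ^ 2 * Real.sqrt N * (1 + Real.log N) := by
  classical
  unfold BN.TT
  refine (norm_sum_le _ _).trans ((Finset.sum_le_sum fun n _ => BN.norm_TT_term s cl χ n).trans ?_)
  have hK := hS.K_pos
  -- the sum over the pairs as an iterated sum
  have h1 : ∑ n ∈ BN.hyp s N, ((s (n.1 * n.2) : ℝ)) ^ (-(1 / 2) : ℝ) =
      ∑ a ∈ SI s N, ∑ b ∈ (SI s N).filter (fun b => s a * s b ≤ N),
        ((s (a * b) : ℝ)) ^ (-(1 / 2) : ℝ) := by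
    unfold BN.hyp
    rw [Finset.sum_filter, Finset.sum_product]
    refine Finset.sum_congr rfl fun a _ => ?_
    rw [Finset.sum_filter]
  rw [h1]
  have h2 : ∀ a ∈ SI s N, ∑ b ∈ (SI s N).filter (fun b => s a * s b ≤ N),
      ((s (a * b) : ℝ)) ^ (-(1 / 2) : ℝ) ≤ 2 * K * Real.sqrt N * (1 / (s a : ℝ)) := by
    intro a ha
    obtain ⟨ha0, haN⟩ := hS.mem_SI.mp ha
    have hsa := hS.r_pos ha0
    have e1 : (SI s N).filter (fun b => s a * s b ≤ N) ⊆ SI s (N / s a) := by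
      intro b hb
      obtain ⟨hb1, hb2⟩ := Finset.mem_filter.mp hb
      rw [hS.mem_SI]
      refine ⟨(hS.mem_SI.mp hb1).1, ?_⟩
      rw [Nat.le_div_iff_mul_le (hS.s_pos ha0)]
      rw [mul_comm] at hb2
      exact hb2
    calc ∑ b ∈ (SI s N).filter (fun b => s a * s b ≤ N), ((s (a * b) : ℝ)) ^ (-(1 / 2) : ℝ)
        ≤ ∑ b ∈ SI s (N / s a), ((s (a * b) : ℝ)) ^ (-(1 / 2) : ℝ) :=
          Finset.sum_le_sum_of_subset_of_nonneg e1 fun _ _ _ => by positivity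
      _ = (s a : ℝ) ^ (-(1 / 2) : ℝ) * ∑ b ∈ SI s (N / s a), (s b : ℝ) ^ (-(1 / 2) : ℝ) := by
          rw [Finset.mul_sum]
          refine Finset.sum_congr rfl fun b _ => ?_
          rw [s_cast_mul, Real.mul_rpow (by positivity) (by positivity)]
      _ ≤ (s a : ℝ) ^ (-(1 / 2) : ℝ) * (2 * K * Real.sqrt ((N / s a : ℕ) : ℝ)) := by
          gcongr
          exact hS.sum_rsqrt_le _
      _ ≤ (s a : ℝ) ^ (-(1 / 2) : ℝ) * (2 * K * (Real.sqrt N / Real.sqrt (s a))) := by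
          gcongr
          rw [← Real.sqrt_div (Nat.cast_nonneg N)]
          exact Real.sqrt_le_sqrt Nat.cast_div_le
      _ = 2 * K * Real.sqrt N * (1 / (s a : ℝ)) := by
          rw [Real.rpow_neg hsa.le, ← Real.sqrt_eq_rpow]
          have hq := Real.mul_self_sqrt hsa.le
          have hq0 : 0 < Real.sqrt (s a : ℝ) := Real.sqrt_pos.mpr hsa
          have hq1 : (Real.sqrt (s a : ℝ))⁻¹ * (Real.sqrt (s a : ℝ))⁻¹ = 1 / (s a : ℝ) := by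
            rw [← mul_inv, hq, one_div]
          rw [← hq1]
          ring
  refine (Finset.sum_le_sum h2).trans ?_
  rw [← Finset.mul_sum]
  calc 2 * K * Real.sqrt N * ∑ a ∈ SI s N, 1 / (s a : ℝ) ≤
        2 * K * Real.sqrt N * (K * (1 + Real.log N)) := by
        gcongr
        exact hS.sum_inv_le N
    _ = _ := by ring

end Pool.Agent.H14.BN
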