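import Pool.Agent.H74.TS.Param

/-!
# Parameters

Port of `Pool/Agent/H74/TS/Param.lean` with one more parameter, the constant `K ≥ 1` of the system of
sized numbers: two more fields `K1`, `KL` and a factor `K` in `exp3`.  `tz`, `ty`, `kap` and the
lemmas on them are used from there; `Bg.toBg` forgets `K`.

`bg_facts`: take the maximum of the bound of `H74.TS.bg_facts ε Z`, of `K ^ 10` and of a bound for
`exp3` (redo that part of the proof there with the extra factor `K`: `M2` becomes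
`K (66 + 60 Z) / (2 kap ε Z)`).
-/

namespace Pool.Agent.H14.BN

open Finset Filter Pool.Agent.H14.PT Pool.Agent.H74.TS

/-- the inequalities valid for large `L` -/
structure Bg (K ε : ℝ) (Z : ℕ) (L : ℝ) : Prop where
  toBg : H74.TS.Bg ε Z L
  K1 : 1 ≤ K
  KL : K ^ 10 ≤ L
  exp3 : 3 * K * (tz Z L : ℝ) ^ (2 * (1 / (5 * Z)) : ℝ) * (1 + Real.log (tz Z L)) ≤
    2 * kap ε Z * L

theorem bg_facts (K ε : ℝ) (Z : ℕ) (hK : 1 ≤ K) (hε : 0 < ε) (hε1 : ε ≤ 1 / 10)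
    (hZ : 400 ≤ ε * Z) : ∃ Q0 : ℝ, ∀ L : ℝ, Q0 ≤ L → Bg K ε Z L := by
  obtain ⟨Q1, hQ1⟩ := H74.TS.bg_facts ε Z hε hε1 hZ
  have hK0 : 0 < K := by linarith
  have hZ0 : (0 : ℝ) < Z := by
    by_contra hc
    push Not at hc
    nlinarith
  have hZ4 : (4000 : ℝ) ≤ Z := by nlinarith
  have hκ : 0 < kap ε Z := by
    unfold kap
    positivity
  set M2 : ℝ := K * (66 + 60 * Z) / (2 * kap ε Z) with hM2
  have hM2p : 0 < M2 := by positivity
  refine ⟨max Q1 (max (K ^ 10) (M2 * M2)), ?_⟩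
  intro L hL
  have hB := hQ1 L ((le_max_left _ _).trans hL)
  have hLb := (le_max_right _ _).trans hL
  have hKL : K ^ 10 ≤ L := (le_max_left _ _).trans hLb
  have hLM2 : M2 * M2 ≤ L := (le_max_right _ _).trans hLb
  have hLpos : 0 < L := hB.Lpos
  have hLone : 1 ≤ L := by linarith [hB.hL]
  have hLs : L ^ (1 / 2 : ℝ) * L ^ (1 / 2 : ℝ) = L := by
    rw [← Real.rpow_add hLpos]; norm_num
  have hs0 : 0 ≤ L ^ (1 / 2 : ℝ) := by positivity
  have hs2 : M2 ≤ L ^ (1 / 2 : ℝ) := by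
    by_contra hc
    push Not at hc
    nlinarith
  have hz_hi := hB.z_hi
  have hz0 : (0 : ℝ) < tz Z L := lt_of_lt_of_le (by positivity) hB.z_lo
  have hll := log_le_ten_rpow hLpos.le
  have hL10 : 1 ≤ L ^ (1 / 10 : ℝ) := Real.one_le_rpow hLone (by norm_num)
  have hlz : Real.log (tz Z L) ≤ (10 * Z + 10) * L ^ (1 / 10 : ℝ) := by
    calc Real.log (tz Z L) ≤ (Z + 1) * Real.log L := hB.logz_hi
      _ ≤ (Z + 1) * (10 * L ^ (1 / 10 : ℝ)) := by gcongr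
      _ = (10 * Z + 10) * L ^ (1 / 10 : ℝ) := by ring
  refine ⟨hB, hK, hKL, ?_⟩
  have hex0 : (0 : ℝ) ≤ 2 * (1 / (5 * Z)) := by positivity
  have hex1 : (2 : ℝ) * (1 / (5 * Z)) ≤ 1 := by
    rw [mul_one_div, div_le_one (by positivity)]
    linarith
  have h1 : (tz Z L : ℝ) ^ (2 * (1 / (5 * Z)) : ℝ) ≤ 2 * L ^ (4 / 10 : ℝ) := by
    calc (tz Z L : ℝ) ^ (2 * (1 / (5 * Z)) : ℝ) ≤ (2 * L ^ Z) ^ (2 * (1 / (5 * Z)) : ℝ) :=
          Real.rpow_le_rpow hz0.le hz_hi hex0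
      _ = (2 : ℝ) ^ (2 * (1 / (5 * Z)) : ℝ) * (L ^ Z) ^ (2 * (1 / (5 * Z)) : ℝ) := by
          rw [Real.mul_rpow (by norm_num) (by positivity)]
      _ ≤ 2 * L ^ (4 / 10 : ℝ) := by
          have e1 : (2 : ℝ) ^ (2 * (1 / (5 * Z)) : ℝ) ≤ 2 := by
            calc (2 : ℝ) ^ (2 * (1 / (5 * Z)) : ℝ) ≤ (2 : ℝ) ^ (1 : ℝ) :=
                  Real.rpow_le_rpow_of_exponent_le (by norm_num) hex1
              _ = 2 := Real.rpow_one _
          have e2 : (L ^ Z) ^ (2 * (1 / (5 * Z)) : ℝ) = L ^ (4 / 10 : ℝ) := by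
            rw [← Real.rpow_natCast, ← Real.rpow_mul hLpos.le]
            congr 1
            field_simp
            norm_num
          rw [e2]
          gcongr
  have h2 : 1 + Real.log (tz Z L) ≤ (11 + 10 * Z) * L ^ (1 / 10 : ℝ) := by nlinarith
  have h3 : L ^ (4 / 10 : ℝ) * L ^ (1 / 10 : ℝ) = L ^ (1 / 2 : ℝ) := by
    rw [← Real.rpow_add hLpos]; norm_num
  have h4 : 0 ≤ 1 + Real.log (tz Z L) := by
    have := hB.logz_1000
    linarith
  calc 3 * K * (tz Z L : ℝ) ^ (2 * (1 / (5 * Z)) : ℝ) * (1 + Real.log (tz Z L))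
      ≤ 3 * K * (2 * L ^ (4 / 10 : ℝ)) * ((11 + 10 * Z) * L ^ (1 / 10 : ℝ)) := by
        gcongr
    _ = K * (66 + 60 * Z) * (L ^ (4 / 10 : ℝ) * L ^ (1 / 10 : ℝ)) := by ring
    _ = (2 * kap ε Z * M2) * L ^ (1 / 2 : ℝ) := by
        rw [h3, hM2]
        field_simp
    _ ≤ (2 * kap ε Z * L ^ (1 / 2 : ℝ)) * L ^ (1 / 2 : ℝ) := by gcongr
    _ = 2 * kap ε Z * (L ^ (1 / 2 : ℝ) * L ^ (1 / 2 : ℝ)) := by ring
    _ = 2 * kap ε Z * L := by rw [hLs]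

lemma Bg.KleL {K ε L : ℝ} {Z : ℕ} (h : Bg K ε Z L) : K ≤ L :=
  (le_self_pow₀ h.K1 (by norm_num)).trans h.KL

end Pool.Agent.H14.BN
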