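import Pool.Agent.H14.BN.Iface

/-!
# Plan of the number field layer

Goal.  `K` an imaginary quadratic field, `ε > 0`.  There are `c > 0`, `q0` such that for every prime
ideal `𝔭` of `𝓞 K` of PRIME norm `q ≥ q0` (so `𝔭 ≠ 𝔭̄`, `q` splits) and all finite sets `𝒜`, `ℬ` of
ray class characters modulo `𝔭` with `|𝒜| |ℬ|² ≥ q^(2+ε)`, at least `c |𝒜| |ℬ|` of the pairs `(χ, ψ)`
have `χ ψ` ramified at `𝔭` (so primitive) and `L_K(1/2, χψ) ≠ 0`.  Corollary (as in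
`Results/MP_3b6604_nt/AlmostAllTwists.lean`): for all but
`min (q^(1+ε) |A|^(-1/2)) (q^(2+ε) |A|^(-2))` of the ray class characters `ψ` a positive proportion of
the twists `χ ψ`, `χ ∈ A`, is ramified with `L_K(1/2, χψ) ≠ 0`.

## Characters (statement level)

A ray class character modulo `𝔭` is a monoid-with-zero homomorphism `χ : Ideal (𝓞 K) →*₀ ℂ` with
`χ I = 0 ↔ 𝔭 ∣ I` and `χ (a) = 1` for `a ≡ 1 mod 𝔭`.  It is ramified if `χ (a) ≠ 1` for some
`a ∉ 𝔭`.  `IsRayL χ L`: `L : ℂ → ℂ` is entire (`Differentiable ℂ L`) and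
`HasSum (fun I => χ I * (absNorm I : ℂ) ^ (-s)) (L s)` over the nonzero ideals for `1 < re s`
(compare `IsClassGroupL` in `H92/CG/Defs.lean`).

## Files

* `Iso`: a multiplicative bijection `ι : ℕ ≃* Ideal (𝓞 K)` (both are free on a countably infinite set
  of primes, with zero added, and the only unit is `1`); `ι 0 = ⊥`; `m ∣ n ↔ ι m ∣ ι n`;
  `n.Prime ↔ Prime (ι n)`; `Nat.Coprime a b ↔ IsCoprime (ι a) (ι b)` for `a, b ≠ 0`.
  `s n = absNorm (ι n)` as `ℕ →*₀ ℕ`.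
* `Count`: `|#{I ≠ 0 : N I ≤ x} - κ x| ≤ C √x`.  By class: `exists_equiv` (`H92/CG/Partial.lean`)
  turns the ideals of a class into `w` times the nonzero elements of `J`, `exists_form`
  (`H92/CG/Reduced.lean`) turns those into values of a binary form `qf A β`, and the number of
  `v ∈ ℤ²` with `qf A β v ≤ T` is `π T + O(1 + √T)` (slice by slice: for fixed `n` the number of
  `m` with `A (m + β n)² ≤ T - n²/A` is `2 √((T - n²/A)/A) + O(1)`; the sum over `n` of a unimodal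
  function is its integral up to its maximum).
* `Cheb`: `∑_{N P ≤ x} log N P ≤ C x` over the prime ideals: at most two prime ideals over each
  rational prime `p`, each of norm `p` or `p²`; `θ(x) ≤ x log 4`.
* `Sys`: the instance of `Sys`.
* `Ray`: the ray class group `G_𝔭`: nonzero ideals prime to `𝔭` modulo
  `I ~ J ↔ ∃ a b ∉ 𝔭, a - b ∈ 𝔭, (a) I = (b) J`, a finite group with `|G_𝔭| ≤ h (q - 1)` and
  `≥ (q - 1)/w`; `cl : ℕ →*₀ WithZero G_𝔭`, `cl n` = class of `ι n`, `0` if `𝔭 ∣ ι n`.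
* `Slope`: the field `slope` of `Md`.  Class `0`: `𝔭 ∣ ι p.1`, at most `K (X/q) · K Y` pairs.
  Class `c ≠ 0`: fix an ideal `𝔠` prime to `𝔭` in the class `c`.  For `(I, J)` in the class choose
  `a, b ∉ 𝔭`, `a ≡ b`, `(b) I = (a) 𝔠 J` and put `γ = a / b ∈ ℂ`.  Then
  `|γ|² = N I / (N J N 𝔠) ≤ X c0 / (Y N 𝔠)`, and for two different pairs (coprime, so `γ ≠ γ'`)
  `(b b') 𝔭 ∣ (a b' - a' b) 𝔠 J J'`, so `|γ - γ'|² ≥ q / (N 𝔠 N J N J') ≥ q / (N 𝔠 Y²)`.  Packing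
  in the disc: at most `16 (1 + c0 X Y / q)` points.
* `Poisson`: for `J` with `exists_form` basis, alternating form
  `ω_J(x, y) = 2 Im (x̄ y) / (N J √|D|) ∈ ℤ` (`x, y ∈ J`), `q_J(x) = 2 |x|² / (N J √|D|)`
  (`= qf A β`), for `ξ ∈ ℂ`, `t > 0`:
  `∑_{x ∈ J} e(ω_J(x, ξ)) exp (-π t q_J(x)) = (1/t) ∑_{y ∈ J} exp (-π q_J(y + ξ) / t)` and the dual
  statement (shift on the left).  (`poisson_shift`, `poisson_twist` of `H92/CG/Theta.lean`; the
  inverse form of `qf A β` is `qf A β` composed with the rotation `(w₁, w₂) ↦ (-w₂, w₁)`.)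
* `Part`: the field `part` of `Td`, `R = √(|D| q)`, `m = 1 / √q`: for a class `u` choose `J` prime to
  `𝔭` in the class `u⁻¹`; `I ∈ u ↔ I J = (α)` with `α ≡ 1 mod 𝔭`, `α` unique; so
  `ϑ_u(t) = ∑_{α ∈ α₀ + J𝔭} exp (-π t √q q_{J𝔭}(α))`; Poisson for the coset; the terms `≠ 0` of the
  dual side are bounded by `Th (1/t') - 1 ≤ C exp (-c/t')`, `t' = √q t ≤ 1`, uniformly (the forms
  `q_{J𝔭}` are, up to equivalence, finitely many: homothetic to the `h` class forms).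
* `Gauss`: for `χ` ramified, `J` prime to `q`, `z ∈ J𝔭`:
  `(1/q) ∑_{x ∈ J/J𝔭} χ((x)) e(-ω_J(x, z)/q) = c_J conj χ((z̄))`, `|c_J| = q^(-1/2)`.
* `Fe`: hence with `Θ_J(t, χ) = ∑_{x ∈ J} χ((x)) exp (-π t q_J(x))`, `J' = conj (J𝔭)`:
  `Θ_J(t, χ) = (c_J / t) Θ_{J'}(1/(q t), χ̄)`.  As `Θ(t, χ) = (1/w) ∑_C χ(J_C)⁻¹ Θ_{J_C}(t/√q, χ)` for
  any representatives `J_C ∈ C⁻¹` prime to `q`, and as
  `W_J = √q c_J χ(J)⁻¹ conj χ(J')` does not depend on `J` (compare `J` and `J𝔞`: use `z` and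
  `N(𝔞) z`; `c_{J𝔞} = c_J χ(𝔞) χ(𝔞̄)`), one gets `Θ(1/t, χ) = W t Θ(t, χ̄)`.
* `Lval`: `Lint ≠ 0 → L(1/2, χ) ≠ 0` for every `L` with `IsRayL χ L` (Mellin transform of `Θ`, entire;
  identity theorem), and existence of such an `L`.
* `Final`.
-/
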