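import Pool.Agent.H14.BN.Ext

/-!
# Bilinear form of logarithmically weighted Möbius sums in the gcd, sized numbers

Port of `Pool/Agent/H14/PT/Rough.lean`.  Euler's totient is replaced by `phi s k = s k ∏_{p ∣ k} (1 - 1/s p)`.

* `sum_phi`: for squarefree `n`, `∑_{d ∣ n} phi s d = ∏_{p ∣ n} (1 + (s p - 1)) = s n`
  (`Finset.sum_divisors_mul...` or induction on the prime factors, or
  `Nat.sum_divisors_filter_squarefree`, `Finset.prod_one_add`); only gcds of squarefree numbers matter in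
  `Qf_eq` (`μ m ≠ 0`).
* The rest: copy with `(m : ℝ)` replaced by `(s m : ℝ)`, `Ioc 0 N` by `SI s N`, the constant `4` of
  `abs_mset_le` by `hX.mset_le` (constant `K`).
-/

namespace Pool.Agent.H14.BN

open Finset ArithmeticFunction
open scoped ArithmeticFunction.Moebius

variable {s : ℕ →*₀ ℕ} {κ K B0 : ℝ}

/-- integers up to `N` free of the primes in `S` -/
noncomputable def DS (s : ℕ →*₀ ℕ) (S : Finset ℕ) (N : ℕ) : Finset ℕ := (SI s N).filter (fun m => ∀ p ∈ S, ¬ p ∣ m)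

/-- weighted sum over multiples of `k` -/
noncomputable def yk (s : ℕ →*₀ ℕ) (S : Finset ℕ) (u : ℝ) (k : ℕ) : ℝ :=
  ∑ m ∈ (DS s S ⌊u⌋₊).filter (fun m => k ∣ m), (μ m : ℝ) / (s m : ℝ) * Real.log (u / (s m : ℝ))

private lemma rough_s_sqf (s : ℕ →*₀ ℕ) {k : ℕ} (hk : Squarefree k) :
    (s k : ℝ) = ∏ p ∈ k.primeFactors, (s p : ℝ) := by
  conv_lhs => rw [← Nat.prod_primeFactors_of_squarefree hk]
  rw [s_cast_prod]

lemma yk_eq (hX : Sx s κ K B0) (S : Finset ℕ) (u : ℝ) {k : ℕ} (hk : Squarefree k)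
    (hkS : ∀ p ∈ S, ¬ p ∣ k) (hSp : ∀ p ∈ S, p.Prime) :
    yk s S u k = (μ k : ℝ) / (s k : ℝ) * mset s (S ∪ k.primeFactors) (u / (s k : ℝ)) := by
  have hS := hX.sys
  have hk0 : 0 < k := Nat.pos_of_ne_zero hk.ne_zero
  have hs0 : 0 < s k := hS.s_pos hk.ne_zero
  have hkr : (0 : ℝ) < (s k : ℝ) := hS.r_pos hk.ne_zero
  unfold yk mset
  set N := ⌊u / (s k : ℝ)⌋₊ with hN
  rw [Finset.mul_sum]
  symm
  have hinj : Set.InjOn (fun m => k * m)
      ((SI s N).filter (fun m => ∀ p ∈ S ∪ k.primeFactors, ¬ p ∣ m) : Set ℕ) := by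
    intro a _ b _ hab
    exact Nat.eq_of_mul_eq_mul_left hk0 hab
  have hsub := Finset.sum_subset (s₁ := ((SI s N).filter
    (fun m => ∀ p ∈ S ∪ k.primeFactors, ¬ p ∣ m)).image (fun m => k * m))
    (s₂ := (DS s S ⌊u⌋₊).filter (fun m => k ∣ m))
    (f := fun m : ℕ => (μ m : ℝ) / (s m : ℝ) * Real.log (u / (s m : ℝ))) ?_ ?_
  · rw [← hsub, Finset.sum_image hinj]
    refine Finset.sum_congr rfl fun m hm => ?_
    simp only [mem_filter, hS.mem_SI] at hm
    have hcop : Nat.Coprime k m := Nat.coprime_of_dvd fun p hp hpk hpm =>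
        hm.2 p (Finset.mem_union_right _ (Nat.mem_primeFactors.mpr ⟨hp, hpk, hk.ne_zero⟩)) hpm
    have hm0 : (0 : ℝ) < (s m : ℝ) := hS.r_pos hm.1.1
    rw [isMultiplicative_moebius.map_mul_of_coprime hcop, s_cast_mul]
    push_cast
    rw [← div_div u]
    field_simp
  · intro d hd
    simp only [DS, mem_image, mem_filter, hS.mem_SI] at hd ⊢
    obtain ⟨m, ⟨⟨hm1, hm2⟩, hm3⟩, rfl⟩ := hd
    refine ⟨⟨⟨mul_ne_zero hk.ne_zero hm1, ?_⟩, ?_⟩, Dvd.intro _ rfl⟩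
    · rw [hN, Nat.floor_div_natCast] at hm2
      rw [map_mul]
      calc s k * s m ≤ s k * (⌊u⌋₊ / s k) := Nat.mul_le_mul_left _ hm2
        _ ≤ ⌊u⌋₊ := Nat.mul_div_le _ _
    · intro p hp hpd
      rcases (Nat.Prime.dvd_mul (hSp p hp)).mp hpd with h | h
      · exact hkS p hp h
      · exact hm3 p (Finset.mem_union_left _ hp) h
  · intro d hd hd2
    simp only [DS, mem_image, mem_filter, hS.mem_SI] at hd hd2
    obtain ⟨⟨⟨hd1, hd3⟩, hd4⟩, m, rfl⟩ := hd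
    rw [moebius_eq_zero_of_not_squarefree]
    · simp
    intro hsq
    apply hd2
    refine ⟨m, ⟨⟨?_, ?_⟩, ?_⟩, rfl⟩
    · exact right_ne_zero_of_mul hd1
    · rw [hN, Nat.floor_div_natCast]
      rw [map_mul] at hd3
      exact (Nat.le_div_iff_mul_le hs0).mpr (by rw [mul_comm]; exact hd3)
    · intro p hp hpm
      rcases Finset.mem_union.mp hp with h | h
      · exact hd4 p h (Dvd.dvd.mul_left hpm k)
      · have hpp : p * p ∣ k * m := Nat.mul_dvd_mul (Nat.dvd_of_mem_primeFactors h) hpm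
        have := hsq p hpp
        exact (Nat.prime_of_mem_primeFactors h).one_lt.ne' (Nat.isUnit_iff.mp this)

lemma yk_zero (hX : Sx s κ K B0) (S : Finset ℕ) (u : ℝ) {k : ℕ} (hk : ¬ (Squarefree k ∧ ∀ p ∈ S, ¬ p ∣ k)) :
    yk s S u k = 0 := by
  unfold yk
  refine Finset.sum_eq_zero fun m hm => ?_
  simp only [DS, mem_filter, hX.sys.mem_SI] at hm
  obtain ⟨⟨_, h2⟩, h3⟩ := hm
  by_cases hsq : Squarefree m
  · exfalso
    apply hk
    exact ⟨hsq.squarefree_of_dvd h3, fun p hp hpk => h2 p hp (hpk.trans h3)⟩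
  · rw [moebius_eq_zero_of_not_squarefree hsq]
    simp

/-- the analogue of Euler's function -/
noncomputable def phi (s : ℕ →*₀ ℕ) (k : ℕ) : ℝ := (s k : ℝ) * ∏ p ∈ k.primeFactors, (1 - 1 / (s p : ℝ))

lemma phi_pos (hX : Sx s κ K B0) {k : ℕ} (hk : k ≠ 0) : 0 < phi s k :=
  mul_pos (hX.sys.r_pos hk) (Finset.prod_pos fun p hp =>
    one_sub_inv_pos hX.sys (Nat.prime_of_mem_primeFactors hp))

private noncomputable def phiAF (s : ℕ →*₀ ℕ) : ArithmeticFunction ℝ :=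
  ⟨fun k => phi s k, by simp [phi]⟩

private lemma phiAF_mult (s : ℕ →*₀ ℕ) : (phiAF s).IsMultiplicative := by
  constructor
  · change phi s 1 = 1
    simp [phi]
  · intro m n hmn
    change phi s (m * n) = phi s m * phi s n
    unfold phi
    rw [s_cast_mul, hmn.primeFactors_mul, Finset.prod_union hmn.disjoint_primeFactors]
    ring

lemma sum_phi (hX : Sx s κ K B0) {n : ℕ} (hn : Squarefree n) :
    ∑ d ∈ n.divisors, phi s d = (s n : ℝ) := by
  have h1 := (phiAF_mult s).prodPrimeFactors_one_add_of_squarefree hn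
  have h2 : ∑ d ∈ n.divisors, phi s d = ∑ d ∈ n.divisors, phiAF s d := rfl
  rw [h2, ← h1, rough_s_sqf s hn]
  refine Finset.prod_congr rfl fun p hp => ?_
  have hpp := Nat.prime_of_mem_primeFactors hp
  have hp0 : (0 : ℝ) < (s p : ℝ) := hX.sys.r_pos hpp.ne_zero
  change 1 + phi s p = _
  unfold phi
  rw [hpp.primeFactors, Finset.prod_singleton]
  field_simp
  ring

lemma eulerFac_union_le (hX : Sx s κ K B0) {S : Finset ℕ} (hSp : ∀ p ∈ S, p.Prime) {k : ℕ} (hk : k ≠ 0)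
    (hkS : ∀ p ∈ S, ¬ p ∣ k) :
    eulerFac s (S ∪ k.primeFactors) = eulerFac s S * ((s k : ℝ) / phi s k) := by
  unfold eulerFac
  rw [Finset.prod_union]
  · congr 1
    have hk' : (s k : ℝ) ≠ 0 := (hX.sys.r_pos hk).ne'
    have h3 : ∏ p ∈ k.primeFactors, (1 - 1 / (s p : ℝ)) ≠ 0 :=
      (Finset.prod_pos fun p hp =>
        one_sub_inv_pos hX.sys (Nat.prime_of_mem_primeFactors hp)).ne'
    unfold phi
    rw [Finset.prod_inv_distrib]
    field_simp
  · rw [Finset.disjoint_left]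
    intro p hp hpk
    exact hkS p hp (Nat.dvd_of_mem_primeFactors hpk)

lemma eulerFac_pos' (hX : Sx s κ K B0) {S : Finset ℕ} (hSp : ∀ p ∈ S, p.Prime) : 0 < eulerFac s S := by
  unfold eulerFac
  exact Finset.prod_pos fun p hp => inv_pos.mpr (one_sub_inv_pos hX.sys (hSp p hp))

lemma abs_yk_le (hX : Sx s κ K B0) {S : Finset ℕ} (hSp : ∀ p ∈ S, p.Prime) (u : ℝ) {k : ℕ} (hk : Squarefree k)
    (hkS : ∀ p ∈ S, ¬ p ∣ k) :
    |yk s S u k| ≤ K * eulerFac s S / phi s k := by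
  have hk0 : k ≠ 0 := hk.ne_zero
  have hkr : (0 : ℝ) < (s k : ℝ) := hX.sys.r_pos hk0
  rw [yk_eq hX S u hk hkS hSp, abs_mul, abs_div, abs_of_pos hkr]
  have hμ : |(μ k : ℝ)| ≤ 1 := by exact_mod_cast abs_moebius_le_one (n := k)
  have hS' : ∀ r ∈ S ∪ k.primeFactors, r.Prime := by
    intro r hr
    rcases Finset.mem_union.mp hr with h | h
    · exact hSp r h
    · exact Nat.prime_of_mem_primeFactors h
  have h1 := hX.mset_le _ hS' (u / (s k : ℝ))
  rw [eulerFac_union_le hX hSp hk0 hkS] at h1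
  have hφ : 0 < phi s k := phi_pos hX hk0
  have hE := eulerFac_pos' hX hSp
  calc |(μ k : ℝ)| / (s k : ℝ) * |mset s (S ∪ k.primeFactors) (u / (s k : ℝ))|
      ≤ 1 / (s k : ℝ) * (K * (eulerFac s S * ((s k : ℝ) / phi s k))) := by gcongr
    _ = _ := by field_simp

/-- the bilinear form -/
noncomputable def Qf (s : ℕ →*₀ ℕ) (S : Finset ℕ) (u v : ℝ) : ℝ :=
  ∑ m ∈ DS s S ⌊u⌋₊, ∑ n ∈ DS s S ⌊v⌋₊, ((μ m : ℝ) / (s m : ℝ) * Real.log (u / (s m : ℝ))) *
    ((μ n : ℝ) / (s n : ℝ) * Real.log (v / (s n : ℝ))) * (s (Nat.gcd m n) : ℝ)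

lemma Qf_eq (hX : Sx s κ K B0) (S : Finset ℕ) (u v : ℝ) (N : ℕ) (hu : ⌊u⌋₊ ≤ N) :
    Qf s S u v = ∑ k ∈ SI s N, phi s k * (yk s S u k * yk s S v k) := by
  have hS := hX.sys
  unfold Qf
  have h1 : ∀ m ∈ DS s S ⌊u⌋₊, ∀ n ∈ DS s S ⌊v⌋₊, Squarefree m → (s (Nat.gcd m n) : ℝ) =
      ∑ k ∈ SI s N, phi s k * ((if k ∣ m then 1 else 0) * (if k ∣ n then 1 else 0)) := by
    intro m hm n hn hsq
    simp only [DS, mem_filter, hS.mem_SI] at hm hn
    have hg : Nat.gcd m n ≠ 0 := (Nat.gcd_pos_of_pos_left _ (Nat.pos_of_ne_zero hm.1.1)).ne'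
    have h2 : (Nat.gcd m n).divisors = (SI s N).filter (fun k => k ∣ m ∧ k ∣ n) := by
      ext k
      simp only [Nat.mem_divisors, mem_filter, hS.mem_SI, Nat.dvd_gcd_iff]
      constructor
      · rintro ⟨⟨h1, h2⟩, _⟩
        exact ⟨⟨ne_zero_of_dvd_ne_zero hm.1.1 h1, ((hS.le_of_dvd h1 hm.1.1).trans hm.1.2).trans hu⟩,
          h1, h2⟩
      · rintro ⟨_, h1, h2⟩
        exact ⟨⟨h1, h2⟩, hg⟩
    have h3 := sum_phi hX (hsq.squarefree_of_dvd (Nat.gcd_dvd_left m n))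
    rw [h2] at h3
    rw [← h3]
    rw [Finset.sum_filter]
    refine Finset.sum_congr rfl fun k _ => ?_
    by_cases h4 : k ∣ m <;> by_cases h5 : k ∣ n <;> simp [h4, h5]
  have h2 : ∀ m ∈ DS s S ⌊u⌋₊, ∀ n ∈ DS s S ⌊v⌋₊,
      ((μ m : ℝ) / (s m : ℝ) * Real.log (u / (s m : ℝ))) *
        ((μ n : ℝ) / (s n : ℝ) * Real.log (v / (s n : ℝ))) * (s (Nat.gcd m n) : ℝ) =
      ∑ k ∈ SI s N, phi s k * ((if k ∣ m then (μ m : ℝ) / (s m : ℝ) *
        Real.log (u / (s m : ℝ)) else 0) *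
        (if k ∣ n then (μ n : ℝ) / (s n : ℝ) * Real.log (v / (s n : ℝ)) else 0)) := by
    intro m hm n hn
    by_cases hsq : Squarefree m
    · rw [h1 m hm n hn hsq, Finset.mul_sum]
      refine Finset.sum_congr rfl fun k _ => ?_
      by_cases h4 : k ∣ m <;> by_cases h5 : k ∣ n <;> simp [h4, h5]
      ring
    · rw [moebius_eq_zero_of_not_squarefree hsq]
      simp
  rw [Finset.sum_congr rfl fun m hm => Finset.sum_congr rfl fun n hn => h2 m hm n hn]
  rw [Finset.sum_congr rfl fun m _ => Finset.sum_comm, Finset.sum_comm]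
  refine Finset.sum_congr rfl fun k _ => ?_
  unfold yk
  rw [Finset.sum_filter, Finset.sum_filter, Finset.sum_mul_sum, Finset.mul_sum]
  refine Finset.sum_congr rfl fun m _ => ?_
  rw [Finset.mul_sum]

lemma sum_inv_phi_le (hX : Sx s κ K B0) (S : Finset ℕ) (N : ℕ) :
    ∑ k ∈ (SI s N).filter (fun k => Squarefree k ∧ ∀ p ∈ S, ¬ p ∣ k), 1 / phi s k ≤
      ∏ p ∈ (SP s N) \ S, (1 - 1 / (s p : ℝ))⁻¹ := by
  classical
  have hS := hX.sys
  set T := (SP s N) \ S with hT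
  have hTp : ∀ p ∈ T, p.Prime := fun p hp => (hS.mem_SP.mp (Finset.mem_sdiff.mp hp).1).1
  have h1 : ∏ p ∈ T, (1 - 1 / (s p : ℝ))⁻¹ = ∏ p ∈ T, (1 + 1 / ((s p : ℝ) - 1)) := by
    refine Finset.prod_congr rfl fun p hp => ?_
    have hp' : (2 : ℝ) ≤ (s p : ℝ) := hS.r_two (hTp p hp)
    have h3 : (s p : ℝ) - 1 ≠ 0 := by linarith
    have h4 : (s p : ℝ) ≠ 0 := by linarith
    field_simp
    ring
  rw [h1, Finset.prod_one_add]
  have h2 : ∀ k ∈ (SI s N).filter (fun k => Squarefree k ∧ ∀ p ∈ S, ¬ p ∣ k),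
      1 / phi s k = ∏ p ∈ k.primeFactors, 1 / ((s p : ℝ) - 1) := by
    intro k hk
    simp only [mem_filter, hS.mem_SI] at hk
    have h3 : phi s k = ∏ p ∈ k.primeFactors, ((s p : ℝ) - 1) := by
      unfold phi
      rw [rough_s_sqf s hk.2.1, ← Finset.prod_mul_distrib]
      refine Finset.prod_congr rfl fun p hp => ?_
      have hp0 : (0 : ℝ) < (s p : ℝ) := hS.r_pos (Nat.prime_of_mem_primeFactors hp).ne_zero
      field_simp
    rw [h3, Finset.prod_div_distrib, Finset.prod_const_one]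
  rw [Finset.sum_congr rfl h2]
  have hinj : Set.InjOn (fun k : ℕ => k.primeFactors)
      ((SI s N).filter (fun k => Squarefree k ∧ ∀ p ∈ S, ¬ p ∣ k) : Set ℕ) := by
    intro a ha b hb hab
    simp only [Finset.coe_filter, Set.mem_ofPred_eq] at ha hb
    rw [← Nat.prod_primeFactors_of_squarefree ha.2.1, ← Nat.prod_primeFactors_of_squarefree hb.2.1]
    have : a.primeFactors = b.primeFactors := hab
    rw [this]
  rw [← Finset.sum_image (f := fun A : Finset ℕ => ∏ p ∈ A, 1 / ((s p : ℝ) - 1)) hinj]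
  refine Finset.sum_le_sum_of_subset_of_nonneg ?_ ?_
  · intro A hA
    obtain ⟨k, hk, rfl⟩ := Finset.mem_image.mp hA
    simp only [mem_filter, hS.mem_SI] at hk
    rw [Finset.mem_powerset]
    intro p hp
    rw [hT, Finset.mem_sdiff, hS.mem_SP]
    have hpd := Nat.dvd_of_mem_primeFactors hp
    exact ⟨⟨Nat.prime_of_mem_primeFactors hp, (hS.le_of_dvd hpd hk.1.1).trans hk.1.2⟩,
      fun h => hk.2.2 p h hpd⟩
  · intro A hA _
    refine Finset.prod_nonneg fun p hp => ?_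
    have hp' : (2 : ℝ) ≤ (s p : ℝ) := hS.r_two (hTp p (Finset.mem_powerset.mp hA hp))
    have : 0 < (s p : ℝ) - 1 := by linarith
    positivity

/-- **bound for the bilinear form** -/
theorem abs_Qf_le (hX : Sx s κ K B0) {S : Finset ℕ} (hSp : ∀ p ∈ S, p.Prime) (u v : ℝ) (N : ℕ) (hu : ⌊u⌋₊ ≤ N) :
    |Qf s S u v| ≤ K ^ 2 * eulerFac s S ^ 2 * ∏ p ∈ (SP s N) \ S, (1 - 1 / (s p : ℝ))⁻¹ := by
  classical
  have hS := hX.sys
  have hK0 := hS.K_pos
  rw [Qf_eq hX S u v N hu]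
  have h1 : ∑ k ∈ SI s N, phi s k * (yk s S u k * yk s S v k) =
      ∑ k ∈ (SI s N).filter (fun k => Squarefree k ∧ ∀ p ∈ S, ¬ p ∣ k),
        phi s k * (yk s S u k * yk s S v k) := by
    symm
    apply Finset.sum_subset (Finset.filter_subset _ _)
    intro k hk hk2
    have : ¬ (Squarefree k ∧ ∀ p ∈ S, ¬ p ∣ k) := fun h => hk2 (Finset.mem_filter.mpr ⟨hk, h⟩)
    rw [yk_zero hX S u this]
    ring
  rw [h1]
  refine (Finset.abs_sum_le_sum_abs _ _).trans ?_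
  refine le_trans (Finset.sum_le_sum fun k hk => ?_)
    ((le_of_eq (Finset.mul_sum _ _ _).symm).trans
      (mul_le_mul_of_nonneg_left (sum_inv_phi_le hX S N) (by positivity)))
  simp only [mem_filter, hS.mem_SI] at hk
  have hφ : 0 < phi s k := phi_pos hX hk.1.1
  have hE := eulerFac_pos' hX hSp
  rw [abs_mul, abs_mul, abs_of_pos hφ]
  calc phi s k * (|yk s S u k| * |yk s S v k|)
      ≤ phi s k * ((K * eulerFac s S / phi s k) *
        (K * eulerFac s S / phi s k)) := by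
        gcongr
        · exact abs_yk_le hX hSp u hk.2.1 hk.2.2
        · exact abs_yk_le hX hSp v hk.2.1 hk.2.2
    _ = _ := by field_simp

end Pool.Agent.H14.BN
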