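import Pool.Agent.H14.BN.Rough
import Pool.Agent.H14.BN.Small2
import Pool.Agent.H14.PT.Rough2

/-!
# The rough part of the mollified diagonal, sized numbers

Port of the first half of `Pool/Agent/H14/PT/Rough2.lean` (`primeFactors_Pr`, `squarefree_Pr`,
`moebius_Pr`, `Pr_inj`, `ee_none` are used from there): copy with `(p : ℝ)` replaced by `(s p : ℝ)`,
`Nat.primesLE Y` by `SP s Y`.
-/

namespace Pool.Agent.H14.BN

open Finset ArithmeticFunction Pool.Agent.H14.PT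
open scoped ArithmeticFunction.Moebius

variable {s : ℕ →*₀ ℕ} {κ K B0 : ℝ}

/-- conversion of a sum over sets of primes into a sum over integers -/
lemma conv (hX : Sx s κ K B0) (S : Finset ℕ) (hSp : ∀ p ∈ S, p.Prime) (Y : ℕ) (u : ℝ) (hu0 : 0 ≤ u) (hu : ⌊u⌋₊ ≤ Y) (f : ℕ → ℝ) :
    ∑ A ∈ ((SP s Y) \ S).powerset.filter (fun A => (s (Pr A) : ℝ) ≤ u), (-1) ^ A.card * f (Pr A) =
      ∑ m ∈ DS s S ⌊u⌋₊, (μ m : ℝ) * f m := by
  classical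
  set T := ((SP s Y) \ S).powerset.filter (fun A => (s (Pr A) : ℝ) ≤ u) with hT
  have hmem : ∀ A ∈ T, (∀ p ∈ A, p.Prime ∧ p ∉ S) ∧ (s (Pr A) : ℝ) ≤ u := by
    intro A hA
    rw [hT, Finset.mem_filter, Finset.mem_powerset] at hA
    refine ⟨fun p hp => ?_, hA.2⟩
    have := hA.1 hp
    rw [Finset.mem_sdiff, hX.sys.mem_SP] at this
    exact ⟨this.1.1, this.2⟩
  have hP : ∀ A ∈ T, ∀ p ∈ A, p.Prime := fun A hA p hp => ((hmem A hA).1 p hp).1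
  have h1 : ∑ A ∈ T, (-1 : ℝ) ^ A.card * f (Pr A) = ∑ A ∈ T, (μ (Pr A) : ℝ) * f (Pr A) :=
    Finset.sum_congr rfl fun A hA => by rw [moebius_Pr (hP A hA)]
  have hinj : Set.InjOn Pr (T : Set (Finset ℕ)) := by
    intro A hA B hB h
    exact Pr_inj (hP A hA) (hP B hB) h
  rw [h1, ← Finset.sum_image (f := fun m : ℕ => (μ m : ℝ) * f m) hinj]
  apply Finset.sum_subset
  · intro m hm
    obtain ⟨A, hA, rfl⟩ := Finset.mem_image.mp hm
    rw [DS, Finset.mem_filter, hX.sys.mem_SI]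
    refine ⟨⟨(Pr_pos (hP A hA)).ne', Nat.le_floor (hmem A hA).2⟩, ?_⟩
    intro p hpS hpd
    have : p ∈ (Pr A).primeFactors := Nat.mem_primeFactors.mpr ⟨hSp p hpS, hpd, Pr_ne_zero (hP A hA)⟩
    rw [primeFactors_Pr (hP A hA)] at this
    exact ((hmem A hA).1 p this).2 hpS
  · intro m hm hm2
    rw [DS, Finset.mem_filter, hX.sys.mem_SI] at hm
    rw [moebius_eq_zero_of_not_squarefree]
    · simp
    intro hsq
    apply hm2
    rw [Finset.mem_image]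
    refine ⟨m.primeFactors, ?_, Nat.prod_primeFactors_of_squarefree hsq⟩
    rw [hT, Finset.mem_filter, Finset.mem_powerset]
    constructor
    · intro p hp
      have hpd := Nat.dvd_of_mem_primeFactors hp
      rw [Finset.mem_sdiff, hX.sys.mem_SP]
      exact ⟨⟨Nat.prime_of_mem_primeFactors hp, ((hX.sys.le_of_dvd hpd hm.1.1).trans hm.1.2).trans hu⟩,
        fun h => hm.2 p h hpd⟩
    · have : Pr m.primeFactors = m := Nat.prod_primeFactors_of_squarefree hsq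
      rw [this]
      exact (Nat.le_floor_iff hu0).mp hm.1.2

/-- rough primes -/
noncomputable def rs (s : ℕ →*₀ ℕ) (S : Finset ℕ) (Y : ℕ) : Finset ℕ := (SP s Y) \ S

/-- sets of rough primes with product at most `u` -/
noncomputable def TS (s : ℕ →*₀ ℕ) (S : Finset ℕ) (Y : ℕ) (u : ℝ) : Finset (Finset ℕ) :=
  (rs s S Y).powerset.filter (fun A => (s (Pr A) : ℝ) ≤ u)

lemma mem_TS (hX : Sx s κ K B0) {S : Finset ℕ} {Y : ℕ} {u : ℝ} {A : Finset ℕ} :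
    A ∈ TS s S Y u ↔ A ⊆ rs s S Y ∧ (s (Pr A) : ℝ) ≤ u := by
  unfold TS
  rw [Finset.mem_filter, Finset.mem_powerset]

lemma rs_prime (hX : Sx s κ K B0) {S : Finset ℕ} {Y p : ℕ} (hp : p ∈ rs s S Y) : p.Prime :=
  (hX.sys.mem_SP.mp (Finset.mem_sdiff.mp hp).1).1

/-- the weight -/
noncomputable def Lam (s : ℕ →*₀ ℕ) (Y n : ℕ) : ℝ := Real.log ((Y : ℝ) / (s n : ℝ)) / Real.log Y

/-- coefficient -/
noncomputable def cf (s : ℕ →*₀ ℕ) (Y : ℕ) (A : Finset ℕ) : ℝ := (-1) ^ A.card * Lam s Y (Pr A)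

/-- rough double sum -/
noncomputable def R0 (s : ℕ →*₀ ℕ) (a b : ℕ) (S : Finset ℕ) (Y : ℕ) : ℝ :=
  ∑ A ∈ TS s S Y Y, ∑ B ∈ TS s S Y Y, cf s Y A * cf s Y B * GG s a b (rs s S Y) A B

/-- rough double sum with logarithm -/
noncomputable def R1 (s : ℕ →*₀ ℕ) (a b : ℕ) (S : Finset ℕ) (Y : ℕ) : ℝ :=
  ∑ A ∈ TS s S Y Y, ∑ B ∈ TS s S Y Y, cf s Y A * cf s Y B * GG s a b (rs s S Y) A B * LL s a b (rs s S Y) A B

lemma GG_none (hX : Sx s κ K B0) {a b : ℕ} {P : Finset ℕ} (hP : ∀ p ∈ P, p.Prime) (hn : ∀ p ∈ P, ¬ (p ∣ a ∨ p ∣ b))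
    (A B : Finset ℕ) : GG s a b P A B = GG s 1 1 P A B := by
  unfold GG rr
  exact Finset.prod_congr rfl fun p hp => by rw [ee_none (hP p hp) (hn p hp)]

lemma LL_none (hX : Sx s κ K B0) {a b : ℕ} {P : Finset ℕ} (hP : ∀ p ∈ P, p.Prime) (hn : ∀ p ∈ P, ¬ (p ∣ a ∨ p ∣ b))
    (A B : Finset ℕ) : LL s a b P A B = LL s 1 1 P A B := by
  unfold LL le'
  exact Finset.sum_congr rfl fun p hp => by rw [ee_none (hP p hp) (hn p hp)]

lemma GG_one (hX : Sx s κ K B0) {P A B : Finset ℕ} (hP : ∀ p ∈ P, p.Prime) (hA : A ⊆ P) (hB : B ⊆ P) :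
    GG s 1 1 P A B = (s (Nat.gcd (Pr A) (Pr B)) : ℝ) / ((s (Pr A) : ℝ) * (s (Pr B) : ℝ)) := by
  rw [← ratio_eq hX.sys hP hA hB one_ne_zero one_ne_zero (Nat.coprime_one_left 1), one_mul, one_mul,
    Nat.gcd_comm]

lemma double_conv (hX : Sx s κ K B0) (S : Finset ℕ) (hSp : ∀ p ∈ S, p.Prime) (Y : ℕ) (u v : ℝ) (hu0 : 0 ≤ u) (hv0 : 0 ≤ v)
    (hu : ⌊u⌋₊ ≤ Y) (hv : ⌊v⌋₊ ≤ Y) :
    ∑ A ∈ TS s S Y u, ∑ B ∈ TS s S Y v, ((-1) ^ A.card * Real.log (u / (s (Pr A) : ℝ))) *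
      ((-1) ^ B.card * Real.log (v / (s (Pr B) : ℝ))) *
      ((s (Nat.gcd (Pr A) (Pr B)) : ℝ) / ((s (Pr A) : ℝ) * (s (Pr B) : ℝ))) = Qf s S u v := by
  have h1 : ∀ A ∈ TS s S Y u, ∑ B ∈ TS s S Y v, ((-1) ^ A.card * Real.log (u / (s (Pr A) : ℝ))) *
      ((-1) ^ B.card * Real.log (v / (s (Pr B) : ℝ))) *
      ((s (Nat.gcd (Pr A) (Pr B)) : ℝ) / ((s (Pr A) : ℝ) * (s (Pr B) : ℝ))) =
      (-1) ^ A.card * (∑ n ∈ DS s S ⌊v⌋₊, (μ n : ℝ) * (Real.log (u / (s (Pr A) : ℝ)) * Real.log (v / (s n : ℝ)) *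
        ((s (Nat.gcd (Pr A) n) : ℝ) / ((s (Pr A) : ℝ) * (s n : ℝ))))) := by
    intro A _
    rw [← conv hX S hSp Y v hv0 hv (fun n => Real.log (u / (s (Pr A) : ℝ)) * Real.log (v / (s n : ℝ)) *
        ((s (Nat.gcd (Pr A) n) : ℝ) / ((s (Pr A) : ℝ) * (s n : ℝ)))), Finset.mul_sum]
    refine Finset.sum_congr rfl fun B _ => by ring
  rw [Finset.sum_congr rfl h1]
  have h2 := conv hX S hSp Y u hu0 hu (fun m => ∑ n ∈ DS s S ⌊v⌋₊, (μ n : ℝ) * (Real.log (u / (s m : ℝ)) *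
    Real.log (v / (s n : ℝ)) * ((s (Nat.gcd m n) : ℝ) / ((s m : ℝ) * (s n : ℝ)))))
  unfold TS rs
  rw [h2]
  unfold Qf
  refine Finset.sum_congr rfl fun m _ => ?_
  rw [Finset.mul_sum]
  refine Finset.sum_congr rfl fun n _ => ?_
  ring

lemma R0_eq (hX : Sx s κ K B0) {a b : ℕ} {S : Finset ℕ} (hSp : ∀ p ∈ S, p.Prime) {Y : ℕ}
    (hn : ∀ p ∈ rs s S Y, ¬ (p ∣ a ∨ p ∣ b)) : R0 s a b S Y = Qf s S Y Y / (Real.log Y) ^ 2 := by
  have hfl : ⌊(Y : ℝ)⌋₊ ≤ Y := by rw [Nat.floor_natCast]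
  rw [← double_conv hX S hSp Y Y Y (by positivity) (by positivity) hfl hfl]
  unfold R0
  rw [Finset.sum_div]
  refine Finset.sum_congr rfl fun A hA => ?_
  rw [Finset.sum_div]
  refine Finset.sum_congr rfl fun B hB => ?_
  rw [GG_none hX (fun p hp => rs_prime hX hp) hn, GG_one hX (fun p hp => rs_prime hX hp) ((mem_TS hX).mp hA).1 ((mem_TS hX).mp hB).1]
  unfold cf Lam
  ring

end Pool.Agent.H14.BN
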