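import Pool.Agent.H14.BN.Rough2

/-!
# The cross terms of the rough part, sized numbers

Port of the second half of `Pool/Agent/H14/PT/Rough2.lean` (from `Xp` on): copy with `(p : ℝ)` replaced by
`(s p : ℝ)`.
-/

namespace Pool.Agent.H14.BN

open Finset ArithmeticFunction Pool.Agent.H14.PT
open scoped ArithmeticFunction.Moebius

variable {s : ℕ →*₀ ℕ} {κ K B0 : ℝ}

/-- cross term at a prime -/
noncomputable def Xp (s : ℕ →*₀ ℕ) (S : Finset ℕ) (Y p : ℕ) : ℝ :=
  ∑ A ∈ (TS s S Y Y).filter (fun A => p ∈ A), ∑ B ∈ (TS s S Y Y).filter (fun B => p ∉ B),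
    cf s Y A * cf s Y B * GG s 1 1 (rs s S Y) A B

lemma GG_one_symm (hX : Sx s κ K B0) {P A B : Finset ℕ} (hP : ∀ p ∈ P, p.Prime) (hA : A ⊆ P) (hB : B ⊆ P) :
    GG s 1 1 P A B = GG s 1 1 P B A := by
  rw [GG_one hX hP hA hB, GG_one hX hP hB hA, Nat.gcd_comm, mul_comm (s (Pr A) : ℝ)]

lemma R1_eq (hX : Sx s κ K B0) {a b : ℕ} {S : Finset ℕ} {Y : ℕ}
    (hn : ∀ p ∈ rs s S Y, ¬ (p ∣ a ∨ p ∣ b)) :
    R1 s a b S Y = -2 * ∑ p ∈ rs s S Y, Real.log (s p) * Xp s S Y p := by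
  classical
  have hsp : ∀ p ∈ rs s S Y, p.Prime := fun p hp => rs_prime hX hp
  have h1 : ∀ A B : Finset ℕ, LL s a b (rs s S Y) A B = - ∑ p ∈ rs s S Y, Real.log (s p) *
      ((if p ∈ A ∧ p ∉ B then 1 else 0) + (if p ∉ A ∧ p ∈ B then 1 else 0)) := by
    intro A B
    rw [LL_none hX hsp hn]
    unfold LL le' ee
    rw [← Finset.sum_neg_distrib]
    refine Finset.sum_congr rfl fun p hp => ?_
    have h1 : ¬ p ∣ 1 := (hsp p hp).one_lt.ne' ∘ Nat.dvd_one.mp
    rw [if_neg h1, if_neg h1]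
    by_cases hA : p ∈ A <;> by_cases hB : p ∈ B <;> simp [hA, hB]
  have h2 : ∀ A ∈ TS s S Y Y, ∀ B ∈ TS s S Y Y,
      cf s Y A * cf s Y B * GG s a b (rs s S Y) A B * LL s a b (rs s S Y) A B =
      ∑ p ∈ rs s S Y, - Real.log (s p) * ((if p ∈ A ∧ p ∉ B then cf s Y A * cf s Y B * GG s 1 1 (rs s S Y) A B else 0) +
        (if p ∉ A ∧ p ∈ B then cf s Y A * cf s Y B * GG s 1 1 (rs s S Y) A B else 0)) := by
    intro A _ B _
    rw [h1, GG_none hX hsp hn, mul_neg, Finset.mul_sum, ← Finset.sum_neg_distrib]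
    refine Finset.sum_congr rfl fun p _ => ?_
    by_cases hA : p ∈ A <;> by_cases hB : p ∈ B <;> simp [hA, hB] <;> ring
  unfold R1
  rw [Finset.sum_congr rfl fun A hA => Finset.sum_congr rfl fun B hB => h2 A hA B hB]
  rw [Finset.sum_congr rfl fun A _ => Finset.sum_comm, Finset.sum_comm, Finset.mul_sum]
  refine Finset.sum_congr rfl fun p _ => ?_
  have h3 : ∑ A ∈ TS s S Y Y, ∑ B ∈ TS s S Y Y,
      (if p ∈ A ∧ p ∉ B then cf s Y A * cf s Y B * GG s 1 1 (rs s S Y) A B else 0) = Xp s S Y p := by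
    unfold Xp
    rw [Finset.sum_filter]
    refine Finset.sum_congr rfl fun A _ => ?_
    by_cases hA : p ∈ A
    · rw [if_pos hA, Finset.sum_filter]
      refine Finset.sum_congr rfl fun B _ => ?_
      simp [hA]
    · simp [hA]
  have h4 : ∑ A ∈ TS s S Y Y, ∑ B ∈ TS s S Y Y,
      (if p ∉ A ∧ p ∈ B then cf s Y A * cf s Y B * GG s 1 1 (rs s S Y) A B else 0) = Xp s S Y p := by
    rw [Finset.sum_comm, ← h3]
    refine Finset.sum_congr rfl fun A hA => Finset.sum_congr rfl fun B hB => ?_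
    rw [GG_one_symm hX hsp ((mem_TS hX).mp hB).1 ((mem_TS hX).mp hA).1, mul_comm (cf s Y B) (cf s Y A)]
    by_cases hA : p ∈ A <;> by_cases hB : p ∈ B <;> simp [hA, hB]
  calc ∑ A ∈ TS s S Y Y, ∑ B ∈ TS s S Y Y, - Real.log (s p) *
        ((if p ∈ A ∧ p ∉ B then cf s Y A * cf s Y B * GG s 1 1 (rs s S Y) A B else 0) +
        (if p ∉ A ∧ p ∈ B then cf s Y A * cf s Y B * GG s 1 1 (rs s S Y) A B else 0))
      = - Real.log (s p) * (∑ A ∈ TS s S Y Y, ∑ B ∈ TS s S Y Y,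
          (if p ∈ A ∧ p ∉ B then cf s Y A * cf s Y B * GG s 1 1 (rs s S Y) A B else 0) +
          ∑ A ∈ TS s S Y Y, ∑ B ∈ TS s S Y Y,
          (if p ∉ A ∧ p ∈ B then cf s Y A * cf s Y B * GG s 1 1 (rs s S Y) A B else 0)) := by
        rw [← Finset.sum_add_distrib, Finset.mul_sum]
        refine Finset.sum_congr rfl fun A _ => ?_
        rw [← Finset.sum_add_distrib, Finset.mul_sum]
    _ = _ := by rw [h3, h4]; ring

lemma Xp_eq (hX : Sx s κ K B0) {S : Finset ℕ} (hSp : ∀ p ∈ S, p.Prime) {Y p : ℕ} (hp : p ∈ rs s S Y) :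
    Xp s S Y p = -(1 / (s p : ℝ)) * (1 / (Real.log Y) ^ 2) * Qf s (insert p S) ((Y : ℝ) / (s p : ℝ)) Y := by
  classical
  have hpp : p.Prime := rs_prime hX hp
  have hp0 : (0 : ℝ) < (s p : ℝ) := hX.sys.r_pos hpp.ne_zero
  have hSp' : ∀ r ∈ insert p S, r.Prime := by
    intro r hr
    rcases Finset.mem_insert.mp hr with h | h
    · rw [h]; exact hpp
    · exact hSp r h
  have hfl : ⌊(Y : ℝ)⌋₊ ≤ Y := by rw [Nat.floor_natCast]
  have hfl2 : ⌊(Y : ℝ) / (s p : ℝ)⌋₊ ≤ Y := by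
    rw [Nat.floor_div_natCast, Nat.floor_natCast]
    exact Nat.div_le_self _ _
  rw [← double_conv hX (insert p S) hSp' Y ((Y : ℝ) / (s p : ℝ)) Y (by positivity) (by positivity) hfl2 hfl]
  have hrs : rs s (insert p S) Y = (rs s S Y).erase p := by
    ext r
    simp only [rs, Finset.mem_sdiff, Finset.mem_insert, Finset.mem_erase]
    tauto
  -- the two reindexings
  have hA : ∀ F : Finset ℕ → ℝ, ∑ A ∈ (TS s S Y Y).filter (fun A => p ∈ A), F A =
      ∑ A ∈ TS s (insert p S) Y ((Y : ℝ) / (s p : ℝ)), F (insert p A) := by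
    intro F
    symm
    refine Finset.sum_bij' (fun A _ => insert p A) (fun A _ => A.erase p) ?_ ?_ ?_ ?_ ?_
    · intro A hA
      obtain ⟨h1, h2⟩ := (mem_TS hX).mp hA
      rw [hrs] at h1
      have hpA : p ∉ A := fun h => (Finset.mem_erase.mp (h1 h)).1 rfl
      rw [Finset.mem_filter, mem_TS hX]
      refine ⟨⟨?_, ?_⟩, Finset.mem_insert_self _ _⟩
      · intro r hr
        rcases Finset.mem_insert.mp hr with h | h
        · rw [h]; exact hp
        · exact Finset.mem_of_mem_erase (h1 h)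
      · unfold Pr at h2 ⊢
        rw [Finset.prod_insert hpA, s_cast_mul]
        rw [le_div_iff₀ hp0] at h2
        linarith
    · intro A hA
      rw [Finset.mem_filter, mem_TS hX] at hA
      obtain ⟨⟨h1, h2⟩, h3⟩ := hA
      rw [(mem_TS hX), hrs]
      refine ⟨Finset.erase_subset_erase p h1, ?_⟩
      unfold Pr at h2 ⊢
      rw [← Finset.mul_prod_erase A (fun p => p) h3, s_cast_mul] at h2
      rw [le_div_iff₀ hp0]
      linarith
    · intro A hA
      obtain ⟨h1, h2⟩ := (mem_TS hX).mp hA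
      rw [hrs] at h1
      have hpA : p ∉ A := fun h => (Finset.mem_erase.mp (h1 h)).1 rfl
      exact Finset.erase_insert hpA
    · intro A hA
      rw [Finset.mem_filter] at hA
      exact Finset.insert_erase hA.2
    · intro A _
      rfl
  have hB : (TS s S Y Y).filter (fun B => p ∉ B) = TS s (insert p S) Y Y := by
    ext B
    rw [Finset.mem_filter, (mem_TS hX), (mem_TS hX), hrs]
    constructor
    · rintro ⟨⟨h1, h2⟩, h3⟩
      exact ⟨fun r hr => Finset.mem_erase.mpr ⟨fun h => h3 (h ▸ hr), h1 hr⟩, h2⟩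
    · rintro ⟨h1, h2⟩
      exact ⟨⟨fun r hr => Finset.mem_of_mem_erase (h1 hr), h2⟩,
        fun h => (Finset.mem_erase.mp (h1 h)).1 rfl⟩
  unfold Xp
  rw [hA (fun A => ∑ B ∈ (TS s S Y Y).filter (fun B => p ∉ B), cf s Y A * cf s Y B * GG s 1 1 (rs s S Y) A B), hB,
    Finset.mul_sum]
  refine Finset.sum_congr rfl fun A hA => ?_
  rw [Finset.mul_sum]
  refine Finset.sum_congr rfl fun B hB => ?_
  obtain ⟨a1, a2⟩ := (mem_TS hX).mp hA
  obtain ⟨b1, b2⟩ := (mem_TS hX).mp hB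
  rw [hrs] at a1 b1
  have hpA : p ∉ A := fun h => (Finset.mem_erase.mp (a1 h)).1 rfl
  have hpB : p ∉ B := fun h => (Finset.mem_erase.mp (b1 h)).1 rfl
  have hAs : insert p A ⊆ rs s S Y := by
    intro r hr
    rcases Finset.mem_insert.mp hr with h | h
    · rw [h]; exact hp
    · exact Finset.mem_of_mem_erase (a1 h)
  have hBs : B ⊆ rs s S Y := fun r hr => Finset.mem_of_mem_erase (b1 hr)
  have hAs' : A ⊆ rs s S Y := fun r hr => Finset.mem_of_mem_erase (a1 hr)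
  have hPrA : Pr (insert p A) = p * Pr A := by unfold Pr; rw [Finset.prod_insert hpA]
  have hA0 : (0 : ℝ) < (s (Pr A) : ℝ) := hX.sys.r_pos (Pr_ne_zero (fun r hr => rs_prime hX (hAs' hr)))
  have hB0 : (0 : ℝ) < (s (Pr B) : ℝ) := hX.sys.r_pos (Pr_ne_zero (fun r hr => rs_prime hX (hBs hr)))
  have hcop : Nat.Coprime p (Pr B) := by
    rw [Nat.Prime.coprime_iff_not_dvd hpp]
    intro h
    have : p ∈ (Pr B).primeFactors :=
      Nat.mem_primeFactors.mpr ⟨hpp, h, Pr_ne_zero (fun r hr => rs_prime hX (hBs hr))⟩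
    rw [primeFactors_Pr (fun r hr => rs_prime hX (hBs hr))] at this
    exact hpB this
  rw [GG_one hX (fun r hr => rs_prime hX hr) hAs hBs, hPrA, Nat.Coprime.gcd_mul_left_cancel _ hcop]
  unfold cf Lam
  rw [Finset.card_insert_of_notMem hpA, hPrA, s_cast_mul]
  rw [← div_div (Y : ℝ), pow_succ]
  field_simp

end Pool.Agent.H14.BN
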