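import Pool.Agent.H14.BN.Cls
import Pool.Agent.H14.BN.Mid
import Pool.Agent.H14.PT.S2

/-!
# Classification of the fractions, sized numbers

Port of `rough_Omega`, `rough_ge`, `classify`, `DN_T0` of `Pool/Agent/H14/PT/S2.lean` (and of `wDN_T0` of
`H74/TS/SecA.lean`): the small primes are those of size at most `z`.

* `rough_Omega`: induction on the prime factorisation (`Nat.recOnMul` or as there), `log (s m)` is
  additive.
* `classify`: as there (if at most one small prime `r` divides `n`, write `n = r^j m` with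
  `r ∤ m`; all the primes of `m` have size `> z`).
* `wDN_T0`: `DN_trivial` with the factor `K ^ 4 ≤ L` (`hB.KL`).
-/

namespace Pool.Agent.H14.BN

open Finset Pool.Agent.H14.PT Pool.Agent.H74.TS
open scoped ArithmeticFunction.Omega

variable {s : ℕ →*₀ ℕ} {κ K B0 : ℝ}

lemma rough_Omega (hS : Sys s κ K) {z : ℕ} : ∀ m : ℕ, m ≠ 0 →
    (∀ p, p.Prime → p ∣ m → z < s p) → (Ω m : ℝ) * Real.log z ≤ Real.log (s m) := by
  intro m
  induction m using Nat.recOnMul with
  | zero => intro h; exact absurd rfl h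
  | one => intro _ _; simp
  | prime p hp =>
      intro _ h
      rw [ArithmeticFunction.cardFactors_apply_prime hp]
      have h1 := h p hp (dvd_refl p)
      rcases Nat.eq_zero_or_pos z with h0 | h0
      · rw [h0]; simp [Real.log_natCast_nonneg]
      · have hz0 : (0 : ℝ) < z := by exact_mod_cast h0
        have : Real.log z ≤ Real.log (s p) := Real.log_le_log hz0 (by exact_mod_cast h1.le)
        push_cast
        linarith
  | mul a b iha ihb =>
      intro hn h
      have ha : a ≠ 0 := left_ne_zero_of_mul hn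
      have hb : b ≠ 0 := right_ne_zero_of_mul hn
      rw [ArithmeticFunction.cardFactors_mul ha hb, s_cast_mul]
      push_cast
      rw [Real.log_mul (hS.r_pos ha).ne' (hS.r_pos hb).ne', add_mul]
      exact add_le_add (iha ha fun p hp hd => h p hp (hd.mul_right b))
        (ihb hb fun p hp hd => h p hp (hd.mul_left a))

lemma rough_ge (hS : Sys s κ K) {z m : ℕ} (hm0 : m ≠ 0) (hm1 : m ≠ 1)
    (h : ∀ p, p.Prime → p ∣ m → z < s p) : z ≤ s m := by
  have h1 := h m.minFac (Nat.minFac_prime hm1) (Nat.minFac_dvd m)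
  exact h1.le.trans (hS.le_of_dvd (Nat.minFac_dvd m) hm0)

theorem classify (hS : Sys s κ K) {z n : ℕ} (hz : 1 ≤ Real.log z) (hn : n ≠ 0) :
    n = 1 ∨ (∃ r r', r.Prime ∧ s r ≤ z ∧ r'.Prime ∧ s r' ≤ z ∧ r ≠ r' ∧ r ∣ n ∧ r' ∣ n) ∨
    (∃ r j, r.Prime ∧ s r ≤ z ∧ 1 ≤ j ∧ n = r ^ j) ∨ (z ≤ s n ∧ BN.Few s z n) ∨
    (∃ r j n', r.Prime ∧ s r ≤ z ∧ 2 ≤ j ∧ n = r ^ j * n' ∧ ¬ r ∣ n' ∧ z ≤ s n' ∧
      BN.Few s z n') := by
  have hlz : 0 < Real.log z := by linarith
  by_cases h2 : ∃ r r', r.Prime ∧ s r ≤ z ∧ r'.Prime ∧ s r' ≤ z ∧ r ≠ r' ∧ r ∣ n ∧ r' ∣ n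
  · exact Or.inr (Or.inl h2)
  by_cases h1 : ∃ r, r.Prime ∧ s r ≤ z ∧ r ∣ n
  · obtain ⟨r, hr, hrz, hrn⟩ := h1
    have hprod : n = r ^ n.factorization r * (n / r ^ n.factorization r) :=
      (Nat.ordProj_mul_ordCompl_eq_self n r).symm
    have hnd : ¬ r ∣ n / r ^ n.factorization r := Nat.not_dvd_ordCompl hr hn
    set j := n.factorization r with hj
    set n' := n / r ^ j with hn'
    have hj1 : 1 ≤ j := hr.factorization_pos_of_dvd hn hrn
    have hn'0 : n' ≠ 0 := by
      intro h0; rw [h0, mul_zero] at hprod; exact hn hprod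
    have hrough : ∀ p, p.Prime → p ∣ n' → z < s p := by
      intro p hp hpd
      by_contra hpz
      apply h2
      have hne : r ≠ p := fun h => hnd (h ▸ hpd)
      exact ⟨r, p, hr, hrz, hp, by omega, hne, hrn, by rw [hprod]; exact hpd.mul_left _⟩
    by_cases hn'1 : n' = 1
    · rw [hn'1, mul_one] at hprod
      exact Or.inr (Or.inr (Or.inl ⟨r, j, hr, hrz, hj1, hprod⟩))
    · have hzn' := rough_ge hS hn'0 hn'1 hrough
      have hO := rough_Omega hS n' hn'0 hrough
      have hn'r : (1 : ℝ) ≤ (s n' : ℝ) := hS.r_one hn'0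
      by_cases hj2 : 2 ≤ j
      · refine Or.inr (Or.inr (Or.inr (Or.inr ⟨r, j, n', hr, hrz, hj2, hprod, hnd, hzn', ?_⟩)))
        unfold BN.Few
        have : (Ω n' : ℝ) ≤ Real.log (s n') / Real.log z := by rw [le_div_iff₀ hlz]; exact hO
        linarith
      · have hj1' : j = 1 := by omega
        rw [hj1', pow_one] at hprod
        have hn'n : s n' ≤ s n := hS.le_of_dvd ⟨r, by rw [mul_comm]; exact hprod⟩ hn
        refine Or.inr (Or.inr (Or.inr (Or.inl ⟨hzn'.trans hn'n, ?_⟩)))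
        unfold BN.Few
        have h3 : (Ω n : ℝ) = 1 + Ω n' := by
          conv_lhs => rw [hprod]
          rw [ArithmeticFunction.cardFactors_mul hr.ne_zero hn'0,
            ArithmeticFunction.cardFactors_apply_prime hr]
          push_cast; ring
        rw [h3]
        have h4 : Real.log (s n') ≤ Real.log (s n) :=
          Real.log_le_log (by linarith) (by exact_mod_cast hn'n)
        have : (Ω n' : ℝ) ≤ Real.log (s n) / Real.log z := by rw [le_div_iff₀ hlz]; linarith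
        linarith
  · by_cases hn1 : n = 1
    · exact Or.inl hn1
    have hrough : ∀ p, p.Prime → p ∣ n → z < s p := by
      intro p hp hpd
      by_contra hpz
      exact h1 ⟨p, hp, by omega, hpd⟩
    refine Or.inr (Or.inr (Or.inr (Or.inl ⟨rough_ge hS hn hn1 hrough, ?_⟩)))
    unfold BN.Few
    have hO := rough_Omega hS n hn hrough
    have : (Ω n : ℝ) ≤ Real.log (s n) / Real.log z := by rw [le_div_iff₀ hlz]; exact hO
    linarith

theorem wDN_T0 (hX : Sx s κ K B0) {ε L : ℝ} {Z : ℕ} (hB : BN.Bg K ε Z L) {N a b : ℕ} (ha : a ≠ 0)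
    (hb : b ≠ 0) (hab : Nat.Coprime a b) (hN1 : 1 ≤ N) (hN2 : (N : ℝ) ≤ Real.exp (1.001 * L)) :
    |BN.DN s (BN.MfS s (tz Z L) (ty ε L) (ty ε L)) (BN.wS s (tz Z L) (ty ε L) (ty ε L)) N a b| ≤
      BN.T0 s (a, b) * (16 * L ^ 5) := by
  have hB' := hB.toBg
  have hL : 10 ^ 24 ≤ L := hB'.hL24
  have hL1 : (1 : ℝ) ≤ L := by linarith
  have hY2 : 2 ≤ ty ε L := hB'.z_two.trans hB'.zY
  have hYpos := hB'.Y_pos
  have h := BN.DN_trivial hX.sys (BN.MfS s (tz Z L) (ty ε L) (ty ε L))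
    (BN.wS s (tz Z L) (ty ε L) (ty ε L)) N
    (ty ε L * ty ε L)
    ((ty ε L * ty ε L) * N) a b hab ha hb (fun m hm => BN.MfS_bounds hX hm)
    (fun m => BN.abs_wS_le hX hY2 m)
    (by
      calc (ty ε L * ty ε L) ^ 2 * N ≤ (ty ε L * ty ε L) ^ 2 * (N * N) :=
            Nat.mul_le_mul_left _ (Nat.le_mul_of_pos_left _ hN1)
        _ = (ty ε L * ty ε L * N) ^ 2 := by ring)
  refine h.trans ?_
  unfold BN.T0
  refine mul_le_mul_of_nonneg_left ?_ (by positivity)
  have hNr : (0 : ℝ) < N := by exact_mod_cast hN1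
  have h1 : Real.log ((ty ε L * ty ε L * N : ℕ) : ℝ) ≤ 1.003 * L := by
    push_cast
    rw [Real.log_mul (by positivity) hNr.ne', Real.log_mul hYpos.ne' hYpos.ne']
    have h2 := Real.log_le_log hB'.Y_pos hB'.Y_hi'
    rw [Real.log_exp] at h2
    have h3 := Real.log_le_log hNr hN2
    rw [Real.log_exp] at h3
    linarith
  have h0 : 0 ≤ Real.log ((ty ε L * ty ε L * N : ℕ) : ℝ) := Real.log_natCast_nonneg _
  have hK0 : 0 ≤ K := by linarith [hB.K1]
  have hK4 : K ^ 4 ≤ L := (pow_le_pow_right₀ hB.K1 (by norm_num)).trans hB.KL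
  calc K ^ 4 * (1 + Real.log ((ty ε L * ty ε L * N : ℕ) : ℝ)) ^ 4 ≤ L * (2 * L) ^ 4 := by
        refine mul_le_mul hK4 ?_ (by positivity) (by linarith)
        apply pow_le_pow_left₀ (by linarith)
        linarith
    _ = 16 * L ^ 5 := by ring

end Pool.Agent.H14.BN
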