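import Pool.Agent.H14.BN.S2
import Pool.Agent.H14.BN.Ful
import Pool.Agent.H14.BN.ClsR
import Pool.Agent.H14.BN.ClsP
import Pool.Agent.H14.BN.ClsL
import Pool.Agent.H74.TS.SecA

/-!
# The weighted sum of `|DN|` over the reduced fractions, sized numbers

Port of `Pool/Agent/H74/TS/SecA.lean` (`mem_RQ`, `wS2_mid`), with `wfull_bounds`, `werr_bound`,
`wsum_L`, `wsum_P`, `wsum_R1`, `wsum_R2`, `classify`, `wDN_T0`, `full_M`, `count_small` (which has the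
factor `K ^ 2 ≤ L`, so the second class gives at most `L exp (-8 kap L) ≤ 1`) of the BN files.
-/

namespace Pool.Agent.H14.BN

open Finset Pool.Agent.H14.PT Pool.Agent.H74.TS

universe u

variable {s : ℕ →*₀ ℕ} {κ K B0 : ℝ}

/-- the reduced fractions `a / b` with `s (ab) ≤ B` -/
noncomputable def RQ (s : ℕ →*₀ ℕ) (B : ℕ) : Finset (ℕ × ℕ) :=
  ((SI s B) ×ˢ (SI s B)).filter (fun p => Nat.Coprime p.1 p.2 ∧ s (p.1 * p.2) ≤ B)

lemma mem_RQ (hS : Sys s κ K) {B : ℕ} {p : ℕ × ℕ} :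
    p ∈ RQ s B ↔ BN.Red p ∧ s (p.1 * p.2) ≤ B := by
  unfold BN.RQ BN.Red
  rw [mem_filter, mem_product, hS.mem_SI, hS.mem_SI]
  constructor
  · rintro ⟨⟨⟨h1, _⟩, h2, _⟩, h3, h4⟩
    exact ⟨⟨h3, h1, h2⟩, h4⟩
  · rintro ⟨⟨h1, h2, h3⟩, h4⟩
    exact ⟨⟨⟨h2, (hS.le_mul_right p.1 h3).trans h4⟩, h3, (hS.le_mul_left p.2 h2).trans h4⟩, h1, h4⟩

theorem wS2_mid (hX : Sx s κ K B0) (ε : ℝ) (Z : ℕ) (hε : 0 < ε) (hε1 : ε ≤ 1 / 10)
    (hZ : 400 ≤ ε * Z) :
    ∃ C Q0 : ℝ, 0 < C ∧ ∀ (W : Type u) [CommGroupWithZero W] (cl : ℕ →*₀ W) (Q : ℕ),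
    Md s K cl Q → Q0 ≤ Real.log Q → BN.Bg K ε Z (Real.log Q) →
    ∀ (h1 h2 : ℝ) (v1 v2 : ℕ × ℕ → ℝ), BN.KF K cl h1 v1 → BN.KF K cl h2 v2 →
    Real.log h1 + 2 * Real.log h2 ≤ (1 - ε) * Real.log Q → ∀ N : ℕ,
    Real.exp ((1 - ε / 1000) * Real.log Q) ≤ N → (N : ℝ) ≤ Real.exp ((1 + ε / 1000) * Real.log Q) →
    ∑ p ∈ BN.RQ s ((ty ε (Real.log Q) * ty ε (Real.log Q)) ^ 2 * N), BN.ww v1 v2 p *
      |BN.DN s (BN.MfS s (tz Z (Real.log Q)) (ty ε (Real.log Q)) (ty ε (Real.log Q)))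
        (BN.wS s (tz Z (Real.log Q)) (ty ε (Real.log Q)) (ty ε (Real.log Q))) N p.1 p.2| ≤ C := by
  classical
  have hS := hX.sys
  obtain ⟨C1, hC1, hfull⟩ := BN.wfull_bounds hX ε hε
  obtain ⟨Qe, herr⟩ := BN.werr_bound hX ε Z
  obtain ⟨Ql, hsumL⟩ := BN.wsum_L hS ε Z hε hε1 hZ
  obtain ⟨Qp, hsumP⟩ := BN.wsum_P hX ε Z
  have hκ : 0 < kap ε Z := by
    unfold kap
    have hZ0 : (0 : ℝ) < Z := by
      by_contra hc
      push Not at hc
      nlinarith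
    positivity
  obtain ⟨Qx, _, hQx⟩ := poly_le_exp 1 1 (8 * kap ε Z) (by positivity)
  refine ⟨3 * C1 + 4, max (max (max Qe Ql) Qp) Qx, by positivity, ?_⟩
  intro W _ cl Q hM hq' hB h1 h2 v1 v2 hv1 hv2 hc N hN1 hN2
  have hqx : Qx ≤ Real.log Q := (le_max_right _ _).trans hq'
  have hq : max (max Qe Ql) Qp ≤ Real.log Q := (le_max_left _ _).trans hq'
  have hqe : Qe ≤ Real.log Q := (le_max_left _ _).trans ((le_max_left _ _).trans hq)
  have hql : Ql ≤ Real.log Q := (le_max_right _ _).trans ((le_max_left _ _).trans hq)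
  have hqp : Qp ≤ Real.log Q := (le_max_right _ _).trans hq
  have hsP := hsumP W cl Q hM hqp hB h1 h2 v1 v2 hv1 hv2 hc
  have hsL := hsumL W cl Q hM hql h1 h2 v1 v2 hv1 hv2 hc
  have hsR1 := fun P => BN.wsum_R1 hS hM hB hv1 hv2 hc P
  have hsR2 := fun P => BN.wsum_R2 hS hM hB hv1 hv2 hc P
  set L := Real.log Q with hL
  have hL100 := hB.toBg.hL
  have hLpos : 0 < L := by linarith
  have hεL : 0 < ε * L := by positivity
  have hN1' : 1 ≤ N := by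
    have h0 : 0 ≤ (1 - ε / 1000) * L := mul_nonneg (by linarith) hLpos.le
    have : (1 : ℝ) ≤ N := (Real.one_le_exp h0).trans hN1
    exact_mod_cast this
  have hN2' : (N : ℝ) ≤ Real.exp (1.001 * L) := by
    refine hN2.trans (Real.exp_le_exp.mpr ?_)
    apply mul_le_mul_of_nonneg_right _ hLpos.le
    linarith
  have hful := hfull Z L hB N hN1' hN2'
  set Ex := Real.exp (kap ε Z * L) with hEx
  set z := tz Z L with hz
  set Y := ty ε L with hY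
  set P := BN.RQ s ((Y * Y) ^ 2 * N) with hP
  set D : ℕ × ℕ → ℝ := fun p => |BN.DN s (BN.MfS s z Y Y) (BN.wS s z Y Y) N p.1 p.2| with hD
  set clsP : ℕ × ℕ → Prop := fun p => (s (p.1 * p.2) : ℝ) ≤ Ex ∧
    ∃ r j, r.Prime ∧ s r ≤ z ∧ 1 ≤ j ∧ p.1 * p.2 = r ^ j with hclsP
  set clsR1 : ℕ × ℕ → Prop := fun p => (s (p.1 * p.2) : ℝ) ≤ Ex ∧ z ≤ s (p.1 * p.2) ∧ BN.Few s z (p.1 * p.2)
    with hclsR1
  set clsR2 : ℕ × ℕ → Prop := fun p => (s (p.1 * p.2) : ℝ) ≤ Ex ∧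
    ∃ r j n', r.Prime ∧ s r ≤ z ∧ 2 ≤ j ∧ p.1 * p.2 = r ^ j * n' ∧ ¬ r ∣ n' ∧ z ≤ s n' ∧ BN.Few s z n' with hclsR2
  have hpt : ∀ p ∈ P, BN.ww v1 v2 p * D p ≤ (if p = (1, 1) then C1 else 0) +
      (if Ex ≤ (s (p.1 * p.2) : ℝ) then BN.ww v1 v2 p * (BN.T0 s p * (16 * L ^ 5)) else 0) +
      (if (s (p.1 * p.2) : ℝ) ≤ Ex then Real.exp (-(10 * kap ε Z) * L) else 0) +
      (if clsP p then C1 * (BN.ww v1 v2 p * (((s (p.1 * p.2) : ℝ)) ^ (-(1 / 2) : ℝ) *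
        (Real.log (s (Nat.minFac (p.1 * p.2))) / L))) else 0) +
      (if clsR1 p then BN.ww v1 v2 p * (BN.T0 s p * (16 * L ^ 5)) else 0) +
      (if clsR2 p then BN.ww v1 v2 p * (BN.T0 s p * (16 * L ^ 5)) else 0) := by
    intro p hp
    obtain ⟨⟨hcop, h1, h2⟩, _⟩ := (BN.mem_RQ hS).mp hp
    have hw0 := BN.ww_nonneg v1 v2 p
    have hw1 := BN.ww_le_one hv1 hv2 p
    have hT := mul_le_mul_of_nonneg_left (BN.wDN_T0 hX hB h1 h2 hcop hN1' hN2') hw0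
    have hT0 : 0 ≤ BN.T0 s p * (16 * L ^ 5) := mul_nonneg (BN.T0_nonneg s p) (by positivity)
    have hn0 : p.1 * p.2 ≠ 0 := Nat.mul_ne_zero h1 h2
    have hmf : 0 ≤ Real.log (s (Nat.minFac (p.1 * p.2))) := Real.log_natCast_nonneg _
    have g1 : 0 ≤ (if p = (1, 1) then C1 else 0) := by split_ifs <;> positivity
    have g2 : 0 ≤ (if Ex ≤ (s (p.1 * p.2) : ℝ) then BN.ww v1 v2 p * (BN.T0 s p * (16 * L ^ 5)) else 0) := by
      split_ifs <;> positivity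
    have g3 : 0 ≤ (if (s (p.1 * p.2) : ℝ) ≤ Ex then Real.exp (-(10 * kap ε Z) * L) else 0) := by
      split_ifs <;> positivity
    have g4 : 0 ≤ (if clsP p then C1 * (BN.ww v1 v2 p * (((s (p.1 * p.2) : ℝ)) ^ (-(1 / 2) : ℝ) *
        (Real.log (s (Nat.minFac (p.1 * p.2))) / L))) else 0) := by
      split_ifs <;> positivity
    have g5 : 0 ≤ (if clsR1 p then BN.ww v1 v2 p * (BN.T0 s p * (16 * L ^ 5)) else 0) := by
      split_ifs <;> positivity
    have g6 : 0 ≤ (if clsR2 p then BN.ww v1 v2 p * (BN.T0 s p * (16 * L ^ 5)) else 0) := by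
      split_ifs <;> positivity
    by_cases hbig : Ex ≤ (s (p.1 * p.2) : ℝ)
    · rw [if_pos hbig] at g2 ⊢
      have : BN.ww v1 v2 p * D p ≤ BN.ww v1 v2 p * (BN.T0 s p * (16 * L ^ 5)) := hT
      linarith
    · push Not at hbig
      have hle := hbig.le
      have herr' := herr L hqe hB N p.1 p.2 h1 h2 hcop hN1 hN2 hle
      have hDmain : D p ≤ ((s (p.1 * p.2) : ℝ)) ^ (-(1 / 2) : ℝ) * |BN.Full s κ B0 z Y N p.1 p.2| +
          Real.exp (-(10 * kap ε Z) * L) := by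
        have e1 : D p ≤ |((s (p.1 * p.2) : ℝ)) ^ (-(1 / 2) : ℝ) * BN.Full s κ B0 z Y N p.1 p.2| +
            |BN.DN s (BN.MfS s z Y Y) (BN.wS s z Y Y) N p.1 p.2 -
              ((s (p.1 * p.2) : ℝ)) ^ (-(1 / 2) : ℝ) * BN.Full s κ B0 z Y N p.1 p.2| := by
          have := abs_add_le (((s (p.1 * p.2) : ℝ)) ^ (-(1 / 2) : ℝ) * BN.Full s κ B0 z Y N p.1 p.2)
            (BN.DN s (BN.MfS s z Y Y) (BN.wS s z Y Y) N p.1 p.2 -
              ((s (p.1 * p.2) : ℝ)) ^ (-(1 / 2) : ℝ) * BN.Full s κ B0 z Y N p.1 p.2)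
          rw [add_sub_cancel] at this
          exact this
        rw [abs_mul, abs_of_nonneg (by positivity : (0 : ℝ) ≤ ((s (p.1 * p.2) : ℝ)) ^ (-(1 / 2) : ℝ))] at e1
        linarith
      have hE0 : 0 < Real.exp (-(10 * kap ε Z) * L) := Real.exp_pos _
      have hwE : BN.ww v1 v2 p * Real.exp (-(10 * kap ε Z) * L) ≤ Real.exp (-(10 * kap ε Z) * L) :=
        mul_le_of_le_one_left hE0.le hw1
      have hwD : BN.ww v1 v2 p * D p ≤
          BN.ww v1 v2 p * (((s (p.1 * p.2) : ℝ)) ^ (-(1 / 2) : ℝ) * |BN.Full s κ B0 z Y N p.1 p.2|) +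
          Real.exp (-(10 * kap ε Z) * L) := by
        have := mul_le_mul_of_nonneg_left hDmain hw0
        rw [mul_add] at this
        linarith
      rw [if_pos hle] at g3 ⊢
      rcases BN.classify hS (z := z) (by linarith [hB.toBg.logz_1000]) hn0 with hc | hc | hc | hc | hc
      · -- p = (1,1)
        have e1 : p.1 = 1 := Nat.eq_one_of_mul_eq_one_right hc
        have e2 : p.2 = 1 := Nat.eq_one_of_mul_eq_one_left hc
        have e3 : p = (1, 1) := Prod.ext e1 e2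
        rw [if_pos e3]
        have h5 : ((s (p.1 * p.2) : ℝ)) ^ (-(1 / 2) : ℝ) * |BN.Full s κ B0 z Y N p.1 p.2| ≤ C1 := by
          rw [hc, e1, e2, map_one]
          simpa using hful.1
        have h50 : 0 ≤ ((s (p.1 * p.2) : ℝ)) ^ (-(1 / 2) : ℝ) * |BN.Full s κ B0 z Y N p.1 p.2| := by
          positivity
        have h6 := mul_le_of_le_one_left h50 hw1
        linarith
      · -- two small primes
        obtain ⟨r, r', hr, hrz, hr', hrz', hne, hd, hd'⟩ := hc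
        have h6 : BN.Full s κ B0 z Y N p.1 p.2 = 0 :=
          BN.full_M hX hr hrz hr' hrz' hne ((Nat.Prime.dvd_mul hr).mp hd) ((Nat.Prime.dvd_mul hr').mp hd')
        rw [h6, abs_zero, mul_zero, mul_zero, zero_add] at hwD
        linarith
      · -- prime power
        obtain ⟨r, j, hr, hrz, hj, hprod⟩ := hc
        have h6 : clsP p := ⟨hle, r, j, hr, hrz, hj, hprod⟩
        rw [if_pos h6]
        have h7 := hful.2 p.1 p.2 r j hr hrz hj hprod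
        have h8 : Nat.minFac (p.1 * p.2) = r := by rw [hprod]; exact hr.pow_minFac (by omega)
        rw [h8]
        have h9 : BN.ww v1 v2 p * (((s (p.1 * p.2) : ℝ)) ^ (-(1 / 2) : ℝ) * |BN.Full s κ B0 z Y N p.1 p.2|) ≤
            C1 * (BN.ww v1 v2 p * (((s (p.1 * p.2) : ℝ)) ^ (-(1 / 2) : ℝ) * (Real.log (s r) / L))) := by
          calc _ ≤ BN.ww v1 v2 p *
                (((s (p.1 * p.2) : ℝ)) ^ (-(1 / 2) : ℝ) * (C1 * (Real.log (s r) / L))) := by gcongr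
            _ = _ := by ring
        linarith
      · have h6 : clsR1 p := ⟨hle, hc.1, hc.2⟩
        rw [if_pos h6]
        have : BN.ww v1 v2 p * D p ≤ BN.ww v1 v2 p * (BN.T0 s p * (16 * L ^ 5)) := hT
        linarith
      · have h6 : clsR2 p := ⟨hle, hc⟩
        rw [if_pos h6]
        have : BN.ww v1 v2 p * D p ≤ BN.ww v1 v2 p * (BN.T0 s p * (16 * L ^ 5)) := hT
        linarith
  refine (Finset.sum_le_sum hpt).trans ?_
  rw [Finset.sum_add_distrib, Finset.sum_add_distrib, Finset.sum_add_distrib, Finset.sum_add_distrib,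
    Finset.sum_add_distrib]
  have hCPall : ∀ p ∈ P, BN.Red p := fun p hp => ((BN.mem_RQ hS).mp hp).1
  have hup : ∀ p ∈ P, (s (p.1 * p.2) : ℝ) ≤ Real.exp ((1 + ε / 100) * L) := by
    intro p hp
    have h1 := ((BN.mem_RQ hS).mp hp).2
    have h2 : (s (p.1 * p.2) : ℝ) ≤ (((Y * Y) ^ 2 * N : ℕ) : ℝ) := Nat.cast_le.mpr h1
    refine h2.trans ?_
    push_cast
    have hY' := hB.toBg.Y_hi
    calc ((Y : ℝ) * Y) ^ 2 * N ≤ (Real.exp (ε / 1000 * L) * Real.exp (ε / 1000 * L)) ^ 2 *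
          Real.exp ((1 + ε / 1000) * L) := by
          gcongr
      _ = Real.exp ((1 + 5 * ε / 1000) * L) := by
          rw [← Real.exp_add, ← Real.exp_nat_mul, ← Real.exp_add]; congr 1; push_cast; ring
      _ ≤ _ := Real.exp_le_exp.mpr (by nlinarith)
  have s1 : ∑ p ∈ P, (if p = (1, 1) then C1 else 0) ≤ C1 := by
    rw [Finset.sum_ite_eq']
    split_ifs <;> linarith
  have s2 : ∑ p ∈ P, (if Ex ≤ (s (p.1 * p.2) : ℝ) then
      BN.ww v1 v2 p * (BN.T0 s p * (16 * L ^ 5)) else 0) ≤ 1 := by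
    rw [← Finset.sum_filter]
    apply hsL
    intro p hp
    obtain ⟨h1, h2⟩ := Finset.mem_filter.mp hp
    exact ⟨hCPall p h1, h2, hup p h1⟩
  have s3 : ∑ p ∈ P, (if (s (p.1 * p.2) : ℝ) ≤ Ex then Real.exp (-(10 * kap ε Z) * L) else 0) ≤ 1 := by
    rw [← Finset.sum_filter, Finset.sum_const, nsmul_eq_mul]
    have h1 := BN.count_small hS (E := Ex) (Real.exp_pos _).le (P.filter (fun p => (s (p.1 * p.2) : ℝ) ≤ Ex))
      (fun p hp => by
        obtain ⟨h1, h2⟩ := Finset.mem_filter.mp hp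
        obtain ⟨_, h3, h4⟩ := hCPall p h1
        exact ⟨h3, h4, h2⟩)
    have hK2 : K ^ 2 ≤ Real.exp (8 * kap ε Z * L) := by
      have h2 := hQx L hqx
      rw [pow_one, one_mul] at h2
      exact ((pow_le_pow_right₀ hB.K1 (by norm_num)).trans hB.KL).trans h2
    calc _ ≤ K ^ 2 * Ex ^ 2 * Real.exp (-(10 * kap ε Z) * L) := by gcongr
      _ ≤ Real.exp (8 * kap ε Z * L) * Ex ^ 2 * Real.exp (-(10 * kap ε Z) * L) := by gcongr
      _ = Real.exp (8 * kap ε Z * L + 2 * (kap ε Z * L) + -(10 * kap ε Z) * L) := by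
          rw [hEx, ← Real.exp_nat_mul, Real.exp_add, Real.exp_add]; push_cast; ring
      _ = 1 := by
          rw [Real.exp_eq_one_iff]
          ring
  have s4 : ∑ p ∈ P, (if clsP p then C1 * (BN.ww v1 v2 p * (((s (p.1 * p.2) : ℝ)) ^ (-(1 / 2) : ℝ) *
        (Real.log (s (Nat.minFac (p.1 * p.2))) / L))) else 0) ≤ C1 * 2 := by
    rw [← Finset.sum_filter, ← Finset.mul_sum]
    refine mul_le_mul_of_nonneg_left ?_ hC1.le
    apply hsP
    intro p hp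
    obtain ⟨h1, h2, h3⟩ := Finset.mem_filter.mp hp
    exact ⟨hCPall p h1, h2, h3⟩
  have s5 : ∑ p ∈ P, (if clsR1 p then BN.ww v1 v2 p * (BN.T0 s p * (16 * L ^ 5)) else 0) ≤ 1 := by
    rw [← Finset.sum_filter]
    apply hsR1
    intro p hp
    obtain ⟨h1, h2, h3, h4⟩ := Finset.mem_filter.mp hp
    exact ⟨hCPall p h1, h3, h2, h4⟩
  have s6 : ∑ p ∈ P, (if clsR2 p then BN.ww v1 v2 p * (BN.T0 s p * (16 * L ^ 5)) else 0) ≤ 1 := by
    rw [← Finset.sum_filter]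
    apply hsR2
    intro p hp
    obtain ⟨h1, h2, h3⟩ := Finset.mem_filter.mp hp
    exact ⟨hCPall p h1, h2, h3⟩
  linarith

end Pool.Agent.H14.BN
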