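import Pool.Agent.H14.BN.Base
import Pool.Agent.H14.PT.Small

/-!
# Double sums over subsets of a set of primes, sized numbers

Port of `Pool/Agent/H14/PT/Small.lean`; `Pr`, `ee`, `le'`, `gcd_eq`, `Pr_eq_prod` are used from there.
Proofs: apply `s` to `gcd_eq` (`map_prod`, `map_pow`), `s_cast_prod`, then as there.
-/

namespace Pool.Agent.H14.BN

open Finset Pool.Agent.H14.PT

variable {s : ℕ →*₀ ℕ} {κ K : ℝ}

/-- local ratio `g/(m m')` -/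
noncomputable def rr (s : ℕ →*₀ ℕ) (a b p : ℕ) (x y : Bool) : ℝ :=
  (s p : ℝ) ^ (ee a b p x y) / ((s p : ℝ) ^ x.toNat * (s p : ℝ) ^ y.toNat)

/-- `g / (m m')` -/
noncomputable def GG (s : ℕ →*₀ ℕ) (a b : ℕ) (P A B : Finset ℕ) : ℝ :=
  ∏ p ∈ P, rr s a b p (decide (p ∈ A)) (decide (p ∈ B))

/-- `log (g² / (m m'))` -/
noncomputable def LL (s : ℕ →*₀ ℕ) (a b : ℕ) (P A B : Finset ℕ) : ℝ :=
  ∑ p ∈ P, Real.log (s p) * (le' a b p (decide (p ∈ A)) (decide (p ∈ B)) : ℝ)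

lemma ratio_eq (hS : Sys s κ K) {P A B : Finset ℕ} (hP : ∀ p ∈ P, p.Prime) (hA : A ⊆ P) (hB : B ⊆ P) {a b : ℕ}
    (ha : a ≠ 0) (hb : b ≠ 0) (hab : Nat.Coprime a b) :
    (s (Nat.gcd (a * Pr B) (b * Pr A)) : ℝ) / ((s (Pr A) : ℝ) * (s (Pr B) : ℝ)) = GG s a b P A B := by
  rw [gcd_eq hP hA hB ha hb hab, Pr_eq_prod hA, Pr_eq_prod hB, s_cast_prod, s_cast_prod, s_cast_prod]
  simp only [s_cast_pow]
  unfold GG rr
  rw [Finset.prod_div_distrib, Finset.prod_mul_distrib]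

lemma log_eq (hS : Sys s κ K) {P A B : Finset ℕ} (hP : ∀ p ∈ P, p.Prime) (hA : A ⊆ P) (hB : B ⊆ P) {a b : ℕ}
    (ha : a ≠ 0) (hb : b ≠ 0) (hab : Nat.Coprime a b) :
    Real.log ((s (Nat.gcd (a * Pr B) (b * Pr A)) : ℝ) ^ 2 / ((s (Pr A) : ℝ) * (s (Pr B) : ℝ))) = LL s a b P A B := by
  rw [gcd_eq hP hA hB ha hb hab, Pr_eq_prod hA, Pr_eq_prod hB, s_cast_prod, s_cast_prod, s_cast_prod]
  simp only [s_cast_pow]
  have hp : ∀ p ∈ P, (s p : ℝ) ≠ 0 := fun p hp => (hS.r_pos (hP p hp).ne_zero).ne'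
  have h1 : ∀ e : ℕ → ℕ, Real.log (∏ p ∈ P, (s p : ℝ) ^ e p) = ∑ p ∈ P, (e p : ℝ) * Real.log (s p) := by
    intro e
    rw [Real.log_prod (fun p hps => pow_ne_zero _ (hp p hps))]
    refine Finset.sum_congr rfl fun p _ => by rw [Real.log_pow]
  have h2 : ∀ e : ℕ → ℕ, (∏ p ∈ P, (s p : ℝ) ^ e p) ≠ 0 := fun e =>
    Finset.prod_ne_zero_iff.mpr fun p hps => pow_ne_zero _ (hp p hps)
  rw [Real.log_div (pow_ne_zero _ (h2 _)) (mul_ne_zero (h2 _) (h2 _)), Real.log_mul (h2 _) (h2 _),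
    Real.log_pow, h1, h1, h1]
  unfold LL le'
  push_cast
  rw [Finset.mul_sum, ← Finset.sum_add_distrib, ← Finset.sum_sub_distrib]
  refine Finset.sum_congr rfl fun p _ => by ring

end Pool.Agent.H14.BN
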