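import Pool.Agent.H14.BN.Mert2
import Pool.Agent.H14.BN.Harm
import Pool.Agent.H14.PT.Vp

/-!
# Mertens products for sized numbers

Port of `Pool/Agent/H14/PT/Vp.lean` and of `prod_primes_le` of `Pool/Agent/H16/Euler.lean`.

* `Vp_le`: `∏_{p ∈ SP s n} (1 - 1 / s p)⁻¹ ≥ ∑_{m ∈ SI s n} 1 / s m` (`sum_le_euler` of
  `H16/Euler.lean` with `f m = (s m)⁻¹` as a monoid homomorphism and `A = SI s n`; every `m ∈ SI s n` is
  factored over `SP s n`), and the right hand side is at least `max 1 (κ log n + B - C)` by `harm_asymp`,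
  so at least `c log n`.
* `sum_inv_sq_tail`: `∑ 1 / (s k)²` over `k` with `m < s k ≤ n` (`hS.sum_tail_le`).
* `Vp_ge`: as `Vp_ge` there: let `z0` be a constant so large that...; the primes of size `≤ 2` are
  finitely many and each factor is `≥ 1/2`; for the primes of size in `(2, n]` use
  `inv_one_sub_le_exp` (`1 / s p ≤ 1/3`) with `sum_inv_primes_le`.
-/

namespace Pool.Agent.H14.BN

open Finset Pool.Agent.H14.PT

variable {s : ℕ →*₀ ℕ} {κ K : ℝ}

lemma one_sub_inv_pos (hS : Sys s κ K) {p : ℕ} (hp : p.Prime) : 0 < 1 - 1 / (s p : ℝ) := by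
  have h := hS.r_two hp
  have : 1 / (s p : ℝ) ≤ 1 / 2 := one_div_le_one_div_of_le (by norm_num) h
  linarith

/-- `∏_{s p ≤ n} (1 - 1 / s p)` -/
noncomputable def Vp (s : ℕ →*₀ ℕ) (n : ℕ) : ℝ := ∏ p ∈ SP s n, (1 - 1 / (s p : ℝ))

lemma Vp_pos (hS : Sys s κ K) (n : ℕ) : 0 < Vp s n :=
  Finset.prod_pos fun p hp => one_sub_inv_pos hS (hS.mem_SP.mp hp).1

lemma mem_PIoc' (hS : Sys s κ K) {z y p : ℕ} :
    p ∈ PIoc s z y ↔ (p.Prime ∧ s p ≤ y) ∧ z < s p := by
  unfold PIoc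
  rw [Finset.mem_filter, hS.mem_SP]

lemma SP_eq_union (hS : Sys s κ K) (z y : ℕ) (hzy : z ≤ y) : SP s y = SP s z ∪ PIoc s z y := by
  ext p
  rw [Finset.mem_union, hS.mem_SP, hS.mem_SP, mem_PIoc' hS]
  constructor
  · rintro ⟨h1, h2⟩
    by_cases h : s p ≤ z
    · exact Or.inl ⟨h1, h⟩
    · exact Or.inr ⟨⟨h1, h2⟩, by omega⟩
  · rintro (⟨h1, h2⟩ | ⟨h1, _⟩)
    · exact ⟨h1, h2.trans hzy⟩
    · exact h1

lemma disj_primes (hS : Sys s κ K) (z y : ℕ) : Disjoint (SP s z) (PIoc s z y) := by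
  rw [Finset.disjoint_left]
  intro p h1 h2
  rw [hS.mem_SP] at h1
  rw [mem_PIoc' hS] at h2
  omega

lemma Vp_mul (hS : Sys s κ K) (z y : ℕ) (hzy : z ≤ y) :
    Vp s z * ∏ p ∈ PIoc s z y, (1 - 1 / (s p : ℝ)) = Vp s y := by
  unfold Vp
  rw [SP_eq_union hS z y hzy, Finset.prod_union (disj_primes hS z y)]

/-- the harmonic sum is at most the inverse of the Mertens product -/
lemma Vp_harm_le (hS : Sys s κ K) (n : ℕ) :
    ∑ m ∈ SI s n, 1 / (s m : ℝ) ≤ (Vp s n)⁻¹ := by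
  set f : ℕ →* ℝ := Pool.Agent.H16.fInv.comp (s : ℕ →* ℕ) with hf
  have hfa : ∀ m : ℕ, f m = (s m : ℝ)⁻¹ := fun m => rfl
  have h1 := Pool.Agent.H16.sum_le_euler f (fun n => by rw [hfa]; positivity)
    (fun p hp => by
      rw [hfa]
      apply inv_lt_one_of_one_lt₀
      linarith [hS.r_two hp]) (SP s n) (SI s n) (by
      intro m hm
      rw [Nat.mem_factoredNumbers']
      intro p hp hpm
      rw [hS.mem_SI] at hm
      rw [hS.mem_SP]
      exact ⟨hp, (hS.le_of_dvd hpm hm.1).trans hm.2⟩)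
  have h2 : (SP s n).filter Nat.Prime = SP s n := by
    apply Finset.filter_true_of_mem
    intro p hp
    exact (hS.mem_SP.mp hp).1
  rw [h2] at h1
  unfold Vp
  rw [← Finset.prod_inv_distrib]
  refine le_trans (le_of_eq ?_) (h1.trans (le_of_eq ?_))
  · refine Finset.sum_congr rfl fun m _ => ?_
    rw [hfa, one_div]
  · refine Finset.prod_congr rfl fun p _ => ?_
    rw [hfa, one_div]

theorem Vp_le (hS : Sys s κ K) :
    ∃ C : ℝ, 1 ≤ C ∧ ∀ n : ℕ, 2 ≤ n → Vp s n ≤ C / Real.log n := by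
  obtain ⟨B, C, hC1, hB, hH⟩ := harm_asymp hS
  have hκ := hS.κ_pos
  refine ⟨max 1 (4 * C / κ), le_max_left _ _, fun n hn => ?_⟩
  have hn1 : (1 : ℝ) < n := by exact_mod_cast hn
  have hln : 0 < Real.log n := Real.log_pos hn1
  have hVp := Vp_pos hS n
  have h1 := Vp_harm_le hS n
  set H := ∑ m ∈ SI s n, 1 / (s m : ℝ) with hHd
  have hH1 : 1 ≤ H := by
    have h2 : (1 : ℕ) ∈ SI s n := hS.one_mem_SI (by omega)
    have h3 := Finset.single_le_sum (f := fun m => 1 / (s m : ℝ)) (fun m _ => by positivity) h2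
    rw [← hHd] at h3
    refine le_trans (le_of_eq ?_) h3
    simp
  have hH2 : κ * Real.log n - 2 * C ≤ H := by
    have h3 := hH n hn1.le
    rw [Nat.floor_natCast] at h3
    have h4 := (abs_le.mp h3).1
    have h5 := (abs_le.mp hB).1
    have h6 : C / √(n : ℝ) ≤ C := by
      apply div_le_self (by linarith)
      rw [Real.one_le_sqrt]
      exact hn1.le
    linarith
  have hH3 : κ / (4 * C) * Real.log n ≤ H := by
    have hC0 : 0 < 4 * C := by linarith
    by_cases h : 4 * C ≤ κ * Real.log n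
    · have h3 : κ / (4 * C) * Real.log n ≤ κ / 2 * Real.log n := by
        apply mul_le_mul_of_nonneg_right _ hln.le
        apply div_le_div_of_nonneg_left hκ.le (by norm_num) (by linarith)
      linarith
    · push Not at h
      have h3 : κ / (4 * C) * Real.log n ≤ 1 := by
        rw [div_mul_eq_mul_div, div_le_one hC0]
        exact h.le
      linarith
  have hpos : 0 < κ / (4 * C) * Real.log n := by positivity
  have h4 : Vp s n ≤ 1 / (κ / (4 * C) * Real.log n) := by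
    rw [le_div_iff₀ hpos]
    calc Vp s n * (κ / (4 * C) * Real.log n) ≤ Vp s n * (Vp s n)⁻¹ :=
          mul_le_mul_of_nonneg_left (hH3.trans h1) hVp.le
      _ = 1 := mul_inv_cancel₀ hVp.ne'
  calc Vp s n ≤ 1 / (κ / (4 * C) * Real.log n) := h4
    _ = (4 * C / κ) / Real.log n := by field_simp
    _ ≤ max 1 (4 * C / κ) / Real.log n :=
        div_le_div_of_nonneg_right (le_max_right _ _) hln.le

lemma Vp_sum_sq (hS : Sys s κ K) (n : ℕ) (hn : 2 ≤ n) :
    ∑ p ∈ PIoc s 2 n, 1 / (s p : ℝ) ^ 2 ≤ K := by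
  have hK := hS.K_pos
  have h1 := hS.sum_tail_le 2 n hn (fun k => 1 / (k : ℝ) ^ 2) (fun k => by positivity)
    (fun k l hk hkl => by
      have h0 : (0 : ℝ) < k := by exact_mod_cast (by omega : 0 < k)
      have h2 : (k : ℝ) ≤ l := by exact_mod_cast hkl
      apply one_div_le_one_div_of_le (by positivity)
      exact pow_le_pow_left₀ h0.le h2 2)
  have h2 := Pool.Agent.H14.PT.sum_inv_sq_Ioc 2 n (by norm_num)
  have h3 : ∑ p ∈ PIoc s 2 n, 1 / (s p : ℝ) ^ 2 ≤
      ∑ m ∈ SI s n \ SI s 2, 1 / (s m : ℝ) ^ 2 := by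
    apply Finset.sum_le_sum_of_subset_of_nonneg
    · intro p hp
      rw [mem_PIoc' hS] at hp
      rw [Finset.mem_sdiff, hS.mem_SI, hS.mem_SI]
      exact ⟨⟨hp.1.1.ne_zero, hp.1.2⟩, fun h => by omega⟩
    · intro _ _ _
      positivity
  refine h3.trans (h1.trans ?_)
  push_cast at h2 ⊢
  nlinarith

theorem Vp_ge (hS : Sys s κ K) :
    ∃ c : ℝ, 0 < c ∧ ∀ n : ℕ, 2 ≤ n → c / Real.log n ≤ Vp s n := by
  have hl2 : 0 < Real.log 2 := Real.log_pos (by norm_num)
  obtain ⟨C, hC1, hC⟩ := sum_inv_primes_le hS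
  have hV2 := Vp_pos hS 2
  refine ⟨Vp s 2 * (Real.log 2 / Real.exp (C / Real.log 2 + 2 * K)), by positivity,
    fun n hn => ?_⟩
  have hn1 : (1 : ℝ) < n := by exact_mod_cast hn
  have hln : 0 < Real.log n := Real.log_pos hn1
  have h1 : Vp s n = Vp s 2 * ∏ p ∈ PIoc s 2 n, (1 - 1 / (s p : ℝ)) := (Vp_mul hS 2 n hn).symm
  have h3 : Real.exp (-(∑ p ∈ PIoc s 2 n, (1 : ℝ) / (s p : ℝ)) - 2 * K) ≤
      ∏ p ∈ PIoc s 2 n, (1 - 1 / (s p : ℝ)) := by
    have h4 : ∀ p ∈ PIoc s 2 n, Real.exp (-(1 / (s p : ℝ)) - 2 * (1 / (s p : ℝ) ^ 2)) ≤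
        1 - 1 / (s p : ℝ) := by
      intro p hp
      rw [mem_PIoc' hS] at hp
      have hp3 : (3 : ℝ) ≤ s p := by exact_mod_cast hp.2
      have hx : 1 / (s p : ℝ) ≤ 3 / 5 := by
        rw [div_le_div_iff₀ (by linarith) (by norm_num)]; linarith
      have h5 := inv_one_sub_le_exp (x := 1 / (s p : ℝ)) (by positivity) hx
      have hpos : 0 < 1 - 1 / (s p : ℝ) := by linarith
      have h6 : Real.exp (-(1 / (s p : ℝ)) - 2 * (1 / (s p : ℝ) ^ 2)) =
          (Real.exp (1 / (s p : ℝ) + 2 * (1 / (s p : ℝ)) ^ 2))⁻¹ := by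
        rw [← Real.exp_neg]; congr 1; ring
      rw [h6]
      exact inv_le_of_inv_le₀ hpos h5
    have h7 : ∏ p ∈ PIoc s 2 n, Real.exp (-(1 / (s p : ℝ)) - 2 * (1 / (s p : ℝ) ^ 2)) ≤
        ∏ p ∈ PIoc s 2 n, (1 - 1 / (s p : ℝ)) :=
      Finset.prod_le_prod (fun p _ => (Real.exp_pos _).le) h4
    refine le_trans ?_ h7
    rw [← Real.exp_sum]
    apply Real.exp_le_exp.mpr
    rw [Finset.sum_sub_distrib, Finset.sum_neg_distrib, ← Finset.mul_sum]
    have h8 := Vp_sum_sq hS n hn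
    linarith
  have h9 := hC 2 n le_rfl hn
  push_cast at h9
  have h10 : Real.exp (-(Real.log (Real.log n / Real.log 2) + C / Real.log 2) - 2 * K) ≤
      Real.exp (-(∑ p ∈ PIoc s 2 n, (1 : ℝ) / (s p : ℝ)) - 2 * K) :=
    Real.exp_le_exp.mpr (by linarith)
  have h11 : Real.exp (-(Real.log (Real.log n / Real.log 2) + C / Real.log 2) - 2 * K) =
      Real.log 2 / Real.exp (C / Real.log 2 + 2 * K) / Real.log n := by
    rw [show -(Real.log (Real.log n / Real.log 2) + C / Real.log 2) - 2 * K =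
      -(Real.log (Real.log n / Real.log 2)) - (C / Real.log 2 + 2 * K) by ring, Real.exp_sub,
      Real.exp_neg, Real.exp_log (by positivity)]
    field_simp
  rw [h1]
  have h12 := (h11 ▸ h10).trans h3
  calc Vp s 2 * (Real.log 2 / Real.exp (C / Real.log 2 + 2 * K)) / Real.log n =
      Vp s 2 * (Real.log 2 / Real.exp (C / Real.log 2 + 2 * K) / Real.log n) := by ring
    _ ≤ _ := mul_le_mul_of_nonneg_left h12 hV2.le

end Pool.Agent.H14.BN
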