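import Pool.Agent.H14.BN.Exp
import Pool.Agent.H14.PT.Afe3

/-!
# The weights of the approximate functional equation

Port of `Wt`, `pik` of `Pool/Agent/H14/PT/Afe2.lean`, `Afe3.lean` with the exponent `a = 1/2` of `Psi`
(`H14/PT/Kernel.lean`; `Γ(1/2)² = π`, `Real.Gamma_one_half_eq`) and the argument `(2π/R)² x`.

* `Wt_upper`: `Psi_upper` with `(2π/R)² x ≥ x / R²` and `π ≥ 1`.
* `Wt_lower`: `Psi_lower` with `a = 1/2`: `4 √π ((2π)² x / R²)^(1/4) / π = 4 √2 (x/R²)^(1/4)`.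
* `summable_Wt`: `Wt_upper` with `A = 1` and `size_summable` for `f k = k^(-3/2)`; a factor `0` gives the
  term `0` (`0^(-1/2) = 0`).
-/

namespace Pool.Agent.H14.BN

open Finset
open Pool.Agent.H14.PT (Psi Psi_nonneg Psi_zero Psi_antitone Psi_lower Psi_upper)
open scoped ComplexConjugate Real

variable {s : ℕ →*₀ ℕ} {κ K : ℝ}

/-- the weight `W(x)` -/
noncomputable def Wt (R x : ℝ) : ℝ := Psi (1 / 2) ((2 * π / R) ^ 2 * x) / π

/-- the discrete weights -/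
noncomputable def pik (R : ℝ) (k : ℕ) : ℝ := Wt R k - Wt R ((k + 1 : ℕ) : ℝ)

lemma Wt_arg_nonneg (R : ℝ) {x : ℝ} (hx : 0 ≤ x) : 0 ≤ (2 * π / R) ^ 2 * x :=
  mul_nonneg (sq_nonneg _) hx

lemma Wt_nonneg (R : ℝ) {x : ℝ} (hx : 0 ≤ x) : 0 ≤ Wt R x := by
  unfold Wt
  exact div_nonneg (Psi_nonneg (Wt_arg_nonneg R hx)) Real.pi_pos.le

lemma Wt_zero (R : ℝ) : Wt R 0 = 1 := by
  unfold Wt
  rw [mul_zero, Psi_zero (by norm_num), Real.Gamma_one_half_eq, Real.sq_sqrt Real.pi_pos.le,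
    div_self Real.pi_pos.ne']

lemma Wt_anti (R : ℝ) {x y : ℝ} (hx : 0 ≤ x) (hxy : x ≤ y) : Wt R y ≤ Wt R x := by
  unfold Wt
  refine div_le_div_of_nonneg_right (Psi_antitone (by norm_num) (Wt_arg_nonneg R hx) ?_) Real.pi_pos.le
  exact mul_le_mul_of_nonneg_left hxy (sq_nonneg _)

lemma Wt_le_one (R : ℝ) {x : ℝ} (hx : 0 ≤ x) : Wt R x ≤ 1 := by
  rw [← Wt_zero R]
  exact Wt_anti R le_rfl hx

theorem Wt_upper {R : ℝ} (hR : 0 < R) {A : ℝ} (hA : 0 ≤ A) {x : ℝ} (hx : 0 < x) :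
    Wt R x ≤ Real.Gamma (1 / 2 + A) ^ 2 * (x / R ^ 2) ^ (-A) := by
  have hpi : (3 : ℝ) < π := Real.pi_gt_three
  have hs : 0 < (2 * π / R) ^ 2 * x := by positivity
  have h1 := Psi_upper (a := 1 / 2) (by norm_num) hA hs
  have h2 : ((2 * π / R) ^ 2 * x) ^ (-A) ≤ (x / R ^ 2) ^ (-A) := by
    refine Real.rpow_le_rpow_of_nonpos (by positivity) ?_ (by linarith)
    have h3 : (2 * π / R) ^ 2 * x = (2 * π) ^ 2 * (x / R ^ 2) := by
      field_simp
    rw [h3]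
    have h4 : (1 : ℝ) ≤ (2 * π) ^ 2 := one_le_pow₀ (by linarith)
    have h5 : 0 ≤ x / R ^ 2 := by positivity
    nlinarith
  unfold Wt
  rw [div_le_iff₀ Real.pi_pos]
  have h6 : 0 ≤ Real.Gamma (1 / 2 + A) ^ 2 * (x / R ^ 2) ^ (-A) := by positivity
  calc Psi (1 / 2) ((2 * π / R) ^ 2 * x) ≤ _ := h1
    _ ≤ (x / R ^ 2) ^ (-A) * Real.Gamma (1 / 2 + A) ^ 2 :=
      mul_le_mul_of_nonneg_right h2 (sq_nonneg _)
    _ = Real.Gamma (1 / 2 + A) ^ 2 * (x / R ^ 2) ^ (-A) := mul_comm _ _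
    _ ≤ _ := by nlinarith

theorem Wt_lower {R : ℝ} (hR : 0 < R) {x : ℝ} (hx : 0 ≤ x) :
    1 - Wt R x ≤ 8 * (x / R ^ 2) ^ (1 / 4 : ℝ) := by
  have hpi := Real.pi_pos
  have h1 := Psi_lower (a := 1 / 2) (by norm_num) (Wt_arg_nonneg R hx)
  have h2 : ((2 * π / R) ^ 2 * x) ^ ((1 / 2 : ℝ) / 2) = √(2 * π) * (x / R ^ 2) ^ (1 / 4 : ℝ) := by
    have h3 : (2 * π / R) ^ 2 * x = (2 * π) ^ 2 * (x / R ^ 2) := by
      field_simp
    rw [h3, Real.mul_rpow (by positivity) (by positivity)]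
    congr 1
    · rw [← Real.rpow_natCast, ← Real.rpow_mul (by positivity), Real.sqrt_eq_rpow]
      congr 1
      norm_num
    · congr 1
      norm_num
  rw [h2, Real.Gamma_one_half_eq, Real.sq_sqrt hpi.le] at h1
  unfold Wt
  have h3 : 1 - Psi (1 / 2) ((2 * π / R) ^ 2 * x) / π =
      (π - Psi (1 / 2) ((2 * π / R) ^ 2 * x)) / π := by
    field_simp
  rw [h3, div_le_iff₀ hpi]
  refine h1.trans ?_
  have h4 : √π * √(2 * π) ≤ 2 * π := by
    rw [← Real.sqrt_mul hpi.le]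
    rw [Real.sqrt_le_left (by positivity)]
    nlinarith
  have h5 : 0 ≤ (x / R ^ 2) ^ (1 / 4 : ℝ) := by positivity
  calc 2 * √π * (√(2 * π) * (x / R ^ 2) ^ (1 / 4 : ℝ) / (1 / 2))
      = 4 * (√π * √(2 * π)) * (x / R ^ 2) ^ (1 / 4 : ℝ) := by ring
    _ ≤ 4 * (2 * π) * (x / R ^ 2) ^ (1 / 4 : ℝ) := by gcongr
    _ = _ := by ring

lemma pik_nonneg (R : ℝ) (k : ℕ) : 0 ≤ pik R k := by
  unfold pik
  have := Wt_anti R (x := (k : ℝ)) (y := ((k + 1 : ℕ) : ℝ)) (by positivity) (by push_cast; linarith)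
  linarith

lemma pik_le (R : ℝ) (k : ℕ) : pik R k ≤ Wt R k := by
  unfold pik
  linarith [Wt_nonneg R (x := ((k + 1 : ℕ) : ℝ)) (by positivity)]

lemma Wt_upper_one {R : ℝ} (hR : 0 < R) {x : ℝ} (hx : 0 < x) :
    Wt R x ≤ (Real.Gamma (1 / 2 + 1) ^ 2 * R ^ 2) * x⁻¹ := by
  have h1 := Wt_upper hR (A := 1) (by norm_num) hx
  rw [Real.rpow_neg_one] at h1
  refine h1.trans (le_of_eq ?_)
  field_simp

theorem Wt_tendsto {R : ℝ} (hR : 0 < R) :
    Filter.Tendsto (fun k : ℕ => Wt R (k : ℝ)) Filter.atTop (nhds 0) := by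
  set C : ℝ := Real.Gamma (1 / 2 + 1) ^ 2 * R ^ 2 with hC
  have h1 : Filter.Tendsto (fun k : ℕ => C * ((k : ℝ))⁻¹) Filter.atTop (nhds (C * 0)) :=
    (tendsto_inv_atTop_nhds_zero_nat).const_mul C
  rw [mul_zero] at h1
  refine squeeze_zero' (Filter.Eventually.of_forall fun k => Wt_nonneg R (Nat.cast_nonneg k)) ?_ h1
  filter_upwards [Filter.eventually_gt_atTop 0] with k hk
  exact Wt_upper_one hR (by exact_mod_cast hk)

theorem sum_pik_range (R : ℝ) (k : ℕ) : ∑ j ∈ range k, pik R j = 1 - Wt R k := by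
  unfold pik
  rw [Finset.sum_range_sub' (fun k : ℕ => Wt R (k : ℝ))]
  simp [Wt_zero]

theorem hasSum_pik_tail {R : ℝ} (hR : 0 < R) (n : ℕ) :
    HasSum (fun k : ℕ => if n ≤ k then pik R k else 0) (Wt R n) := by
  rw [hasSum_iff_tendsto_nat_of_nonneg]
  · have h1 : ∀ K, n ≤ K → ∑ k ∈ range K, (if n ≤ k then pik R k else 0) = Wt R n - Wt R K := by
      intro K hK
      rw [← Finset.sum_filter]
      have : (range K).filter (fun k => n ≤ k) = Finset.Ico n K := by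
        ext k; simp; omega
      rw [this]
      unfold pik
      rw [Finset.sum_Ico_eq_sub _ hK, Finset.sum_range_sub' (fun k : ℕ => Wt R (k : ℝ)),
        Finset.sum_range_sub' (fun k : ℕ => Wt R (k : ℝ))]
      ring
    have h2 : Filter.Tendsto (fun K : ℕ => Wt R n - Wt R (K : ℝ)) Filter.atTop (nhds (Wt R n - 0)) :=
      (Wt_tendsto hR).const_sub _
    rw [sub_zero] at h2
    refine h2.congr' ?_
    filter_upwards [Filter.eventually_ge_atTop n] with K hK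
    rw [h1 K hK]
  · intro k
    split_ifs
    · exact pik_nonneg R k
    · exact le_rfl

theorem hasSum_pik {R : ℝ} (hR : 0 < R) : HasSum (pik R) 1 := by
  have := hasSum_pik_tail hR 0
  simpa [Wt_zero] using this

theorem summable_Wt (hS : Sys s κ K) {R : ℝ} (hR : 0 < R) : Summable (fun p : ℕ × ℕ =>
    ((s (p.1 * p.2) : ℝ)) ^ (-(1 / 2) : ℝ) * Wt R (s (p.1 * p.2) : ℝ)) := by
  have h0 := (Real.summable_nat_rpow (p := (-(3 / 2) : ℝ))).mpr (by norm_num)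
  have h1 := (size_summable hS (fun k => (k : ℝ) ^ (-(3 / 2) : ℝ)) (fun k => by positivity)
    (fun k l hk hkl => Real.rpow_le_rpow_of_nonpos (by exact_mod_cast hk) (by exact_mod_cast hkl)
      (by norm_num)) h0).1
  have hnn : ∀ n : ℕ, 0 ≤ (if n = 0 then 0 else ((s n : ℕ) : ℝ) ^ (-(3 / 2) : ℝ)) := fun n => by
    split_ifs
    · exact le_rfl
    · positivity
  have h2 := h1.mul_of_nonneg h1 hnn hnn
  set C : ℝ := Real.Gamma (1 / 2 + 1) ^ 2 * R ^ 2 with hC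
  refine Summable.of_nonneg_of_le (fun p => mul_nonneg (by positivity)
    (Wt_nonneg R (Nat.cast_nonneg _))) (fun p => ?_) (h2.mul_left C)
  by_cases hp : p.1 * p.2 = 0
  · rw [hp, map_zero, Nat.cast_zero, Real.zero_rpow (by norm_num), zero_mul]
    exact mul_nonneg (by positivity) (mul_nonneg (hnn _) (hnn _))
  · have hp1 : p.1 ≠ 0 := left_ne_zero_of_mul hp
    have hp2 : p.2 ≠ 0 := right_ne_zero_of_mul hp
    rw [if_neg hp1, if_neg hp2]
    have hk : (0 : ℝ) < (s (p.1 * p.2) : ℝ) := hS.r_pos hp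
    have h3 := Wt_upper_one hR hk
    have ha := hS.r_pos hp1
    have hb := hS.r_pos hp2
    calc ((s (p.1 * p.2) : ℝ)) ^ (-(1 / 2) : ℝ) * Wt R (s (p.1 * p.2) : ℝ)
        ≤ ((s (p.1 * p.2) : ℝ)) ^ (-(1 / 2) : ℝ) * (C * ((s (p.1 * p.2) : ℝ))⁻¹) :=
          mul_le_mul_of_nonneg_left h3 (by positivity)
      _ = C * (((s (p.1 * p.2) : ℝ)) ^ (-(1 / 2) : ℝ) * ((s (p.1 * p.2) : ℝ)) ^ (-1 : ℝ)) := by
          rw [Real.rpow_neg_one]; ring
      _ = C * (((s p.1 : ℕ) : ℝ) ^ (-(3 / 2) : ℝ) * ((s p.2 : ℕ) : ℝ) ^ (-(3 / 2) : ℝ)) := by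
          rw [← Real.rpow_add hk, s_cast_mul, Real.mul_rpow ha.le hb.le]
          norm_num

end Pool.Agent.H14.BN
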